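import Mathlib

/-!
Majorised power series and a bound for interpolation determinants.
-/

set_option autoImplicit false

namespace Pool.Agent.Run7.h880

open Finset Filter Topology

/-- `φ u = ∑ A n u ^ n` for `|u| ≤ R`, where `∑ |A n| R ^ n ≤ B` -/
def Ser (φ : ℝ → ℝ) (R B : ℝ) : Prop :=
  ∃ A : ℕ → ℝ, (∀ N, ∑ n ∈ range N, |A n| * R ^ n ≤ B) ∧
    ∀ u, |u| ≤ R → HasSum (fun n => A n * u ^ n) (φ u)

theorem Ser.nonneg {φ : ℝ → ℝ} {R B : ℝ} (h : Ser φ R B) : 0 ≤ B := by
  obtain ⟨A, h1, -⟩ := h
  have := h1 0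
  rwa [range_zero, sum_empty] at this

theorem Ser.one {R : ℝ} : Ser (fun _ => 1) R 1 := by
  refine ⟨fun n => if n = 0 then 1 else 0, ?_, ?_⟩
  · intro N
    have h1 : ∀ n ∈ range N, |(if n = 0 then (1 : ℝ) else 0)| * R ^ n =
        if n = 0 then 1 else 0 := by
      intro n _
      split_ifs with h
      · rw [h, abs_one, pow_zero, mul_one]
      · rw [abs_zero, zero_mul]
    rw [Finset.sum_congr rfl h1, Finset.sum_ite_eq']
    split_ifs <;> norm_num
  · intro u _
    have h1 := hasSum_ite_eq (0 : ℕ) (1 : ℝ)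
    have e1 : (fun n : ℕ => (fun n => if n = 0 then (1 : ℝ) else 0) n * u ^ n) =
        fun n => if n = 0 then (1 : ℝ) else 0 := by
      funext n
      simp only
      split_ifs with h
      · rw [h, pow_zero, mul_one]
      · rw [zero_mul]
    rw [e1]
    exact h1

theorem Ser.mul {φ ψ : ℝ → ℝ} {R B C : ℝ} (hR : 0 ≤ R) (hφ : Ser φ R B) (hψ : Ser ψ R C) :
    Ser (fun u => φ u * ψ u) R (B * C) := by
  obtain ⟨A, hA1, hA2⟩ := hφ
  obtain ⟨A', hA1', hA2'⟩ := hψ
  have hC : 0 ≤ C := by
    have := hA1' 0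
    rwa [range_zero, sum_empty] at this
  refine ⟨fun n => ∑ kl ∈ antidiagonal n, A kl.1 * A' kl.2, ?_, ?_⟩
  · intro N
    calc ∑ n ∈ range N, |∑ kl ∈ antidiagonal n, A kl.1 * A' kl.2| * R ^ n
        ≤ ∑ n ∈ range N, ∑ kl ∈ antidiagonal n, (|A kl.1| * R ^ kl.1) * (|A' kl.2| * R ^ kl.2) := by
          refine Finset.sum_le_sum fun n _ => ?_
          refine (mul_le_mul_of_nonneg_right (Finset.abs_sum_le_sum_abs _ _) (by positivity)).trans
            (le_of_eq ?_)
          rw [Finset.sum_mul]
          refine Finset.sum_congr rfl fun kl hkl => ?_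
          rw [HasAntidiagonal.mem_antidiagonal] at hkl
          rw [abs_mul, ← hkl, pow_add]
          ring
      _ ≤ ∑ p ∈ range N ×ˢ range N, (|A p.1| * R ^ p.1) * (|A' p.2| * R ^ p.2) := by
          rw [← Finset.sum_biUnion]
          · refine Finset.sum_le_sum_of_subset_of_nonneg ?_ fun p _ _ => by positivity
            intro p hp
            rw [mem_biUnion] at hp
            obtain ⟨n, hn, hp⟩ := hp
            rw [mem_range] at hn
            rw [HasAntidiagonal.mem_antidiagonal] at hp
            rw [mem_product, mem_range, mem_range]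
            constructor <;> omega
          · intro n _ n' _ hne
            rw [Function.onFun, Finset.disjoint_left]
            intro p hp hp'
            rw [HasAntidiagonal.mem_antidiagonal] at hp hp'
            exact hne (hp.symm.trans hp')
      _ = (∑ n ∈ range N, |A n| * R ^ n) * ∑ n ∈ range N, |A' n| * R ^ n := by
          rw [Finset.sum_product, Finset.sum_mul_sum]
      _ ≤ B * C := by
          refine mul_le_mul (hA1 N) (hA1' N) (Finset.sum_nonneg fun n _ => by positivity) ?_
          have := hA1 0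
          rwa [range_zero, sum_empty] at this
  · intro u hu
    have hsum : ∀ (A : ℕ → ℝ) (B : ℝ), (∀ N, ∑ n ∈ range N, |A n| * R ^ n ≤ B) →
        Summable fun n => ‖A n * u ^ n‖ := by
      intro A B hA
      refine summable_of_sum_range_le (c := B) (fun n => norm_nonneg _) fun N => ?_
      refine (Finset.sum_le_sum fun n _ => ?_).trans (hA N)
      rw [Real.norm_eq_abs, abs_mul, abs_pow]
      exact mul_le_mul_of_nonneg_left (pow_le_pow_left₀ (abs_nonneg _) hu n) (abs_nonneg _)
    have s1 := hsum A B hA1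
    have s2 := hsum A' C hA1'
    have e1 := tsum_mul_tsum_eq_tsum_sum_antidiagonal_of_summable_norm s1 s2
    have s3 := (summable_norm_sum_mul_antidiagonal_of_summable_norm s1 s2).of_norm
    rw [(hA2 u hu).tsum_eq, (hA2' u hu).tsum_eq] at e1
    have h3 := s3.hasSum
    rw [← e1] at h3
    have e2 : (fun n => (∑ kl ∈ antidiagonal n, A kl.1 * A' kl.2) * u ^ n) =
        fun n => ∑ kl ∈ antidiagonal n, A kl.1 * u ^ kl.1 * (A' kl.2 * u ^ kl.2) := by
      funext n
      rw [Finset.sum_mul]
      refine Finset.sum_congr rfl fun kl hkl => ?_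
      rw [HasAntidiagonal.mem_antidiagonal] at hkl
      rw [← hkl, pow_add]
      ring
    rw [e2]
    exact h3

theorem Ser.prod {ι : Type*} (s : Finset ι) {φ : ι → ℝ → ℝ} {R : ℝ} {B : ι → ℝ} (hR : 0 ≤ R)
    (h : ∀ i ∈ s, Ser (φ i) R (B i)) : Ser (fun u => ∏ i ∈ s, φ i u) R (∏ i ∈ s, B i) := by
  classical
  induction s using Finset.induction_on with
  | empty =>
    simp only [prod_empty]
    exact Ser.one
  | insert i s hi ih =>
    simp only [prod_insert hi]
    exact (h i (mem_insert_self _ _)).mul hR (ih fun j hj => h j (mem_insert_of_mem hj))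

theorem choose_step (a : ℝ) (n : ℕ) :
    Ring.choose a (n + 1) * ((n : ℝ) + 1) = Ring.choose a n * (a - n) := by
  have h1 := Ring.descPochhammer_eq_factorial_smul_choose a (n + 1)
  have h2 := Ring.descPochhammer_eq_factorial_smul_choose a n
  rw [descPochhammer_succ_right, Polynomial.smeval_mul, h2] at h1
  simp only [Polynomial.smeval_sub, Polynomial.smeval_X, Polynomial.smeval_natCast, nsmul_eq_mul,
    Nat.factorial_succ, pow_one, pow_zero, mul_one] at h1
  have h3 : (n.factorial : ℝ) ≠ 0 := by positivity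
  push_cast at h1
  apply mul_left_cancel₀ h3
  linear_combination -h1

theorem choose_bound {a : ℝ} (h0 : 0 ≤ a) (h1 : a ≤ 1) (n : ℕ) : |Ring.choose a (n + 1)| ≤ a := by
  induction n with
  | zero =>
    rw [zero_add, Ring.choose_one_right, abs_of_nonneg h0]
  | succ n ih =>
    have h2 := choose_step a (n + 1)
    have h3 : |Ring.choose a (n + 1 + 1)| * ((n : ℝ) + 2) = |Ring.choose a (n + 1)| * |a - (n + 1)| := by
      have h4 := congrArg abs h2
      rw [abs_mul, abs_mul] at h4
      push_cast at h4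
      rw [abs_of_nonneg (by positivity : (0 : ℝ) ≤ (n : ℝ) + 1 + 1)] at h4
      linarith
    have h5 : |a - ((n : ℝ) + 1)| ≤ (n : ℝ) + 2 := by
      rw [abs_le]
      have : (0 : ℝ) ≤ n := Nat.cast_nonneg n
      constructor <;> linarith
    have h6 : (0 : ℝ) < (n : ℝ) + 2 := by positivity
    have h7 : |Ring.choose a (n + 1 + 1)| * ((n : ℝ) + 2) ≤ a * ((n : ℝ) + 2) := by
      rw [h3]
      exact mul_le_mul ih h5 (abs_nonneg _) h0
    exact le_of_mul_le_mul_right h7 h6

/-- the power series of a root -/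
theorem root_ser {b : ℕ} (hb : 1 ≤ b) {c R : ℝ} (hR : 0 < R) (hc : 2 * R ≤ c) :
    Ser (fun u => (c + u) ^ ((1 : ℝ) / b)) R (c ^ ((1 : ℝ) / b) * (1 + 1 / b)) := by
  obtain ⟨α, hα⟩ : ∃ α : ℝ, α = 1 / b := ⟨_, rfl⟩
  rw [← hα]
  have hb1 : (1 : ℝ) ≤ b := by exact_mod_cast hb
  have hα0 : 0 ≤ α := by
    rw [hα]
    positivity
  have hα1 : α ≤ 1 := by
    rw [hα, div_le_one (by positivity)]
    exact hb1
  have hc0 : 0 < c := by linarith
  have hcα : 0 ≤ c ^ α := Real.rpow_nonneg hc0.le _
  refine ⟨fun n => c ^ α * (Ring.choose α n / c ^ n), ?_, ?_⟩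
  · intro N
    have hRc : R / c ≤ 1 / 2 := by
      rw [div_le_div_iff₀ hc0 (by norm_num)]
      linarith
    have hterm : ∀ n, |c ^ α * (Ring.choose α n / c ^ n)| * R ^ n ≤
        c ^ α * (|Ring.choose α n| * (1 / 2) ^ n) := by
      intro n
      rw [abs_mul, abs_div, abs_of_nonneg hcα, abs_of_pos (pow_pos hc0 n)]
      have e1 : c ^ α * (|Ring.choose α n| / c ^ n) * R ^ n =
          c ^ α * (|Ring.choose α n| * (R / c) ^ n) := by
        rw [div_pow]
        ring
      rw [e1]
      refine mul_le_mul_of_nonneg_left (mul_le_mul_of_nonneg_left ?_ (abs_nonneg _)) hcα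
      exact pow_le_pow_left₀ (by positivity) hRc n
    refine (Finset.sum_le_sum fun n _ => hterm n).trans ?_
    rw [← Finset.mul_sum]
    refine mul_le_mul_of_nonneg_left ?_ hcα
    cases N with
    | zero =>
      rw [range_zero, sum_empty]
      linarith
    | succ N =>
      rw [Finset.sum_range_succ', Ring.choose_zero_right, abs_one, pow_zero, mul_one]
      have h1 : ∑ n ∈ range N, |Ring.choose α (n + 1)| * (1 / 2 : ℝ) ^ (n + 1) ≤ α := by
        calc ∑ n ∈ range N, |Ring.choose α (n + 1)| * (1 / 2 : ℝ) ^ (n + 1)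
            ≤ ∑ n ∈ range N, (α / 2) * (1 / 2 : ℝ) ^ n := by
              refine Finset.sum_le_sum fun n _ => ?_
              rw [pow_succ]
              have := choose_bound hα0 hα1 n
              have h2 : (0 : ℝ) < (1 / 2 : ℝ) ^ n := by positivity
              nlinarith
          _ = (α / 2) * ∑ n ∈ range N, (1 / 2 : ℝ) ^ n := by rw [Finset.mul_sum]
          _ ≤ (α / 2) * 2 := by
              refine mul_le_mul_of_nonneg_left ?_ (by positivity)
              exact sum_geometric_two_le N
          _ = α := by ring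
      linarith
  · intro u hu
    have hx : |u / c| < 1 := by
      rw [abs_div, abs_of_pos hc0, div_lt_one hc0]
      linarith
    have h1 := (Real.one_add_rpow_hasFPowerSeriesOnBall_zero (a := α)).hasSum
      (y := u / c) (by
        rw [Metric.mem_eball, edist_zero_right, enorm_eq_nnnorm]
        have h2 : ‖u / c‖₊ < 1 := by
          rw [← NNReal.coe_lt_coe, coe_nnnorm, Real.norm_eq_abs]
          exact hx
        exact_mod_cast h2)
    simp only [zero_add] at h1
    have e1 : c + u = c * (1 + u / c) := by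
      field_simp
    have h3 : 0 ≤ 1 + u / c := by
      have := (abs_lt.1 hx).1
      linarith
    have h4 := h1.mul_left (c ^ α)
    rw [← Real.mul_rpow hc0.le h3, ← e1] at h4
    have e2 : (fun n : ℕ => (fun n => c ^ α * (Ring.choose α n / c ^ n)) n * u ^ n) =
        fun n => c ^ α * ((binomialSeries ℝ α n) fun _ => u / c) := by
      funext n
      simp only
      rw [binomialSeries_apply, List.ofFn_const, List.prod_replicate, smul_eq_mul, div_pow]
      field_simp
    rw [e2]
    exact h4

end Pool.Agent.Run7.h880
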