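import Mathlib
import Pool.Agent.Run7.h880.Ser

/-!
A bound for interpolation determinants.
-/

set_option autoImplicit false

namespace Pool.Agent.Run7.h880

open Finset Filter Topology

theorem sum_inj_ge {ι : Type*} [Fintype ι] (f : ι → ℕ) (hf : Function.Injective f) :
    Fintype.card ι * (Fintype.card ι - 1) / 2 ≤ ∑ i, f i := by
  classical
  obtain ⟨s, hs⟩ : ∃ s : Finset ℤ, s = univ.image fun i => (f i : ℤ) := ⟨_, rfl⟩
  have hinj : Function.Injective fun i => (f i : ℤ) := fun i j h => hf (by simpa using h)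
  have hcard : s.card = Fintype.card ι := by
    rw [hs, Finset.card_image_of_injective _ hinj, Finset.card_univ]
  have h1 := Finset.sum_range_le_sum (s := s) (c := 0) (by
    intro x hx
    rw [hs, mem_image] at hx
    obtain ⟨i, -, rfl⟩ := hx
    exact Int.natCast_nonneg _)
  rw [hcard, hs, Finset.sum_image fun i _ j _ h => hinj h] at h1
  simp only [zero_add] at h1
  rw [← Finset.sum_range_id]
  have h2 : ((∑ i ∈ range (Fintype.card ι), i : ℕ) : ℤ) ≤ ((∑ i, f i : ℕ) : ℤ) := by
    push_cast
    exact h1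
  exact_mod_cast h2

theorem det_fin {ι : Type*} [Fintype ι] [DecidableEq ι] (A : ι → ℕ → ℝ) (u : ι → ℝ) {r R : ℝ}
    (hr : 0 ≤ r) (hR : 0 < R) (hrR : r ≤ R) (B : ι → ℝ) (N : ℕ)
    (hA : ∀ i, ∑ n ∈ range N, |A i n| * R ^ n ≤ B i) (hu : ∀ j, |u j| ≤ r) :
    |Matrix.det (Matrix.of fun i j => ∑ n ∈ range N, A i n * u j ^ n)| ≤
      (Fintype.card ι).factorial * (r / R) ^ (Fintype.card ι * (Fintype.card ι - 1) / 2) *
        ∏ i, B i := by
  obtain ⟨K, hK⟩ : ∃ K, K = Fintype.card ι * (Fintype.card ι - 1) / 2 := ⟨_, rfl⟩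
  obtain ⟨M, hM⟩ : ∃ M, M = Fintype.card ι := ⟨_, rfl⟩
  rw [← hK, ← hM]
  have e1 : Matrix.det (Matrix.of fun i j => ∑ n ∈ range N, A i n * u j ^ n) =
      ∑ f ∈ Fintype.piFinset fun _ : ι => range N,
        (∏ i, A i (f i)) * Matrix.det (Matrix.of fun i j => u j ^ f i) := by
    have h1 : (Matrix.of fun i j => ∑ n ∈ range N, A i n * u j ^ n : Matrix ι ι ℝ) =
        fun i => ∑ n ∈ range N, A i n • (fun j => u j ^ n) := by
      funext i j
      rw [Finset.sum_apply]
      rfl
    have h2 := (Matrix.detRowAlternating (n := ι) (R := ℝ)).toMultilinearMap.map_sum_finset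
      (fun (i : ι) (n : ℕ) => A i n • (fun j => u j ^ n)) (fun _ => range N)
    rw [h1]
    refine h2.trans (Finset.sum_congr rfl fun f _ => ?_)
    have h3 := (Matrix.detRowAlternating (n := ι) (R := ℝ)).toMultilinearMap.map_smul_univ
      (fun i => A i (f i)) (fun i => fun j => u j ^ f i)
    rw [h3, smul_eq_mul]
    rfl
  have hterm : ∀ f : ι → ℕ, |(∏ i, A i (f i)) * Matrix.det (Matrix.of fun i j => u j ^ f i)| ≤
      (M.factorial * (r / R) ^ K) * ∏ i, (|A i (f i)| * R ^ f i) := by
    intro f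
    by_cases hf : Function.Injective f
    · have hdet : |Matrix.det (Matrix.of fun i j => u j ^ f i)| ≤ M.factorial * ∏ i, r ^ f i := by
        rw [Matrix.det_apply']
        refine (Finset.abs_sum_le_sum_abs _ _).trans ?_
        have h1 : ∀ σ ∈ (univ : Finset (Equiv.Perm ι)),
            |((Equiv.Perm.sign σ : ℤ) : ℝ) * ∏ i, (Matrix.of fun i j => u j ^ f i) (σ i) i| ≤
              ∏ i, r ^ f i := by
          intro σ _
          have h2 : |((Equiv.Perm.sign σ : ℤ) : ℝ)| = 1 := by
            rcases Int.units_eq_one_or (Equiv.Perm.sign σ) with h | h <;> rw [h] <;> simp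
          rw [abs_mul, h2, one_mul, Finset.abs_prod]
          simp only [Matrix.of_apply, abs_pow]
          calc ∏ i, |u i| ^ f (σ i) ≤ ∏ i, r ^ f (σ i) :=
                Finset.prod_le_prod (fun i _ => by positivity) fun i _ =>
                  pow_le_pow_left₀ (abs_nonneg _) (hu i) _
            _ = ∏ i, r ^ f i := Equiv.prod_comp σ fun i => r ^ f i
        refine (Finset.sum_le_sum h1).trans (le_of_eq ?_)
        rw [Finset.sum_const, Finset.card_univ, Fintype.card_perm, nsmul_eq_mul, hM]
      have hpow : ∏ i, r ^ f i ≤ (r / R) ^ K * ∏ i, R ^ f i := by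
        rw [Finset.prod_pow_eq_pow_sum, Finset.prod_pow_eq_pow_sum]
        have h1 : r ^ ∑ i, f i = (r / R) ^ (∑ i, f i) * R ^ ∑ i, f i := by
          rw [div_pow, div_mul_cancel₀]
          exact pow_ne_zero _ hR.ne'
        rw [h1]
        refine mul_le_mul_of_nonneg_right ?_ (by positivity)
        refine pow_le_pow_of_le_one (by positivity) ((div_le_one hR).2 hrR) ?_
        rw [hK]
        exact sum_inj_ge f hf
      rw [abs_mul, Finset.abs_prod, Finset.prod_mul_distrib]
      calc (∏ i, |A i (f i)|) * |Matrix.det (Matrix.of fun i j => u j ^ f i)|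
          ≤ (∏ i, |A i (f i)|) * (M.factorial * ((r / R) ^ K * ∏ i, R ^ f i)) := by
            refine mul_le_mul_of_nonneg_left (hdet.trans ?_)
              (Finset.prod_nonneg fun i _ => abs_nonneg _)
            exact mul_le_mul_of_nonneg_left hpow (by positivity)
        _ = _ := by ring
    · have h0 : Matrix.det (Matrix.of fun i j => u j ^ f i) = 0 := by
        simp only [Function.Injective, not_forall] at hf
        obtain ⟨i, i', hii, hne⟩ := hf
        refine Matrix.det_zero_of_row_eq hne ?_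
        funext j
        rw [Matrix.of_apply, Matrix.of_apply, hii]
      rw [h0, mul_zero, abs_zero]
      have : 0 ≤ r / R := div_nonneg hr hR.le
      refine mul_nonneg (by positivity) (Finset.prod_nonneg fun i _ => by positivity)
  rw [e1]
  refine (Finset.abs_sum_le_sum_abs _ _).trans ((Finset.sum_le_sum fun f _ => hterm f).trans ?_)
  rw [← Finset.mul_sum]
  have h5 : ∑ f ∈ Fintype.piFinset fun _ : ι => range N, ∏ i, (|A i (f i)| * R ^ f i) =
      ∏ i, ∑ n ∈ range N, |A i n| * R ^ n := by
    rw [Finset.prod_univ_sum]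
  rw [h5]
  have : 0 ≤ r / R := div_nonneg hr hR.le
  refine mul_le_mul_of_nonneg_left ?_ (by positivity)
  exact Finset.prod_le_prod (fun i _ => Finset.sum_nonneg fun n _ => by positivity) fun i _ => hA i

/-- **The interpolation determinant is small.** -/
theorem det_small {ι : Type*} [Fintype ι] [DecidableEq ι] {φ : ι → ℝ → ℝ} {u : ι → ℝ} {r R : ℝ}
    (hr : 0 ≤ r) (hR : 0 < R) (hrR : r ≤ R) {B : ι → ℝ} (h : ∀ i, Ser (φ i) R (B i))
    (hu : ∀ j, |u j| ≤ r) :
    |Matrix.det (Matrix.of fun i j => φ i (u j))| ≤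
      (Fintype.card ι).factorial * (r / R) ^ (Fintype.card ι * (Fintype.card ι - 1) / 2) *
        ∏ i, B i := by
  choose A hA1 hA2 using h
  have h1 : Tendsto (fun N => |Matrix.det (Matrix.of fun i j => ∑ n ∈ range N, A i n * u j ^ n)|)
      atTop (𝓝 |Matrix.det (Matrix.of fun i j => φ i (u j))|) := by
    refine Filter.Tendsto.abs ?_
    have h2 : Tendsto (fun N => (Matrix.of fun i j => ∑ n ∈ range N, A i n * u j ^ n : Matrix ι ι ℝ))
        atTop (𝓝 (Matrix.of fun i j => φ i (u j))) := by
      refine tendsto_pi_nhds.2 fun i => tendsto_pi_nhds.2 fun j => ?_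
      exact (hA2 i (u j) ((hu j).trans hrR)).tendsto_sum_nat
    have h3 : Continuous fun m : Matrix ι ι ℝ => m.det := continuous_id.matrix_det
    exact (h3.tendsto _).comp h2
  exact le_of_tendsto' h1 fun N => det_fin A u hr hR hrR B N (fun i => hA1 i N) hu

end Pool.Agent.Run7.h880
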