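import Mathlib

/-!
The number of the zeros of a linear combination of products of roots of shifted variables.
-/

set_option autoImplicit false

namespace Pool.Agent.Run7.h880

open Finset Filter Topology

section
variable {m : ℕ} (b d : Fin m → ℕ)

/-- the root of `t + d i` of order `b i` -/
noncomputable def xi (i : Fin m) (t : ℕ) : ℝ := ((t : ℝ) + d i) ^ ((1 : ℝ) / b i)

/-- the monomials -/
noncomputable def mono (j : ℕ) (e : Fin m → ℕ) : ℕ → ℝ :=
  fun t => (t : ℝ) ^ j * ∏ i, xi b d i t ^ e i

/-- the weights -/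
noncomputable def wt (e : Fin m → ℕ) : ℝ := ∑ i, (e i : ℝ) / b i

end

section
variable {m : ℕ} {b d : Fin m → ℕ}

theorem xi_pow (hb : ∀ i, 2 ≤ b i) (i : Fin m) (t : ℕ) : xi b d i t ^ b i = (t : ℝ) + d i := by
  unfold xi
  rw [← Real.rpow_natCast, ← Real.rpow_mul (by positivity)]
  have : (b i : ℝ) ≠ 0 := by
    have := hb i
    positivity
  rw [one_div_mul_cancel this, Real.rpow_one]

theorem mono_tendsto (j : ℕ) (e : Fin m → ℕ) :
    Tendsto (fun t : ℕ => mono b d j e t / (t : ℝ) ^ ((j : ℝ) + wt b e)) atTop (𝓝 1) := by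
  have h1 : ∀ i : Fin m, Tendsto (fun t : ℕ => (1 + (d i : ℝ) / t) ^ ((1 : ℝ) / b i)) atTop (𝓝 1) := by
    intro i
    have h2 : Tendsto (fun t : ℕ => 1 + (d i : ℝ) / t) atTop (𝓝 (1 + 0)) :=
      tendsto_const_nhds.add (tendsto_const_div_atTop_nhds_zero_nat _)
    rw [add_zero] at h2
    have h3 := h2.rpow_const (p := (1 : ℝ) / b i) (Or.inl one_ne_zero)
    rwa [Real.one_rpow] at h3
  have h2 : Tendsto (fun t : ℕ => ∏ i, ((1 + (d i : ℝ) / t) ^ ((1 : ℝ) / b i)) ^ e i) atTop
      (𝓝 (∏ i : Fin m, (1 : ℝ) ^ e i)) :=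
    tendsto_finsetProd _ fun i _ => (h1 i).pow (e i)
  simp only [one_pow, Finset.prod_const_one] at h2
  refine h2.congr' ?_
  filter_upwards [eventually_gt_atTop 0] with t ht
  have ht0 : (0 : ℝ) < t := by exact_mod_cast ht
  unfold mono wt
  rw [Real.rpow_add ht0, Real.rpow_natCast, Real.rpow_sum_of_pos ht0]
  rw [mul_div_mul_left _ _ (pow_ne_zero _ ht0.ne'), ← Finset.prod_div_distrib]
  refine Finset.prod_congr rfl fun i _ => ?_
  unfold xi
  have e1 : (t : ℝ) ^ ((e i : ℝ) / b i) = ((t : ℝ) ^ ((1 : ℝ) / b i)) ^ e i := by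
    rw [← Real.rpow_natCast ((t : ℝ) ^ ((1 : ℝ) / b i)), ← Real.rpow_mul ht0.le]
    congr 1
    ring
  rw [e1, ← div_pow, ← Real.div_rpow (by positivity) ht0.le]
  congr 2
  field_simp

theorem wt_inj (hb : ∀ i, 2 ≤ b i) (hco : Pairwise fun i j => Nat.Coprime (b i) (b j))
    {j j' : ℕ} {e e' : Fin m → ℕ} (he : ∀ i, e i < b i) (he' : ∀ i, e' i < b i)
    (h : (j : ℝ) + wt b e = (j' : ℝ) + wt b e') : j = j' ∧ e = e' := by
  classical
  have hb0 : ∀ i, (b i : ℝ) ≠ 0 := fun i => by
    have := hb i
    positivity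
  -- multiply by the product
  have hmul : ∀ (j : ℕ) (e : Fin m → ℕ), ((j : ℝ) + wt b e) * ((∏ i, b i : ℕ) : ℝ) =
      ((j * ∏ i, b i + ∑ i, e i * ∏ k ∈ univ.erase i, b k : ℕ) : ℝ) := by
    intro j e
    unfold wt
    push_cast
    rw [add_mul, Finset.sum_mul]
    congr 1
    refine Finset.sum_congr rfl fun i _ => ?_
    rw [← Finset.mul_prod_erase univ (fun k => (b k : ℝ)) (Finset.mem_univ i)]
    field_simp [hb0 i]
  have h1 : j * ∏ i, b i + ∑ i, e i * ∏ k ∈ univ.erase i, b k =
      j' * ∏ i, b i + ∑ i, e' i * ∏ k ∈ univ.erase i, b k := by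
    have h2 := congrArg (fun z => z * ((∏ i, b i : ℕ) : ℝ)) h
    simp only [hmul] at h2
    exact_mod_cast h2
  have hee : e = e' := by
    funext i
    have hmod : ∀ (j : ℕ) (e : Fin m → ℕ), (j * ∏ i, b i + ∑ i, e i * ∏ k ∈ univ.erase i, b k) ≡
        e i * ∏ k ∈ univ.erase i, b k [MOD b i] := by
      intro j e
      rw [← Finset.add_sum_erase univ (fun i => e i * ∏ k ∈ univ.erase i, b k) (Finset.mem_univ i)]
      have a1 : j * ∏ i, b i ≡ 0 [MOD b i] := by
        rw [Nat.modEq_zero_iff_dvd]
        exact Dvd.dvd.mul_left (Finset.dvd_prod_of_mem _ (Finset.mem_univ i)) _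
      have a2 : ∑ l ∈ univ.erase i, e l * ∏ k ∈ univ.erase l, b k ≡ 0 [MOD b i] := by
        rw [Nat.modEq_zero_iff_dvd]
        refine Finset.dvd_sum fun l hl => Dvd.dvd.mul_left (Finset.dvd_prod_of_mem _ ?_) _
        rw [Finset.mem_erase] at hl ⊢
        exact ⟨fun h => hl.1 h.symm, Finset.mem_univ i⟩
      have a3 := (a1.add_right (e i * ∏ k ∈ univ.erase i, b k + ∑ l ∈ univ.erase i,
        e l * ∏ k ∈ univ.erase l, b k))
      refine a3.trans ?_
      rw [zero_add]
      have a4 := a2.add_left (e i * ∏ k ∈ univ.erase i, b k)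
      rwa [add_zero] at a4
    have h2 : e i * ∏ k ∈ univ.erase i, b k ≡ e' i * ∏ k ∈ univ.erase i, b k [MOD b i] :=
      (hmod j e).symm.trans ((by rw [h1] : _ ≡ _ [MOD b i]).trans (hmod j' e'))
    have h3 : Nat.gcd (b i) (∏ k ∈ univ.erase i, b k) = 1 := by
      refine Nat.Coprime.prod_right fun k hk => ?_
      rw [Finset.mem_erase] at hk
      exact hco fun h => hk.1 h.symm
    have h4 := Nat.ModEq.cancel_right_of_coprime h3 h2
    have h5 := Nat.ModEq.eq_of_lt_of_lt h4 (he i) (he' i)
    exact h5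
  subst hee
  refine ⟨?_, rfl⟩
  have h2 : (j : ℝ) = j' := by linarith
  exact_mod_cast h2

/-- functions with different rates of growth are independent -/
theorem growth_indep {ι : Type*} [Fintype ι] (w : ι → ℝ) (hw : Function.Injective w)
    (f : ι → ℕ → ℝ) {κ : ℝ} (hκ : κ ≠ 0)
    (h : ∀ i, Tendsto (fun t : ℕ => f i t / (t : ℝ) ^ w i) atTop (𝓝 κ)) (c : ι → ℝ)
    (h0 : ∀ᶠ t : ℕ in atTop, ∑ i, c i * f i t = 0) : c = 0 := by
  classical
  by_contra hc
  have hne : (univ.filter fun i => c i ≠ 0).Nonempty := by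
    obtain ⟨i, hi⟩ := Function.ne_iff.1 hc
    exact ⟨i, by simpa using hi⟩
  obtain ⟨i0, hi0, hmax⟩ := Finset.exists_max_image _ w hne
  rw [Finset.mem_filter] at hi0
  have h1 : Tendsto (fun t : ℕ => ∑ i, c i * (f i t / (t : ℝ) ^ w i0)) atTop
      (𝓝 (∑ i, if i = i0 then c i * κ else 0)) := by
    refine tendsto_finsetSum _ fun i _ => ?_
    by_cases hi : i = i0
    · rw [if_pos hi, hi]
      exact (h i0).const_mul _
    · rw [if_neg hi]
      by_cases hci : c i = 0
      · simp only [hci, zero_mul]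
        exact tendsto_const_nhds
      · have hlt : w i < w i0 := lt_of_le_of_ne (hmax i (by simpa using hci)) fun h => hi (hw h)
        have h2 : Tendsto (fun t : ℕ => ((t : ℝ)) ^ (-(w i0 - w i))) atTop (𝓝 0) :=
          (tendsto_rpow_neg_atTop (sub_pos.2 hlt)).comp tendsto_natCast_atTop_atTop
        have h3 := ((h i).mul h2).const_mul (c i)
        rw [mul_zero, mul_zero] at h3
        refine h3.congr' ?_
        filter_upwards [eventually_gt_atTop 0] with t ht
        have ht0 : (0 : ℝ) < t := by exact_mod_cast ht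
        rw [neg_sub, Real.rpow_sub ht0]
        have h4 : (t : ℝ) ^ w i ≠ 0 := (Real.rpow_pos_of_pos ht0 _).ne'
        have h5 : (t : ℝ) ^ w i0 ≠ 0 := (Real.rpow_pos_of_pos ht0 _).ne'
        field_simp
  rw [Finset.sum_ite_eq' univ i0, if_pos (Finset.mem_univ _)] at h1
  have h2 : Tendsto (fun t : ℕ => ∑ i, c i * (f i t / (t : ℝ) ^ w i0)) atTop (𝓝 0) := by
    refine tendsto_const_nhds.congr' ?_
    filter_upwards [h0] with t ht
    have e1 : ∑ i, c i * (f i t / (t : ℝ) ^ w i0) = (∑ i, c i * f i t) / (t : ℝ) ^ w i0 := by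
      rw [Finset.sum_div]
      refine Finset.sum_congr rfl fun i _ => ?_
      ring
    rw [e1, ht, zero_div]
  have h3 := tendsto_nhds_unique h1 h2
  exact (mul_ne_zero hi0.2 hκ) h3

/-- the indicator of a set of indices -/
def ind (S : Finset (Fin m)) : Fin m → ℕ := fun i => if i ∈ S then 1 else 0

theorem mono_mem (hb : ∀ i, 2 ≤ b i) (L : ℕ) : ∀ (k j : ℕ) (e : Fin m → ℕ), (∀ i, e i ≤ b i) →
    (univ.filter fun i => e i = b i).card = k → j + k < L →
    mono b d j e ∈ Submodule.span ℝ (Set.range fun p : Fin L × ((i : Fin m) → Fin (b i)) =>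
      mono b d p.1 (fun i => (p.2 i : ℕ))) := by
  classical
  intro k
  induction k with
  | zero =>
    intro j e he hk hj
    rw [Finset.card_eq_zero, Finset.filter_eq_empty_iff] at hk
    refine Submodule.subset_span ⟨(⟨j, by omega⟩, fun i => ⟨e i, ?_⟩), rfl⟩
    exact lt_of_le_of_ne (he i) (hk (Finset.mem_univ i))
  | succ k ih =>
    intro j e he hk hj
    have hne : (univ.filter fun i => e i = b i).Nonempty := by
      rw [← Finset.card_pos]
      omega
    obtain ⟨i, hi⟩ := hne
    rw [Finset.mem_filter] at hi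
    have hi2 := hi.2
    obtain ⟨e', he'⟩ : ∃ e' : Fin m → ℕ, e' = Function.update e i 0 := ⟨_, rfl⟩
    have he'b : ∀ l, e' l ≤ b l := by
      intro l
      rw [he']
      by_cases h : l = i
      · rw [h, Function.update_self]
        exact Nat.zero_le _
      · rw [Function.update_of_ne h]
        exact he l
    have hfil : (univ.filter fun l => e' l = b l) = (univ.filter fun l => e l = b l).erase i := by
      ext l
      rw [Finset.mem_erase, Finset.mem_filter, Finset.mem_filter, he']
      by_cases h : l = i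
      · subst h
        rw [Function.update_self]
        have := hb l
        constructor
        · rintro ⟨-, h⟩
          omega
        · rintro ⟨h, -⟩
          exact absurd rfl h
      · rw [Function.update_of_ne h]
        constructor
        · rintro ⟨h1, h2⟩
          exact ⟨h, h1, h2⟩
        · rintro ⟨h1, h2, h3⟩
          exact ⟨h2, h3⟩
    have hcard : (univ.filter fun l => e' l = b l).card = k := by
      rw [hfil, Finset.card_erase_of_mem (by rw [Finset.mem_filter]; exact hi), hk]
      rfl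
    have heq : mono b d j e = mono b d (j + 1) e' + (d i : ℝ) • mono b d j e' := by
      funext t
      rw [Pi.add_apply, Pi.smul_apply, smul_eq_mul]
      unfold mono
      rw [← Finset.mul_prod_erase univ _ (Finset.mem_univ i),
        ← Finset.mul_prod_erase univ (fun i => xi b d i t ^ e' i) (Finset.mem_univ i)]
      have h1 : ∏ l ∈ univ.erase i, xi b d l t ^ e l = ∏ l ∈ univ.erase i, xi b d l t ^ e' l := by
        refine Finset.prod_congr rfl fun l hl => ?_
        rw [Finset.mem_erase] at hl
        rw [he', Function.update_of_ne hl.1]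
      have h2 : e' i = 0 := by rw [he', Function.update_self]
      rw [h1, h2, hi2, xi_pow hb, pow_zero]
      ring
    rw [heq]
    refine Submodule.add_mem _ (ih (j + 1) e' he'b hcard (by omega))
      (Submodule.smul_mem _ _ (ih j e' he'b hcard (by omega)))

/-- **The zero estimate.** -/
theorem zero_est (hb : ∀ i, 2 ≤ b i) (hco : Pairwise fun i j => Nat.Coprime (b i) (b j))
    (c : Finset (Fin m) → ℝ) (hc : c ≠ 0) (T : Finset ℕ)
    (h : ∀ t ∈ T, ∑ S, c S * mono b d 0 (ind S) t = 0) : T.card ≤ m * ∏ i, b i := by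
  classical
  obtain ⟨L, hL⟩ : ∃ L, L = T.card := ⟨_, rfl⟩
  obtain ⟨g, hg⟩ : ∃ g : ℕ → ℝ, g = fun t => ∑ S, c S * mono b d 0 (ind S) t := ⟨_, rfl⟩
  have hindb : ∀ (S : Finset (Fin m)) (i : Fin m), ind S i < b i := by
    intro S i
    unfold ind
    have := hb i
    split_ifs <;> omega
  -- the leading term
  have hinj : Function.Injective fun S : Finset (Fin m) => wt b (ind S) := by
    intro S S' hSS
    have h1 := (wt_inj (j := 0) (j' := 0) hb hco (hindb S) (hindb S')
      (by simpa using hSS)).2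
    ext i
    have h2 := congrFun h1 i
    unfold ind at h2
    by_cases h3 : i ∈ S <;> by_cases h4 : i ∈ S' <;> simp_all
  obtain ⟨S0, hS0, hlead⟩ : ∃ S0, c S0 ≠ 0 ∧
      Tendsto (fun t : ℕ => g t / (t : ℝ) ^ wt b (ind S0)) atTop (𝓝 (c S0)) := by
    have hne : (univ.filter fun S => c S ≠ 0).Nonempty := by
      obtain ⟨S, hS⟩ := Function.ne_iff.1 hc
      exact ⟨S, by simpa using hS⟩
    obtain ⟨S0, hS0, hmax⟩ := Finset.exists_max_image _ (fun S => wt b (ind S)) hne
    rw [Finset.mem_filter] at hS0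
    refine ⟨S0, hS0.2, ?_⟩
    have h1 : Tendsto (fun t : ℕ => ∑ S, c S * (mono b d 0 (ind S) t / (t : ℝ) ^ wt b (ind S0)))
        atTop (𝓝 (∑ S, if S = S0 then c S else 0)) := by
      refine tendsto_finsetSum _ fun S _ => ?_
      have hS := mono_tendsto (b := b) (d := d) 0 (ind S)
      simp only [Nat.cast_zero, zero_add] at hS
      by_cases hi : S = S0
      · rw [if_pos hi, hi]
        rw [hi] at hS
        have h2 := hS.const_mul (c S0)
        rwa [mul_one] at h2
      · rw [if_neg hi]
        by_cases hci : c S = 0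
        · simp only [hci, zero_mul]
          exact tendsto_const_nhds
        · have hlt : wt b (ind S) < wt b (ind S0) :=
            lt_of_le_of_ne (hmax S (by simpa using hci)) fun h => hi (hinj h)
          have h2 : Tendsto (fun t : ℕ => ((t : ℝ)) ^ (-(wt b (ind S0) - wt b (ind S)))) atTop
              (𝓝 0) :=
            (tendsto_rpow_neg_atTop (sub_pos.2 hlt)).comp tendsto_natCast_atTop_atTop
          have h3 := (hS.mul h2).const_mul (c S)
          rw [mul_zero, mul_zero] at h3
          refine h3.congr' ?_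
          filter_upwards [eventually_gt_atTop 0] with t ht
          have ht0 : (0 : ℝ) < t := by exact_mod_cast ht
          rw [neg_sub, Real.rpow_sub ht0]
          have h4 : (t : ℝ) ^ wt b (ind S) ≠ 0 := (Real.rpow_pos_of_pos ht0 _).ne'
          have h5 : (t : ℝ) ^ wt b (ind S0) ≠ 0 := (Real.rpow_pos_of_pos ht0 _).ne'
          field_simp
    rw [Finset.sum_ite_eq' univ S0, if_pos (Finset.mem_univ _)] at h1
    refine h1.congr fun t => ?_
    rw [hg]
    simp only
    rw [Finset.sum_div]
    refine Finset.sum_congr rfl fun S _ => ?_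
    ring
  -- the space
  obtain ⟨U, hU⟩ : ∃ U : Submodule ℝ (ℕ → ℝ), U = Submodule.span ℝ
      (Set.range fun p : Fin (L + m) × ((i : Fin m) → Fin (b i)) =>
        mono b d p.1 (fun i => (p.2 i : ℕ))) := ⟨_, rfl⟩
  have hmem : ∀ (j : ℕ) (e : Fin m → ℕ), j < L → (∀ i, e i ≤ b i) → mono b d j e ∈ U := by
    intro j e hj he
    rw [hU]
    refine mono_mem hb (L + m) _ j e he rfl ?_
    have : (univ.filter fun i => e i = b i).card ≤ m := by
      refine (Finset.card_le_univ _).trans ?_
      rw [Fintype.card_fin]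
    omega
  have hfin : FiniteDimensional ℝ U := by
    rw [hU]
    exact FiniteDimensional.span_of_finite ℝ (Set.finite_range _)
  have hdim : Module.finrank ℝ U ≤ (L + m) * ∏ i, b i := by
    rw [hU]
    refine (finrank_range_le_card _).trans ?_
    rw [Fintype.card_prod, Fintype.card_fin, Fintype.card_pi]
    simp
  -- evaluation
  let Ev : U →ₗ[ℝ] (T → ℝ) := (LinearMap.funLeft ℝ ℝ (fun t : T => (t : ℕ))).comp U.subtype
  have hEv : ∀ (u : U) (t : T), Ev u t = (u : ℕ → ℝ) t := fun u t => rfl
  have hpoly : ∀ p : Polynomial ℝ, p.natDegree < L + m → (fun t : ℕ => p.eval (t : ℝ)) ∈ U := by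
    intro p hp
    have h1 : (fun t : ℕ => p.eval (t : ℝ)) =
        ∑ j ∈ Finset.range (L + m), p.coeff j • mono b d j (fun _ => 0) := by
      funext t
      rw [Polynomial.eval_eq_sum_range' hp, Finset.sum_apply]
      refine Finset.sum_congr rfl fun j _ => ?_
      rw [Pi.smul_apply, smul_eq_mul]
      unfold mono
      simp
    rw [h1]
    refine Submodule.sum_mem _ fun j hj => Submodule.smul_mem _ _ ?_
    rw [Finset.mem_range] at hj
    rw [hU]
    refine mono_mem hb (L + m) 0 j (fun _ => 0) (fun _ => Nat.zero_le _) ?_ (by omega)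
    rw [Finset.card_eq_zero, Finset.filter_eq_empty_iff]
    intro i _ h0
    have := hb i
    omega
  have hsurj : Function.Surjective Ev := by
    intro y
    by_cases hL0 : L = 0
    · have : IsEmpty T := by
        rw [hL0, eq_comm, Finset.card_eq_zero] at hL
        rw [hL]
        infer_instance
      exact ⟨0, Subsingleton.elim _ _⟩
    obtain ⟨p, hp⟩ : ∃ p : Polynomial ℝ, p = Lagrange.interpolate (univ : Finset T)
      (fun t : T => ((t : ℕ) : ℝ)) y := ⟨_, rfl⟩
    have hinjT : Set.InjOn (fun t : T => ((t : ℕ) : ℝ)) (univ : Finset T) := by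
      intro t _ t' _ htt
      exact Subtype.ext (Nat.cast_injective htt)
    have hdeg : p.natDegree < L + m := by
      have h1 := Lagrange.degree_interpolate_lt (r := y) hinjT
      rw [← hp, Finset.card_univ, Fintype.card_coe, ← hL] at h1
      by_cases hp0 : p = 0
      · rw [hp0, Polynomial.natDegree_zero]
        omega
      · have h2 := (Polynomial.natDegree_lt_iff_degree_lt hp0).2 h1
        omega
    refine ⟨⟨_, hpoly p hdeg⟩, ?_⟩
    funext t
    rw [hEv]
    show p.eval ((t : ℕ) : ℝ) = y t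
    rw [hp]
    exact Lagrange.eval_interpolate_at_node y hinjT (Finset.mem_univ t)
  -- the multiples of `g`
  have hgm : ∀ (j : ℕ) (e : Fin m → ℕ), (fun t => g t * mono b d j e t) =
      ∑ S, c S • mono b d j (fun i => e i + ind S i) := by
    intro j e
    funext t
    rw [hg, Finset.sum_apply]
    simp only
    rw [Finset.sum_mul]
    refine Finset.sum_congr rfl fun S _ => ?_
    rw [Pi.smul_apply, smul_eq_mul]
    unfold mono
    simp only [pow_add, Finset.prod_mul_distrib, pow_zero]
    ring
  have hgU : ∀ p : Fin L × ((i : Fin m) → Fin (b i)),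
      (fun t => g t * mono b d p.1 (fun i => (p.2 i : ℕ)) t) ∈ U := by
    intro p
    rw [hgm]
    refine Submodule.sum_mem _ fun S _ => Submodule.smul_mem _ _ (hmem _ _ p.1.2 fun i => ?_)
    have h1 := (p.2 i).2
    have h2 : ind S i ≤ 1 := by
      unfold ind
      split_ifs <;> omega
    omega
  have hgker : ∀ p : Fin L × ((i : Fin m) → Fin (b i)),
      (⟨_, hgU p⟩ : U) ∈ LinearMap.ker Ev := by
    intro p
    rw [LinearMap.mem_ker]
    funext t
    rw [hEv]
    show g t * _ = 0
    have h1 := h t t.2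
    have h2 : g t = 0 := by
      rw [hg]
      exact h1
    rw [h2, zero_mul]
  let G : Fin L × ((i : Fin m) → Fin (b i)) → LinearMap.ker Ev := fun p => ⟨⟨_, hgU p⟩, hgker p⟩
  have hG : ∀ p t, ((G p : U) : ℕ → ℝ) t = g t * mono b d p.1 (fun i => (p.2 i : ℕ)) t :=
    fun p t => rfl
  have hind0 : LinearIndependent ℝ (fun p : Fin L × ((i : Fin m) → Fin (b i)) =>
      (fun t => g t * mono b d p.1 (fun i => (p.2 i : ℕ)) t : ℕ → ℝ)) := by
    rw [Fintype.linearIndependent_iff]
    intro a ha
    have h1 : a = 0 := by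
      refine growth_indep (fun p : Fin L × ((i : Fin m) → Fin (b i)) =>
        wt b (ind S0) + (((p.1 : ℕ) : ℝ) + wt b (fun i => (p.2 i : ℕ)))) ?_
        (fun p t => g t * mono b d p.1 (fun i => (p.2 i : ℕ)) t) (κ := c S0) hS0 ?_ a ?_
      · intro p p' hpp
        have h2 := wt_inj (j := p.1) (j' := p'.1) (e := fun i => (p.2 i : ℕ))
          (e' := fun i => (p'.2 i : ℕ)) hb hco (fun i => (p.2 i).2) (fun i => (p'.2 i).2)
          (by simpa using hpp)
        refine Prod.ext (Fin.ext h2.1) ?_
        funext i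
        exact Fin.ext (congrFun h2.2 i)
      · intro p
        have h2 := hlead.mul (mono_tendsto (b := b) (d := d) p.1 (fun i => (p.2 i : ℕ)))
        rw [mul_one] at h2
        refine h2.congr' ?_
        filter_upwards [eventually_gt_atTop 0] with t ht
        have ht0 : (0 : ℝ) < t := by exact_mod_cast ht
        rw [Real.rpow_add ht0 (wt b (ind S0)), mul_div_mul_comm]
      · refine Filter.Eventually.of_forall fun t => ?_
        have h2 := congrFun ha t
        rw [Finset.sum_apply] at h2
        exact h2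
    intro p
    rw [h1]
    rfl
  have hind : LinearIndependent ℝ G :=
    LinearIndependent.of_comp (U.subtype.comp (LinearMap.ker Ev).subtype) hind0
  have hcardG := hind.fintype_card_le_finrank
  have hrn := LinearMap.finrank_range_add_finrank_ker Ev
  rw [LinearMap.range_eq_top.2 hsurj, finrank_top, Module.finrank_fintype_fun_eq_card,
    Fintype.card_coe, ← hL] at hrn
  rw [Fintype.card_prod, Fintype.card_fin, Fintype.card_pi] at hcardG
  simp only [Fintype.card_fin] at hcardG
  rw [add_mul] at hdim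
  rw [← hL]
  omega

end

end Pool.Agent.Run7.h880
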