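import Mathlib
import Pool.Agent.Run7.h880.DetB
import Pool.Agent.Run7.h880.Zero

/-!
Few integers `t` in a short interval are such that all `t + d i` are perfect powers.
-/

set_option autoImplicit false

namespace Pool.Agent.Run7.h880

open Finset Filter Topology

/-- either all the vectors satisfy a linear relation, or there is a nonsingular matrix of them -/
theorem rel_or_det {ι : Type*} [Fintype ι] [DecidableEq ι] (T : Finset ℕ) (v : ℕ → ι → ℝ) :
    (∃ c : ι → ℝ, c ≠ 0 ∧ ∀ t ∈ T, ∑ i, c i * v t i = 0) ∨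
      ∃ τ : ι → ℕ, (∀ i, τ i ∈ T) ∧ Matrix.det (Matrix.of fun i j => v (τ j) i) ≠ 0 := by
  classical
  obtain ⟨s, hs⟩ : ∃ s : Set (ι → ℝ), s = v '' (T : Set ℕ) := ⟨_, rfl⟩
  by_cases htop : Submodule.span ℝ s = ⊤
  · right
    obtain ⟨β, hβs, hspan, hli⟩ := exists_linearIndependent ℝ s
    rw [htop] at hspan
    have hfin : Finite β := by
      refine Set.Finite.to_subtype (Set.Finite.subset ?_ hβs)
      rw [hs]
      exact T.finite_toSet.image _
    have : Fintype β := Fintype.ofFinite _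
    have hcard : Fintype.card β = Fintype.card ι := by
      have bas : Module.Basis β ℝ (ι → ℝ) := Module.Basis.mk hli (by
        rw [Subtype.range_coe_subtype, Set.ofPred_mem_eq, hspan])
      rw [← Module.finrank_eq_card_basis bas, Module.finrank_fintype_fun_eq_card]
    obtain ⟨e⟩ : Nonempty (ι ≃ β) := ⟨Fintype.equivOfCardEq hcard.symm⟩
    have hex : ∀ x : β, ∃ t ∈ T, v t = x := by
      intro x
      have h1 := hβs x.2
      rw [hs] at h1
      obtain ⟨t, ht, htx⟩ := h1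
      exact ⟨t, ht, htx⟩
    choose g hg1 hg2 using hex
    refine ⟨fun i => g (e i), fun i => hg1 _, ?_⟩
    have h2 : LinearIndependent ℝ (fun j : ι => v (g (e j))) := by
      have h3 : (fun j : ι => v (g (e j))) = (fun x : β => (x : ι → ℝ)) ∘ e := by
        funext j
        rw [hg2]
        rfl
      rw [h3]
      exact hli.comp _ e.injective
    have h3 := Matrix.linearIndependent_rows_iff_isUnit (A := (fun j i => v (g (e j)) i : Matrix ι ι ℝ))
    have h4 := (Matrix.isUnit_iff_isUnit_det _).1 (h3.1 h2)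
    rw [isUnit_iff_ne_zero] at h4
    intro h0
    exact h4 ((Matrix.det_transpose (Matrix.of fun j i => v (g (e j)) i)).symm.trans h0)
  · left
    obtain ⟨f, hf0, hf⟩ := Submodule.exists_le_ker_of_lt_top _ (lt_top_iff_ne_top.2 htop)
    refine ⟨fun i => f (Pi.single i 1), ?_, ?_⟩
    · intro h
      apply hf0
      refine LinearMap.pi_ext' fun i => LinearMap.ext_ring ?_
      exact congrFun h i
    · intro t ht
      have h1 : v t ∈ LinearMap.ker f := hf (Submodule.subset_span (by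
        rw [hs]
        exact ⟨t, ht, rfl⟩))
      rw [LinearMap.mem_ker] at h1
      rw [← h1]
      conv_rhs => rw [pi_eq_sum_univ' (v t)]
      rw [map_sum]
      refine Finset.sum_congr rfl fun i _ => ?_
      rw [map_smul, smul_eq_mul, mul_comm]

/-- the number of the points in a short interval -/
theorem few_points {m : ℕ} {b d : Fin m → ℕ} (hm : 1 ≤ m) (hb : ∀ i, 2 ≤ b i)
    (hco : Pairwise fun i j => Nat.Coprime (b i) (b j)) (hw : ∑ i, (1 : ℝ) / b i ≤ 1 / 2)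
    {t₀ Y : ℝ} {q : ℕ} (hq : 1 ≤ q) (ht₀ : 0 < t₀) (hY1 : 1 ≤ Y) (hY : ∀ i, t₀ + d i ≤ Y)
    (hqY : (3 * ((2 : ℝ) ^ m) ^ 4) * Y < (q : ℝ) ^ (2 ^ m)) (T : Finset ℕ)
    (hT : ∀ t ∈ T, |(t : ℝ) - t₀| ≤ t₀ / (2 * q) ∧ ∀ i, ∃ x : ℕ, x ^ b i = t + d i) :
    T.card ≤ m * ∏ i, b i := by
  classical
  have hb0 : ∀ i, (b i : ℝ) ≠ 0 := fun i => by
    have := hb i
    positivity
  rcases rel_or_det T (fun (t : ℕ) (S : Finset (Fin m)) => mono b d 0 (ind S) t) with h | h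
  · obtain ⟨c, hc, h⟩ := h
    exact zero_est hb hco c hc T h
  exfalso
  obtain ⟨τ, hτ, hdet⟩ := h
  -- the entries are integers
  have hxi : ∀ t ∈ T, ∀ i, ∃ x : ℕ, xi b d i t = x := by
    intro t ht i
    obtain ⟨x, hx⟩ := (hT t ht).2 i
    refine ⟨x, ?_⟩
    unfold xi
    have h1 : ((t : ℝ) + d i) = (x : ℝ) ^ (b i : ℝ) := by
      rw [Real.rpow_natCast]
      exact_mod_cast hx.symm
    rw [h1, ← Real.rpow_mul (Nat.cast_nonneg _), mul_one_div_cancel (hb0 i), Real.rpow_one]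
  have hint : ∀ S S' : Finset (Fin m), ∃ z : ℤ, mono b d 0 (ind S) (τ S') = z := by
    intro S S'
    have h1 := hxi (τ S') (hτ S')
    choose x hx using h1
    refine ⟨((∏ i, x i ^ ind S i : ℕ) : ℤ), ?_⟩
    unfold mono
    rw [pow_zero, one_mul]
    push_cast
    exact Finset.prod_congr rfl fun i _ => by rw [hx i]
  choose z hz using hint
  have hdetz : Matrix.det (Matrix.of fun S S' => mono b d 0 (ind S) (τ S')) =
      ((Matrix.det (Matrix.of z) : ℤ) : ℝ) := by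
    have h1 : (Matrix.of fun S S' => mono b d 0 (ind S) (τ S') : Matrix _ _ ℝ) =
        (Matrix.of z).map (Int.castRingHom ℝ) := by
      ext S S'
      rw [Matrix.of_apply, hz]
      rfl
    rw [h1, ← RingHom.mapMatrix_apply, ← RingHom.map_det]
    rfl
  rw [hdetz] at hdet
  have hge : (1 : ℝ) ≤ |((Matrix.det (Matrix.of z) : ℤ) : ℝ)| := by
    have h1 : Matrix.det (Matrix.of z) ≠ 0 := by
      intro h0
      rw [h0] at hdet
      exact hdet Int.cast_zero
    have h2 : 1 ≤ |Matrix.det (Matrix.of z)| := Int.one_le_abs h1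
    exact_mod_cast h2
  rw [← hdetz] at hge
  -- the upper bound
  have hqR : (1 : ℝ) ≤ q := by exact_mod_cast hq
  obtain ⟨R, hR⟩ : ∃ R : ℝ, R = t₀ / 2 := ⟨_, rfl⟩
  have hR0 : 0 < R := by
    rw [hR]
    positivity
  obtain ⟨β, hβ⟩ : ∃ β : Fin m → ℝ, β = fun i =>
    (t₀ + d i) ^ ((1 : ℝ) / b i) * (1 + 1 / b i) := ⟨_, rfl⟩
  have hβ0 : ∀ i, 0 < β i := by
    intro i
    rw [hβ]
    have : 0 < t₀ + d i := by positivity
    have h2 := Real.rpow_pos_of_pos this ((1 : ℝ) / b i)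
    have h3 : (0 : ℝ) < 1 + 1 / b i := by
      have := hb i
      positivity
    positivity
  have hser : ∀ S : Finset (Fin m), Ser (fun u => ∏ i ∈ S, (t₀ + d i + u) ^ ((1 : ℝ) / b i)) R
      (∏ i ∈ S, β i) := by
    intro S
    refine Ser.prod S hR0.le fun i _ => ?_
    rw [hβ]
    refine root_ser (by have := hb i; omega) hR0 ?_
    rw [hR]
    have : (0 : ℝ) ≤ d i := Nat.cast_nonneg _
    linarith
  have hsm := det_small (u := fun S : Finset (Fin m) => (τ S : ℝ) - t₀) (r := t₀ / (2 * q))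
    (R := R) (by positivity) hR0 (by
      rw [hR]
      exact div_le_div_of_nonneg_left ht₀.le (by norm_num) (by linarith)) hser
    (fun S => (hT _ (hτ S)).1)
  have heq : (Matrix.of fun (S S' : Finset (Fin m)) =>
      ∏ i ∈ S, (t₀ + d i + ((τ S' : ℝ) - t₀)) ^ ((1 : ℝ) / b i) : Matrix _ _ ℝ) =
      Matrix.of fun S S' => mono b d 0 (ind S) (τ S') := by
    ext S S'
    rw [Matrix.of_apply, Matrix.of_apply]
    unfold mono ind xi
    rw [pow_zero, one_mul]
    simp only [pow_ite, pow_one, pow_zero]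
    rw [Finset.prod_ite_mem, Finset.univ_inter]
    refine Finset.prod_congr rfl fun i _ => ?_
    congr 1
    ring
  rw [heq] at hsm
  have h1le := hge.trans hsm
  obtain ⟨M, hM⟩ : ∃ M : ℕ, M = 2 ^ m := ⟨_, rfl⟩
  have hcard : Fintype.card (Finset (Fin m)) = M := by
    rw [Fintype.card_finset, Fintype.card_fin, hM]
  rw [hcard] at h1le
  have hM2 : 2 ≤ M := by
    rw [hM]
    calc 2 = 2 ^ 1 := rfl
      _ ≤ 2 ^ m := Nat.pow_le_pow_right (by norm_num) hm
  have hrR : t₀ / (2 * q) / R = (q : ℝ)⁻¹ := by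
    rw [hR]
    field_simp
  rw [hrR] at h1le
  -- the product of the bounds
  obtain ⟨Q, hQ⟩ : ∃ Q : ℝ, Q = ∏ S : Finset (Fin m), ∏ i ∈ S, β i := ⟨_, rfl⟩
  rw [← hQ] at h1le
  have hQ0 : 0 ≤ Q := by
    rw [hQ]
    exact Finset.prod_nonneg fun S _ => Finset.prod_nonneg fun i _ => (hβ0 i).le
  have hQ2 : Q ^ 2 = (∏ i, β i) ^ M := by
    have e1 : Q = ∏ S : Finset (Fin m), ∏ i ∈ Sᶜ, β i := by
      rw [hQ]
      exact (Function.Bijective.prod_comp compl_bijective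
        (fun S : Finset (Fin m) => ∏ i ∈ S, β i)).symm
    calc Q ^ 2 = Q * Q := sq Q
      _ = (∏ S : Finset (Fin m), ∏ i ∈ S, β i) * ∏ S : Finset (Fin m), ∏ i ∈ Sᶜ, β i := by
          rw [← hQ, ← e1]
      _ = ∏ S : Finset (Fin m), ((∏ i ∈ S, β i) * ∏ i ∈ Sᶜ, β i) := by
          rw [Finset.prod_mul_distrib]
      _ = ∏ S : Finset (Fin m), ∏ i, β i :=
          Finset.prod_congr rfl fun S _ => Finset.prod_mul_prod_compl S β
      _ = (∏ i, β i) ^ M := by
          rw [Finset.prod_const, Finset.card_univ, hcard]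
  -- the size of the product of all `β i`
  obtain ⟨γ, hγ⟩ : ∃ γ : ℝ, γ = ∏ i, β i := ⟨_, rfl⟩
  rw [← hγ] at hQ2
  have hγ0 : 0 ≤ γ := by
    rw [hγ]
    exact Finset.prod_nonneg fun i _ => (hβ0 i).le
  have hγY : γ ^ 2 ≤ 3 * Y := by
    have hY0 : 0 < Y := by linarith
    have h2 : γ ≤ Y ^ ((1 : ℝ) / 2) * Real.exp (1 / 2) := by
      rw [hγ, hβ, Finset.prod_mul_distrib]
      refine mul_le_mul ?_ ?_ ?_ (by positivity)
      · calc ∏ i, (t₀ + (d i : ℝ)) ^ ((1 : ℝ) / b i) ≤ ∏ i, Y ^ ((1 : ℝ) / b i) := by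
              refine Finset.prod_le_prod (fun i _ => by positivity) fun i _ => ?_
              exact Real.rpow_le_rpow (by positivity) (hY i) (by positivity)
          _ = Y ^ (∑ i, (1 : ℝ) / b i) := by rw [Real.rpow_sum_of_pos hY0]
          _ ≤ Y ^ ((1 : ℝ) / 2) := Real.rpow_le_rpow_of_exponent_le hY1 hw
      · calc ∏ i, (1 + 1 / (b i : ℝ)) ≤ ∏ i, Real.exp (1 / (b i : ℝ)) := by
              refine Finset.prod_le_prod (fun i _ => by positivity) fun i _ => ?_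
              have := Real.add_one_le_exp (1 / (b i : ℝ))
              linarith
          _ = Real.exp (∑ i, 1 / (b i : ℝ)) := by rw [Real.exp_sum]
          _ ≤ Real.exp (1 / 2) := Real.exp_le_exp.2 hw
      · exact Finset.prod_nonneg fun i _ => by positivity
    have h3 : γ ^ 2 ≤ (Y ^ ((1 : ℝ) / 2) * Real.exp (1 / 2)) ^ 2 := pow_le_pow_left₀ hγ0 h2 2
    refine h3.trans ?_
    rw [mul_pow, ← Real.rpow_natCast (Y ^ ((1 : ℝ) / 2)), ← Real.rpow_mul hY0.le,
      ← Real.exp_nat_mul]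
    norm_num
    have h4 : Real.exp 1 ≤ 3 := by
      have := Real.exp_one_lt_d9
      linarith
    nlinarith
  -- conclusion
  have hqi : (0 : ℝ) < (q : ℝ)⁻¹ := by positivity
  obtain ⟨K, hK⟩ : ∃ K, M * (M - 1) / 2 = K ∧ K * 2 = M * (M - 1) := by
    refine ⟨_, rfl, Nat.div_mul_cancel ?_⟩
    exact (Nat.even_mul_pred_self M).two_dvd
  rw [hK.1] at h1le
  have hfac : ((M.factorial : ℕ) : ℝ) ≤ (M : ℝ) ^ M := by
    exact_mod_cast Nat.factorial_le_pow M
  have h5 : (1 : ℝ) ≤ ((M : ℝ) ^ 2 * ((q : ℝ)⁻¹) ^ (M - 1) * γ) ^ M := by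
    calc (1 : ℝ) ≤ ((M.factorial : ℝ) * ((q : ℝ)⁻¹) ^ K * Q) ^ 2 := one_le_pow₀ h1le
      _ = (M.factorial : ℝ) ^ 2 * ((q : ℝ)⁻¹) ^ (K * 2) * Q ^ 2 := by
          rw [mul_pow, mul_pow, pow_mul]
      _ ≤ ((M : ℝ) ^ M) ^ 2 * ((q : ℝ)⁻¹) ^ (K * 2) * Q ^ 2 := by
          refine mul_le_mul_of_nonneg_right (mul_le_mul_of_nonneg_right ?_ (by positivity))
            (by positivity)
          exact pow_le_pow_left₀ (by positivity) hfac 2
      _ = ((M : ℝ) ^ 2 * ((q : ℝ)⁻¹) ^ (M - 1) * γ) ^ M := by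
          rw [hQ2, hK.2, mul_pow, mul_pow, ← pow_mul, ← pow_mul, ← pow_mul, mul_comm M 2,
            mul_comm M (M - 1)]
  have h6 : (1 : ℝ) ≤ (M : ℝ) ^ 2 * ((q : ℝ)⁻¹) ^ (M - 1) * γ := by
    by_contra hcon
    push Not at hcon
    have h7 := pow_lt_one₀ (by positivity) hcon (n := M) (by omega)
    linarith
  have h7 : (q : ℝ) ^ (M - 1) ≤ (M : ℝ) ^ 2 * γ := by
    rw [inv_pow] at h6
    have h8 : (0 : ℝ) < (q : ℝ) ^ (M - 1) := by positivity
    have h9 : (M : ℝ) ^ 2 * ((q : ℝ) ^ (M - 1))⁻¹ * γ = ((M : ℝ) ^ 2 * γ) / (q : ℝ) ^ (M - 1) := by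
      field_simp
    rw [h9, le_div_iff₀ h8, one_mul] at h6
    exact h6
  have h8 : (q : ℝ) ^ M ≤ (M : ℝ) ^ 4 * (3 * Y) := by
    calc (q : ℝ) ^ M ≤ (q : ℝ) ^ ((M - 1) * 2) := pow_le_pow_right₀ hqR (by omega)
      _ = ((q : ℝ) ^ (M - 1)) ^ 2 := by rw [pow_mul]
      _ ≤ ((M : ℝ) ^ 2 * γ) ^ 2 := pow_le_pow_left₀ (by positivity) h7 2
      _ = (M : ℝ) ^ 4 * γ ^ 2 := by ring
      _ ≤ (M : ℝ) ^ 4 * (3 * Y) := mul_le_mul_of_nonneg_left hγY (by positivity)
  rw [hM] at h8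
  push_cast at h8
  linarith

end Pool.Agent.Run7.h880
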