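import Mathlib
import Pool.Agent.Run7.h880.Zero

/-!
The zero estimate for all products of powers with exponents smaller than `E`.
-/

set_option autoImplicit false

namespace Pool.Agent.Run7.h880

open Finset Filter Topology

section
variable {m : ℕ} {b d : Fin m → ℕ}

/-- the exponents as natural numbers -/
def nat' {E : ℕ} (e : Fin m → Fin E) : Fin m → ℕ := fun i => (e i : ℕ)

theorem mono_mem2 (hb : ∀ i, 2 ≤ b i) (L : ℕ) : ∀ (k j : ℕ) (e : Fin m → ℕ),
    (∀ i, e i < 2 * b i) → (univ.filter fun i => b i ≤ e i).card = k → j + k < L →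
    mono b d j e ∈ Submodule.span ℝ (Set.range fun p : Fin L × ((i : Fin m) → Fin (b i)) =>
      mono b d p.1 (fun i => (p.2 i : ℕ))) := by
  classical
  intro k
  induction k with
  | zero =>
    intro j e he hk hj
    rw [Finset.card_eq_zero, Finset.filter_eq_empty_iff] at hk
    refine Submodule.subset_span ⟨(⟨j, by omega⟩, fun i => ⟨e i, ?_⟩), rfl⟩
    exact not_le.1 (hk (Finset.mem_univ i))
  | succ k ih =>
    intro j e he hk hj
    have hne : (univ.filter fun i => b i ≤ e i).Nonempty := by
      rw [← Finset.card_pos]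
      omega
    obtain ⟨i, hi⟩ := hne
    rw [Finset.mem_filter] at hi
    have hi2 := hi.2
    obtain ⟨e', he'⟩ : ∃ e' : Fin m → ℕ, e' = Function.update e i (e i - b i) := ⟨_, rfl⟩
    have hei := he i
    have he'b : ∀ l, e' l < 2 * b l := by
      intro l
      rw [he']
      by_cases h : l = i
      · rw [h, Function.update_self]
        omega
      · rw [Function.update_of_ne h]
        exact he l
    have hfil : (univ.filter fun l => b l ≤ e' l) = (univ.filter fun l => b l ≤ e l).erase i := by
      ext l
      rw [Finset.mem_erase, Finset.mem_filter, Finset.mem_filter, he']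
      by_cases h : l = i
      · subst h
        rw [Function.update_self]
        have := hb l
        constructor
        · rintro ⟨-, h⟩
          omega
        · rintro ⟨h, -⟩
          exact absurd rfl h
      · rw [Function.update_of_ne h]
        constructor
        · rintro ⟨h1, h2⟩
          exact ⟨h, h1, h2⟩
        · rintro ⟨h1, h2, h3⟩
          exact ⟨h2, h3⟩
    have hcard : (univ.filter fun l => b l ≤ e' l).card = k := by
      rw [hfil, Finset.card_erase_of_mem (by rw [Finset.mem_filter]; exact hi), hk]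
      rfl
    have heq : mono b d j e = mono b d (j + 1) e' + (d i : ℝ) • mono b d j e' := by
      funext t
      rw [Pi.add_apply, Pi.smul_apply, smul_eq_mul]
      unfold mono
      rw [← Finset.mul_prod_erase univ _ (Finset.mem_univ i),
        ← Finset.mul_prod_erase univ (fun i => xi b d i t ^ e' i) (Finset.mem_univ i)]
      have h1 : ∏ l ∈ univ.erase i, xi b d l t ^ e l = ∏ l ∈ univ.erase i, xi b d l t ^ e' l := by
        refine Finset.prod_congr rfl fun l hl => ?_
        rw [Finset.mem_erase] at hl
        rw [he', Function.update_of_ne hl.1]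
      have h2 : e' i = e i - b i := by rw [he', Function.update_self]
      have h3 : xi b d i t ^ e i = ((t : ℝ) + d i) * xi b d i t ^ e' i := by
        have h4 : e i = b i + e' i := by omega
        rw [h4, pow_add, xi_pow hb]
      rw [h1, h3]
      ring
    rw [heq]
    refine Submodule.add_mem _ (ih (j + 1) e' he'b hcard (by omega))
      (Submodule.smul_mem _ _ (ih j e' he'b hcard (by omega)))

/-- **The zero estimate.** -/
theorem zero_est2 {E : ℕ} (hE : ∀ i, E ≤ b i) (hb : ∀ i, 2 ≤ b i) (hco : Pairwise fun i j => Nat.Coprime (b i) (b j))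
    (c : (Fin m → Fin E) → ℝ) (hc : c ≠ 0) (T : Finset ℕ)
    (h : ∀ t ∈ T, ∑ S, c S * mono b d 0 (nat' S) t = 0) : T.card ≤ m * ∏ i, b i := by
  classical
  obtain ⟨L, hL⟩ : ∃ L, L = T.card := ⟨_, rfl⟩
  obtain ⟨g, hg⟩ : ∃ g : ℕ → ℝ, g = fun t => ∑ S, c S * mono b d 0 (nat' S) t := ⟨_, rfl⟩
  have hindb : ∀ (S : Fin m → Fin E) (i : Fin m), nat' S i < b i := fun S i =>
    lt_of_lt_of_le (S i).2 (hE i)
  -- the leading term
  have hinj : Function.Injective fun S : Fin m → Fin E => wt b (nat' S) := by
    intro S S' hSS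
    have h1 := (wt_inj (j := 0) (j' := 0) hb hco (hindb S) (hindb S')
      (by simpa using hSS)).2
    funext i
    exact Fin.ext (congrFun h1 i)
  obtain ⟨S0, hS0, hlead⟩ : ∃ S0, c S0 ≠ 0 ∧
      Tendsto (fun t : ℕ => g t / (t : ℝ) ^ wt b (nat' S0)) atTop (𝓝 (c S0)) := by
    have hne : (univ.filter fun S => c S ≠ 0).Nonempty := by
      obtain ⟨S, hS⟩ := Function.ne_iff.1 hc
      exact ⟨S, by simpa using hS⟩
    obtain ⟨S0, hS0, hmax⟩ := Finset.exists_max_image _ (fun S => wt b (nat' S)) hne
    rw [Finset.mem_filter] at hS0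
    refine ⟨S0, hS0.2, ?_⟩
    have h1 : Tendsto (fun t : ℕ => ∑ S, c S * (mono b d 0 (nat' S) t / (t : ℝ) ^ wt b (nat' S0)))
        atTop (𝓝 (∑ S, if S = S0 then c S else 0)) := by
      refine tendsto_finsetSum _ fun S _ => ?_
      have hS := mono_tendsto (b := b) (d := d) 0 (nat' S)
      simp only [Nat.cast_zero, zero_add] at hS
      by_cases hi : S = S0
      · rw [if_pos hi, hi]
        rw [hi] at hS
        have h2 := hS.const_mul (c S0)
        rwa [mul_one] at h2
      · rw [if_neg hi]
        by_cases hci : c S = 0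
        · simp only [hci, zero_mul]
          exact tendsto_const_nhds
        · have hlt : wt b (nat' S) < wt b (nat' S0) :=
            lt_of_le_of_ne (hmax S (by simpa using hci)) fun h => hi (hinj h)
          have h2 : Tendsto (fun t : ℕ => ((t : ℝ)) ^ (-(wt b (nat' S0) - wt b (nat' S)))) atTop
              (𝓝 0) :=
            (tendsto_rpow_neg_atTop (sub_pos.2 hlt)).comp tendsto_natCast_atTop_atTop
          have h3 := (hS.mul h2).const_mul (c S)
          rw [mul_zero, mul_zero] at h3
          refine h3.congr' ?_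
          filter_upwards [eventually_gt_atTop 0] with t ht
          have ht0 : (0 : ℝ) < t := by exact_mod_cast ht
          rw [neg_sub, Real.rpow_sub ht0]
          have h4 : (t : ℝ) ^ wt b (nat' S) ≠ 0 := (Real.rpow_pos_of_pos ht0 _).ne'
          have h5 : (t : ℝ) ^ wt b (nat' S0) ≠ 0 := (Real.rpow_pos_of_pos ht0 _).ne'
          field_simp
    rw [Finset.sum_ite_eq' univ S0, if_pos (Finset.mem_univ _)] at h1
    refine h1.congr fun t => ?_
    rw [hg]
    simp only
    rw [Finset.sum_div]
    refine Finset.sum_congr rfl fun S _ => ?_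
    ring
  -- the space
  obtain ⟨U, hU⟩ : ∃ U : Submodule ℝ (ℕ → ℝ), U = Submodule.span ℝ
      (Set.range fun p : Fin (L + m) × ((i : Fin m) → Fin (b i)) =>
        mono b d p.1 (fun i => (p.2 i : ℕ))) := ⟨_, rfl⟩
  have hmem : ∀ (j : ℕ) (e : Fin m → ℕ), j < L → (∀ i, e i < 2 * b i) → mono b d j e ∈ U := by
    intro j e hj he
    rw [hU]
    refine mono_mem2 hb (L + m) _ j e he rfl ?_
    have : (univ.filter fun i => b i ≤ e i).card ≤ m := by
      refine (Finset.card_le_univ _).trans ?_
      rw [Fintype.card_fin]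
    omega
  have hfin : FiniteDimensional ℝ U := by
    rw [hU]
    exact FiniteDimensional.span_of_finite ℝ (Set.finite_range _)
  have hdim : Module.finrank ℝ U ≤ (L + m) * ∏ i, b i := by
    rw [hU]
    refine (finrank_range_le_card _).trans ?_
    rw [Fintype.card_prod, Fintype.card_fin, Fintype.card_pi]
    simp
  -- evaluation
  let Ev : U →ₗ[ℝ] (T → ℝ) := (LinearMap.funLeft ℝ ℝ (fun t : T => (t : ℕ))).comp U.subtype
  have hEv : ∀ (u : U) (t : T), Ev u t = (u : ℕ → ℝ) t := fun u t => rfl
  have hpoly : ∀ p : Polynomial ℝ, p.natDegree < L + m → (fun t : ℕ => p.eval (t : ℝ)) ∈ U := by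
    intro p hp
    have h1 : (fun t : ℕ => p.eval (t : ℝ)) =
        ∑ j ∈ Finset.range (L + m), p.coeff j • mono b d j (fun _ => 0) := by
      funext t
      rw [Polynomial.eval_eq_sum_range' hp, Finset.sum_apply]
      refine Finset.sum_congr rfl fun j _ => ?_
      rw [Pi.smul_apply, smul_eq_mul]
      unfold mono
      simp
    rw [h1]
    refine Submodule.sum_mem _ fun j hj => Submodule.smul_mem _ _ ?_
    rw [Finset.mem_range] at hj
    rw [hU]
    refine mono_mem2 hb (L + m) 0 j (fun _ => 0) (fun i => by have := hb i; omega) ?_ (by omega)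
    rw [Finset.card_eq_zero, Finset.filter_eq_empty_iff]
    intro i _ h0
    have := hb i
    omega
  have hsurj : Function.Surjective Ev := by
    intro y
    by_cases hL0 : L = 0
    · have : IsEmpty T := by
        rw [hL0, eq_comm, Finset.card_eq_zero] at hL
        rw [hL]
        infer_instance
      exact ⟨0, Subsingleton.elim _ _⟩
    obtain ⟨p, hp⟩ : ∃ p : Polynomial ℝ, p = Lagrange.interpolate (univ : Finset T)
      (fun t : T => ((t : ℕ) : ℝ)) y := ⟨_, rfl⟩
    have hinjT : Set.InjOn (fun t : T => ((t : ℕ) : ℝ)) (univ : Finset T) := by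
      intro t _ t' _ htt
      exact Subtype.ext (Nat.cast_injective htt)
    have hdeg : p.natDegree < L + m := by
      have h1 := Lagrange.degree_interpolate_lt (r := y) hinjT
      rw [← hp, Finset.card_univ, Fintype.card_coe, ← hL] at h1
      by_cases hp0 : p = 0
      · rw [hp0, Polynomial.natDegree_zero]
        omega
      · have h2 := (Polynomial.natDegree_lt_iff_degree_lt hp0).2 h1
        omega
    refine ⟨⟨_, hpoly p hdeg⟩, ?_⟩
    funext t
    rw [hEv]
    show p.eval ((t : ℕ) : ℝ) = y t
    rw [hp]
    exact Lagrange.eval_interpolate_at_node y hinjT (Finset.mem_univ t)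
  -- the multiples of `g`
  have hgm : ∀ (j : ℕ) (e : Fin m → ℕ), (fun t => g t * mono b d j e t) =
      ∑ S, c S • mono b d j (fun i => e i + nat' S i) := by
    intro j e
    funext t
    rw [hg, Finset.sum_apply]
    simp only
    rw [Finset.sum_mul]
    refine Finset.sum_congr rfl fun S _ => ?_
    rw [Pi.smul_apply, smul_eq_mul]
    unfold mono
    simp only [pow_add, Finset.prod_mul_distrib, pow_zero]
    ring
  have hgU : ∀ p : Fin L × ((i : Fin m) → Fin (b i)),
      (fun t => g t * mono b d p.1 (fun i => (p.2 i : ℕ)) t) ∈ U := by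
    intro p
    rw [hgm]
    refine Submodule.sum_mem _ fun S _ => Submodule.smul_mem _ _ (hmem _ _ p.1.2 fun i => ?_)
    have h1 := (p.2 i).2
    have h2 := hindb S i
    omega
  have hgker : ∀ p : Fin L × ((i : Fin m) → Fin (b i)),
      (⟨_, hgU p⟩ : U) ∈ LinearMap.ker Ev := by
    intro p
    rw [LinearMap.mem_ker]
    funext t
    rw [hEv]
    show g t * _ = 0
    have h1 := h t t.2
    have h2 : g t = 0 := by
      rw [hg]
      exact h1
    rw [h2, zero_mul]
  let G : Fin L × ((i : Fin m) → Fin (b i)) → LinearMap.ker Ev := fun p => ⟨⟨_, hgU p⟩, hgker p⟩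
  have hG : ∀ p t, ((G p : U) : ℕ → ℝ) t = g t * mono b d p.1 (fun i => (p.2 i : ℕ)) t :=
    fun p t => rfl
  have hind0 : LinearIndependent ℝ (fun p : Fin L × ((i : Fin m) → Fin (b i)) =>
      (fun t => g t * mono b d p.1 (fun i => (p.2 i : ℕ)) t : ℕ → ℝ)) := by
    rw [Fintype.linearIndependent_iff]
    intro a ha
    have h1 : a = 0 := by
      refine growth_indep (fun p : Fin L × ((i : Fin m) → Fin (b i)) =>
        wt b (nat' S0) + (((p.1 : ℕ) : ℝ) + wt b (fun i => (p.2 i : ℕ)))) ?_
        (fun p t => g t * mono b d p.1 (fun i => (p.2 i : ℕ)) t) (κ := c S0) hS0 ?_ a ?_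
      · intro p p' hpp
        have h2 := wt_inj (j := p.1) (j' := p'.1) (e := fun i => (p.2 i : ℕ))
          (e' := fun i => (p'.2 i : ℕ)) hb hco (fun i => (p.2 i).2) (fun i => (p'.2 i).2)
          (by simpa using hpp)
        refine Prod.ext (Fin.ext h2.1) ?_
        funext i
        exact Fin.ext (congrFun h2.2 i)
      · intro p
        have h2 := hlead.mul (mono_tendsto (b := b) (d := d) p.1 (fun i => (p.2 i : ℕ)))
        rw [mul_one] at h2
        refine h2.congr' ?_
        filter_upwards [eventually_gt_atTop 0] with t ht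
        have ht0 : (0 : ℝ) < t := by exact_mod_cast ht
        rw [Real.rpow_add ht0 (wt b (nat' S0)), mul_div_mul_comm]
      · refine Filter.Eventually.of_forall fun t => ?_
        have h2 := congrFun ha t
        rw [Finset.sum_apply] at h2
        exact h2
    intro p
    rw [h1]
    rfl
  have hind : LinearIndependent ℝ G :=
    LinearIndependent.of_comp (U.subtype.comp (LinearMap.ker Ev).subtype) hind0
  have hcardG := hind.fintype_card_le_finrank
  have hrn := LinearMap.finrank_range_add_finrank_ker Ev
  rw [LinearMap.range_eq_top.2 hsurj, finrank_top, Module.finrank_fintype_fun_eq_card,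
    Fintype.card_coe, ← hL] at hrn
  rw [Fintype.card_prod, Fintype.card_fin, Fintype.card_pi] at hcardG
  simp only [Fintype.card_fin] at hcardG
  rw [add_mul] at hdim
  rw [← hL]
  omega

end

end Pool.Agent.Run7.h880
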