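import Mathlib
import Pool.Agent.Run7.h880.Interp2

/-!
Counting the integers `t` for which all `t + d i` are perfect powers with large coprime exponents,
by the determinant method with all products of powers with exponents smaller than `E`.
-/

set_option autoImplicit false

namespace Pool.Agent.Run7.h880

open Finset

theorem count_pts2 {m E : ℕ} {b d : Fin m → ℕ} (hm : 1 ≤ m) (hE2 : 2 ≤ E)
    (hE : ∀ i, E ≤ b i) (hb : ∀ i, 2 ≤ b i)
    (hco : Pairwise fun i j => Nat.Coprime (b i) (b j)) (hw : ∑ i, ((E - 1 : ℕ) : ℝ) / b i ≤ 1 / 2)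
    {X q : ℕ} {Y : ℝ} (hX : 1 ≤ X) (hq : 1 ≤ q) (hY1 : 1 ≤ Y)
    (hY : ∀ i, ((2 * X : ℕ) : ℝ) + d i ≤ Y)
    (hqY : (3 * ((E : ℝ) ^ m) ^ 4) * Y < (q : ℝ) ^ (E ^ m)) (T : Finset ℕ)
    (hT : ∀ t ∈ T, 1 ≤ t ∧ t ≤ 2 * X ∧ ∀ i, ∃ x : ℕ, x ^ b i = t + d i) :
    T.card ≤ ((Nat.log 2 X + 2) * (2 * q)) * (m * ∏ i, b i) := by
  classical
  obtain ⟨f, hf⟩ : ∃ f : ℕ → ℕ × ℕ, f = fun t =>
    (Nat.log 2 t, ((t - 2 ^ Nat.log 2 t) * (2 * q)) / 2 ^ Nat.log 2 t) := ⟨_, rfl⟩
  have hlt : ∀ t ∈ T, 2 ^ Nat.log 2 t ≤ t ∧ t < 2 ^ (Nat.log 2 t + 1) := by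
    intro t ht
    have h1 := (hT t ht).1
    exact ⟨Nat.pow_log_le_self 2 (by omega), Nat.lt_pow_succ_log_self (by norm_num) t⟩
  refine (Finset.card_le_mul_card_image (f := f) T (m * ∏ i, b i) ?_).trans ?_
  · rintro ⟨j, i⟩ hji
    have hqR : (1 : ℝ) ≤ q := by exact_mod_cast hq
    have hj0 : (0 : ℝ) < 2 ^ j := by positivity
    have hcls : ∀ t ∈ T.filter (fun t => f t = (j, i)),
        (2 : ℝ) ^ j + 2 ^ j * i / (2 * q) ≤ t ∧
          (t : ℝ) ≤ (2 : ℝ) ^ j + 2 ^ j * i / (2 * q) + 2 ^ j / (2 * q) := by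
      intro t ht
      rw [mem_filter] at ht
      obtain ⟨htT, htf⟩ := ht
      rw [hf] at htf
      simp only [Prod.mk.injEq] at htf
      obtain ⟨e1, e2⟩ := htf
      rw [e1] at e2
      obtain ⟨g1, g2⟩ := hlt t htT
      rw [e1] at g1 g2
      have hp : 0 < 2 ^ j := by positivity
      have h1 : i * 2 ^ j ≤ (t - 2 ^ j) * (2 * q) := by
        rw [← e2]
        exact Nat.div_mul_le_self _ _
      have h2 : (t - 2 ^ j) * (2 * q) < (i + 1) * 2 ^ j := by
        have := Nat.lt_div_mul_add hp (a := (t - 2 ^ j) * (2 * q))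
        rw [e2] at this
        calc (t - 2 ^ j) * (2 * q) < i * 2 ^ j + 2 ^ j := this
          _ = (i + 1) * 2 ^ j := by ring
      have h1' : (i : ℝ) * 2 ^ j ≤ ((t : ℝ) - 2 ^ j) * (2 * q) := by
        have := (Nat.cast_le (α := ℝ)).2 h1
        push_cast [Nat.cast_sub g1] at this
        exact this
      have h2' : ((t : ℝ) - 2 ^ j) * (2 * q) ≤ ((i : ℝ) + 1) * 2 ^ j := by
        have := (Nat.cast_le (α := ℝ)).2 h2.le
        push_cast [Nat.cast_sub g1] at this
        exact this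
      constructor
      · have h3 : (2 : ℝ) ^ j * i / (2 * q) ≤ (t : ℝ) - 2 ^ j := by
          rw [div_le_iff₀ (by positivity)]
          linarith
        linarith
      · have h3 : (t : ℝ) - 2 ^ j ≤ (2 : ℝ) ^ j * (i + 1) / (2 * q) := by
          rw [le_div_iff₀ (by positivity)]
          linarith
        have h4 : (2 : ℝ) ^ j * (i + 1) / (2 * q) = 2 ^ j * i / (2 * q) + 2 ^ j / (2 * q) := by ring
        linarith
    obtain ⟨t₀, ht₀⟩ : ∃ t₀ : ℝ, t₀ = (2 : ℝ) ^ j + 2 ^ j * i / (2 * q) := ⟨_, rfl⟩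
    have ht₀j : (2 : ℝ) ^ j ≤ t₀ := by
      rw [ht₀]
      have : (0 : ℝ) ≤ 2 ^ j * i / (2 * q) := by positivity
      linarith
    rcases (T.filter (fun t => f t = (j, i))).eq_empty_or_nonempty with h0 | ⟨t1, ht1⟩
    · rw [h0, card_empty]
      exact Nat.zero_le _
    refine few_points2 (d := d) (t₀ := t₀) (Y := Y) (q := q) hm hE2 hE hb hco hw hq (by linarith) hY1 ?_
      hqY _ ?_
    · intro i'
      have h1 := (hcls t1 ht1).1
      rw [← ht₀] at h1
      have h2 : (t1 : ℝ) ≤ ((2 * X : ℕ) : ℝ) := by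
        exact_mod_cast (hT t1 (mem_filter.1 ht1).1).2.1
      have := hY i'
      linarith
    · intro t ht
      obtain ⟨h1, h2⟩ := hcls t ht
      rw [← ht₀] at h1 h2
      refine ⟨?_, (hT t (mem_filter.1 ht).1).2.2⟩
      rw [abs_of_nonneg (by linarith)]
      have h3 : (2 : ℝ) ^ j / (2 * q) ≤ t₀ / (2 * q) :=
        div_le_div_of_nonneg_right ht₀j (by positivity)
      linarith
  · rw [mul_comm]
    refine Nat.mul_le_mul_right _ ?_
    have hsub : T.image f ⊆ range (Nat.log 2 X + 2) ×ˢ range (2 * q) := by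
      intro p hp
      rw [mem_image] at hp
      obtain ⟨t, ht, rfl⟩ := hp
      rw [hf]
      simp only [mem_product, mem_range]
      obtain ⟨g1, g2⟩ := hlt t ht
      constructor
      · have h1 : Nat.log 2 t ≤ Nat.log 2 (2 * X) := Nat.log_mono_right (hT t ht).2.1
        rw [mul_comm, Nat.log_mul_base (by norm_num) (by omega)] at h1
        omega
      · rw [Nat.div_lt_iff_lt_mul (by positivity)]
        rw [mul_comm (2 * q)]
        refine Nat.mul_lt_mul_of_pos_right ?_ (by omega)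
        rw [pow_succ] at g2
        omega
    refine (Finset.card_le_card hsub).trans ?_
    rw [card_product, card_range, card_range]


end Pool.Agent.Run7.h880
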