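import Mathlib

/-!
The number of ideals of bounded norm, and elements of small norm in an ideal.
-/

set_option autoImplicit false

namespace Pool.Agent.Run7.h880

open NumberField Module Ideal

theorem card_ideals_eq (K : Type) [Field K] [NumberField K] {n : ℕ} (hn : 1 ≤ n)
    (s : Finset (Ideal (𝓞 K))) (hs : ∀ J ∈ s, absNorm J = n) : s.card ≤ n ^ finrank ℚ K := by
  classical
  have hn0 : ((n : ℕ) : 𝓞 K) ≠ 0 := Nat.cast_ne_zero.2 (by omega)
  have hsp0 : span {((n : ℕ) : 𝓞 K)} ≠ ⊥ := by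
    rw [Ne, span_singleton_eq_bot]
    exact hn0
  have hex : ∀ J : Ideal (𝓞 K), J ∈ s → ∃ γ : 𝓞 K, span {((n : ℕ) : 𝓞 K)} ⊔ span {γ} = J := by
    intro J hJ
    refine IsDedekindDomain.exists_sup_span_eq ?_ hsp0
    rw [span_singleton_le_iff_mem, ← hs J hJ]
    exact absNorm_mem J
  choose! γ hγ using hex
  have hfin : Finite (𝓞 K ⧸ span {((n : ℕ) : 𝓞 K)}) :=
    Ideal.finiteQuotientOfFreeOfNeBot _ hsp0
  have hcard : Nat.card (𝓞 K ⧸ span {((n : ℕ) : 𝓞 K)}) = n ^ finrank ℚ K := by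
    have h1 := absNorm_span_natCast (S := 𝓞 K) n
    rw [RingOfIntegers.rank] at h1
    exact h1
  have : Fintype (𝓞 K ⧸ span {((n : ℕ) : 𝓞 K)}) := Fintype.ofFinite _
  rw [← hcard, Nat.card_eq_fintype_card, ← Finset.card_univ]
  refine Finset.card_le_card_of_injOn (fun J => Ideal.Quotient.mk (span {((n : ℕ) : 𝓞 K)}) (γ J))
    (fun J _ => Finset.mem_coe.2 (Finset.mem_univ _)) ?_
  intro J hJ J' hJ' h
  have h1 : γ J - γ J' ∈ span {((n : ℕ) : 𝓞 K)} := Ideal.Quotient.eq.1 h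
  rw [← hγ J hJ, ← hγ J' hJ']
  have key : ∀ x y : 𝓞 K, x - y ∈ span {((n : ℕ) : 𝓞 K)} →
      span {((n : ℕ) : 𝓞 K)} ⊔ span {x} ≤ span {((n : ℕ) : 𝓞 K)} ⊔ span {y} := by
    intro x y hxy
    refine sup_le le_sup_left ?_
    rw [span_singleton_le_iff_mem]
    have e : x = (x - y) + y := by ring
    rw [e]
    exact Submodule.add_mem_sup hxy (mem_span_singleton_self y)
  refine le_antisymm (key _ _ h1) (key _ _ ?_)
  rw [← neg_sub]
  exact neg_mem h1

theorem card_ideals_le (K : Type) [Field K] [NumberField K] (M : ℕ)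
    (s : Finset (Ideal (𝓞 K))) (hs : ∀ J ∈ s, 1 ≤ absNorm J ∧ absNorm J ≤ M) :
    s.card ≤ M ^ (finrank ℚ K + 1) := by
  classical
  have h1 : s.card = ∑ n ∈ Finset.Icc 1 M, (s.filter fun J => absNorm J = n).card := by
    rw [Finset.card_eq_sum_card_fiberwise (f := fun J => absNorm J) (t := Finset.Icc 1 M)]
    intro J hJ
    rw [Finset.mem_coe, Finset.mem_Icc]
    exact hs J hJ
  rw [h1]
  calc ∑ n ∈ Finset.Icc 1 M, (s.filter fun J => absNorm J = n).card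
      ≤ ∑ n ∈ Finset.Icc 1 M, M ^ finrank ℚ K := by
        refine Finset.sum_le_sum fun n hn => ?_
        rw [Finset.mem_Icc] at hn
        refine (card_ideals_eq K hn.1 _ fun J hJ => (Finset.mem_filter.1 hJ).2).trans ?_
        exact Nat.pow_le_pow_left hn.2 _
    _ = M ^ (finrank ℚ K + 1) := by
        rw [Finset.sum_const, Nat.card_Icc, smul_eq_mul, pow_succ, mul_comm]
        rfl

/-- the norm as the product of the absolute values of the conjugates -/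
theorem absNorm_span_eq (K : Type) [Field K] [NumberField K] (β : 𝓞 K) :
    ((absNorm (span {β}) : ℕ) : ℝ) = ∏ σ : K →ₐ[ℚ] ℂ, ‖σ (β : K)‖ := by
  rw [absNorm_span_singleton]
  have h4 := Algebra.norm_eq_prod_embeddings ℚ ℂ (β : K)
  rw [← norm_prod, ← h4, ← Algebra.coe_norm_int]
  simp only [eq_ratCast, Rat.cast_intCast, Complex.norm_intCast]
  rw [← Int.cast_abs, Int.abs_eq_natAbs, Int.cast_natCast]

theorem norm_abs_eq (K : Type) [Field K] [NumberField K] (β : 𝓞 K) :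
    |((Algebra.norm ℚ (β : K) : ℚ) : ℝ)| = ((absNorm (span {β}) : ℕ) : ℝ) := by
  rw [absNorm_span_singleton, ← Algebra.coe_norm_int]
  rw [Rat.cast_intCast, ← Int.cast_abs, Int.abs_eq_natAbs, Int.cast_natCast]

/-- a small element of an ideal -/
theorem small_elt {K : Type} [Field K] [NumberField K] {a : ℕ} (hK : finrank ℚ K = a)
    {α : 𝓞 K} {D : ℕ} (hD : 1 ≤ D) (hα : ∀ σ : K →ₐ[ℚ] ℂ, ∀ i < a, ‖σ (α : K)‖ ^ i ≤ D)
    (hli : LinearIndependent ℚ fun i : Fin a => (α : K) ^ (i : ℕ))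
    (b : Ideal (𝓞 K)) (hb : b ≠ ⊥) :
    ∃ β ∈ b, β ≠ 0 ∧ absNorm (span {β}) ≤ (a * D) ^ a * absNorm b := by
  classical
  have ha1 : 1 ≤ a := by
    rw [← hK]
    exact finrank_pos
  obtain ⟨Nb, hNb⟩ : ∃ Nb, Nb = absNorm b := ⟨_, rfl⟩
  have hNb0 : Nb ≠ 0 := by
    rw [hNb, Ne, absNorm_eq_zero_iff]
    exact hb
  obtain ⟨n, hn1, hn2⟩ : ∃ n : ℕ, n ^ a ≤ Nb ∧ Nb < (n + 1) ^ a := by
    refine ⟨Nat.findGreatest (fun n => n ^ a ≤ Nb) Nb, ?_, ?_⟩
    · exact Nat.findGreatest_spec (P := fun n => n ^ a ≤ Nb) (m := 0) (Nat.zero_le _)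
        (by rw [zero_pow (by omega)]; exact Nat.zero_le _)
    · by_contra hcon
      push Not at hcon
      have h1 : Nat.findGreatest (fun n => n ^ a ≤ Nb) Nb + 1 ≤ Nb :=
        le_trans (Nat.le_self_pow (by omega) _) hcon
      have h2 := Nat.le_findGreatest (P := fun n => n ^ a ≤ Nb) h1 hcon
      omega
  have hfin : Finite (𝓞 K ⧸ b) := Ideal.finiteQuotientOfFreeOfNeBot _ hb
  have : Fintype (𝓞 K ⧸ b) := Fintype.ofFinite _
  have hcard : Fintype.card (𝓞 K ⧸ b) = Nb := by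
    rw [hNb, ← Nat.card_eq_fintype_card]
    rfl
  let φ : (Fin a → Fin (n + 1)) → 𝓞 K ⧸ b := fun c =>
    Ideal.Quotient.mk b (∑ i : Fin a, ((c i : ℕ) : 𝓞 K) * α ^ (i : ℕ))
  obtain ⟨c, c', hcc, hφ⟩ := Fintype.exists_ne_map_eq_of_card_lt φ (by
    rw [hcard, Fintype.card_fun, Fintype.card_fin, Fintype.card_fin]
    exact hn2)
  obtain ⟨e, he⟩ : ∃ e : Fin a → ℤ, e = fun i => ((c i : ℕ) : ℤ) - ((c' i : ℕ) : ℤ) := ⟨_, rfl⟩
  have hmem : ∑ i : Fin a, ((e i : ℤ) : 𝓞 K) * α ^ (i : ℕ) ∈ b := by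
    have h1 := Ideal.Quotient.eq.1 hφ
    have e1 : ∑ i : Fin a, ((c i : ℕ) : 𝓞 K) * α ^ (i : ℕ) -
        ∑ i : Fin a, ((c' i : ℕ) : 𝓞 K) * α ^ (i : ℕ) =
        ∑ i : Fin a, ((e i : ℤ) : 𝓞 K) * α ^ (i : ℕ) := by
      rw [← Finset.sum_sub_distrib]
      refine Finset.sum_congr rfl fun i _ => ?_
      rw [he]
      push_cast
      ring
    rwa [e1] at h1
  refine ⟨_, hmem, ?_, ?_⟩
  · intro h0
    apply hcc
    have h1 : ∑ i : Fin a, (e i : ℚ) • ((α : K) ^ (i : ℕ)) = 0 := by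
      have h2 := congrArg (algebraMap (𝓞 K) K) h0
      rw [map_sum, map_zero] at h2
      rw [← h2]
      refine Finset.sum_congr rfl fun i _ => ?_
      rw [map_mul, map_pow, map_intCast, Algebra.smul_def]
      simp
    have h3 := Fintype.linearIndependent_iff.1 hli (fun i => (e i : ℚ)) h1
    funext i
    have h4 := h3 i
    have h5 : e i = 0 := by exact_mod_cast h4
    rw [he] at h5
    apply Fin.ext
    have h6 : ((c i : ℕ) : ℤ) = ((c' i : ℕ) : ℤ) := by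
      simp only at h5
      linarith
    exact_mod_cast h6
  · have hσ : ∀ σ : K →ₐ[ℚ] ℂ,
        ‖σ ((∑ i : Fin a, ((e i : ℤ) : 𝓞 K) * α ^ (i : ℕ) : 𝓞 K) : K)‖ ≤ (n : ℝ) * (a * D) := by
      intro σ
      have e1 : σ ((∑ i : Fin a, ((e i : ℤ) : 𝓞 K) * α ^ (i : ℕ) : 𝓞 K) : K) =
          ∑ i : Fin a, ((e i : ℤ) : ℂ) * (σ (α : K)) ^ (i : ℕ) := by
        have e0 : ((∑ i : Fin a, ((e i : ℤ) : 𝓞 K) * α ^ (i : ℕ) : 𝓞 K) : K) =
            ∑ i : Fin a, ((e i : ℤ) : K) * (α : K) ^ (i : ℕ) := by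
          change algebraMap (𝓞 K) K _ = _
          rw [map_sum]
          refine Finset.sum_congr rfl fun i _ => ?_
          rw [map_mul, map_pow, map_intCast]
        rw [e0, map_sum]
        refine Finset.sum_congr rfl fun i _ => ?_
        rw [map_mul, map_pow, map_intCast]
      rw [e1]
      refine (norm_sum_le _ _).trans ?_
      have h1 : ∀ i ∈ (Finset.univ : Finset (Fin a)),
          ‖((e i : ℤ) : ℂ) * (σ (α : K)) ^ (i : ℕ)‖ ≤ (n : ℝ) * D := by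
        intro i _
        rw [norm_mul, norm_pow, Complex.norm_intCast]
        refine mul_le_mul ?_ (hα σ i i.2) (by positivity) (Nat.cast_nonneg _)
        have h2 : |e i| ≤ (n : ℤ) := by
          have c1 := (c i).2
          have c2 := (c' i).2
          rw [he]
          simp only
          rw [abs_le]
          constructor <;> omega
        exact_mod_cast h2
      refine (Finset.sum_le_sum h1).trans (le_of_eq ?_)
      rw [Finset.sum_const, Finset.card_univ, Fintype.card_fin, nsmul_eq_mul]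
      ring
    have h1 : ((absNorm (span {(∑ i : Fin a, ((e i : ℤ) : 𝓞 K) * α ^ (i : ℕ) : 𝓞 K)}) : ℕ) : ℝ) ≤
        ((n : ℝ) * (a * D)) ^ a := by
      rw [absNorm_span_eq]
      have hc : Fintype.card (K →ₐ[ℚ] ℂ) = a := by
        rw [← hK]
        exact AlgHom.card ℚ K ℂ
      calc ∏ σ : K →ₐ[ℚ] ℂ, ‖σ ((∑ i : Fin a, ((e i : ℤ) : 𝓞 K) * α ^ (i : ℕ) : 𝓞 K) : K)‖
          ≤ ∏ _σ : K →ₐ[ℚ] ℂ, ((n : ℝ) * (a * D)) :=
            Finset.prod_le_prod (fun σ _ => norm_nonneg _) fun σ _ => hσ σ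
        _ = ((n : ℝ) * (a * D)) ^ a := by
            rw [Finset.prod_const, Finset.card_univ, hc]
    have h2 : absNorm (span {(∑ i : Fin a, ((e i : ℤ) : 𝓞 K) * α ^ (i : ℕ) : 𝓞 K)}) ≤
        (n * (a * D)) ^ a := by exact_mod_cast h1
    refine h2.trans ?_
    rw [mul_pow, mul_comm, ← hNb]
    exact Nat.mul_le_mul_left _ hn1

end Pool.Agent.Run7.h880
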