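import Mathlib
import Pool.Agent.Run7.h880.IdealCnt

/-!
The ideals attached to a solution of `x ^ a - d = y ^ l`.
-/

set_option autoImplicit false

namespace Pool.Agent.Run7.h880

open NumberField Module Ideal

theorem ideal_pow {K : Type} [Field K] [NumberField K] {a : ℕ} {α : 𝓞 K} {d : ℤ}
    (ha : 1 ≤ a) (hα : α ^ a = (d : 𝓞 K)) {x y : ℤ} {l : ℕ} (hxy : x ^ a - d = y ^ l)
    (hco : IsCoprime y (a * d)) : ∃ b : Ideal (𝓞 K), span {(x : 𝓞 K) - α} = b ^ l := by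
  classical
  obtain ⟨h, hh⟩ : ∃ h : 𝓞 K, h = ∑ j ∈ Finset.range a, (x : 𝓞 K) ^ j * α ^ (a - 1 - j) := ⟨_, rfl⟩
  have e1 : ((x : 𝓞 K) - α) * h = (y : 𝓞 K) ^ l := by
    rw [mul_comm, hh, geom_sum₂_mul, hα]
    exact_mod_cast congrArg (fun z : ℤ => (z : 𝓞 K)) hxy
  have e2 : ((x : 𝓞 K) - α) ∣ h - (a : 𝓞 K) * α ^ (a - 1) := by
    have e3 : (a : 𝓞 K) * α ^ (a - 1) = ∑ j ∈ Finset.range a, α ^ j * α ^ (a - 1 - j) := by
      rw [Finset.sum_congr rfl (g := fun _ => α ^ (a - 1))]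
      · rw [Finset.sum_const, Finset.card_range, nsmul_eq_mul]
      · intro j hj
        rw [Finset.mem_range] at hj
        rw [← pow_add]
        congr 1
        omega
    rw [hh, e3, ← Finset.sum_sub_distrib]
    refine Finset.dvd_sum fun j _ => ?_
    rw [← sub_mul]
    exact Dvd.dvd.mul_right (sub_dvd_pow_sub_pow _ _ _) _
  obtain ⟨g, hg⟩ := e2
  have hco2 : IsCoprime ((x : 𝓞 K) - α) h := by
    obtain ⟨r, s, hrs⟩ := IsCoprime.pow_left (m := l) hco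
    have hrs' : (r : 𝓞 K) * (y : 𝓞 K) ^ l + (s : 𝓞 K) * ((a : 𝓞 K) * (d : 𝓞 K)) = 1 := by
      exact_mod_cast congrArg (fun z : ℤ => (z : 𝓞 K)) hrs
    have e4 : (a : 𝓞 K) * (d : 𝓞 K) = α * (h - ((x : 𝓞 K) - α) * g) := by
      rw [← hg, ← hα]
      obtain ⟨a', rfl⟩ : ∃ a', a = a' + 1 := ⟨a - 1, by omega⟩
      rw [Nat.add_sub_cancel, pow_succ]
      ring
    rw [← e1, e4] at hrs'
    refine ⟨-(s : 𝓞 K) * α * g, (r : 𝓞 K) * ((x : 𝓞 K) - α) + (s : 𝓞 K) * α, ?_⟩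
    linear_combination hrs'
  have hco3 : IsCoprime (span {(x : 𝓞 K) - α}) (span {h}) := by
    rw [Ideal.isCoprime_span_singleton_iff]
    exact hco2
  have e5 : span {(x : 𝓞 K) - α} * span {h} = (span {(y : 𝓞 K)}) ^ l := by
    rw [span_singleton_mul_span_singleton, e1, span_singleton_pow]
  exact exists_eq_pow_of_mul_eq_pow_of_coprime hco3 e5

/-- the data attached to a solution -/
def Dat (K : Type) [Field K] [NumberField K] (α : 𝓞 K) (a l M x : ℕ) (J : Ideal (𝓞 K))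
    (β : 𝓞 K) : Prop :=
  β ≠ 0 ∧ 1 ≤ absNorm J ∧ absNorm J ≤ M ∧ span {(x : 𝓞 K) - α} * J ^ l = span {β} ^ l ∧
    absNorm (span {β}) ^ l ≤ M ^ l * (2 * x) ^ a

theorem exists_dat {K : Type} [Field K] [NumberField K] {a : ℕ} (hK : finrank ℚ K = a)
    {α : 𝓞 K} {d : ℤ} {D : ℕ} (hα : α ^ a = (d : 𝓞 K))
    (hαD : ∀ σ : K →ₐ[ℚ] ℂ, ∀ i ≤ a, ‖σ (α : K)‖ ^ i ≤ D)
    (hli : LinearIndependent ℚ fun i : Fin a => (α : K) ^ (i : ℕ))
    {x : ℕ} {y : ℤ} {l : ℕ} (hl : 1 ≤ l) (hxy : (x : ℤ) ^ a - d = y ^ l)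
    (hco : IsCoprime y (a * d)) (hxD : D ≤ x) (hxα : (x : 𝓞 K) - α ≠ 0) :
    ∃ J β, Dat K α a l ((a * D) ^ a) x J β := by
  classical
  have ha1 : 1 ≤ a := by
    rw [← hK]
    exact finrank_pos
  have hD : 1 ≤ D := by
    obtain ⟨σ⟩ : Nonempty (K →ₐ[ℚ] ℂ) := by
      rw [← Fintype.card_pos_iff, AlgHom.card ℚ K ℂ]
      exact finrank_pos
    have := hαD σ 0 (Nat.zero_le _)
    rw [pow_zero] at this
    exact_mod_cast this
  obtain ⟨b, hb⟩ := ideal_pow ha1 hα hxy hco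
  rw [Int.cast_natCast] at hb
  have hb0 : b ≠ ⊥ := by
    rintro rfl
    rw [← Ideal.zero_eq_bot, zero_pow (by omega), Ideal.zero_eq_bot, span_singleton_eq_bot] at hb
    exact hxα hb
  obtain ⟨β, hβb, hβ0, hβn⟩ := small_elt hK hD (fun σ i hi => hαD σ i hi.le) hli b hb0
  obtain ⟨J, hJ⟩ : b ∣ span {β} := by
    rw [Ideal.dvd_iff_le, span_singleton_le_iff_mem]
    exact hβb
  have hJ0 : J ≠ ⊥ := by
    rintro rfl
    rw [← Ideal.zero_eq_bot, mul_zero, Ideal.zero_eq_bot, span_singleton_eq_bot] at hJ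
    exact hβ0 hJ
  have hNb : 0 < absNorm b := Nat.pos_of_ne_zero (by rw [Ne, absNorm_eq_zero_iff]; exact hb0)
  have hNJ : 0 < absNorm J := Nat.pos_of_ne_zero (by rw [Ne, absNorm_eq_zero_iff]; exact hJ0)
  have hN : absNorm (span {β}) = absNorm b * absNorm J := by rw [hJ, map_mul]
  refine ⟨J, β, hβ0, hNJ, ?_, ?_, ?_⟩
  · rw [hN, mul_comm] at hβn
    exact Nat.le_of_mul_le_mul_right hβn hNb
  · rw [hb, ← mul_pow, hJ]
  · have h1 : absNorm b ^ l ≤ (2 * x) ^ a := by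
      rw [← map_pow, ← hb]
      have h2 := absNorm_span_eq K ((x : 𝓞 K) - α)
      have h3 : ((absNorm (span {(x : 𝓞 K) - α}) : ℕ) : ℝ) ≤ ((2 * x : ℕ) : ℝ) ^ a := by
        rw [h2]
        have hc : Fintype.card (K →ₐ[ℚ] ℂ) = a := by
          rw [← hK]
          exact AlgHom.card ℚ K ℂ
        calc ∏ σ : K →ₐ[ℚ] ℂ, ‖σ (((x : 𝓞 K) - α : 𝓞 K) : K)‖
            ≤ ∏ _σ : K →ₐ[ℚ] ℂ, ((2 * x : ℕ) : ℝ) := by
              refine Finset.prod_le_prod (fun σ _ => norm_nonneg _) fun σ _ => ?_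
              have e1 : σ (((x : 𝓞 K) - α : 𝓞 K) : K) = (x : ℂ) - σ (α : K) := by
                have e0 : (((x : 𝓞 K) - α : 𝓞 K) : K) = (x : K) - (α : K) := by
                  change algebraMap (𝓞 K) K _ = _
                  rw [map_sub, map_natCast]
                rw [e0, map_sub, map_natCast]
              rw [e1]
              refine (norm_sub_le _ _).trans ?_
              have h4 := hαD σ 1 ha1
              rw [pow_one] at h4
              have h5 : (D : ℝ) ≤ x := by exact_mod_cast hxD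
              rw [Complex.norm_natCast]
              push_cast
              linarith
          _ = ((2 * x : ℕ) : ℝ) ^ a := by rw [Finset.prod_const, Finset.card_univ, hc]
      exact_mod_cast h3
    calc absNorm (span {β}) ^ l ≤ ((a * D) ^ a * absNorm b) ^ l := Nat.pow_le_pow_left hβn _
      _ = ((a * D) ^ a) ^ l * absNorm b ^ l := mul_pow _ _ _
      _ ≤ _ := Nat.mul_le_mul_left _ h1

end Pool.Agent.Run7.h880
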