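import Mathlib

/-!
An integrality inequality: two algebraic integers of a number field whose quotient generates the field.
-/

set_option autoImplicit false

namespace Pool.Agent.Run7.h880

open Finset Module Matrix

theorem prod_pairs {n : ℕ} (g : Fin n → ℝ) :
    ∏ i : Fin n, ∏ j ∈ Ioi i, g i * g j = (∏ i, g i) ^ (n - 1) := by
  have h := prod_prod_Ioi_mul_eq_prod_prod_off_diag (α := Fin n) (fun _ j : Fin n => g j)
  have h1 : ∏ i : Fin n, ∏ j ∈ Ioi i, g i * g j = ∏ i : Fin n, ∏ _j ∈ ({i} : Finset (Fin n))ᶜ, g i := by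
    rw [← h]
  rw [h1, ← Finset.prod_pow]
  refine Finset.prod_congr rfl fun i _ => ?_
  rw [Finset.prod_const]
  congr 1
  rw [Finset.card_compl, Finset.card_singleton, Fintype.card_fin]

theorem disc_ineq {K : Type} [Field K] [NumberField K] {B B' : K} (hB : IsIntegral ℤ B)
    (hB' : IsIntegral ℤ B') (hn : 2 ≤ finrank ℚ K)
    (hne : ∀ σ τ : K →ₐ[ℚ] ℂ, σ ≠ τ → σ B * τ B' ≠ τ B * σ B') (η : ℝ) (hη : 0 ≤ η)
    (h : ∀ σ τ : K →ₐ[ℚ] ℂ, σ ≠ τ → ‖σ B * τ B' - τ B * σ B'‖ ≤ η * (‖σ B‖ * ‖τ B'‖)) :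
    1 ≤ η ^ finrank ℚ K * (|(Algebra.norm ℚ B : ℝ)| * |(Algebra.norm ℚ B' : ℝ)|) := by
  classical
  obtain ⟨n, hnn⟩ : ∃ n, n = finrank ℚ K := ⟨_, rfl⟩
  rw [← hnn] at hn ⊢
  have hcard : Fintype.card (K →ₐ[ℚ] ℂ) = n := by rw [hnn]; exact AlgHom.card ℚ K ℂ
  let e : Fin n ≃ (K →ₐ[ℚ] ℂ) := (Fintype.equivFinOfCardEq hcard).symm
  let b : Fin n → K := fun k => B ^ (k : ℕ) * B' ^ (k.rev : ℕ)
  have hmat : Algebra.embeddingsMatrixReindex ℚ ℂ b e =
      (Matrix.projVandermonde (fun i => e i B) (fun i => e i B'))ᵀ := by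
    ext i j
    simp only [Algebra.embeddingsMatrixReindex, Matrix.reindex_apply, Matrix.submatrix_apply,
      Algebra.embeddingsMatrix_apply, Matrix.transpose_apply, Matrix.projVandermonde_apply, b,
      map_mul, map_pow, Equiv.refl_symm, Equiv.coe_refl, id_eq, Equiv.symm_symm]
  have hdisc := Algebra.discr_eq_det_embeddingsMatrixReindex_pow_two ℚ ℂ b e
  rw [hmat, Matrix.det_transpose, Matrix.det_projVandermonde] at hdisc
  -- the discriminant is an integer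
  have hint : IsIntegral ℤ (Algebra.discr ℚ b) :=
    Algebra.discr_isIntegral ℚ fun i => (hB.pow _).mul (hB'.pow _)
  obtain ⟨z, hz⟩ := IsIntegrallyClosed.isIntegral_iff.1 hint
  have hz' : (algebraMap ℚ ℂ) (Algebra.discr ℚ b) = (z : ℂ) := by
    rw [← hz]
    simp
  rw [hz'] at hdisc
  have hz0 : z ≠ 0 := by
    intro h0
    rw [h0, Int.cast_zero] at hdisc
    have h1 := pow_eq_zero_iff (two_ne_zero) |>.1 hdisc.symm
    rw [Finset.prod_eq_zero_iff] at h1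
    obtain ⟨i, -, h1⟩ := h1
    rw [Finset.prod_eq_zero_iff] at h1
    obtain ⟨j, hj, h1⟩ := h1
    rw [Finset.mem_Ioi] at hj
    exact hne (e j) (e i) (fun h2 => hj.ne' (e.injective h2)) (sub_eq_zero.1 h1)
  have h1 : (1 : ℝ) ≤ ‖(z : ℂ)‖ := by
    rw [Complex.norm_intCast]
    exact_mod_cast Int.one_le_abs hz0
  rw [hdisc, norm_pow, norm_prod] at h1
  -- upper bound
  obtain ⟨g, hg⟩ : ∃ g : Fin n → ℝ, g = fun i => ‖e i B‖ * ‖e i B'‖ := ⟨_, rfl⟩
  have hgn : ∀ i, 0 ≤ g i := fun i => by rw [hg]; positivity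
  have h2 : (∏ i : Fin n, ‖∏ j ∈ Ioi i, (e j B * e i B' - e i B * e j B')‖) ^ 2 ≤
      ∏ i : Fin n, ∏ j ∈ Ioi i, (η ^ 2 * (g i * g j)) := by
    rw [← Finset.prod_pow]
    refine Finset.prod_le_prod (fun i _ => by positivity) fun i _ => ?_
    rw [norm_prod, ← Finset.prod_pow]
    refine Finset.prod_le_prod (fun j _ => by positivity) fun j hj => ?_
    rw [Finset.mem_Ioi] at hj
    have hne' : e j ≠ e i := fun h2 => hj.ne' (e.injective h2)
    have a1 := h (e j) (e i) hne'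
    have a2 := h (e i) (e j) hne'.symm
    rw [norm_sub_rev] at a2
    have a3 : ‖e j B * e i B' - e i B * e j B'‖ ^ 2 ≤
        (η * (‖e j B‖ * ‖e i B'‖)) * (η * (‖e i B‖ * ‖e j B'‖)) := by
      rw [pow_two]
      exact mul_le_mul a1 a2 (norm_nonneg _) (by positivity)
    refine a3.trans (le_of_eq ?_)
    rw [hg]
    ring
  have h3 : ∏ i : Fin n, ∏ j ∈ Ioi i, (η ^ 2 * (g i * g j)) =
      (η ^ n * ∏ i, g i) ^ (n - 1) := by
    have e1 : ∀ i : Fin n, ∏ j ∈ Ioi i, (η ^ 2 * (g i * g j)) =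
        ∏ j ∈ Ioi i, ((η * g i) * (η * g j)) := fun i =>
      Finset.prod_congr rfl fun j _ => by ring
    simp only [e1]
    rw [prod_pairs (fun i => η * g i), Finset.prod_mul_distrib, Finset.prod_const,
      Finset.card_univ, Fintype.card_fin]
  have hnorm : ∀ x : K, ∏ i : Fin n, ‖e i x‖ = |(Algebra.norm ℚ x : ℝ)| := by
    intro x
    have h4 := Algebra.norm_eq_prod_embeddings ℚ ℂ x
    have h5 : ∏ i : Fin n, ‖e i x‖ = ∏ σ : K →ₐ[ℚ] ℂ, ‖σ x‖ :=
      Fintype.prod_equiv e _ _ fun i => rfl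
    rw [h5, ← norm_prod, ← h4]
    simp
  have h6 : ∏ i, g i = |(Algebra.norm ℚ B : ℝ)| * |(Algebra.norm ℚ B' : ℝ)| := by
    rw [hg, Finset.prod_mul_distrib, hnorm, hnorm]
  rw [h3, h6] at h2
  by_contra hcon
  push Not at hcon
  have h7 : (η ^ n * (|(Algebra.norm ℚ B : ℝ)| * |(Algebra.norm ℚ B' : ℝ)|)) ^ (n - 1) < 1 :=
    pow_lt_one₀ (by positivity) hcon (by omega)
  linarith

end Pool.Agent.Run7.h880
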