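import Mathlib
import Pool.Agent.Run7.h880.Disc

/-!
Two solutions in the same class.
-/

set_option autoImplicit false

namespace Pool.Agent.Run7.h880

open Module

/-- the principal `l`-th root -/
noncomputable def rt (l : ℕ) (z : ℂ) : ℂ := Complex.exp (Complex.log z / l)

theorem rt_pow {l : ℕ} (hl : 1 ≤ l) {z : ℂ} (hz : z ≠ 0) : rt l z ^ l = z := by
  unfold rt
  have hl0 : (l : ℂ) ≠ 0 := Nat.cast_ne_zero.2 (by omega)
  rw [← Complex.exp_nat_mul, mul_div_cancel₀ _ hl0, Complex.exp_log hz]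

theorem rt_close {l : ℕ} (hl : 1 ≤ l) {w : ℂ} (hw : ‖w‖ ≤ 1 / 4) : ‖rt l (1 + w) - 1‖ ≤ 4 * ‖w‖ := by
  have h1 := Complex.norm_log_one_add_half_le_self (z := w) (by linarith)
  have hl1 : (1 : ℝ) ≤ l := by exact_mod_cast hl
  have h2 : ‖Complex.log (1 + w) / l‖ ≤ 3 / 2 * ‖w‖ := by
    rw [norm_div, Complex.norm_natCast]
    exact (div_le_self (norm_nonneg _) hl1).trans h1
  have h3 : ‖Complex.log (1 + w) / l‖ ≤ 1 := by
    have := norm_nonneg w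
    linarith
  have h4 := Complex.norm_exp_sub_one_le h3
  unfold rt
  have := norm_nonneg w
  linarith

theorem ratio_close {R₁ R₂ R₃ R₄ : ℂ} {e : ℝ} (he : e ≤ 1 / 4) (h1 : ‖R₁ - 1‖ ≤ e)
    (h2 : ‖R₂ - 1‖ ≤ e) (h3 : ‖R₃ - 1‖ ≤ e) (h4 : ‖R₄ - 1‖ ≤ e) :
    ‖R₁ * R₂ - R₃ * R₄‖ ≤ 8 * e * (‖R₁‖ * ‖R₂‖) := by
  have e0 : 0 ≤ e := (norm_nonneg _).trans h1
  have n : ∀ R : ℂ, ‖R - 1‖ ≤ e → ‖R‖ ≤ 5 / 4 ∧ 3 / 4 ≤ ‖R‖ := by
    intro R hR
    have a1 : ‖R‖ ≤ ‖R - 1‖ + ‖(1 : ℂ)‖ := by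
      have := norm_add_le (R - 1) 1
      rwa [sub_add_cancel] at this
    have a2 : ‖(1 : ℂ)‖ ≤ ‖R‖ + ‖R - 1‖ := by
      have := norm_sub_le R (R - 1)
      rwa [sub_sub_cancel] at this
    rw [norm_one] at a1 a2
    constructor <;> linarith
  have e1 : R₁ * R₂ - R₃ * R₄ = (R₁ - 1) * R₂ + (R₂ - 1) - ((R₃ - 1) * R₄ + (R₄ - 1)) := by ring
  have h5 : ‖R₁ * R₂ - R₃ * R₄‖ ≤ e * (5 / 4) + e + (e * (5 / 4) + e) := by
    rw [e1]
    refine (norm_sub_le _ _).trans (add_le_add ?_ ?_)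
    · refine (norm_add_le _ _).trans (add_le_add ?_ h2)
      rw [norm_mul]
      exact mul_le_mul h1 (n R₂ h2).1 (norm_nonneg _) e0
    · refine (norm_add_le _ _).trans (add_le_add ?_ h4)
      rw [norm_mul]
      exact mul_le_mul h3 (n R₄ h4).1 (norm_nonneg _) e0
  have h6 : (3 / 4) * (3 / 4) ≤ ‖R₁‖ * ‖R₂‖ :=
    mul_le_mul (n R₁ h1).2 (n R₂ h2).2 (by norm_num) (norm_nonneg _)
  nlinarith

/-- **Two solutions in the same class.** -/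
theorem two_sol {K : Type} [Field K] [NumberField K] {a : ℕ} (hK : finrank ℚ K = a) (ha : 2 ≤ a)
    {α : K} {D : ℕ} (hD : 1 ≤ D) (hαD : ∀ σ : K →ₐ[ℚ] ℂ, ‖σ α‖ ≤ D)
    (hsep : ∀ σ τ : K →ₐ[ℚ] ℂ, σ α = τ α → σ = τ) {x x' l : ℕ} (hl : 1 ≤ l)
    (hx : 16 * D ≤ x) (hxx' : x < x') {B B' : K} (hB : IsIntegral ℤ B) (hB' : IsIntegral ℤ B')
    (hB0 : B ≠ 0) (hB'0 : B' ≠ 0) (hpow : B ^ l * ((x' : K) - α) = ((x : K) - α) * B' ^ l) (t : ℝ)
    (hbr : ∀ σ : K →ₐ[ℚ] ℂ, σ B * rt l (1 - σ α / x') = t * rt l (1 - σ α / x) * σ B') :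
    (x : ℝ) ^ a ≤ (32 * (D : ℝ)) ^ a *
      (|((Algebra.norm ℚ B : ℚ) : ℝ)| * |((Algebra.norm ℚ B' : ℚ) : ℝ)|) := by
  have hDR : (1 : ℝ) ≤ D := by exact_mod_cast hD
  have hxR : (16 : ℝ) * D ≤ x := by exact_mod_cast hx
  have hx0 : (0 : ℝ) < x := by linarith
  have hxx'R : (x : ℝ) < x' := by exact_mod_cast hxx'
  have hx'0 : (0 : ℝ) < x' := by linarith
  obtain ⟨e, he⟩ : ∃ e : ℝ, e = 4 * (D / x) := ⟨_, rfl⟩
  have hDx : (D : ℝ) / x ≤ 1 / 16 := by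
    rw [div_le_div_iff₀ hx0 (by norm_num)]
    linarith
  have he4 : e ≤ 1 / 4 := by rw [he]; linarith
  have he0 : 0 ≤ e := by rw [he]; positivity
  have hR : ∀ (σ : K →ₐ[ℚ] ℂ) (z : ℕ), x ≤ z → ‖rt l (1 - σ α / z) - 1‖ ≤ e := by
    intro σ z hz
    have hzR : (x : ℝ) ≤ z := by exact_mod_cast hz
    have h1 : ‖-(σ α / z)‖ ≤ D / x := by
      rw [norm_neg, norm_div, Complex.norm_natCast]
      exact div_le_div₀ (by linarith) (hαD σ) hx0 hzR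
    have h2 := rt_close hl (w := -(σ α / z)) (by linarith)
    rw [← sub_eq_add_neg] at h2
    rw [he]
    linarith
  have hmain := disc_ineq hB hB' (by rw [hK]; exact ha) ?_ (8 * e) (by positivity) ?_
  · rw [hK] at hmain
    have h1 : (8 * e) ^ a = (32 * D) ^ a / x ^ a := by
      rw [he, ← div_pow]
      congr 1
      ring
    rw [h1] at hmain
    rw [div_mul_eq_mul_div, le_div_iff₀ (by positivity), one_mul] at hmain
    exact hmain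
  · intro σ τ hστ heq
    apply hστ
    apply hsep
    have e1 := congrArg σ hpow
    have e2 := congrArg τ hpow
    simp only [map_mul, map_pow, map_sub, map_natCast] at e1 e2
    have hσB : σ B ≠ 0 := (map_ne_zero σ).2 hB0
    have hτB' : τ B' ≠ 0 := (map_ne_zero τ).2 hB'0
    have e3 : (σ B * τ B') ^ l * (((x' : ℂ) - σ α) * ((x : ℂ) - τ α)) =
        (σ B * τ B') ^ l * (((x : ℂ) - σ α) * ((x' : ℂ) - τ α)) := by
      calc (σ B * τ B') ^ l * (((x' : ℂ) - σ α) * ((x : ℂ) - τ α))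
          = (σ B ^ l * ((x' : ℂ) - σ α)) * (((x : ℂ) - τ α) * τ B' ^ l) := by rw [mul_pow]; ring
        _ = (((x : ℂ) - σ α) * σ B' ^ l) * (τ B ^ l * ((x' : ℂ) - τ α)) := by rw [e1, e2]
        _ = (τ B * σ B') ^ l * (((x : ℂ) - σ α) * ((x' : ℂ) - τ α)) := by rw [mul_pow]; ring
        _ = _ := by rw [heq]
    have e4 := mul_left_cancel₀ (pow_ne_zero _ (mul_ne_zero hσB hτB')) e3
    have e5 : ((x' : ℂ) - x) * (σ α - τ α) = 0 := by linear_combination e4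
    rcases mul_eq_zero.1 e5 with h | h
    · exfalso
      have : (x' : ℂ) = x := sub_eq_zero.1 h
      have : x' = x := by exact_mod_cast this
      omega
    · exact sub_eq_zero.1 h
  · intro σ τ _
    -- names
    obtain ⟨P, hP⟩ : ∃ P, P = rt l (1 - σ α / x) := ⟨_, rfl⟩
    obtain ⟨P', hP'⟩ : ∃ P', P' = rt l (1 - σ α / x') := ⟨_, rfl⟩
    obtain ⟨Q, hQ⟩ : ∃ Q, Q = rt l (1 - τ α / x) := ⟨_, rfl⟩
    obtain ⟨Q', hQ'⟩ : ∃ Q', Q' = rt l (1 - τ α / x') := ⟨_, rfl⟩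
    have b1 := hbr σ
    have b2 := hbr τ
    rw [← hP, ← hP'] at b1
    rw [← hQ, ← hQ'] at b2
    have c1 : ‖P - 1‖ ≤ e := by rw [hP]; exact hR σ x le_rfl
    have c2 : ‖P' - 1‖ ≤ e := by rw [hP']; exact hR σ x' hxx'.le
    have c3 : ‖Q - 1‖ ≤ e := by rw [hQ]; exact hR τ x le_rfl
    have c4 : ‖Q' - 1‖ ≤ e := by rw [hQ']; exact hR τ x' hxx'.le
    have hne : ∀ R : ℂ, ‖R - 1‖ ≤ e → R ≠ 0 := by
      intro R hR h0
      rw [h0, zero_sub, norm_neg, norm_one] at hR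
      linarith
    have key := ratio_close he4 c1 c4 c3 c2
    -- `(σ B τ B' - τ B σ B') P Q' = σ B τ B' (P Q' - Q P')`
    have k1 : (σ B * τ B' - τ B * σ B') * (P * Q') = σ B * τ B' * (P * Q' - Q * P') := by
      linear_combination (τ B' * Q) * b1 - (σ B' * P) * b2
    have k2 : ‖σ B * τ B' - τ B * σ B'‖ * (‖P‖ * ‖Q'‖) ≤
        8 * e * (‖σ B‖ * ‖τ B'‖) * (‖P‖ * ‖Q'‖) := by
      have k3 := congrArg norm k1
      rw [norm_mul, norm_mul P Q', norm_mul, norm_mul (σ B)] at k3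
      rw [k3]
      calc ‖σ B‖ * ‖τ B'‖ * ‖P * Q' - Q * P'‖ ≤ ‖σ B‖ * ‖τ B'‖ * (8 * e * (‖P‖ * ‖Q'‖)) :=
            mul_le_mul_of_nonneg_left key (by positivity)
        _ = _ := by ring
    have k4 : 0 < ‖P‖ * ‖Q'‖ := mul_pos (norm_pos_iff.2 (hne P c1)) (norm_pos_iff.2 (hne Q' c4))
    exact le_of_mul_le_mul_right k2 k4

end Pool.Agent.Run7.h880
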