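import Mathlib

/-!
The number of classes of units modulo `l`-th powers.
-/

set_option autoImplicit false

namespace Pool.Agent.Run7.h880

open NumberField NumberField.Units Module

theorem unit_classes (K : Type) [Field K] [NumberField K] {l : ℕ} (hl : 1 ≤ l) :
    ∃ (T : Type) (_ : Fintype T) (f : (𝓞 K)ˣ → T), Fintype.card T ≤ l ^ finrank ℚ K ∧
      ∀ u v : (𝓞 K)ˣ, f u = f v → ∃ w : (𝓞 K)ˣ, u = v * w ^ l := by
  classical
  have : NeZero l := ⟨by omega⟩
  obtain ⟨g, hg⟩ := IsCyclic.exists_generator (α := torsion K)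
  have hm : ∀ z : torsion K, ∃ m : ℤ, g ^ m = z := fun z => Subgroup.mem_zpowers_iff.1 (hg z)
  choose m hm using hm
  have he : ∀ x : (𝓞 K)ˣ, ∃ ze : torsion K × (Fin (rank K) → ℤ),
      x = ze.1 * ∏ i, (fundSystem K i) ^ (ze.2 i) := fun x => (exist_unique_eq_mul_prod K x).exists
  choose ze hze using he
  refine ⟨ZMod l × (Fin (rank K) → ZMod l), inferInstance,
    fun x => ((m (ze x).1 : ZMod l), fun i => (((ze x).2 i : ℤ) : ZMod l)), ?_, ?_⟩
  · rw [Fintype.card_prod, Fintype.card_fun, ZMod.card, Fintype.card_fin, ← pow_succ']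
    refine Nat.pow_le_pow_right hl ?_
    have h1 := InfinitePlace.card_add_two_mul_card_eq_rank K
    have h2 := InfinitePlace.card_eq_nrRealPlaces_add_nrComplexPlaces K
    have h3 : 0 < finrank ℚ K := finrank_pos
    unfold rank
    omega
  · intro u v huv
    rw [Prod.mk.injEq] at huv
    obtain ⟨h1, h2⟩ := huv
    rw [ZMod.intCast_eq_intCast_iff_dvd_sub] at h1
    obtain ⟨k, hk⟩ := h1
    have h3 : ∀ i, ∃ ki : ℤ, (ze v).2 i - (ze u).2 i = l * ki := by
      intro i
      have h4 := congrFun h2 i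
      rw [ZMod.intCast_eq_intCast_iff_dvd_sub] at h4
      exact h4
    choose ki hki using h3
    refine ⟨(g : (𝓞 K)ˣ) ^ (-k) * ∏ i, (fundSystem K i) ^ (-(ki i)), ?_⟩
    have e1 : ((ze u).1 : (𝓞 K)ˣ) = (g : (𝓞 K)ˣ) ^ (m (ze u).1) := by
      rw [← Subgroup.coe_zpow, hm]
    have e2 : ((ze v).1 : (𝓞 K)ˣ) = (g : (𝓞 K)ˣ) ^ (m (ze v).1) := by
      rw [← Subgroup.coe_zpow, hm]
    conv_lhs => rw [hze u, e1]
    conv_rhs => rw [hze v, e2]
    rw [mul_pow, ← Finset.prod_pow, mul_mul_mul_comm, ← Finset.prod_mul_distrib]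
    congr 1
    · rw [← zpow_natCast, ← zpow_mul, ← zpow_add]
      congr 1
      linarith
    · refine Finset.prod_congr rfl fun i _ => ?_
      rw [← zpow_natCast, ← zpow_mul, ← zpow_add]
      congr 1
      have := hki i
      linarith

end Pool.Agent.Run7.h880
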