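import Mathlib
import Pool.Agent.Run7.h880.Data
import Pool.Agent.Run7.h880.Root
import Pool.Agent.Run7.h880.UnitCl

/-!
Counting the solutions of `x ^ a - d = y ^ l` for given `a`, `d`, `l`.
-/

set_option autoImplicit false

namespace Pool.Agent.Run7.h880

open NumberField Module Ideal

theorem dbl {a l D x x' Y Y' : ℕ} (ha : 1 ≤ a) (hl : 3 ≤ l) (hD : 1 ≤ D)
    (h1 : x ^ a ≤ (32 * D) ^ a * (Y * Y')) (hY : Y ^ l ≤ ((a * D) ^ a) ^ l * (2 * x) ^ a)
    (hY' : Y' ^ l ≤ ((a * D) ^ a) ^ l * (2 * x') ^ a) (hx : 8 * (32 * D * (a * D) ^ 2) ^ 3 ≤ x) :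
    2 * x ≤ x' := by
  by_contra hcon
  push Not at hcon
  obtain ⟨E, hE⟩ : ∃ E, E = 32 * D * (a * D) ^ 2 := ⟨_, rfl⟩
  rw [← hE] at hx
  have haD : 1 ≤ a * D := Nat.mul_pos ha hD
  have hE1 : 1 ≤ E := by
    rw [hE]
    exact Nat.mul_pos (by omega) (Nat.pow_pos haD)
  have hx1 : 1 ≤ x := by
    have : 1 ≤ E ^ 3 := Nat.one_le_pow _ _ hE1
    omega
  have h2 : (x ^ l) ^ a ≤ (E ^ l * (4 * (x * x'))) ^ a := by
    calc (x ^ l) ^ a = (x ^ a) ^ l := by rw [← pow_mul, ← pow_mul, mul_comm]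
      _ ≤ ((32 * D) ^ a * (Y * Y')) ^ l := Nat.pow_le_pow_left h1 _
      _ = ((32 * D) ^ a) ^ l * (Y ^ l * Y' ^ l) := by rw [mul_pow _ (Y * Y') l, mul_pow Y Y' l]
      _ ≤ ((32 * D) ^ a) ^ l * ((((a * D) ^ a) ^ l * (2 * x) ^ a) * (((a * D) ^ a) ^ l * (2 * x') ^ a)) :=
          Nat.mul_le_mul_left _ (Nat.mul_le_mul hY hY')
      _ = ((32 * D) ^ l) ^ a * ((((a * D) ^ l) ^ a * (2 * x) ^ a) * (((a * D) ^ l) ^ a * (2 * x') ^ a)) := by
          rw [← pow_mul, ← pow_mul, mul_comm a l, pow_mul, pow_mul]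
      _ = (E ^ l * (4 * (x * x'))) ^ a := by
          rw [hE, ← mul_pow, ← mul_pow, ← mul_pow, ← mul_pow]
          congr 1
          rw [mul_pow (32 * D), ← pow_mul, mul_comm 2 l, pow_mul, pow_two]
          ring
  have h3 : x ^ l ≤ E ^ l * (4 * (x * x')) := (Nat.pow_le_pow_iff_left (by omega)).1 h2
  have hEl : 1 ≤ E ^ l := Nat.one_le_pow _ _ hE1
  have h4 : E ^ l * (4 * (x * x')) < E ^ l * (8 * x ^ 2) := by
    apply Nat.mul_lt_mul_of_pos_left _ hEl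
    nlinarith
  have h5 : x ^ l = x ^ 2 * x ^ (l - 2) := by
    rw [← pow_add]
    congr 1
    omega
  have h6 : x ^ 2 * x ^ (l - 2) < x ^ 2 * (8 * E ^ l) := by
    rw [← h5]
    calc x ^ l < E ^ l * (8 * x ^ 2) := lt_of_le_of_lt h3 h4
      _ = _ := by ring
  have h7 : x ^ (l - 2) < 8 * E ^ l := Nat.lt_of_mul_lt_mul_left h6
  have h8 : 8 * E ^ l ≤ x ^ (l - 2) := by
    calc 8 * E ^ l ≤ 8 ^ (l - 2) * (E ^ 3) ^ (l - 2) := by
          refine Nat.mul_le_mul ?_ ?_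
          · exact Nat.le_self_pow (by omega) 8
          · rw [← pow_mul]
            exact Nat.pow_le_pow_right hE1 (by omega)
      _ = (8 * E ^ 3) ^ (l - 2) := by rw [mul_pow]
      _ ≤ x ^ (l - 2) := Nat.pow_le_pow_left hx _
  omega

theorem card_dbl (S : Finset ℕ) (X : ℕ) (h1 : ∀ x ∈ S, 1 ≤ x ∧ x ≤ X)
    (h2 : ∀ x ∈ S, ∀ x' ∈ S, x < x' → 2 * x ≤ x') : S.card ≤ Nat.log 2 X + 1 := by
  rw [← Finset.card_range (Nat.log 2 X + 1)]
  refine Finset.card_le_card_of_injOn (Nat.log 2) ?_ ?_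
  · intro x hx
    rw [Finset.mem_coe, Finset.mem_range]
    have := Nat.log_mono_right (b := 2) (h1 x hx).2
    omega
  · have key : ∀ x ∈ S, ∀ x' ∈ S, x < x' → Nat.log 2 x ≠ Nat.log 2 x' := by
      intro x hx x' hx' hlt heq
      have h3 := h2 x hx x' hx' hlt
      have hx1 := (h1 x hx).1
      have h4 : Nat.log 2 (2 * x) = Nat.log 2 x + 1 := by
        rw [mul_comm, Nat.log_mul_base (by norm_num) (by omega)]
      have h5 := Nat.log_mono_right (b := 2) h3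
      omega
    intro x hx x' hx' heq
    rcases lt_trichotomy x x' with h | h | h
    · exact absurd heq (key x hx x' hx' h)
    · exact h
    · exact absurd heq.symm (key x' hx' x hx h)

section
variable {K : Type} [Field K] [NumberField K] {a : ℕ} {α : 𝓞 K} {D : ℕ}

theorem sub_ne (hαD : ∀ σ : K →ₐ[ℚ] ℂ, ‖σ (α : K)‖ ≤ D) {x : ℕ} (hx : D < x)
    (σ : K →ₐ[ℚ] ℂ) : (x : ℂ) - σ (α : K) ≠ 0 := by
  intro h
  have h1 : (x : ℂ) = σ (α : K) := sub_eq_zero.1 h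
  have h2 := hαD σ
  rw [← h1, Complex.norm_natCast] at h2
  have : x ≤ D := by exact_mod_cast h2
  omega

/-- solutions with given ideal and unit class -/
theorem classA (hK : finrank ℚ K = a) (ha : 2 ≤ a) (hD : 1 ≤ D)
    (hαD : ∀ σ : K →ₐ[ℚ] ℂ, ‖σ (α : K)‖ ≤ D)
    (hsep : ∀ σ τ : K →ₐ[ℚ] ℂ, σ (α : K) = τ (α : K) → σ = τ) {l : ℕ} (hl : 3 ≤ l) (X : ℕ)
    (S : Finset ℕ) (hS : ∀ x ∈ S, x ≤ X ∧ 8 * (32 * D * (a * D) ^ 2) ^ 3 ≤ x)
    (δ : K) (B : ℕ → 𝓞 K) (hB : ∀ x ∈ S, δ * (B x : K) ^ l = (x : K) - α)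
    (hBn : ∀ x ∈ S, absNorm (span {B x}) ^ l ≤ ((a * D) ^ a) ^ l * (2 * x) ^ a) :
    S.card ≤ l ^ a * (Nat.log 2 X + 1) := by
  classical
  have hl0 : l ≠ 0 := by omega
  have haD : 1 ≤ a * D := Nat.mul_pos (by omega) hD
  have hbig : ∀ x ∈ S, 16 * D ≤ x := by
    intro x hx
    refine le_trans ?_ (hS x hx).2
    have h1 : D ≤ 32 * D * (a * D) ^ 2 := by
      calc D = D * 1 := (mul_one D).symm
        _ ≤ (32 * D) * (a * D) ^ 2 := Nat.mul_le_mul (by omega) (Nat.one_le_pow _ _ haD)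
    have h2 : 32 * D * (a * D) ^ 2 ≤ (32 * D * (a * D) ^ 2) ^ 3 := Nat.le_self_pow (by norm_num) _
    have h3 : 2 * D ≤ 32 * D * (a * D) ^ 2 := by
      calc 2 * D = (2 * D) * 1 := (mul_one _).symm
        _ ≤ (32 * D) * (a * D) ^ 2 := Nat.mul_le_mul (by omega) (Nat.one_le_pow _ _ haD)
    omega
  -- the norm of `δ`
  have hc : ∀ σ : K →ₐ[ℚ] ℂ, ∃ c : ℂ, c ^ l = σ δ := fun σ =>
    IsAlgClosed.exists_pow_nat_eq _ (by omega)
  choose c hc using hc
  have hT : ∀ x : ℕ, ∃ T : ℝ, 0 ≤ T ∧ T ^ l = x ∧ (0 < x → 0 < T) := by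
    intro x
    refine ⟨(x : ℝ) ^ ((1 : ℝ) / l), by positivity, ?_, fun hx => ?_⟩
    · rw [← Real.rpow_natCast, ← Real.rpow_mul (Nat.cast_nonneg _),
        one_div_mul_cancel (Nat.cast_ne_zero.2 hl0), Real.rpow_one]
    · exact Real.rpow_pos_of_pos (by exact_mod_cast hx) _
  choose T hT0 hT hTpos using hT
  let f : ℕ → (K →ₐ[ℚ] ℂ) → ℂ := fun x σ =>
    σ (B x : K) * c σ / (T x * rt l (1 - σ (α : K) / x))
  have hnz : ∀ x ∈ S, ∀ σ : K →ₐ[ℚ] ℂ, (T x : ℂ) ≠ 0 ∧ (1 - σ (α : K) / x) ≠ 0 ∧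
      rt l (1 - σ (α : K) / x) ≠ 0 := by
    intro x hx σ
    have h1 := hbig x hx
    have hx0 : 0 < x := by omega
    have h2 := sub_ne hαD (x := x) (by omega) σ
    have hxC : (x : ℂ) ≠ 0 := by exact_mod_cast hx0.ne'
    refine ⟨by exact_mod_cast (hTpos x hx0).ne', ?_, Complex.exp_ne_zero _⟩
    have e : 1 - σ (α : K) / x = ((x : ℂ) - σ (α : K)) / x := by field_simp
    rw [e]
    exact div_ne_zero h2 hxC
  have hmaps : ∀ x ∈ S, f x ∈ Fintype.piFinset fun _ : K →ₐ[ℚ] ℂ =>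
      Polynomial.nthRootsFinset l (1 : ℂ) := by
    intro x hx
    rw [Fintype.mem_piFinset]
    intro σ
    rw [Polynomial.mem_nthRootsFinset (by omega)]
    obtain ⟨n1, n2, n3⟩ := hnz x hx σ
    have hx0 : 0 < x := by
      have := hbig x hx
      omega
    have hxC : (x : ℂ) ≠ 0 := by exact_mod_cast hx0.ne'
    have e1 := congrArg σ (hB x hx)
    rw [map_mul, map_pow, map_sub, map_natCast] at e1
    show (σ (B x : K) * c σ / (T x * rt l (1 - σ (α : K) / x))) ^ l = 1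
    rw [div_pow, mul_pow, mul_pow, rt_pow (by omega) n2, hc σ, mul_comm (σ (B x : K) ^ l), e1,
      ← Complex.ofReal_pow, hT x, Complex.ofReal_natCast]
    have e2 : (x : ℂ) * (1 - σ (α : K) / x) = (x : ℂ) - σ (α : K) := by field_simp
    rw [e2]
    exact div_self (sub_ne hαD (x := x) (by have := hbig x hx; omega) σ)
  have hcardim : (S.image f).card ≤ l ^ a := by
    refine (Finset.card_le_card (Finset.image_subset_iff.2 hmaps)).trans ?_
    rw [Fintype.card_piFinset, Finset.prod_const, Finset.card_univ, AlgHom.card ℚ K ℂ, hK]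
    refine Nat.pow_le_pow_left ?_ _
    unfold Polynomial.nthRootsFinset
    exact (Multiset.toFinset_card_le _).trans (Polynomial.card_nthRoots _ _)
  refine (Finset.card_le_mul_card_image (f := f) S (Nat.log 2 X + 1) ?_).trans ?_
  · intro lam _
    refine card_dbl _ X ?_ ?_
    · intro x hx
      have hxS := (Finset.mem_filter.1 hx).1
      have := hbig x hxS
      exact ⟨by omega, (hS x hxS).1⟩
    · intro x hx x' hx' hlt
      obtain ⟨hxS, hfx⟩ := Finset.mem_filter.1 hx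
      obtain ⟨hx'S, hfx'⟩ := Finset.mem_filter.1 hx'
      have hB0 : ∀ z ∈ S, (B z : K) ≠ 0 := by
        intro z hz h0
        have e1 := hB z hz
        rw [h0, zero_pow hl0, mul_zero] at e1
        obtain ⟨σ⟩ : Nonempty (K →ₐ[ℚ] ℂ) := by
          rw [← Fintype.card_pos_iff, AlgHom.card ℚ K ℂ]
          exact finrank_pos
        have e2 := congrArg σ e1
        rw [map_zero, map_sub, map_natCast] at e2
        exact sub_ne hαD (x := z) (by have := hbig z hz; omega) σ e2.symm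
      have hmain := two_sol (K := K) hK ha (α := (α : K)) hD hαD hsep (x := x) (x' := x') (l := l)
        (by omega) (hbig x hxS) hlt (B := (B x : K)) (B' := (B x' : K)) (B x).isIntegral_coe
        (B x').isIntegral_coe (hB0 x hxS) (hB0 x' hx'S) (by
          rw [← hB x hxS, ← hB x' hx'S]
          ring) (T x / T x') (by
          intro σ
          have e1 : f x σ = f x' σ := by rw [hfx, hfx']
          obtain ⟨n1, n2, n3⟩ := hnz x hxS σ
          obtain ⟨m1, m2, m3⟩ := hnz x' hx'S σ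
          have hcσ : c σ ≠ 0 := by
            intro h0
            have e2 := hc σ
            rw [h0, zero_pow hl0] at e2
            have e3 := congrArg σ (hB x hxS)
            rw [map_mul, ← e2, zero_mul, map_sub, map_natCast] at e3
            exact sub_ne hαD (x := x) (by have := hbig x hxS; omega) σ e3.symm
          change σ (B x : K) * c σ / (T x * rt l (1 - σ (α : K) / x)) =
            σ (B x' : K) * c σ / (T x' * rt l (1 - σ (α : K) / x')) at e1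
          rw [div_eq_div_iff (mul_ne_zero n1 n3) (mul_ne_zero m1 m3)] at e1
          push_cast
          rw [div_mul_eq_mul_div, div_mul_eq_mul_div, eq_div_iff m1]
          apply mul_right_cancel₀ hcσ
          linear_combination e1)
      rw [norm_abs_eq, norm_abs_eq] at hmain
      have h1 : x ^ a ≤ (32 * D) ^ a * (absNorm (span {B x}) * absNorm (span {B x'})) := by
        exact_mod_cast hmain
      exact dbl (by omega) hl hD h1 (hBn x hxS) (hBn x' hx'S) (hS x hxS).2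
  · rw [mul_comm]
    exact Nat.mul_le_mul_right _ hcardim

/-- solutions with a given ideal -/
theorem classB (hK : finrank ℚ K = a) (ha : 2 ≤ a) (hD : 1 ≤ D)
    (hαD : ∀ σ : K →ₐ[ℚ] ℂ, ‖σ (α : K)‖ ≤ D)
    (hsep : ∀ σ τ : K →ₐ[ℚ] ℂ, σ (α : K) = τ (α : K) → σ = τ) {l : ℕ} (hl : 3 ≤ l) (X : ℕ)
    (S : Finset ℕ) (hS : ∀ x ∈ S, x ≤ X ∧ 8 * (32 * D * (a * D) ^ 2) ^ 3 ≤ x)
    (J : Ideal (𝓞 K)) (β : ℕ → 𝓞 K) (hβ : ∀ x ∈ S, Dat K α a l ((a * D) ^ a) x J (β x)) :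
    S.card ≤ l ^ a * (l ^ a * (Nat.log 2 X + 1)) := by
  classical
  rcases S.eq_empty_or_nonempty with rfl | ⟨x₀, hx₀⟩
  · rw [Finset.card_empty]
    exact Nat.zero_le _
  have hspan : ∀ x ∈ S, ∃ u : (𝓞 K)ˣ,
      ((x : 𝓞 K) - α) * β x₀ ^ l * u = ((x₀ : 𝓞 K) - α) * β x ^ l := by
    intro x hx
    have h1 := (hβ x hx).2.2.2.1
    have h2 := (hβ x₀ hx₀).2.2.2.1
    have h3 : span {((x : 𝓞 K) - α) * β x₀ ^ l} = span {((x₀ : 𝓞 K) - α) * β x ^ l} := by
      rw [← span_singleton_mul_span_singleton, ← span_singleton_mul_span_singleton,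
        ← span_singleton_pow, ← span_singleton_pow, ← h1, ← h2]
      ring
    rw [span_singleton_eq_span_singleton] at h3
    exact h3
  choose! u hu using hspan
  obtain ⟨U, _, f, hf1, hf2⟩ := unit_classes K (l := l) (by omega)
  rw [hK] at hf1
  refine (Finset.card_le_mul_card_image (f := fun x => f (u x)) S
    (l ^ a * (Nat.log 2 X + 1)) ?_).trans ?_
  · intro τ hτ
    rw [Finset.mem_image] at hτ
    obtain ⟨x₁, hx₁, hτ⟩ := hτ
    have hw : ∀ x ∈ S.filter (fun x => f (u x) = τ), ∃ w : (𝓞 K)ˣ, u x = u x₁ * w ^ l := by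
      intro x hx
      obtain ⟨hxS, hfx⟩ := Finset.mem_filter.1 hx
      exact hf2 _ _ (hfx.trans hτ.symm)
    choose! w hw using hw
    have hβ0 : (β x₀ : K) ≠ 0 := by
      have := (hβ x₀ hx₀).1
      exact_mod_cast this
    refine classA hK ha hD hαD hsep hl X _ (fun x hx => hS x (Finset.mem_filter.1 hx).1)
      (((x₀ : K) - α) / ((β x₀ : K) ^ l * ((u x₁ : 𝓞 K) : K))) (fun x => β x * ((w x)⁻¹ : (𝓞 K)ˣ))
      ?_ ?_
    · intro x hx
      obtain ⟨hxS, hfx⟩ := Finset.mem_filter.1 hx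
      have e1 := hu x hxS
      rw [hw x hx] at e1
      have e2 := congrArg (algebraMap (𝓞 K) K) e1
      simp only [Units.val_mul, Units.val_pow_eq_pow_val, map_mul, map_pow, map_sub,
        map_natCast] at e2
      have hu0 : algebraMap (𝓞 K) K (u x₁ : 𝓞 K) ≠ 0 := by
        rw [Ne, FaithfulSMul.algebraMap_eq_zero_iff]
        exact Units.ne_zero _
      have hw1 : algebraMap (𝓞 K) K (w x : 𝓞 K) * algebraMap (𝓞 K) K (((w x)⁻¹ : (𝓞 K)ˣ) : 𝓞 K) = 1 := by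
        rw [← map_mul, Units.mul_inv, map_one]
      have hβ0' : algebraMap (𝓞 K) K (β x₀) ≠ 0 := hβ0
      have hw2 : algebraMap (𝓞 K) K (w x : 𝓞 K) ^ l *
          algebraMap (𝓞 K) K (((w x)⁻¹ : (𝓞 K)ˣ) : 𝓞 K) ^ l = 1 := by
        rw [← mul_pow, hw1, one_pow]
      show ((x₀ : K) - algebraMap (𝓞 K) K α) / (algebraMap (𝓞 K) K (β x₀) ^ l *
        algebraMap (𝓞 K) K (u x₁ : 𝓞 K)) * (algebraMap (𝓞 K) K (β x * (((w x)⁻¹ : (𝓞 K)ˣ) : 𝓞 K))) ^ l =
        (x : K) - algebraMap (𝓞 K) K α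
      rw [map_mul, mul_pow, div_mul_eq_mul_div, div_eq_iff (mul_ne_zero (pow_ne_zero _ hβ0') hu0)]
      linear_combination (-(algebraMap (𝓞 K) K (((w x)⁻¹ : (𝓞 K)ˣ) : 𝓞 K)) ^ l) * e2 +
        (((x : K) - algebraMap (𝓞 K) K α) * (algebraMap (𝓞 K) K (β x₀) ^ l *
          algebraMap (𝓞 K) K (u x₁ : 𝓞 K))) * hw2
    · intro x hx
      obtain ⟨hxS, hfx⟩ := Finset.mem_filter.1 hx
      have e1 : span {β x * (((w x)⁻¹ : (𝓞 K)ˣ) : 𝓞 K)} = span {β x} := by
        rw [span_singleton_eq_span_singleton]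
        exact (associated_mul_unit_left _ _ (Units.isUnit _))
      rw [e1]
      exact (hβ x hxS).2.2.2.2
  · rw [mul_comm]
    refine Nat.mul_le_mul_right _ ((Finset.card_le_univ _).trans hf1)

/-- all solutions -/
theorem classC (hK : finrank ℚ K = a) (ha : 2 ≤ a) (hD : 1 ≤ D)
    (hαD : ∀ σ : K →ₐ[ℚ] ℂ, ‖σ (α : K)‖ ≤ D)
    (hsep : ∀ σ τ : K →ₐ[ℚ] ℂ, σ (α : K) = τ (α : K) → σ = τ) {l : ℕ} (hl : 3 ≤ l) (X : ℕ)
    (S : Finset ℕ) (hS : ∀ x ∈ S, x ≤ X ∧ 8 * (32 * D * (a * D) ^ 2) ^ 3 ≤ x)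
    (hdat : ∀ x ∈ S, ∃ J β, Dat K α a l ((a * D) ^ a) x J β) :
    S.card ≤ ((a * D) ^ a) ^ (a + 1) * (l ^ a * (l ^ a * (Nat.log 2 X + 1))) := by
  classical
  choose! J β hβ using hdat
  refine (Finset.card_le_mul_card_image (f := J) S
    (l ^ a * (l ^ a * (Nat.log 2 X + 1))) ?_).trans ?_
  · intro I _
    refine classB hK ha hD hαD hsep hl X _ (fun x hx => hS x (Finset.mem_filter.1 hx).1) I β ?_
    intro x hx
    obtain ⟨hxS, hfx⟩ := Finset.mem_filter.1 hx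
    have := hβ x hxS
    rwa [hfx] at this
  · rw [mul_comm]
    refine Nat.mul_le_mul_right _ ?_
    have h1 := card_ideals_le K ((a * D) ^ a) (S.image J) (by
      intro I hI
      obtain ⟨x, hx, rfl⟩ := Finset.mem_image.1 hI
      exact ⟨(hβ x hx).2.1, (hβ x hx).2.2.1⟩)
    rwa [hK] at h1

end

end Pool.Agent.Run7.h880
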