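import Mathlib
import Pool.Agent.Run7.h880.IdealCnt

/-!
A better bound for the number of ideals of bounded norm: `2 ^ n * M ^ 2`.
-/

set_option autoImplicit false

namespace Pool.Agent.Run7.h880

open NumberField Module Ideal

theorem supported_count (K : Type) [Field K] [NumberField K] (S : Finset (Ideal (𝓞 K))) :
    (∀ P ∈ S, P.IsPrime ∧ P ≠ ⊥) → ∀ (M : ℝ) (s : Finset (Ideal (𝓞 K))),
      (∀ J ∈ s, J ≠ ⊥ ∧ (absNorm J : ℝ) ≤ M ∧ ∀ P : Ideal (𝓞 K), P.IsPrime → P ∣ J → P ∈ S) →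
      (s.card : ℝ) ≤ M ^ 2 * ∏ P ∈ S, (1 - ((absNorm P : ℝ) ^ 2)⁻¹)⁻¹ := by
  classical
  induction S using Finset.induction_on with
  | empty =>
    intro _ M s hs
    rw [Finset.prod_empty, mul_one]
    have hsub : s ⊆ {⊤} := by
      intro J hJ
      rw [Finset.mem_singleton]
      by_contra hne
      obtain ⟨P, hP, hJP⟩ := exists_le_maximal J hne
      exact absurd ((hs J hJ).2.2 P hP.isPrime (Ideal.dvd_iff_le.2 hJP)) (Finset.notMem_empty _)
    rcases s.eq_empty_or_nonempty with h0 | ⟨J, hJ⟩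
    · rw [h0, Finset.card_empty, Nat.cast_zero]
      positivity
    · have h1 : s.card ≤ 1 := by
        have := Finset.card_le_card hsub
        rwa [Finset.card_singleton] at this
      have h2 : (1 : ℝ) ≤ M := by
        have h3 := (hs J hJ).2.1
        rw [Finset.mem_singleton.1 (hsub hJ), absNorm_top, Nat.cast_one] at h3
        exact h3
      have h4 : (s.card : ℝ) ≤ 1 := by exact_mod_cast h1
      nlinarith
  | insert P S hPS ih =>
    intro hS M s hs
    have hP := (hS P (Finset.mem_insert_self _ _)).1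
    have hP0 := (hS P (Finset.mem_insert_self _ _)).2
    have ih' := ih fun Q hQ => hS Q (Finset.mem_insert_of_mem hQ)
    have hPp : Prime P := Ideal.prime_of_isPrime hP0 hP
    obtain ⟨N, hN⟩ : ∃ N : ℝ, N = absNorm P := ⟨_, rfl⟩
    have hN2 : 2 ≤ N := by
      have h1 : absNorm P ≠ 0 := by
        rw [Ne, absNorm_eq_zero_iff]
        exact hP0
      have h2 : absNorm P ≠ 1 := by
        rw [Ne, absNorm_eq_one_iff]
        exact hP.ne_top
      have h3 : 2 ≤ absNorm P := by omega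
      rw [hN]
      exact_mod_cast h3
    have hdec : ∀ J : Ideal (𝓞 K), J ∈ s → ∃ (v : ℕ) (J' : Ideal (𝓞 K)), J = P ^ v * J' ∧ ¬ P ∣ J' := by
      intro J hJ
      obtain ⟨v, J', h1, h2⟩ := WfDvdMonoid.max_power_factor (hs J hJ).1 hPp.irreducible
      exact ⟨v, J', h2, h1⟩
    choose! v J' hv hJ' using hdec
    obtain ⟨V, hV⟩ : ∃ V : ℕ, ∀ J ∈ s, v J < V := by
      refine ⟨s.sup v + 1, fun J hJ => Nat.lt_succ_of_le (Finset.le_sup hJ)⟩
    have h1 : s.card = ∑ i ∈ Finset.range V, (s.filter fun J => v J = i).card := by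
      rw [Finset.card_eq_sum_card_fiberwise (f := v) (t := Finset.range V)]
      intro J hJ
      rw [Finset.mem_coe, Finset.mem_range]
      exact hV J hJ
    obtain ⟨F, hF⟩ : ∃ F : ℝ, F = ∏ Q ∈ S, (1 - ((absNorm Q : ℝ) ^ 2)⁻¹)⁻¹ := ⟨_, rfl⟩
    have h2 : ∀ i ∈ Finset.range V, ((s.filter fun J => v J = i).card : ℝ) ≤
        (M ^ 2 * F) * ((N ^ 2)⁻¹) ^ i := by
      intro i _
      have hinj : Set.InjOn J' (s.filter fun J => v J = i : Finset (Ideal (𝓞 K))) := by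
        intro J hJ I hI h
        rw [Finset.mem_coe, Finset.mem_filter] at hJ hI
        rw [hv J hJ.1, hv I hI.1, hJ.2, hI.2, h]
      rw [← Finset.card_image_of_injOn hinj]
      have h3 := ih' (M / N ^ i) ((s.filter fun J => v J = i).image J') ?_
      · rw [← hF] at h3
        refine h3.trans (le_of_eq ?_)
        rw [div_pow, div_eq_mul_inv, inv_pow, ← pow_mul, ← pow_mul, mul_comm i 2]
        ring
      · intro I hI
        rw [Finset.mem_image] at hI
        obtain ⟨J, hJ, rfl⟩ := hI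
        rw [Finset.mem_filter] at hJ
        obtain ⟨hJs, hJi⟩ := hJ
        obtain ⟨hJ0, hJM, hJP⟩ := hs J hJs
        have hJ'0 : J' J ≠ ⊥ := by
          intro h0
          apply hJ0
          rw [hv J hJs, h0, ← Ideal.zero_eq_bot, mul_zero]
        refine ⟨hJ'0, ?_, ?_⟩
        · rw [le_div_iff₀ (by positivity)]
          have h4 : absNorm J = absNorm P ^ (v J) * absNorm (J' J) := by
            conv_lhs => rw [hv J hJs]
            rw [map_mul, map_pow]
          have h5 : (absNorm J : ℝ) = N ^ i * absNorm (J' J) := by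
            rw [h4, hN, hJi]
            push_cast
            ring
          rw [h5] at hJM
          linarith
        · intro Q hQ hQJ
          have h4 : Q ∈ insert P S := by
            refine hJP Q hQ ?_
            rw [hv J hJs]
            exact Dvd.dvd.mul_left hQJ _
          rw [Finset.mem_insert] at h4
          rcases h4 with h4 | h4
          · exfalso
            rw [h4] at hQJ
            exact hJ' J hJs hQJ
          · exact h4
    have hFpos : 0 ≤ M ^ 2 * F := by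
      refine mul_nonneg (sq_nonneg _) ?_
      rw [hF]
      refine Finset.prod_nonneg fun Q hQ => ?_
      rw [inv_nonneg, sub_nonneg]
      have hQ0 := (hS Q (Finset.mem_insert_of_mem hQ)).2
      have h3 : absNorm Q ≠ 0 := by
        rw [Ne, absNorm_eq_zero_iff]
        exact hQ0
      have h4 : (1 : ℝ) ≤ absNorm Q := by exact_mod_cast Nat.pos_of_ne_zero h3
      exact inv_le_one_of_one_le₀ (one_le_pow₀ h4)
    rw [Finset.prod_insert hPS, ← hF, ← hN, h1]
    push_cast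
    have hx0 : 0 ≤ (N ^ 2)⁻¹ := by positivity
    have hx1 : (N ^ 2)⁻¹ < 1 := inv_lt_one_of_one_lt₀ (by nlinarith)
    calc ∑ i ∈ Finset.range V, ((s.filter fun J => v J = i).card : ℝ)
        ≤ ∑ i ∈ Finset.range V, (M ^ 2 * F) * ((N ^ 2)⁻¹) ^ i := Finset.sum_le_sum h2
      _ = (M ^ 2 * F) * ∑ i ∈ Finset.range V, ((N ^ 2)⁻¹) ^ i := by rw [Finset.mul_sum]
      _ ≤ (M ^ 2 * F) * (1 - (N ^ 2)⁻¹)⁻¹ := by
          refine mul_le_mul_of_nonneg_left ?_ hFpos
          rw [← tsum_geometric_of_lt_one hx0 hx1]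
          exact (summable_geometric_of_lt_one hx0 hx1).sum_le_tsum _ (fun i _ => pow_nonneg hx0 i)
      _ = M ^ 2 * ((1 - (N ^ 2)⁻¹)⁻¹ * F) := by ring

/-- the telescoping product -/
theorem prod_sq_le (M : ℕ) : ∏ n ∈ Finset.Ico 2 (M + 2), (1 - ((n : ℝ) ^ 2)⁻¹)⁻¹ ≤ 2 := by
  have h : ∀ M : ℕ, ∏ n ∈ Finset.Ico 2 (M + 2), (1 - ((n : ℝ) ^ 2)⁻¹)⁻¹ = 2 * (M + 1) / (M + 2) := by
    intro M
    induction M with
    | zero => simp
    | succ M ih =>
      rw [show M + 1 + 2 = (M + 2) + 1 from rfl, Finset.prod_Ico_succ_top (by omega), ih]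
      push_cast
      have h1 : (M : ℝ) + 2 ≠ 0 := by positivity
      have h2 : ((M : ℝ) + 2) ^ 2 - 1 ≠ 0 := by
        have : (0 : ℝ) ≤ M := Nat.cast_nonneg _
        nlinarith
      have h3 : (M : ℝ) + 1 + 2 ≠ 0 := by positivity
      have h4 : (1 - (((M : ℝ) + 2) ^ 2)⁻¹)⁻¹ = ((M : ℝ) + 2) ^ 2 / (((M : ℝ) + 2) ^ 2 - 1) := by
        have h5 : (1 - (((M : ℝ) + 2) ^ 2)⁻¹) = (((M : ℝ) + 2) ^ 2 - 1) / ((M : ℝ) + 2) ^ 2 := by
          field_simp
        rw [h5, inv_div]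
      rw [h4]
      field_simp
      ring
  rw [h M, div_le_iff₀ (by positivity)]
  linarith

theorem prime_over_card {K : Type} [Field K] [NumberField K] {p : ℕ} (hp : 2 ≤ p)
    (S : Finset (Ideal (𝓞 K))) (hS : ∀ P ∈ S, P.IsPrime ∧ P ≠ ⊥ ∧ (p : 𝓞 K) ∈ P ∧ p ≤ absNorm P) :
    S.card ≤ finrank ℚ K := by
  classical
  have h1 : ∏ P ∈ S, P ∣ span {((p : ℕ) : 𝓞 K)} := by
    refine Finset.prod_primes_dvd _ ?_ ?_
    · intro P hP
      exact Ideal.prime_of_isPrime (hS P hP).2.1 (hS P hP).1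
    · intro P hP
      rw [Ideal.dvd_iff_le, span_singleton_le_iff_mem]
      exact (hS P hP).2.2.1
  have h2 : absNorm (span {((p : ℕ) : 𝓞 K)}) = p ^ finrank ℚ K := by
    have h1 := absNorm_span_natCast (S := 𝓞 K) p
    rw [RingOfIntegers.rank] at h1
    exact h1
  have h3 : p ^ S.card ≤ p ^ finrank ℚ K := by
    calc p ^ S.card = ∏ _P ∈ S, p := by rw [Finset.prod_const]
      _ ≤ ∏ P ∈ S, absNorm P := Finset.prod_le_prod' fun P hP => (hS P hP).2.2.2
      _ = absNorm (∏ P ∈ S, P) := by rw [map_prod]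
      _ ≤ absNorm (span {((p : ℕ) : 𝓞 K)}) := by
          refine Nat.le_of_dvd ?_ (map_dvd absNorm h1)
          rw [h2]
          positivity
      _ = p ^ finrank ℚ K := h2
  exact (Nat.pow_le_pow_iff_right (by omega)).1 h3

/-- The number of the ideals of norm at most `M`. -/
theorem card_ideals_le' (K : Type) [Field K] [NumberField K] (M : ℕ)
    (s : Finset (Ideal (𝓞 K))) (hs : ∀ J ∈ s, 1 ≤ absNorm J ∧ absNorm J ≤ M) :
    s.card ≤ 2 ^ finrank ℚ K * M ^ 2 := by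
  classical
  obtain ⟨a, ha⟩ : ∃ a, a = finrank ℚ K := ⟨_, rfl⟩
  rw [← ha]
  have hs0 : ∀ J ∈ s, J ≠ ⊥ := by
    intro J hJ h0
    have h1 := (hs J hJ).1
    rw [h0, absNorm_bot] at h1
    omega
  obtain ⟨S, hS⟩ : ∃ S : Finset (Ideal (𝓞 K)), ∀ P, P ∈ S ↔ P.IsPrime ∧ ∃ J ∈ s, P ∣ J := by
    refine ⟨s.biUnion fun J => (UniqueFactorizationMonoid.normalizedFactors J).toFinset, ?_⟩
    intro P
    rw [Finset.mem_biUnion]
    constructor
    · rintro ⟨J, hJ, hP⟩
      rw [Multiset.mem_toFinset] at hP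
      exact ⟨Ideal.isPrime_of_prime (UniqueFactorizationMonoid.prime_of_normalized_factor _ hP),
        J, hJ, UniqueFactorizationMonoid.dvd_of_mem_normalizedFactors hP⟩
    · rintro ⟨hP, J, hJ, hPJ⟩
      refine ⟨J, hJ, ?_⟩
      rw [Multiset.mem_toFinset]
      have hP0 : P ≠ ⊥ := by
        rintro rfl
        rw [← Ideal.zero_eq_bot, zero_dvd_iff] at hPJ
        exact hs0 J hJ hPJ
      have hPp := Ideal.prime_of_isPrime hP0 hP
      obtain ⟨Q, hQ, hPQ⟩ := UniqueFactorizationMonoid.exists_mem_normalizedFactors_of_dvd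
        (hs0 J hJ) hPp.irreducible hPJ
      rw [associated_iff_eq] at hPQ
      rwa [hPQ]
  have hS1 : ∀ P ∈ S, P.IsPrime ∧ P ≠ ⊥ := by
    intro P hP
    obtain ⟨h1, J, hJ, hPJ⟩ := (hS P).1 hP
    refine ⟨h1, ?_⟩
    rintro rfl
    rw [← Ideal.zero_eq_bot, zero_dvd_iff] at hPJ
    exact hs0 J hJ hPJ
  have hSM : ∀ P ∈ S, absNorm P ≤ M := by
    intro P hP
    obtain ⟨h1, J, hJ, hPJ⟩ := (hS P).1 hP
    exact (Nat.le_of_dvd (hs J hJ).1 (map_dvd absNorm hPJ)).trans (hs J hJ).2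
  have hp : ∀ P : Ideal (𝓞 K), P ∈ S → ∃ p : ℕ, p.Prime ∧ (p : 𝓞 K) ∈ P ∧ p ≤ absNorm P := by
    intro P hP
    have : P.IsMaximal := (hS1 P hP).1.isMaximal (hS1 P hP).2
    obtain ⟨p, n, hn, hpP, hp, h⟩ := exists_prime_and_absNorm_eq_pow P
    refine ⟨p, hp, hpP, ?_⟩
    rw [h]
    exact Nat.le_self_pow (by omega) _
  choose! p hp1 hp2 hp3 using hp
  have h1 := supported_count K S hS1 (M : ℝ) s (by
    intro J hJ
    refine ⟨hs0 J hJ, by exact_mod_cast (hs J hJ).2, fun P hP hPJ => ?_⟩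
    exact (hS P).2 ⟨hP, J, hJ, hPJ⟩)
  have hx : ∀ n : ℕ, 2 ≤ n → 0 < 1 - ((n : ℝ) ^ 2)⁻¹ ∧ 1 - ((n : ℝ) ^ 2)⁻¹ ≤ 1 := by
    intro n hn
    have h2 : (2 : ℝ) ≤ n := by exact_mod_cast hn
    have h3 : ((n : ℝ) ^ 2)⁻¹ < 1 := inv_lt_one_of_one_lt₀ (by nlinarith)
    have h4 : 0 ≤ ((n : ℝ) ^ 2)⁻¹ := by positivity
    constructor <;> linarith
  have h2 : ∏ P ∈ S, (1 - ((absNorm P : ℝ) ^ 2)⁻¹)⁻¹ ≤ ∏ P ∈ S, (1 - ((p P : ℝ) ^ 2)⁻¹)⁻¹ := by
    refine Finset.prod_le_prod ?_ ?_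
    · intro P hP
      have h3 := hx (absNorm P) ((hp1 P hP).two_le.trans (hp3 P hP))
      exact inv_nonneg.2 h3.1.le
    · intro P hP
      have h3 := hx (absNorm P) ((hp1 P hP).two_le.trans (hp3 P hP))
      have h4 := hx (p P) (hp1 P hP).two_le
      refine inv_anti₀ h4.1 ?_
      have h5 : (0 : ℝ) < p P := by exact_mod_cast (hp1 P hP).pos
      have h6 : (p P : ℝ) ≤ absNorm P := by exact_mod_cast hp3 P hP
      have h7 : ((absNorm P : ℝ) ^ 2)⁻¹ ≤ ((p P : ℝ) ^ 2)⁻¹ := by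
        refine inv_anti₀ (by positivity) ?_
        exact pow_le_pow_left₀ h5.le h6 2
      linarith
  have h3 : ∏ P ∈ S, (1 - ((p P : ℝ) ^ 2)⁻¹)⁻¹ =
      ∏ q ∈ Finset.Ico 2 (M + 2), ∏ P ∈ S.filter (fun P => p P = q), (1 - ((q : ℝ) ^ 2)⁻¹)⁻¹ := by
    rw [← Finset.prod_fiberwise_of_maps_to (s := S) (t := Finset.Ico 2 (M + 2)) (g := p)]
    · refine Finset.prod_congr rfl fun q _ => Finset.prod_congr rfl fun P hP => ?_
      rw [(Finset.mem_filter.1 hP).2]
    · intro P hP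
      rw [Finset.mem_Ico]
      have h4 := hSM P hP
      have h5 := hp3 P hP
      exact ⟨(hp1 P hP).two_le, by omega⟩
  have h4 : ∏ q ∈ Finset.Ico 2 (M + 2), ∏ P ∈ S.filter (fun P => p P = q), (1 - ((q : ℝ) ^ 2)⁻¹)⁻¹ ≤
      ∏ q ∈ Finset.Ico 2 (M + 2), ((1 - ((q : ℝ) ^ 2)⁻¹)⁻¹) ^ a := by
    refine Finset.prod_le_prod ?_ ?_
    · intro q hq
      rw [Finset.mem_Ico] at hq
      exact Finset.prod_nonneg fun P _ => inv_nonneg.2 (hx q hq.1).1.le
    · intro q hq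
      rw [Finset.mem_Ico] at hq
      rw [Finset.prod_const]
      refine pow_le_pow_right₀ ?_ ?_
      · exact (one_le_inv₀ (hx q hq.1).1).2 (hx q hq.1).2
      · rw [ha]
        refine prime_over_card hq.1 _ fun P hP => ?_
        rw [Finset.mem_filter] at hP
        obtain ⟨hPS, hPq⟩ := hP
        refine ⟨(hS1 P hPS).1, (hS1 P hPS).2, ?_, ?_⟩
        · rw [← hPq]
          exact hp2 P hPS
        · rw [← hPq]
          exact hp3 P hPS
  have h5 : ∏ q ∈ Finset.Ico 2 (M + 2), ((1 - ((q : ℝ) ^ 2)⁻¹)⁻¹) ^ a ≤ 2 ^ a := by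
    rw [Finset.prod_pow]
    refine pow_le_pow_left₀ ?_ (prod_sq_le M) a
    refine Finset.prod_nonneg fun q hq => ?_
    rw [Finset.mem_Ico] at hq
    exact inv_nonneg.2 (hx q hq.1).1.le
  have h6 : (s.card : ℝ) ≤ 2 ^ a * (M : ℝ) ^ 2 := by
    refine h1.trans ?_
    rw [mul_comm]
    refine mul_le_mul_of_nonneg_right ?_ (by positivity)
    exact h2.trans ((le_of_eq h3).trans (h4.trans h5))
  exact_mod_cast h6

end Pool.Agent.Run7.h880
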