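import Mathlib
import Pool.Agent.Run7.h880.Data
import Pool.Agent.Run7.h880.Count
import Pool.Agent.Run7.h880.IdealCnt2

/-!
The ideals attached to a solution of `x ^ a - d = y ^ l` with `y` prime to `d` (but perhaps not to the
exponent `a`), in a field of degree `n` generated by a root of `t ^ a = d`.
-/

set_option autoImplicit false

namespace Pool.Agent.Run7.h880

open NumberField Module Ideal UniqueFactorizationMonoid

open Classical in
/-- an ideal is an `l`-th power up to the prime ideals of a given set -/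
theorem ideal_mod_pow {R : Type*} [CommRing R] [IsDedekindDomain R] {I : Ideal R} (hI : I ≠ ⊥)
    (P : Finset (Ideal R)) {l : ℕ}
    (hP : ∀ p : Ideal R, p ∉ P → l ∣ (normalizedFactors I).count p) :
    ∃ b : Ideal R, I = (∏ p ∈ P, p ^ ((normalizedFactors I).count p % l)) * b ^ l := by
  obtain ⟨s, hs⟩ : ∃ s, s = (normalizedFactors I).toFinset := ⟨_, rfl⟩
  refine ⟨∏ p ∈ s, p ^ ((normalizedFactors I).count p / l), ?_⟩
  have h1 : I = ∏ p ∈ s, p ^ (normalizedFactors I).count p := by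
    rw [hs, ← Finset.prod_multiset_count]
    exact (Ideal.prod_normalizedFactors_eq_self hI).symm
  have h2 : ∏ p ∈ P, p ^ ((normalizedFactors I).count p % l) =
      ∏ p ∈ s, p ^ ((normalizedFactors I).count p % l) := by
    have e1 : ∏ p ∈ P, p ^ ((normalizedFactors I).count p % l) =
        ∏ p ∈ P ∪ s, p ^ ((normalizedFactors I).count p % l) := by
      refine Finset.prod_subset Finset.subset_union_left fun p _ hp => ?_
      rw [Nat.mod_eq_zero_of_dvd (hP p hp), pow_zero]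
    have e2 : ∏ p ∈ s, p ^ ((normalizedFactors I).count p % l) =
        ∏ p ∈ P ∪ s, p ^ ((normalizedFactors I).count p % l) := by
      refine Finset.prod_subset Finset.subset_union_right fun p _ hp => ?_
      have : (normalizedFactors I).count p = 0 := by
        rw [Multiset.count_eq_zero]
        intro h
        exact hp (by rw [hs]; exact Multiset.mem_toFinset.2 h)
      rw [this, Nat.zero_mod, pow_zero]
    rw [e1, e2]
  rw [h2, ← Finset.prod_pow, ← Finset.prod_mul_distrib]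
  conv_lhs => rw [h1]
  refine Finset.prod_congr rfl fun p _ => ?_
  rw [← pow_mul, ← pow_add]
  congr 1
  rw [mul_comm, Nat.mod_add_div]

open Classical in
/-- the prime ideals dividing `a` -/
noncomputable def PP (K : Type) [Field K] [NumberField K] (a : ℕ) : Finset (Ideal (𝓞 K)) :=
  (normalizedFactors (span {(a : 𝓞 K)})).toFinset

theorem card_PP (K : Type) [Field K] [NumberField K] {a : ℕ} (ha : a.Prime) :
    (PP K a).card ≤ finrank ℚ K := by
  classical
  obtain ⟨n, hn⟩ : ∃ n, n = finrank ℚ K := ⟨_, rfl⟩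
  rw [← hn]
  have ha0 : (a : 𝓞 K) ≠ 0 := Nat.cast_ne_zero.2 ha.ne_zero
  have hI : span {(a : 𝓞 K)} ≠ ⊥ := by
    rw [Ne, span_singleton_eq_bot]
    exact ha0
  have hN : absNorm (span {(a : 𝓞 K)}) = a ^ n := by
    rw [hn, absNorm_span_singleton]
    have h1 : (Algebra.norm ℤ) ((a : 𝓞 K)) = (a : ℤ) ^ finrank ℚ K := by
      have h2 := Algebra.norm_algebraMap_of_basis (NumberField.RingOfIntegers.basis K) (a : ℤ)
      rw [map_natCast] at h2
      rw [h2]
      congr 1
      rw [← NumberField.RingOfIntegers.rank K, Module.finrank_eq_card_chooseBasisIndex]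
    rw [h1, Int.natAbs_pow, Int.natAbs_natCast]
  have h1 : ∏ p ∈ PP K a, p ^ (normalizedFactors (span {(a : 𝓞 K)})).count p = span {(a : 𝓞 K)} := by
    unfold PP
    rw [← Finset.prod_multiset_count]
    exact Ideal.prod_normalizedFactors_eq_self hI
  have h2 : ∏ p ∈ PP K a, absNorm p ^ (normalizedFactors (span {(a : 𝓞 K)})).count p = a ^ n := by
    rw [← hN, ← h1, map_prod]
    simp only [map_pow]
    rw [h1]
  have h3 : ∀ p ∈ PP K a, a ≤ absNorm p ^ (normalizedFactors (span {(a : 𝓞 K)})).count p := by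
    intro p hp
    have hp' : p ∈ normalizedFactors (span {(a : 𝓞 K)}) := by
      unfold PP at hp
      exact Multiset.mem_toFinset.1 hp
    have hprime := prime_of_normalized_factor p hp'
    have hpI : p.IsPrime := Ideal.isPrime_of_prime hprime
    have hc : (normalizedFactors (span {(a : 𝓞 K)})).count p ≠ 0 := by
      rw [Ne, Multiset.count_eq_zero, not_not]
      exact hp'
    have hd : absNorm p ∣ a ^ n := by
      rw [← hN]
      exact map_dvd absNorm (dvd_of_mem_normalizedFactors hp')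
    obtain ⟨j, hj, hpj⟩ := (Nat.dvd_prime_pow ha).1 hd
    have hne1 : absNorm p ≠ 1 := by
      rw [Ne, absNorm_eq_one_iff]
      exact hpI.ne_top
    have hj0 : j ≠ 0 := by
      rintro rfl
      rw [pow_zero] at hpj
      exact hne1 hpj
    rw [hpj, ← pow_mul]
    exact Nat.le_self_pow (Nat.mul_ne_zero hj0 hc) a
  have h4 : a ^ (PP K a).card ≤ a ^ n := by
    rw [← h2]
    calc a ^ (PP K a).card = ∏ _p ∈ PP K a, a := by rw [Finset.prod_const]
      _ ≤ _ := Finset.prod_le_prod' h3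
  exact (Nat.pow_le_pow_iff_right ha.one_lt).1 h4

open Classical in
theorem ideal_pow2 {K : Type} [Field K] [NumberField K] {a : ℕ} {α : 𝓞 K} {d : ℤ}
    (ha : a.Prime) (hα : α ^ a = (d : 𝓞 K)) {x y : ℤ} {l : ℕ}
    (hxy : x ^ a - d = y ^ l) (hco : IsCoprime y d) (hxα : (x : 𝓞 K) - α ≠ 0)
    (p : Ideal (𝓞 K)) (hp : p ∉ PP K a) :
    l ∣ (normalizedFactors (span {(x : 𝓞 K) - α})).count p := by
  classical
  have ha1 : 1 ≤ a := ha.one_lt.le
  obtain ⟨h, hh⟩ : ∃ h : 𝓞 K, h = ∑ j ∈ Finset.range a, (x : 𝓞 K) ^ j * α ^ (a - 1 - j) := ⟨_, rfl⟩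
  have e1 : ((x : 𝓞 K) - α) * h = (y : 𝓞 K) ^ l := by
    rw [mul_comm, hh, geom_sum₂_mul, hα]
    exact_mod_cast congrArg (fun z : ℤ => (z : 𝓞 K)) hxy
  have e2 : ((x : 𝓞 K) - α) ∣ h - (a : 𝓞 K) * α ^ (a - 1) := by
    have e3 : (a : 𝓞 K) * α ^ (a - 1) = ∑ j ∈ Finset.range a, α ^ j * α ^ (a - 1 - j) := by
      rw [Finset.sum_congr rfl (g := fun _ => α ^ (a - 1))]
      · rw [Finset.sum_const, Finset.card_range, nsmul_eq_mul]
      · intro j hj
        rw [Finset.mem_range] at hj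
        rw [← pow_add]
        congr 1
        omega
    rw [hh, e3, ← Finset.sum_sub_distrib]
    refine Finset.dvd_sum fun j _ => ?_
    rw [← sub_mul]
    exact Dvd.dvd.mul_right (sub_dvd_pow_sub_pow _ _ _) _
  obtain ⟨g, hg⟩ := e2
  by_cases hpm : p ∈ normalizedFactors (span {(x : 𝓞 K) - α})
  swap
  · rw [Multiset.count_eq_zero.2 hpm]
    exact dvd_zero _
  have hprime := prime_of_normalized_factor p hpm
  have hpI : p.IsPrime := Ideal.isPrime_of_prime hprime
  have hxp : (x : 𝓞 K) - α ∈ p := by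
    have h1 := dvd_of_mem_normalizedFactors hpm
    rw [Ideal.dvd_iff_le, span_singleton_le_iff_mem] at h1
    exact h1
  have haI : span {(a : 𝓞 K)} ≠ ⊥ := by
    rw [Ne, span_singleton_eq_bot]
    exact Nat.cast_ne_zero.2 ha.ne_zero
  have hhp : h ∉ p := by
    intro hhp
    have h1 : (a : 𝓞 K) * α ^ (a - 1) ∈ p := by
      have e4 : (a : 𝓞 K) * α ^ (a - 1) = h - ((x : 𝓞 K) - α) * g := by
        rw [← hg]
        ring
      rw [e4]
      exact p.sub_mem hhp (p.mul_mem_right _ hxp)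
    rcases hpI.mem_or_mem h1 with h2 | h2
    · apply hp
      unfold PP
      rw [Multiset.mem_toFinset]
      have h3 : p ∣ span {(a : 𝓞 K)} := by
        rw [Ideal.dvd_iff_le, span_singleton_le_iff_mem]
        exact h2
      obtain ⟨q, hq, hpq⟩ := exists_mem_normalizedFactors_of_dvd haI hprime.irreducible h3
      rw [associated_iff_eq] at hpq
      rwa [hpq]
    · have h3 := hpI.mem_of_pow_mem _ h2
      have h4 : (d : 𝓞 K) ∈ p := by
        rw [← hα]
        exact p.pow_mem_of_mem h3 _ ha1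
      have h5 : (y : 𝓞 K) ^ l ∈ p := by
        rw [← e1]
        exact p.mul_mem_right _ hxp
      have h6 := hpI.mem_of_pow_mem _ h5
      obtain ⟨r, s, hrs⟩ := hco
      have h7 : (r : 𝓞 K) * (y : 𝓞 K) + (s : 𝓞 K) * (d : 𝓞 K) = 1 := by
        exact_mod_cast congrArg (fun z : ℤ => (z : 𝓞 K)) hrs
      apply hpI.ne_top
      rw [Ideal.eq_top_iff_one, ← h7]
      exact p.add_mem (p.mul_mem_left _ h6) (p.mul_mem_left _ h4)
  have hh0 : h ≠ 0 := by
    rintro rfl
    exact hhp p.zero_mem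
  have e5 : span {(x : 𝓞 K) - α} * span {h} = (span {(y : 𝓞 K)}) ^ l := by
    rw [span_singleton_mul_span_singleton, e1, span_singleton_pow]
  have hI1 : span {(x : 𝓞 K) - α} ≠ ⊥ := by
    rw [Ne, span_singleton_eq_bot]
    exact hxα
  have hI2 : span {h} ≠ ⊥ := by
    rw [Ne, span_singleton_eq_bot]
    exact hh0
  have e6 := congrArg (fun J => (normalizedFactors J).count p) e5
  rw [normalizedFactors_mul hI1 hI2, normalizedFactors_pow, Multiset.count_add,
    Multiset.count_nsmul] at e6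
  have e7 : (normalizedFactors (span {h})).count p = 0 := by
    rw [Multiset.count_eq_zero]
    intro h1
    have h2 := dvd_of_mem_normalizedFactors h1
    rw [Ideal.dvd_iff_le, span_singleton_le_iff_mem] at h2
    exact hhp h2
  rw [e7, add_zero] at e6
  rw [e6]
  exact dvd_mul_right _ _

/-- the data attached to a solution -/
def Dat2 (K : Type) [Field K] [NumberField K] (α : 𝓞 K) (n l M x : ℕ) (A J : Ideal (𝓞 K))
    (β : 𝓞 K) : Prop :=
  β ≠ 0 ∧ 1 ≤ absNorm J ∧ absNorm J ≤ M ∧ span {(x : 𝓞 K) - α} * J ^ l = A * span {β} ^ l ∧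
    absNorm (span {β}) ^ l ≤ M ^ l * (2 * x) ^ n

open Classical in
/-- the ideals `A` -/
noncomputable def AA (K : Type) [Field K] [NumberField K] (a l : ℕ) : Finset (Ideal (𝓞 K)) :=
  ((PP K a).pi fun _ => Finset.range l).image fun f => ∏ p ∈ (PP K a).attach, (p : Ideal (𝓞 K)) ^ f p p.2

theorem card_AA (K : Type) [Field K] [NumberField K] {a l : ℕ} (ha : a.Prime) (hl : 1 ≤ l) :
    (AA K a l).card ≤ l ^ finrank ℚ K := by
  classical
  unfold AA
  refine Finset.card_image_le.trans ?_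
  rw [Finset.card_pi]
  simp only [Finset.card_range, Finset.prod_const]
  exact Nat.pow_le_pow_right hl (card_PP K ha)

theorem exists_dat2 {K : Type} [Field K] [NumberField K] {a n : ℕ} (hK : finrank ℚ K = n)
    (ha : a.Prime) {α : 𝓞 K} {d : ℤ} {D : ℕ} (hα : α ^ a = (d : 𝓞 K))
    (hαD : ∀ σ : K →ₐ[ℚ] ℂ, ∀ i ≤ n, ‖σ (α : K)‖ ^ i ≤ D)
    (hli : LinearIndependent ℚ fun i : Fin n => (α : K) ^ (i : ℕ))
    {x : ℕ} {y : ℤ} {l : ℕ} (hl : 1 ≤ l) (hxy : (x : ℤ) ^ a - d = y ^ l)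
    (hco : IsCoprime y d) (hxD : D ≤ x) (hxα : (x : 𝓞 K) - α ≠ 0) :
    ∃ A ∈ AA K a l, ∃ J β, Dat2 K α n l ((n * D) ^ n) x A J β := by
  classical
  have hn1 : 1 ≤ n := by
    rw [← hK]
    exact finrank_pos
  have hD : 1 ≤ D := by
    obtain ⟨σ⟩ : Nonempty (K →ₐ[ℚ] ℂ) := by
      rw [← Fintype.card_pos_iff, AlgHom.card ℚ K ℂ]
      exact finrank_pos
    have := hαD σ 0 (Nat.zero_le _)
    rw [pow_zero] at this
    exact_mod_cast this
  have hI0 : span {(x : 𝓞 K) - α} ≠ ⊥ := by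
    rw [Ne, span_singleton_eq_bot]
    exact hxα
  obtain ⟨b, hb⟩ := ideal_mod_pow hI0 (PP K a) (l := l) (fun p hp => by
    have := ideal_pow2 ha hα hxy hco (by rw [Int.cast_natCast]; exact hxα) p hp
    rwa [Int.cast_natCast] at this)
  obtain ⟨A, hA⟩ : ∃ A, A = ∏ p ∈ PP K a,
    p ^ ((normalizedFactors (span {(x : 𝓞 K) - α})).count p % l) := ⟨_, rfl⟩
  rw [← hA] at hb
  have hAA : A ∈ AA K a l := by
    unfold AA
    rw [Finset.mem_image]
    refine ⟨fun p _ => (normalizedFactors (span {(x : 𝓞 K) - α})).count p % l, ?_, ?_⟩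
    · rw [Finset.mem_pi]
      intro p _
      rw [Finset.mem_range]
      exact Nat.mod_lt _ hl
    · rw [hA]
      exact Finset.prod_attach (PP K a)
        (fun p => p ^ ((normalizedFactors (span {(x : 𝓞 K) - α})).count p % l))
  have hb0 : b ≠ ⊥ := by
    rintro rfl
    rw [← Ideal.zero_eq_bot, zero_pow (by omega), mul_zero, Ideal.zero_eq_bot] at hb
    exact hI0 hb
  have hA0 : A ≠ ⊥ := by
    rintro rfl
    rw [← Ideal.zero_eq_bot, zero_mul, Ideal.zero_eq_bot] at hb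
    exact hI0 hb
  obtain ⟨β, hβb, hβ0, hβn⟩ := small_elt hK hD (fun σ i hi => hαD σ i hi.le) hli b hb0
  obtain ⟨J, hJ⟩ : b ∣ span {β} := by
    rw [Ideal.dvd_iff_le, span_singleton_le_iff_mem]
    exact hβb
  have hJ0 : J ≠ ⊥ := by
    rintro rfl
    rw [← Ideal.zero_eq_bot, mul_zero, Ideal.zero_eq_bot, span_singleton_eq_bot] at hJ
    exact hβ0 hJ
  have hNb : 0 < absNorm b := Nat.pos_of_ne_zero (by rw [Ne, absNorm_eq_zero_iff]; exact hb0)
  have hNA : 0 < absNorm A := Nat.pos_of_ne_zero (by rw [Ne, absNorm_eq_zero_iff]; exact hA0)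
  have hNJ : 0 < absNorm J := Nat.pos_of_ne_zero (by rw [Ne, absNorm_eq_zero_iff]; exact hJ0)
  have hN : absNorm (span {β}) = absNorm b * absNorm J := by rw [hJ, map_mul]
  refine ⟨A, hAA, J, β, hβ0, hNJ, ?_, ?_, ?_⟩
  · rw [hN, mul_comm] at hβn
    exact Nat.le_of_mul_le_mul_right hβn hNb
  · rw [hb, hJ, mul_pow]
    ring
  · have h1 : absNorm b ^ l ≤ (2 * x) ^ n := by
      have h0 : absNorm b ^ l ≤ absNorm (span {(x : 𝓞 K) - α}) := by
        rw [hb, map_mul, map_pow]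
        exact Nat.le_mul_of_pos_left _ hNA
      refine h0.trans ?_
      have h2 := absNorm_span_eq K ((x : 𝓞 K) - α)
      have h3 : ((absNorm (span {(x : 𝓞 K) - α}) : ℕ) : ℝ) ≤ ((2 * x : ℕ) : ℝ) ^ n := by
        rw [h2]
        have hc : Fintype.card (K →ₐ[ℚ] ℂ) = n := by
          rw [← hK]
          exact AlgHom.card ℚ K ℂ
        calc ∏ σ : K →ₐ[ℚ] ℂ, ‖σ (((x : 𝓞 K) - α : 𝓞 K) : K)‖
            ≤ ∏ _σ : K →ₐ[ℚ] ℂ, ((2 * x : ℕ) : ℝ) := by
              refine Finset.prod_le_prod (fun σ _ => norm_nonneg _) fun σ _ => ?_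
              have e1 : σ (((x : 𝓞 K) - α : 𝓞 K) : K) = (x : ℂ) - σ (α : K) := by
                have e0 : (((x : 𝓞 K) - α : 𝓞 K) : K) = (x : K) - (α : K) := by
                  change algebraMap (𝓞 K) K _ = _
                  rw [map_sub, map_natCast]
                rw [e0, map_sub, map_natCast]
              rw [e1]
              refine (norm_sub_le _ _).trans ?_
              have h4 := hαD σ 1 hn1
              rw [pow_one] at h4
              have h5 : (D : ℝ) ≤ x := by exact_mod_cast hxD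
              rw [Complex.norm_natCast]
              push_cast
              linarith
          _ = ((2 * x : ℕ) : ℝ) ^ n := by rw [Finset.prod_const, Finset.card_univ, hc]
      exact_mod_cast h3
    calc absNorm (span {β}) ^ l ≤ ((n * D) ^ n * absNorm b) ^ l := Nat.pow_le_pow_left hβn _
      _ = ((n * D) ^ n) ^ l * absNorm b ^ l := mul_pow _ _ _
      _ ≤ _ := Nat.mul_le_mul_left _ h1

section
variable {K : Type} [Field K] [NumberField K] {n : ℕ} {α : 𝓞 K} {D : ℕ}

/-- solutions with given ideals -/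
theorem classB2 (hK : finrank ℚ K = n) (hn : 2 ≤ n) (hD : 1 ≤ D)
    (hαD : ∀ σ : K →ₐ[ℚ] ℂ, ‖σ (α : K)‖ ≤ D)
    (hsep : ∀ σ τ : K →ₐ[ℚ] ℂ, σ (α : K) = τ (α : K) → σ = τ) {l : ℕ} (hl : 3 ≤ l) (X : ℕ)
    (S : Finset ℕ) (hS : ∀ x ∈ S, x ≤ X ∧ 8 * (32 * D * (n * D) ^ 2) ^ 3 ≤ x)
    (A J : Ideal (𝓞 K)) (β : ℕ → 𝓞 K) (hβ : ∀ x ∈ S, Dat2 K α n l ((n * D) ^ n) x A J (β x)) :
    S.card ≤ l ^ n * (l ^ n * (Nat.log 2 X + 1)) := by
  classical
  rcases S.eq_empty_or_nonempty with rfl | ⟨x₀, hx₀⟩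
  · rw [Finset.card_empty]
    exact Nat.zero_le _
  have hnD : 1 ≤ n * D := Nat.mul_pos (by omega) hD
  have hxα : ∀ x ∈ S, (x : 𝓞 K) - α ≠ 0 := by
    intro x hx h0
    obtain ⟨σ⟩ : Nonempty (K →ₐ[ℚ] ℂ) := by
      rw [← Fintype.card_pos_iff, AlgHom.card ℚ K ℂ]
      exact finrank_pos
    have hDx : D < x := by
      have e1 : D ≤ 32 * D * (n * D) ^ 2 := by
        calc D = D * 1 := (mul_one D).symm
          _ ≤ (32 * D) * (n * D) ^ 2 := Nat.mul_le_mul (by omega) (Nat.one_le_pow _ _ hnD)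
      have e2 : 32 * D * (n * D) ^ 2 ≤ (32 * D * (n * D) ^ 2) ^ 3 := Nat.le_self_pow (by norm_num) _
      have := (hS x hx).2
      omega
    refine sub_ne hαD hDx σ ?_
    have e0 := congrArg (algebraMap (𝓞 K) K) h0
    rw [map_sub, map_natCast, map_zero] at e0
    have e1 := congrArg σ e0
    rw [map_sub, map_natCast, map_zero] at e1
    exact e1
  have hJA : J ^ l * A ≠ 0 := by
    have hJ0 : J ≠ 0 := by
      rintro rfl
      have := (hβ x₀ hx₀).2.1
      rw [Ideal.zero_eq_bot, absNorm_bot] at this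
      omega
    refine mul_ne_zero (pow_ne_zero _ hJ0) ?_
    rintro rfl
    have h1 := (hβ x₀ hx₀).2.2.2.1
    rw [zero_mul] at h1
    rcases mul_eq_zero.1 h1 with h2 | h2
    · rw [Ideal.zero_eq_bot, span_singleton_eq_bot] at h2
      exact hxα x₀ hx₀ h2
    · exact pow_ne_zero _ hJ0 h2
  have hspan : ∀ x ∈ S, ∃ u : (𝓞 K)ˣ,
      ((x : 𝓞 K) - α) * β x₀ ^ l * u = ((x₀ : 𝓞 K) - α) * β x ^ l := by
    intro x hx
    have h1 := (hβ x hx).2.2.2.1
    have h2 := (hβ x₀ hx₀).2.2.2.1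
    have h3 : span {((x : 𝓞 K) - α) * β x₀ ^ l} = span {((x₀ : 𝓞 K) - α) * β x ^ l} := by
      apply mul_right_cancel₀ hJA
      rw [← span_singleton_mul_span_singleton, ← span_singleton_mul_span_singleton,
        ← span_singleton_pow, ← span_singleton_pow]
      calc span {(x : 𝓞 K) - α} * span {β x₀} ^ l * (J ^ l * A)
          = (span {(x : 𝓞 K) - α} * J ^ l) * (A * span {β x₀} ^ l) := by ring
        _ = (A * span {β x} ^ l) * (span {(x₀ : 𝓞 K) - α} * J ^ l) := by rw [h1, h2]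
        _ = span {(x₀ : 𝓞 K) - α} * span {β x} ^ l * (J ^ l * A) := by ring
    rw [span_singleton_eq_span_singleton] at h3
    exact h3
  choose! u hu using hspan
  obtain ⟨U, _, f, hf1, hf2⟩ := unit_classes K (l := l) (by omega)
  rw [hK] at hf1
  refine (Finset.card_le_mul_card_image (f := fun x => f (u x)) S
    (l ^ n * (Nat.log 2 X + 1)) ?_).trans ?_
  · intro τ hτ
    rw [Finset.mem_image] at hτ
    obtain ⟨x₁, hx₁, hτ⟩ := hτ
    have hw : ∀ x ∈ S.filter (fun x => f (u x) = τ), ∃ w : (𝓞 K)ˣ, u x = u x₁ * w ^ l := by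
      intro x hx
      obtain ⟨hxS, hfx⟩ := Finset.mem_filter.1 hx
      exact hf2 _ _ (hfx.trans hτ.symm)
    choose! w hw using hw
    have hβ0 : (β x₀ : K) ≠ 0 := by
      have := (hβ x₀ hx₀).1
      exact_mod_cast this
    refine classA hK hn hD hαD hsep hl X _ (fun x hx => hS x (Finset.mem_filter.1 hx).1)
      (((x₀ : K) - α) / ((β x₀ : K) ^ l * ((u x₁ : 𝓞 K) : K))) (fun x => β x * ((w x)⁻¹ : (𝓞 K)ˣ))
      ?_ ?_
    · intro x hx
      obtain ⟨hxS, hfx⟩ := Finset.mem_filter.1 hx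
      have e1 := hu x hxS
      rw [hw x hx] at e1
      have e2 := congrArg (algebraMap (𝓞 K) K) e1
      simp only [Units.val_mul, Units.val_pow_eq_pow_val, map_mul, map_pow, map_sub,
        map_natCast] at e2
      have hu0 : algebraMap (𝓞 K) K (u x₁ : 𝓞 K) ≠ 0 := by
        rw [Ne, FaithfulSMul.algebraMap_eq_zero_iff]
        exact Units.ne_zero _
      have hw1 : algebraMap (𝓞 K) K (w x : 𝓞 K) * algebraMap (𝓞 K) K (((w x)⁻¹ : (𝓞 K)ˣ) : 𝓞 K) = 1 := by
        rw [← map_mul, Units.mul_inv, map_one]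
      have hβ0' : algebraMap (𝓞 K) K (β x₀) ≠ 0 := hβ0
      have hw2 : algebraMap (𝓞 K) K (w x : 𝓞 K) ^ l *
          algebraMap (𝓞 K) K (((w x)⁻¹ : (𝓞 K)ˣ) : 𝓞 K) ^ l = 1 := by
        rw [← mul_pow, hw1, one_pow]
      show ((x₀ : K) - algebraMap (𝓞 K) K α) / (algebraMap (𝓞 K) K (β x₀) ^ l *
        algebraMap (𝓞 K) K (u x₁ : 𝓞 K)) * (algebraMap (𝓞 K) K (β x * (((w x)⁻¹ : (𝓞 K)ˣ) : 𝓞 K))) ^ l =
        (x : K) - algebraMap (𝓞 K) K α
      rw [map_mul, mul_pow, div_mul_eq_mul_div, div_eq_iff (mul_ne_zero (pow_ne_zero _ hβ0') hu0)]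
      linear_combination (-(algebraMap (𝓞 K) K (((w x)⁻¹ : (𝓞 K)ˣ) : 𝓞 K)) ^ l) * e2 +
        (((x : K) - algebraMap (𝓞 K) K α) * (algebraMap (𝓞 K) K (β x₀) ^ l *
          algebraMap (𝓞 K) K (u x₁ : 𝓞 K))) * hw2
    · intro x hx
      obtain ⟨hxS, hfx⟩ := Finset.mem_filter.1 hx
      have e1 : span {β x * (((w x)⁻¹ : (𝓞 K)ˣ) : 𝓞 K)} = span {β x} := by
        rw [span_singleton_eq_span_singleton]
        exact (associated_mul_unit_left _ _ (Units.isUnit _))
      rw [e1]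
      exact (hβ x hxS).2.2.2.2
  · rw [mul_comm]
    refine Nat.mul_le_mul_right _ ((Finset.card_le_univ _).trans hf1)

/-- all solutions -/
theorem classC2 {a : ℕ} (ha : a.Prime) (hK : finrank ℚ K = n) (hn : 2 ≤ n) (hD : 1 ≤ D)
    (hαD : ∀ σ : K →ₐ[ℚ] ℂ, ‖σ (α : K)‖ ≤ D)
    (hsep : ∀ σ τ : K →ₐ[ℚ] ℂ, σ (α : K) = τ (α : K) → σ = τ) {l : ℕ} (hl : 3 ≤ l) (X : ℕ)
    (S : Finset ℕ) (hS : ∀ x ∈ S, x ≤ X ∧ 8 * (32 * D * (n * D) ^ 2) ^ 3 ≤ x)
    (hdat : ∀ x ∈ S, ∃ A ∈ AA K a l, ∃ J β, Dat2 K α n l ((n * D) ^ n) x A J β) :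
    S.card ≤ (n * D) ^ (3 * n) * (l ^ (3 * n) * (Nat.log 2 X + 1)) := by
  classical
  choose! A hA J β hβ using hdat
  refine (Finset.card_le_mul_card_image (f := fun x => (A x, J x)) S
    (l ^ n * (l ^ n * (Nat.log 2 X + 1))) ?_).trans ?_
  · rintro ⟨I', I⟩ _
    refine classB2 hK hn hD hαD hsep hl X _ (fun x hx => hS x (Finset.mem_filter.1 hx).1) I' I β ?_
    intro x hx
    obtain ⟨hxS, hfx⟩ := Finset.mem_filter.1 hx
    have := hβ x hxS
    simp only [Prod.mk.injEq] at hfx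
    rwa [hfx.1, hfx.2] at this
  · have h0 : (S.image fun x => (A x, J x)).card ≤ (AA K a l).card * (S.image J).card := by
      rw [← Finset.card_product]
      refine Finset.card_le_card ?_
      intro t ht
      rw [Finset.mem_image] at ht
      obtain ⟨x, hx, rfl⟩ := ht
      rw [Finset.mem_product]
      exact ⟨hA x hx, Finset.mem_image_of_mem J hx⟩
    have h1 := card_ideals_le' K ((n * D) ^ n) (S.image J) (by
      intro I hI
      obtain ⟨x, hx, rfl⟩ := Finset.mem_image.1 hI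
      exact ⟨(hβ x hx).2.1, (hβ x hx).2.2.1⟩)
    rw [hK] at h1
    have h2 : 2 ^ n * ((n * D) ^ n) ^ 2 ≤ (n * D) ^ (3 * n) := by
      calc 2 ^ n * ((n * D) ^ n) ^ 2 ≤ (n * D) ^ n * ((n * D) ^ n) ^ 2 := by
            refine Nat.mul_le_mul_right _ (Nat.pow_le_pow_left ?_ _)
            calc 2 = 2 * 1 := rfl
              _ ≤ n * D := Nat.mul_le_mul hn hD
        _ = (n * D) ^ (3 * n) := by
            rw [← pow_mul, ← pow_add]
            congr 1
            ring
    have h3 : (AA K a l).card ≤ l ^ n := by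
      have := card_AA K ha (l := l) (by omega)
      rwa [hK] at this
    calc l ^ n * (l ^ n * (Nat.log 2 X + 1)) * (S.image fun x => (A x, J x)).card
        ≤ l ^ n * (l ^ n * (Nat.log 2 X + 1)) * (l ^ n * (n * D) ^ (3 * n)) :=
          Nat.mul_le_mul_left _ (h0.trans (Nat.mul_le_mul h3 (h1.trans h2)))
      _ = (n * D) ^ (3 * n) * (l ^ (3 * n) * (Nat.log 2 X + 1)) := by
          rw [show 3 * n = n + n + n by ring, pow_add, pow_add, pow_add, pow_add]
          ring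

end

end Pool.Agent.Run7.h880
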