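import Mathlib
import Pool.Agent.Run7.h880.Count

/-!
The field `ℚ(d ^ (1 / a))` for a prime `a`, and the number of the solutions of `x ^ a - d = y ^ l`.
-/

set_option autoImplicit false

namespace Pool.Agent.Run7.h880

open NumberField Module Polynomial

theorem field_aux {a : ℕ} {d : ℤ} (ha : 0 < a) {K : Type} [Field K] [A : Algebra ℚ K] (x : K)
    (h1 : finrank ℚ K = a) (h2 : x ^ a = (d : K)) (h3 : ∀ σ τ : K →+* ℂ, σ x = τ x → σ = τ)
    (h4 : LinearIndependent ℚ fun i : Fin a => x ^ (i : ℕ)) :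
    ∃ (K : Type) (_ : Field K) (_ : NumberField K) (α : 𝓞 K), finrank ℚ K = a ∧
      α ^ a = (d : 𝓞 K) ∧ (∀ σ τ : K →ₐ[ℚ] ℂ, σ (α : K) = τ (α : K) → σ = τ) ∧
      LinearIndependent ℚ (fun i : Fin a => (α : K) ^ (i : ℕ)) := by
  have hc : CharZero K := algebraRat.charZero _
  have hA : A = DivisionRing.toRatAlgebra := Subsingleton.elim _ _
  subst hA
  have hfd : FiniteDimensional ℚ K := FiniteDimensional.of_finrank_pos (by rw [h1]; exact ha)
  have hnf : NumberField K := { }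
  have hint : IsIntegral ℤ x := by
    refine IsIntegral.of_pow (n := a) ha ?_
    rw [h2]
    exact isIntegral_algebraMap (R := ℤ) (A := K) (x := d)
  refine ⟨K, inferInstance, inferInstance, ⟨x, hint⟩, h1, ?_, ?_, h4⟩
  · apply RingOfIntegers.ext
    show x ^ a = _
    rw [h2]
    exact (map_intCast (algebraMap (𝓞 K) K) d).symm
  · intro σ τ h
    apply AlgHom.coe_ringHom_injective
    exact h3 _ _ h

theorem exists_field {a : ℕ} (ha : a.Prime) {d : ℤ} (hdp : ∀ c : ℤ, c ^ a ≠ d) :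
    ∃ (K : Type) (_ : Field K) (_ : NumberField K) (α : 𝓞 K), finrank ℚ K = a ∧
      α ^ a = (d : 𝓞 K) ∧ (∀ σ τ : K →ₐ[ℚ] ℂ, σ (α : K) = τ (α : K) → σ = τ) ∧
      LinearIndependent ℚ (fun i : Fin a => (α : K) ^ (i : ℕ)) := by
  classical
  have hirr : Irreducible (X ^ a - C (d : ℚ) : ℚ[X]) := by
    refine X_pow_sub_C_irreducible_of_prime ha fun b hb => ?_
    have hint : IsIntegral ℤ b := by
      refine IsIntegral.of_pow (n := a) ha.pos ?_
      rw [hb]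
      exact isIntegral_algebraMap (R := ℤ) (A := ℚ) (x := d)
    obtain ⟨c, hc⟩ := IsIntegrallyClosed.isIntegral_iff.1 hint
    apply hdp c
    rw [← hc] at hb
    have h1 : ((c : ℚ)) ^ a = (d : ℚ) := by simpa using hb
    exact_mod_cast h1
  obtain ⟨f, hf⟩ : ∃ f : ℚ[X], f = X ^ a - C (d : ℚ) := ⟨_, rfl⟩
  rw [← hf] at hirr
  have hmon : f.Monic := by
    rw [hf]
    exact monic_X_pow_sub_C _ ha.ne_zero
  have hdeg : f.natDegree = a := by rw [hf, natDegree_X_pow_sub_C]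
  have hfact : Fact (Irreducible f) := ⟨hirr⟩
  have hdim : finrank ℚ (AdjoinRoot f) = a := by
    rw [(AdjoinRoot.powerBasis' hmon).finrank, AdjoinRoot.powerBasis'_dim, hdeg]
  refine field_aux ha.pos (AdjoinRoot.root f) hdim ?_ ?_ ?_
  · have h2 := AdjoinRoot.eval₂_root f
    have h3 : eval₂ (AdjoinRoot.of f) (AdjoinRoot.root f) (X ^ a - C (d : ℚ)) = 0 := by
      rw [← hf]
      exact h2
    rw [eval₂_sub, eval₂_X_pow, eval₂_C] at h3
    rw [sub_eq_zero.1 h3]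
    exact map_intCast _ d
  · intro σ τ h
    exact AdjoinRoot.ringHom_ext (Subsingleton.elim _ _) h
  · have h1 := linearIndependent_pow (K := ℚ) (AdjoinRoot.root f)
    have h2 : (minpoly ℚ (AdjoinRoot.root f)).natDegree = a := by
      have h3 := (AdjoinRoot.powerBasis' hmon).natDegree_minpoly
      rw [AdjoinRoot.powerBasis'_dim, hdeg] at h3
      exact h3
    rw [h2] at h1
    exact h1

/-- The number of the large solutions of `x ^ a - d = y ^ l`. -/
theorem count_adl {a : ℕ} (ha : a.Prime) {d : ℤ} (hd : d ≠ 0) (hdp : ∀ c : ℤ, c ^ a ≠ d) {l : ℕ}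
    (hl : 3 ≤ l) (X : ℕ) (S : Finset ℕ)
    (hS : ∀ x ∈ S, x ≤ X ∧ 8 * (32 * d.natAbs * (a * d.natAbs) ^ 2) ^ 3 ≤ x ∧
      ∃ y : ℤ, (x : ℤ) ^ a - d = y ^ l ∧ IsCoprime y (a * d)) :
    S.card ≤ ((a * d.natAbs) ^ a) ^ (a + 1) * (l ^ a * (l ^ a * (Nat.log 2 X + 1))) := by
  classical
  obtain ⟨K, _, _, α, hK, hα, hsep, hli⟩ := exists_field ha hdp
  obtain ⟨D, hD⟩ : ∃ D, D = d.natAbs := ⟨_, rfl⟩
  rw [← hD] at hS ⊢
  have hD1 : 1 ≤ D := by
    rw [hD]
    exact Int.natAbs_pos.2 hd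
  have hD1R : (1 : ℝ) ≤ D := by exact_mod_cast hD1
  have hpow : ∀ σ : K →ₐ[ℚ] ℂ, ‖σ (α : K)‖ ^ a = D := by
    intro σ
    have h1 : ((α : K)) ^ a = (d : K) := by
      have := congrArg (algebraMap (𝓞 K) K) hα
      rw [map_pow, map_intCast] at this
      exact this
    have h2 := congrArg σ h1
    rw [map_pow, map_intCast] at h2
    rw [← norm_pow, h2, Complex.norm_intCast, ← Int.cast_abs, Int.abs_eq_natAbs, ← hD,
      Int.cast_natCast]
  have hge1 : ∀ σ : K →ₐ[ℚ] ℂ, 1 ≤ ‖σ (α : K)‖ := by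
    intro σ
    by_contra hcon
    push Not at hcon
    have := pow_lt_one₀ (norm_nonneg _) hcon ha.ne_zero
    rw [hpow σ] at this
    linarith
  have hαD : ∀ σ : K →ₐ[ℚ] ℂ, ∀ i ≤ a, ‖σ (α : K)‖ ^ i ≤ D := by
    intro σ i hi
    rw [← hpow σ]
    exact pow_le_pow_right₀ (hge1 σ) hi
  have hαD1 : ∀ σ : K →ₐ[ℚ] ℂ, ‖σ (α : K)‖ ≤ D := by
    intro σ
    have := hαD σ 1 ha.one_lt.le
    rwa [pow_one] at this
  have haD : 1 ≤ a * D := Nat.mul_pos ha.pos hD1
  refine classC hK ha.two_le hD1 hαD1 hsep hl X S (fun x hx => ⟨(hS x hx).1, (hS x hx).2.1⟩) ?_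
  intro x hx
  obtain ⟨h1, h2, y, h3, h4⟩ := hS x hx
  have hDx : D < x := by
    have e1 : D ≤ 32 * D * (a * D) ^ 2 := by
      calc D = D * 1 := (mul_one D).symm
        _ ≤ (32 * D) * (a * D) ^ 2 := Nat.mul_le_mul (by omega) (Nat.one_le_pow _ _ haD)
    have e2 : 32 * D * (a * D) ^ 2 ≤ (32 * D * (a * D) ^ 2) ^ 3 := Nat.le_self_pow (by norm_num) _
    omega
  refine exists_dat hK hα hαD hli (by omega) h3 h4 hDx.le ?_
  intro h0
  obtain ⟨σ⟩ : Nonempty (K →ₐ[ℚ] ℂ) := by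
    rw [← Fintype.card_pos_iff, AlgHom.card ℚ K ℂ]
    exact finrank_pos
  refine sub_ne hαD1 hDx σ ?_
  have e0 := congrArg (algebraMap (𝓞 K) K) h0
  rw [map_sub, map_natCast, map_zero] at e0
  have e1 := congrArg σ e0
  rw [map_sub, map_natCast, map_zero] at e1
  exact e1

end Pool.Agent.Run7.h880
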