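import Mathlib
import Pool.Agent.Run7.h880.Field
import Pool.Agent.Run7.h880.DataG

/-!
The number of the large solutions of `x ^ a - d = y ^ l`, `y` prime to `d`.
-/

set_option autoImplicit false

namespace Pool.Agent.Run7.h880

open NumberField Module Ideal

theorem count_field {K : Type} [Field K] [NumberField K] {a n : ℕ} (ha : a.Prime)
    (hK : finrank ℚ K = n) (hn : 2 ≤ n) (hna : n ≤ a) {α : 𝓞 K} {d : ℤ} (hd : d ≠ 0)
    (hα : α ^ a = (d : 𝓞 K))
    (hsep : ∀ σ τ : K →ₐ[ℚ] ℂ, σ (α : K) = τ (α : K) → σ = τ)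
    (hli : LinearIndependent ℚ fun i : Fin n => (α : K) ^ (i : ℕ)) {l : ℕ}
    (hl : 3 ≤ l) (X : ℕ) (S : Finset ℕ)
    (hS : ∀ x ∈ S, x ≤ X ∧ 8 * (32 * d.natAbs * (a * d.natAbs) ^ 2) ^ 3 ≤ x ∧
      ∃ y : ℤ, (x : ℤ) ^ a - d = y ^ l ∧ IsCoprime y d) :
    S.card ≤ (a * d.natAbs) ^ (3 * a) * (l ^ (3 * a) * (Nat.log 2 X + 1)) := by
  classical
  obtain ⟨D, hD⟩ : ∃ D, D = d.natAbs := ⟨_, rfl⟩
  rw [← hD] at hS ⊢
  have hD1 : 1 ≤ D := by
    rw [hD]
    exact Int.natAbs_pos.2 hd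
  have hD1R : (1 : ℝ) ≤ D := by exact_mod_cast hD1
  have hpow : ∀ σ : K →ₐ[ℚ] ℂ, ‖σ (α : K)‖ ^ a = D := by
    intro σ
    have h1 : ((α : K)) ^ a = (d : K) := by
      have := congrArg (algebraMap (𝓞 K) K) hα
      rw [map_pow, map_intCast] at this
      exact this
    have h2 := congrArg σ h1
    rw [map_pow, map_intCast] at h2
    rw [← norm_pow, h2, Complex.norm_intCast, ← Int.cast_abs, Int.abs_eq_natAbs, ← hD,
      Int.cast_natCast]
  have hge1 : ∀ σ : K →ₐ[ℚ] ℂ, 1 ≤ ‖σ (α : K)‖ := by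
    intro σ
    by_contra hcon
    push Not at hcon
    have := pow_lt_one₀ (norm_nonneg _) hcon ha.ne_zero
    rw [hpow σ] at this
    linarith
  have hαD : ∀ σ : K →ₐ[ℚ] ℂ, ∀ i ≤ a, ‖σ (α : K)‖ ^ i ≤ D := by
    intro σ i hi
    rw [← hpow σ]
    exact pow_le_pow_right₀ (hge1 σ) hi
  have hαD1 : ∀ σ : K →ₐ[ℚ] ℂ, ‖σ (α : K)‖ ≤ D := by
    intro σ
    have := hαD σ 1 ha.one_lt.le
    rwa [pow_one] at this
  have haD : 1 ≤ a * D := Nat.mul_pos ha.pos hD1
  have hnD : 1 ≤ n * D := Nat.mul_pos (by omega) hD1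
  have hnaD : n * D ≤ a * D := Nat.mul_le_mul_right _ hna
  have hbound : 8 * (32 * D * (n * D) ^ 2) ^ 3 ≤ 8 * (32 * D * (a * D) ^ 2) ^ 3 :=
    Nat.mul_le_mul_left _ (Nat.pow_le_pow_left (Nat.mul_le_mul_left _ (Nat.pow_le_pow_left hnaD _)) _)
  have hmain : S.card ≤ (n * D) ^ (3 * n) * (l ^ (3 * n) * (Nat.log 2 X + 1)) := by
    refine classC2 ha hK hn hD1 hαD1 hsep hl X S (fun x hx => ⟨(hS x hx).1, hbound.trans (hS x hx).2.1⟩)
      ?_
    intro x hx
    obtain ⟨h1, h2, y, h3, h4⟩ := hS x hx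
    have hDx : D < x := by
      have e1 : D ≤ 32 * D * (a * D) ^ 2 := by
        calc D = D * 1 := (mul_one D).symm
          _ ≤ (32 * D) * (a * D) ^ 2 := Nat.mul_le_mul (by omega) (Nat.one_le_pow _ _ haD)
      have e2 : 32 * D * (a * D) ^ 2 ≤ (32 * D * (a * D) ^ 2) ^ 3 := Nat.le_self_pow (by norm_num) _
      omega
    refine exists_dat2 hK ha hα (fun σ i hi => hαD σ i (hi.trans hna)) hli (by omega) h3 h4 hDx.le ?_
    intro h0
    obtain ⟨σ⟩ : Nonempty (K →ₐ[ℚ] ℂ) := by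
      rw [← Fintype.card_pos_iff, AlgHom.card ℚ K ℂ]
      exact finrank_pos
    refine sub_ne hαD1 hDx σ ?_
    have e0 := congrArg (algebraMap (𝓞 K) K) h0
    rw [map_sub, map_natCast, map_zero] at e0
    have e1 := congrArg σ e0
    rw [map_sub, map_natCast, map_zero] at e1
    exact e1
  refine hmain.trans (Nat.mul_le_mul ?_ (Nat.mul_le_mul_right _ ?_))
  · exact (Nat.pow_le_pow_left hnaD _).trans (Nat.pow_le_pow_right haD (by omega))
  · exact Nat.pow_le_pow_right (by omega) (by omega)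

/-- the field of the `a`-th roots of unity -/
theorem exists_cyc {a : ℕ} (ha : a.Prime) {c : ℤ} (hc : c ≠ 0) :
    ∃ (K : Type) (_ : Field K) (_ : NumberField K) (α : 𝓞 K), finrank ℚ K = a - 1 ∧
      α ^ a = ((c ^ a : ℤ) : 𝓞 K) ∧ (∀ σ τ : K →ₐ[ℚ] ℂ, σ (α : K) = τ (α : K) → σ = τ) ∧
      LinearIndependent ℚ (fun i : Fin (a - 1) => (α : K) ^ (i : ℕ)) := by
  classical
  have hne : NeZero a := ⟨ha.ne_zero⟩
  have hneQ : NeZero ((a : ℕ) : ℚ) := ⟨Nat.cast_ne_zero.2 ha.ne_zero⟩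
  have hcyc : IsCyclotomicExtension {a} ℚ (CyclotomicField a ℚ) :=
    CyclotomicField.isCyclotomicExtension a ℚ
  obtain ⟨ζ, hζ⟩ : ∃ ζ, ζ = IsCyclotomicExtension.zeta a ℚ (CyclotomicField a ℚ) := ⟨_, rfl⟩
  have hprim : IsPrimitiveRoot ζ a := by
    rw [hζ]
    exact IsCyclotomicExtension.zeta_spec a ℚ (CyclotomicField a ℚ)
  have hcK : (c : CyclotomicField a ℚ) ≠ 0 := Int.cast_ne_zero.2 hc
  have hfr : finrank ℚ (CyclotomicField a ℚ) = a - 1 := by
    rw [IsCyclotomicExtension.finrank (n := a) (CyclotomicField a ℚ)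
      (Polynomial.cyclotomic.irreducible_rat ha.pos), Nat.totient_prime ha]
  refine ⟨CyclotomicField a ℚ, inferInstance, inferInstance, (c : 𝓞 (CyclotomicField a ℚ)) *
    hprim.toInteger, hfr, ?_, ?_, ?_⟩
  · rw [mul_pow, Int.cast_pow]
    have h1 : hprim.toInteger ^ a = 1 := by
      exact hprim.toInteger_isPrimitiveRoot.pow_eq_one
    rw [h1, mul_one]
  · intro σ τ h
    have e1 : (((c : 𝓞 (CyclotomicField a ℚ)) * hprim.toInteger : 𝓞 (CyclotomicField a ℚ)) :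
        CyclotomicField a ℚ) = (c : CyclotomicField a ℚ) * ζ := by
      change algebraMap _ _ _ = _
      rw [map_mul, map_intCast]
      rfl
    rw [e1, map_mul, map_mul, map_intCast, map_intCast] at h
    have hcC : (c : ℂ) ≠ 0 := Int.cast_ne_zero.2 hc
    have h2 : σ ζ = τ ζ := mul_left_cancel₀ hcC h
    refine (hprim.powerBasis ℚ).algHom_ext ?_
    rw [IsPrimitiveRoot.powerBasis_gen]
    exact h2
  · have e1 : (((c : 𝓞 (CyclotomicField a ℚ)) * hprim.toInteger : 𝓞 (CyclotomicField a ℚ)) :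
        CyclotomicField a ℚ) = (c : CyclotomicField a ℚ) * ζ := by
      change algebraMap _ _ _ = _
      rw [map_mul, map_intCast]
      rfl
    have hdim : (hprim.powerBasis ℚ).dim = a - 1 := by
      rw [← (hprim.powerBasis ℚ).finrank, hfr]
    have h1 : LinearIndependent ℚ (fun i : Fin (a - 1) => ζ ^ (i : ℕ)) := by
      have h2 := (hprim.powerBasis ℚ).basis.linearIndependent
      have h3 := h2.comp (Fin.cast hdim.symm) (Fin.cast_injective _)
      have h4 : (fun i : Fin (a - 1) => ζ ^ (i : ℕ)) =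
          (hprim.powerBasis ℚ).basis ∘ Fin.cast hdim.symm := by
        funext i
        rw [Function.comp_apply, PowerBasis.coe_basis, IsPrimitiveRoot.powerBasis_gen]
        rfl
      rw [h4]
      exact h3
    have hcu : ∀ i : Fin (a - 1), ((c : ℚ) ^ (i : ℕ)) ≠ 0 := fun i =>
      pow_ne_zero _ (Int.cast_ne_zero.2 hc)
    have h2 := h1.units_smul (fun i : Fin (a - 1) => Units.mk0 ((c : ℚ) ^ (i : ℕ)) (hcu i))
    have h3 : (fun i : Fin (a - 1) => ((((c : 𝓞 (CyclotomicField a ℚ)) * hprim.toInteger :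
        𝓞 (CyclotomicField a ℚ)) : CyclotomicField a ℚ)) ^ (i : ℕ)) =
        (fun i : Fin (a - 1) => Units.mk0 ((c : ℚ) ^ (i : ℕ)) (hcu i)) •
          (fun i : Fin (a - 1) => ζ ^ (i : ℕ)) := by
      funext i
      rw [Pi.smul_apply', Units.smul_def, Units.val_mk0, e1, mul_pow]
      have h5 := Algebra.smul_def (A := CyclotomicField a ℚ) ((c : ℚ) ^ (i : ℕ)) (ζ ^ (i : ℕ))
      rw [map_pow, map_intCast] at h5
      exact h5.symm
    rw [h3]
    exact h2

end Pool.Agent.Run7.h880
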