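import Mathlib
import Pool.Agent.Run7.h880.FieldG

/-!
The number of the large solutions of `x ^ 2 - c ^ 2 = y ^ l`, and of `x ^ a - d = y ^ l` in general.
-/

set_option autoImplicit false

namespace Pool.Agent.Run7.h880

open Finset

theorem pow_sub_ge {A B : ℕ} (h : B < A) : ∀ l : ℕ, B ^ (l + 1) + (l + 1) * B ^ l ≤ A ^ (l + 1) := by
  intro l
  induction l with
  | zero =>
    simp only [zero_add, pow_one, pow_zero, mul_one]
    omega
  | succ l ih =>
    calc B ^ (l + 1 + 1) + (l + 1 + 1) * B ^ (l + 1)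
        ≤ (B ^ (l + 1) + (l + 1) * B ^ l) * (B + 1) := by
          have e : (B ^ (l + 1) + (l + 1) * B ^ l) * (B + 1) =
            B ^ (l + 1 + 1) + (l + 1 + 1) * B ^ (l + 1) + (l + 1) * B ^ l := by ring
          rw [e]
          exact Nat.le_add_right _ _
      _ ≤ A ^ (l + 1) * A := Nat.mul_le_mul ih h
      _ = A ^ (l + 1 + 1) := by ring

theorem nat_pow_of_mul {a b c l : ℕ} (hco : Nat.Coprime a b) (h : a * b = c ^ l) :
    ∃ d, a = d ^ l := by
  refine exists_eq_pow_of_mul_eq_pow (b := b) ?_ h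
  rw [Nat.isUnit_iff]
  exact hco

/-- The shape of the large solutions of `x ^ 2 - c ^ 2 = y ^ l`. -/
theorem sq_shape {c l x Y : ℕ} (hc : 1 ≤ c) (hl : 3 ≤ l) (hx : 2 ^ 24 * c ^ 18 ≤ x)
    (h : x ^ 2 = c ^ 2 + Y ^ l) (hco : Nat.Coprime Y c) :
    ∃ P Q : ℕ, (x = 2 * Q ^ l + c ∧ P ^ l = 4 * (Q ^ l + c)) ∨
      (x + c = 2 * Q ^ l ∧ P ^ l + 4 * c = 4 * Q ^ l) := by
  have hcx : 8 * c ≤ x := by
    have h1 : c ≤ c ^ 18 := Nat.le_self_pow (by norm_num) c
    have h2 : 8 * c ≤ 2 ^ 24 * c ^ 18 := Nat.mul_le_mul (by norm_num) h1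
    omega
  obtain ⟨u, hu⟩ : ∃ u, x = u + c := ⟨x - c, by omega⟩
  have huv : u * (u + 2 * c) = Y ^ l := by
    rw [hu] at h
    nlinarith
  have hcop : ∀ p : ℕ, p.Prime → p ∣ Y → ¬ p ∣ c := by
    intro p hp h1 h2
    exact hp.one_lt.ne' (Nat.eq_one_of_dvd_coprimes hco h1 h2)
  have hpY : ∀ p : ℕ, p.Prime → p ∣ u * (u + 2 * c) → p ∣ Y := by
    intro p hp h1
    rw [huv] at h1
    exact hp.dvd_of_dvd_pow h1
  rcases Nat.even_or_odd u with hue | huo
  · -- both factors are even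
    obtain ⟨u', hu'⟩ := hue
    have hu2 : u = 2 * u' := by omega
    have h4 : 4 * (u' * (u' + c)) = Y ^ l := by
      rw [← huv, hu2]
      ring
    have h2Y : 2 ∣ Y := hpY 2 Nat.prime_two ⟨u' * (2 * u' + 2 * c), by rw [hu2]; ring⟩
    have hcodd : ¬ 2 ∣ c := hcop 2 Nat.prime_two h2Y
    have hcop' : Nat.Coprime u' (u' + c) := by
      rw [Nat.coprime_self_add_right]
      rw [Nat.coprime_iff_gcd_eq_one]
      by_contra hg
      obtain ⟨p, hp, hpg⟩ := Nat.exists_prime_and_dvd hg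
      have h1 : p ∣ u' := hpg.trans (Nat.gcd_dvd_left _ _)
      have h2 : p ∣ c := hpg.trans (Nat.gcd_dvd_right _ _)
      refine hcop p hp (hpY p hp ?_) h2
      rw [hu2]
      exact Dvd.dvd.mul_right (Dvd.dvd.mul_left h1 2) _
    rcases Nat.even_or_odd u' with hue' | huo'
    · -- `u'` is even
      have hv'odd : ¬ 2 ∣ u' + c := by
        intro h1
        have h2 : 2 ∣ u' := hue'.two_dvd
        exact hcodd ((Nat.dvd_add_right h2).1 h1)
      have hc4 : Nat.Coprime (4 * u') (u' + c) := by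
        refine Nat.Coprime.mul_left ?_ hcop'
        have : Nat.Coprime 2 (u' + c) := (Nat.prime_two.coprime_iff_not_dvd).2 hv'odd
        exact Nat.Coprime.pow_left 2 this
      have hprod : (4 * u') * (u' + c) = Y ^ l := by
        rw [← h4]
        ring
      obtain ⟨P, hP⟩ := nat_pow_of_mul hc4 hprod
      obtain ⟨Q, hQ⟩ := nat_pow_of_mul hc4.symm (by rw [mul_comm]; exact hprod)
      refine ⟨P, Q, Or.inr ⟨?_, ?_⟩⟩
      · rw [← hQ]
        omega
      · rw [← hP, ← hQ]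
        ring
    · -- `u'` is odd
      have hu'odd : ¬ 2 ∣ u' := by
        intro h1
        obtain ⟨k, hk⟩ := huo'
        omega
      have hc4 : Nat.Coprime u' (4 * (u' + c)) := by
        refine Nat.Coprime.mul_right ?_ hcop'
        have : Nat.Coprime 2 u' := (Nat.prime_two.coprime_iff_not_dvd).2 hu'odd
        exact (Nat.Coprime.pow_left 2 this).symm
      have hprod : u' * (4 * (u' + c)) = Y ^ l := by
        rw [← h4]
        ring
      obtain ⟨Q, hQ⟩ := nat_pow_of_mul hc4 hprod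
      obtain ⟨P, hP⟩ := nat_pow_of_mul hc4.symm (by rw [mul_comm]; exact hprod)
      refine ⟨P, Q, Or.inl ⟨?_, ?_⟩⟩
      · rw [← hQ]
        omega
      · rw [← hP, ← hQ]
  · -- both factors are odd
    exfalso
    have hcop' : Nat.Coprime u (u + 2 * c) := by
      rw [Nat.coprime_iff_gcd_eq_one]
      by_contra hg
      obtain ⟨p, hp, hpg⟩ := Nat.exists_prime_and_dvd hg
      have h1 : p ∣ u := hpg.trans (Nat.gcd_dvd_left _ _)
      have h2 : p ∣ 2 * c := (Nat.dvd_add_right h1).1 (hpg.trans (Nat.gcd_dvd_right _ _))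
      rcases hp.dvd_mul.1 h2 with h3 | h3
      · have h4 : p = 2 := (Nat.prime_dvd_prime_iff_eq hp Nat.prime_two).1 h3
        obtain ⟨k, hk⟩ := huo
        rw [h4] at h1
        omega
      · exact hcop p hp (hpY p hp (Dvd.dvd.mul_right h1 _)) h3
    obtain ⟨w, hw⟩ := nat_pow_of_mul hcop' huv
    obtain ⟨z, hz⟩ := nat_pow_of_mul hcop'.symm (by rw [mul_comm]; exact huv)
    have hlt : w < z := by
      refine lt_of_pow_lt_pow_left₀ l (Nat.zero_le _) ?_
      rw [← hw, ← hz]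
      omega
    obtain ⟨l', rfl⟩ : ∃ l', l = l' + 3 := ⟨l - 3, by omega⟩
    have h1 := pow_sub_ge hlt (l' + 2)
    rw [show l' + 2 + 1 = l' + 3 by ring] at h1
    rw [← hw, ← hz] at h1
    have h2 : w ^ (l' + 2) ≤ c := by
      have h3 : 3 * w ^ (l' + 2) ≤ (l' + 3) * w ^ (l' + 2) := Nat.mul_le_mul_right _ (by omega)
      omega
    have h3 : u ^ 2 ≤ c ^ 3 := by
      rw [hw, ← pow_mul]
      calc w ^ ((l' + 3) * 2) ≤ w ^ ((l' + 2) * 3) := by
            rcases Nat.eq_zero_or_pos w with h0 | h0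
            · rw [h0, zero_pow (by omega)]
              exact Nat.zero_le _
            · exact Nat.pow_le_pow_right h0 (by omega)
        _ = (w ^ (l' + 2)) ^ 3 := by rw [pow_mul]
        _ ≤ c ^ 3 := Nat.pow_le_pow_left h2 3
    have h4 : c ^ 18 ≤ u := by
      have h5 : c ≤ c ^ 18 := Nat.le_self_pow (by norm_num) c
      have h6 : 2 ^ 24 * c ^ 18 ≤ u + c := by rw [← hu]; exact hx
      omega
    have h7 : c ^ 3 < u ^ 2 := by
      have h8 : c ^ 3 ≤ c ^ 18 := Nat.pow_le_pow_right hc (by norm_num)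
      have h9 : 2 ≤ u := by
        have h5 : c ≤ c ^ 18 := Nat.le_self_pow (by norm_num) c
        have h6 : 2 ^ 24 * c ^ 18 ≤ u + c := by rw [← hu]; exact hx
        have h10 : 1 ≤ c ^ 18 := Nat.one_le_pow _ _ hc
        omega
      nlinarith
    omega

theorem sq_gap {s : ℤ} {c l x x' P Q P' Q' : ℕ} (hs : |s| = c) (hc : 1 ≤ c) (hl : 3 ≤ l)
    (hx : 2 ^ 24 * c ^ 18 ≤ x) (hlt : x < x') (h1 : (x : ℤ) = 2 * (Q : ℤ) ^ l + s)
    (h2 : (P : ℤ) ^ l = 4 * ((Q : ℤ) ^ l + s)) (h1' : (x' : ℤ) = 2 * (Q' : ℤ) ^ l + s)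
    (h2' : (P' : ℤ) ^ l = 4 * ((Q' : ℤ) ^ l + s)) : 2 * x ≤ x' := by
  have hl0 : l ≠ 0 := by omega
  have hs1 := abs_le.1 hs.le
  have hc3 : c ^ 3 ≤ c ^ 18 := Nat.pow_le_pow_right hc (by norm_num)
  have hc1 : c ≤ c ^ 3 := Nat.le_self_pow (by norm_num) c
  have hQbig : 100 * c ^ 3 ≤ Q ^ l := by
    have h3 : 2 ^ 24 * c ^ 3 ≤ x := (Nat.mul_le_mul_left _ hc3).trans hx
    have h4 : (2 ^ 24 * (c : ℤ) ^ 3) ≤ x := by exact_mod_cast h3
    have h5 : (c : ℤ) ≤ (c : ℤ) ^ 3 := by exact_mod_cast hc1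
    have h6 : 100 * (c : ℤ) ^ 3 ≤ (Q : ℤ) ^ l := by
      rw [h1] at h4
      nlinarith [hs1.1, hs1.2]
    exact_mod_cast h6
  have hQQ : Q ^ l < Q' ^ l := by
    have h3 : (x : ℤ) < x' := by exact_mod_cast hlt
    rw [h1, h1'] at h3
    have h4 : (Q : ℤ) ^ l < (Q' : ℤ) ^ l := by linarith
    exact_mod_cast h4
  have hQ1 : 1 ≤ Q := by
    by_contra h0
    have : Q = 0 := by omega
    rw [this, zero_pow hl0] at hQbig
    have : 1 ≤ c ^ 3 := Nat.one_le_pow _ _ hc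
    omega
  have hPQ : ∀ P Q : ℕ, (P : ℤ) ^ l = 4 * ((Q : ℤ) ^ l + s) → 100 * c ^ 3 ≤ Q ^ l → Q ≤ P := by
    intro P Q h3 h4
    refine le_of_pow_le_pow_left₀ hl0 (Nat.zero_le _) ?_
    have h5 : (100 * (c : ℤ) ^ 3) ≤ (Q : ℤ) ^ l := by exact_mod_cast h4
    have h6 : (c : ℤ) ≤ (c : ℤ) ^ 3 := by exact_mod_cast hc1
    have h7 : (Q : ℤ) ^ l ≤ (P : ℤ) ^ l := by
      rw [h3]
      have := hs1.1
      have : (0 : ℤ) ≤ c := Int.natCast_nonneg _
      linarith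
    exact_mod_cast h7
  have hP := hPQ P Q h2 hQbig
  have hP' := hPQ P' Q' h2' (hQbig.trans hQQ.le)
  have hdiff : ((P * Q' : ℕ) : ℤ) ^ l - ((P' * Q : ℕ) : ℤ) ^ l =
      4 * s * ((Q' : ℤ) ^ l - (Q : ℤ) ^ l) := by
    push_cast
    rw [mul_pow, mul_pow, h2, h2']
    ring
  have hmin : ∀ A B : ℕ, Q * Q' ≤ A → Q * Q' ≤ B → A < B →
      (B : ℤ) ^ l - (A : ℤ) ^ l ≤ 4 * c * (Q' : ℤ) ^ l → 3 * Q ^ (l - 1) ≤ 4 * c * Q' := by
    intro A B hA hB hAB h3
    obtain ⟨k, rfl⟩ : ∃ k, l = k + 1 := ⟨l - 1, by omega⟩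
    have h4 := pow_sub_ge hAB k
    have h5 : ((A : ℤ) ^ (k + 1) + (k + 1) * (A : ℤ) ^ k) ≤ (B : ℤ) ^ (k + 1) := by exact_mod_cast h4
    have h6 : ((k : ℤ) + 1) * (A : ℤ) ^ k ≤ 4 * c * (Q' : ℤ) ^ (k + 1) := by linarith
    have h7 : (k + 1) * A ^ k ≤ 4 * c * Q' ^ (k + 1) := by exact_mod_cast h6
    have h8 : (Q * Q') ^ k ≤ A ^ k := Nat.pow_le_pow_left hA k
    have h9 : 3 * (Q * Q') ^ k ≤ 4 * c * Q' ^ (k + 1) := by
      calc 3 * (Q * Q') ^ k ≤ (k + 1) * A ^ k := Nat.mul_le_mul (by omega) h8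
        _ ≤ _ := h7
    have hQ'k : 0 < Q' ^ k := by
      have : 1 ≤ Q' := by
        by_contra h0
        have h00 : Q' = 0 := by omega
        rw [h00, zero_pow (by omega)] at hQQ
        omega
      positivity
    rw [Nat.add_sub_cancel]
    refine Nat.le_of_mul_le_mul_right (c := Q' ^ k) ?_ hQ'k
    calc 3 * Q ^ k * Q' ^ k = 3 * (Q * Q') ^ k := by rw [mul_pow]; ring
      _ ≤ 4 * c * Q' ^ (k + 1) := h9
      _ = 4 * c * Q' * Q' ^ k := by ring
  have hcQ : (0 : ℤ) ≤ (Q : ℤ) ^ l := by positivity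
  have hQQZ : (Q : ℤ) ^ l < (Q' : ℤ) ^ l := by exact_mod_cast hQQ
  have hkey : 3 * Q ^ (l - 1) ≤ 4 * c * Q' := by
    have hA : Q * Q' ≤ P * Q' := Nat.mul_le_mul_right _ hP
    have hB : Q * Q' ≤ P' * Q := by
      rw [mul_comm Q Q']
      exact Nat.mul_le_mul_right _ hP'
    have hcZ : (0 : ℤ) ≤ c := Int.natCast_nonneg _
    rcases lt_trichotomy (P * Q') (P' * Q) with h3 | h3 | h3
    · refine hmin _ _ hA hB h3 ?_
      nlinarith [hs1.1, hs1.2]
    · exfalso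
      rw [h3, sub_self] at hdiff
      have h4 : 4 * s * ((Q' : ℤ) ^ l - (Q : ℤ) ^ l) ≠ 0 := by
        refine mul_ne_zero (mul_ne_zero (by norm_num) ?_) (by linarith)
        rintro rfl
        rw [abs_zero] at hs
        have : (1 : ℤ) ≤ c := by exact_mod_cast hc
        omega
      exact h4 hdiff.symm
    · refine hmin _ _ hB hA h3 ?_
      nlinarith [hs1.1, hs1.2]
  have hQ' : 2 * Q ≤ Q' := by
    by_contra hcon
    push Not at hcon
    obtain ⟨k, rfl⟩ : ∃ k, l = k + 3 := ⟨l - 3, by omega⟩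
    have h3 : k + 3 - 1 = k + 2 := by omega
    rw [h3] at hkey
    have h4 : 3 * Q ^ (k + 1) * Q < 8 * c * Q := by
      calc 3 * Q ^ (k + 1) * Q = 3 * Q ^ (k + 2) := by ring
        _ ≤ 4 * c * Q' := hkey
        _ < 4 * c * (2 * Q) := Nat.mul_lt_mul_of_pos_left hcon (by omega)
        _ = 8 * c * Q := by ring
    have h5 : 3 * Q ^ (k + 1) < 8 * c := Nat.lt_of_mul_lt_mul_right h4
    have h6 : Q ^ (k + 3) ≤ (Q ^ (k + 1)) ^ 3 := by
      rw [← pow_mul]
      exact Nat.pow_le_pow_right hQ1 (by omega)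
    have h7 : 27 * Q ^ (k + 3) ≤ 512 * c ^ 3 := by
      calc 27 * Q ^ (k + 3) ≤ 27 * (Q ^ (k + 1)) ^ 3 := Nat.mul_le_mul_left _ h6
        _ = (3 * Q ^ (k + 1)) ^ 3 := by ring
        _ ≤ (8 * c) ^ 3 := Nat.pow_le_pow_left h5.le 3
        _ = 512 * c ^ 3 := by ring
    have h8 : 1 ≤ c ^ 3 := Nat.one_le_pow _ _ hc
    omega
  have h3 : 8 * Q ^ l ≤ Q' ^ l := by
    calc 8 * Q ^ l = 2 ^ 3 * Q ^ l := by norm_num
      _ ≤ 2 ^ l * Q ^ l := Nat.mul_le_mul_right _ (Nat.pow_le_pow_right (by norm_num) hl)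
      _ = (2 * Q) ^ l := by rw [mul_pow]
      _ ≤ Q' ^ l := Nat.pow_le_pow_left hQ' l
  have h4 : (8 * (Q : ℤ) ^ l) ≤ (Q' : ℤ) ^ l := by exact_mod_cast h3
  have h5 : (100 * (c : ℤ) ^ 3) ≤ (Q : ℤ) ^ l := by exact_mod_cast hQbig
  have h6 : (c : ℤ) ≤ (c : ℤ) ^ 3 := by exact_mod_cast hc1
  have h7 : (2 * x : ℤ) ≤ x' := by
    rw [h1, h1']
    have : (0 : ℤ) ≤ c := Int.natCast_nonneg _
    linarith [hs1.1, hs1.2]
  exact_mod_cast h7

theorem count_sq {c l : ℕ} (hc : 1 ≤ c) (hl : 3 ≤ l) (X : ℕ) (S : Finset ℕ)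
    (hS : ∀ x ∈ S, x ≤ X ∧ 2 ^ 24 * c ^ 18 ≤ x ∧ ∃ Y : ℕ, x ^ 2 = c ^ 2 + Y ^ l ∧ Nat.Coprime Y c) :
    S.card ≤ 2 * (Nat.log 2 X + 1) := by
  classical
  have hsh : ∀ x ∈ S, ∃ P Q : ℕ, ∃ s : ℤ, (s = c ∨ s = -c) ∧ (x : ℤ) = 2 * (Q : ℤ) ^ l + s ∧
      (P : ℤ) ^ l = 4 * ((Q : ℤ) ^ l + s) := by
    intro x hx
    obtain ⟨h1, h2, Y, h3, h4⟩ := hS x hx
    obtain ⟨P, Q, h | h⟩ := sq_shape hc hl h2 h3 h4
    · refine ⟨P, Q, c, Or.inl rfl, ?_, ?_⟩
      · exact_mod_cast h.1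
      · exact_mod_cast h.2
    · refine ⟨P, Q, -c, Or.inr rfl, ?_, ?_⟩
      · have h5 : (x : ℤ) + c = 2 * (Q : ℤ) ^ l := by exact_mod_cast h.1
        linarith
      · have h5 : (P : ℤ) ^ l + 4 * c = 4 * (Q : ℤ) ^ l := by exact_mod_cast h.2
        linarith
  choose! P Q s hs1 hs2 hs3 using hsh
  refine (Finset.card_le_mul_card_image (f := s) S (Nat.log 2 X + 1) ?_).trans ?_
  · intro r hr
    refine card_dbl _ X ?_ ?_
    · intro x hx
      have hxS := (Finset.mem_filter.1 hx).1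
      have h1 := hS x hxS
      have h2 : 1 ≤ 2 ^ 24 * c ^ 18 := Nat.mul_pos (by norm_num) (Nat.one_le_pow _ _ hc)
      exact ⟨h2.trans h1.2.1, h1.1⟩
    · intro x hx x' hx' hlt
      obtain ⟨hxS, hfx⟩ := Finset.mem_filter.1 hx
      obtain ⟨hx'S, hfx'⟩ := Finset.mem_filter.1 hx'
      refine sq_gap (s := s x) (c := c) (l := l) (P := P x) (Q := Q x) (P' := P x') (Q' := Q x')
        ?_ hc hl (hS x hxS).2.1 hlt (hs2 x hxS) (hs3 x hxS) ?_ ?_
      · rcases hs1 x hxS with h | h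
        · rw [h]
          simp
        · rw [h]
          simp
      · rw [hfx, ← hfx']
        exact hs2 x' hx'S
      · rw [hfx, ← hfx']
        exact hs3 x' hx'S
  · rw [mul_comm]
    refine Nat.mul_le_mul_right _ ?_
    have hsub : S.image s ⊆ {(c : ℤ), -(c : ℤ)} := by
      intro r hr
      rw [Finset.mem_image] at hr
      obtain ⟨x, hx, rfl⟩ := hr
      rw [Finset.mem_insert, Finset.mem_singleton]
      exact hs1 x hx
    exact (Finset.card_le_card hsub).trans Finset.card_le_two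

/-- **The number of the large solutions of `x ^ a - d = y ^ l`, `y` prime to `d`.** -/
theorem count_large {a : ℕ} (ha : a.Prime) {d : ℤ} (hd : d ≠ 0) {l : ℕ} (hl : 3 ≤ l) (X : ℕ)
    (S : Finset ℕ) (hS : ∀ x ∈ S, x ≤ X ∧ 8 * (32 * d.natAbs * (a * d.natAbs) ^ 2) ^ 3 ≤ x ∧
      ∃ y : ℤ, (x : ℤ) ^ a - d = y ^ l ∧ IsCoprime y d) :
    S.card ≤ (a * d.natAbs) ^ (3 * a) * (l ^ (3 * a) * (Nat.log 2 X + 1)) := by
  classical
  by_cases hdp : ∀ c : ℤ, c ^ a ≠ d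
  · obtain ⟨K, _, _, α, hK, hα, hsep, hli⟩ := exists_field ha hdp
    exact count_field ha hK ha.two_le le_rfl hd hα hsep hli hl X S hS
  · push Not at hdp
    obtain ⟨c, hcd⟩ := hdp
    have hc0 : c ≠ 0 := by
      rintro rfl
      rw [zero_pow ha.ne_zero] at hcd
      exact hd hcd.symm
    by_cases ha2 : a = 2
    · subst ha2
      have h1 : S.card ≤ 2 * (Nat.log 2 X + 1) := by
        refine count_sq (c := c.natAbs) (Int.natAbs_pos.2 hc0) hl X S ?_
        intro x hx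
        obtain ⟨g1, g2, y, g3, g4⟩ := hS x hx
        have hdc : d.natAbs = c.natAbs ^ 2 := by rw [← hcd, Int.natAbs_pow]
        have hcd2 : d = (c.natAbs : ℤ) ^ 2 := by rw [← hcd, Int.natAbs_sq]
        refine ⟨g1, ?_, y.natAbs, ?_, ?_⟩
        · rw [hdc] at g2
          refine le_trans (le_of_eq ?_) g2
          ring
        · have hpos : 0 ≤ y ^ l := by
            rw [← g3, hcd2]
            have h2 : c.natAbs ≤ x := by
              rw [hdc] at g2
              have e1 : 1 ≤ c.natAbs := Int.natAbs_pos.2 hc0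
              have e2 : c.natAbs ≤ c.natAbs ^ 18 := Nat.le_self_pow (by norm_num) _
              have e3 : 8 * (32 * c.natAbs ^ 2 * (2 * c.natAbs ^ 2) ^ 2) ^ 3 =
                2 ^ 24 * c.natAbs ^ 18 := by ring
              omega
            have h3 : (c.natAbs : ℤ) ≤ x := by exact_mod_cast h2
            have h4 : (0 : ℤ) ≤ c.natAbs := Int.natCast_nonneg _
            nlinarith
          have h2 : ((y.natAbs ^ l : ℕ) : ℤ) = y ^ l := by
            push_cast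
            rw [← abs_pow, abs_of_nonneg hpos]
          have h3 : ((x ^ 2 : ℕ) : ℤ) = ((c.natAbs ^ 2 + y.natAbs ^ l : ℕ) : ℤ) := by
            push_cast at h2 ⊢
            rw [h2, ← g3, hcd2]
            push_cast
            ring
          exact_mod_cast h3
        · rw [← hcd] at g4
          have h5 : IsCoprime y c := IsCoprime.of_isCoprime_of_dvd_right g4 (dvd_pow_self c (by norm_num))
          exact Int.isCoprime_iff_gcd_eq_one.1 h5
      refine h1.trans ?_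
      have h2 : 1 ≤ (2 * d.natAbs) ^ (3 * 2) := Nat.one_le_pow _ _ (by
        have := Int.natAbs_pos.2 hd
        omega)
      have h3 : 2 ≤ l ^ (3 * 2) := by
        calc 2 ≤ l := by omega
          _ ≤ l ^ (3 * 2) := Nat.le_self_pow (by norm_num) l
      calc 2 * (Nat.log 2 X + 1) ≤ l ^ (3 * 2) * (Nat.log 2 X + 1) := Nat.mul_le_mul_right _ h3
        _ = 1 * (l ^ (3 * 2) * (Nat.log 2 X + 1)) := (one_mul _).symm
        _ ≤ _ := Nat.mul_le_mul_right _ h2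
    · obtain ⟨K, _, _, α, hK, hα, hsep, hli⟩ := exists_cyc ha hc0
      rw [hcd] at hα
      have ha3 : 3 ≤ a := by
        have := ha.two_le
        omega
      exact count_field ha hK (by omega) (by omega) hd hα hsep hli hl X S hS

end Pool.Agent.Run7.h880
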