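import Mathlib
import Pool.Agent.Run7.h880.SqG
import Pool.Agent.Run7.h880.Marks2

/-!
The pairs of coprime perfect powers at distance at most `H`.
-/

set_option autoImplicit false

namespace Pool.Agent.Run7.h880

open Finset

/-- perfect powers, `1` included -/
def IsPP (n : ℕ) : Prop := ∃ x e : ℕ, 2 ≤ e ∧ 1 ≤ x ∧ x ^ e = n

theorem IsPP.prime {n : ℕ} (h : IsPP n) : ∃ x p : ℕ, p.Prime ∧ 1 ≤ x ∧ x ^ p = n := by
  obtain ⟨x, e, he, hx, rfl⟩ := h
  obtain ⟨p, hp, hpe⟩ := Nat.exists_prime_and_dvd (n := e) (by omega)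
  obtain ⟨k, hk⟩ := hpe
  refine ⟨x ^ k, p, hp, Nat.one_le_pow _ _ hx, ?_⟩
  rw [← pow_mul, mul_comm, ← hk]

open Classical in
/-- the large solutions of `z ^ a - d = y ^ l` -/
noncomputable def SG (X a l : ℕ) (d : ℤ) : Finset ℕ :=
  (range (X + 1)).filter fun z => 8 * (32 * d.natAbs * (a * d.natAbs) ^ 2) ^ 3 ≤ z ∧
    ∃ y : ℤ, (z : ℤ) ^ a - d = y ^ l ∧ IsCoprime y d

/-- the pairs -/
def PS (X H : ℕ) : Set (ℕ × ℕ) :=
  {t | t.1 < t.2 ∧ t.2 ≤ X ∧ t.2 ≤ t.1 + H ∧ Nat.Coprime t.1 t.2 ∧ IsPP t.1 ∧ IsPP t.2}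

/-- the bound for the bases -/
def xb (H T : ℕ) : ℕ := 8 * (32 * H * (T * H) ^ 2) ^ 3

open Classical in
noncomputable def G1 (X H : ℕ) : Finset (ℕ × ℕ) :=
  (((range (H + 1) ×ˢ range (Nat.log 2 X + 2)).image fun t => t.1 ^ t.2) ×ˢ range (H + 1)).image
    fun t => (t.1, t.1 + t.2)

open Classical in
noncomputable def G2 (H T : ℕ) : Finset (ℕ × ℕ) :=
  ((((range (xb H T) ×ˢ range (T + 1)).image fun t => t.1 ^ t.2) ×ˢ range (H + 1)).image
    fun t => (t.1, t.1 + t.2)) ∪
  ((((range (xb H T) ×ˢ range (T + 1)).image fun t => t.1 ^ t.2) ×ˢ range (H + 1)).image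
    fun t => (t.1 - t.2, t.1))

open Classical in
noncomputable def G3 (X H T : ℕ) : Finset (ℕ × ℕ) :=
  ((((range (T + 1)).filter Nat.Prime) ×ˢ ((range (Nat.log 2 X + 2)).filter fun l => 3 ≤ l)) ×ˢ
    Icc 1 H).biUnion fun t =>
      ((SG X t.1.1 t.1.2 (-(t.2 : ℤ))).image fun z => (z ^ t.1.1, z ^ t.1.1 + t.2)) ∪
      ((SG X t.1.1 t.1.2 (t.2 : ℤ)).image fun z => (z ^ t.1.1 - t.2, z ^ t.1.1))

open Classical in
noncomputable def G4 (X H T : ℕ) : Finset (ℕ × ℕ) :=
  ((((range (Nat.log 2 X + 2)) ×ˢ (range (Nat.log 2 X + 2))).filter fun t =>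
      t.1.Prime ∧ t.2.Prime ∧ t.1 ≠ t.2 ∧ T < t.1 ∧ T < t.2) ×ˢ Icc 1 H).biUnion fun t =>
      ((range (X + 1)).filter fun u => 1 ≤ u ∧ (∃ x : ℕ, x ^ t.1.1 = u) ∧
        ∃ x : ℕ, x ^ t.1.2 = u + t.2).image fun u => (u, u + t.2)

theorem exp_lt {X x p : ℕ} (hx : 2 ≤ x) (h : x ^ p ≤ X) : p < Nat.log 2 X + 2 := by
  have h1 : 2 ^ p ≤ X := (Nat.pow_le_pow_left hx p).trans h
  have hX : X ≠ 0 := by
    rintro rfl
    have : 0 < 2 ^ p := by positivity
    omega
  have := Nat.le_log_of_pow_le (by norm_num) h1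
  omega

/-- a pair with a small exponent -/
theorem pair_small {X H T u v x y p q : ℕ} (hT : 2 ≤ T) (huv : u < v) (hvX : v ≤ X) (hvH : v ≤ u + H)
    (hco : Nat.Coprime u v) (hp : p.Prime) (hq : q.Prime) (hpq : p ≠ q) (hx : 1 ≤ x) (hy : 1 ≤ y)
    (hxu : x ^ p = u) (hyv : y ^ q = v) (hpT : p ≤ T ∨ q ≤ T) :
    (u, v) ∈ G2 H T ∪ G3 X H T := by
  classical
  obtain ⟨δ, hδ⟩ : ∃ δ, v = u + δ := ⟨v - u, by omega⟩
  have hδ1 : 1 ≤ δ := by omega
  have hδH : δ ≤ H := by omega
  have hy2 : 2 ≤ y := by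
    by_contra h0
    have h1 : y = 1 := by omega
    rw [h1, one_pow] at hyv
    have : 1 ≤ u := by
      rw [← hxu]
      exact Nat.one_le_pow _ _ hx
    omega
  -- both cases at once: `a` is an exponent `≤ T`, the other exponent is at least `3`
  have key : ∀ a l z w : ℕ, a.Prime → a ≤ T → 3 ≤ l → l < Nat.log 2 X + 2 →
      ((z ^ a = u ∧ w ^ l = v) ∨ (z ^ a = v ∧ w ^ l = u)) → (u, v) ∈ G2 H T ∪ G3 X H T := by
    intro a l z w ha haT hl hlX h
    have hzX : z ≤ X := by
      have h1 : z ≤ z ^ a := Nat.le_self_pow ha.ne_zero z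
      rcases h with h | h
      · have := h.1
        omega
      · have := h.1
        omega
    rw [mem_union]
    by_cases hz : z < xb H T
    · left
      unfold G2
      rw [mem_union]
      rcases h with h | h
      · left
        rw [mem_image]
        refine ⟨(u, δ), ?_, by rw [hδ]⟩
        rw [mem_product, mem_image, mem_range]
        refine ⟨⟨(z, a), ?_, h.1⟩, by omega⟩
        rw [mem_product, mem_range, mem_range]
        exact ⟨hz, by omega⟩
      · right
        rw [mem_image]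
        refine ⟨(v, δ), ?_, by simp only [Prod.mk.injEq, and_true]; omega⟩
        rw [mem_product, mem_image, mem_range]
        refine ⟨⟨(z, a), ?_, h.1⟩, by omega⟩
        rw [mem_product, mem_range, mem_range]
        exact ⟨hz, by omega⟩
    · right
      push Not at hz
      unfold G3
      rw [mem_biUnion]
      refine ⟨((a, l), δ), ?_, ?_⟩
      · simp only [mem_product, mem_filter, mem_range, mem_Icc]
        exact ⟨⟨⟨by omega, ha⟩, hlX, hl⟩, hδ1, hδH⟩
      have hbd : 8 * (32 * δ * (a * δ) ^ 2) ^ 3 ≤ z := by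
        refine le_trans ?_ hz
        unfold xb
        refine Nat.mul_le_mul_left _ (Nat.pow_le_pow_left (Nat.mul_le_mul (Nat.mul_le_mul_left _ hδH)
          (Nat.pow_le_pow_left (Nat.mul_le_mul haT hδH) 2)) 3)
      rw [mem_union]
      rcases h with h | h
      · left
        rw [mem_image]
        refine ⟨z, ?_, ?_⟩
        · unfold SG
          rw [mem_filter, mem_range]
          refine ⟨by omega, ?_, (w : ℤ), ?_, ?_⟩
          · rw [Int.natAbs_neg, Int.natAbs_natCast]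
            exact hbd
          · have h1 : ((w : ℤ)) ^ l = ((v : ℕ) : ℤ) := by exact_mod_cast h.2
            have h2 : ((z : ℤ)) ^ a = ((u : ℕ) : ℤ) := by exact_mod_cast h.1
            simp only [h1, h2, hδ]
            push_cast
            ring
          · rw [IsCoprime.neg_right_iff, Nat.isCoprime_iff_coprime]
            have h1 : Nat.Coprime u w := by
              rw [← h.2] at hco
              exact Nat.Coprime.coprime_dvd_right (dvd_pow_self w (by omega)) hco
            have h2 : w ∣ u + δ := by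
              rw [← hδ, ← h.2]
              exact dvd_pow_self w (by omega)
            rw [Nat.coprime_iff_gcd_eq_one]
            by_contra hg
            obtain ⟨r, hr, hrg⟩ := Nat.exists_prime_and_dvd hg
            have h3 : r ∣ w := hrg.trans (Nat.gcd_dvd_left _ _)
            have h4 : r ∣ δ := hrg.trans (Nat.gcd_dvd_right _ _)
            have h5 : r ∣ u := (Nat.dvd_add_left h4).1 (h3.trans h2)
            exact hr.one_lt.ne' (Nat.eq_one_of_dvd_coprimes h1 h5 h3)
        · simp only [h.1, hδ]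
      · right
        rw [mem_image]
        refine ⟨z, ?_, ?_⟩
        · unfold SG
          rw [mem_filter, mem_range]
          refine ⟨by omega, ?_, (w : ℤ), ?_, ?_⟩
          · rw [Int.natAbs_natCast]
            exact hbd
          · have h1 : ((w : ℤ)) ^ l = ((u : ℕ) : ℤ) := by exact_mod_cast h.2
            have h2 : ((z : ℤ)) ^ a = ((v : ℕ) : ℤ) := by exact_mod_cast h.1
            simp only [h1, h2, hδ]
            push_cast
            ring
          · rw [Nat.isCoprime_iff_coprime]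
            have h1 : Nat.Coprime w v := by
              rw [← h.2] at hco
              exact Nat.Coprime.coprime_dvd_left (dvd_pow_self w (by omega)) hco
            have h2 : w ∣ u := by
              rw [← h.2]
              exact dvd_pow_self w (by omega)
            rw [Nat.coprime_iff_gcd_eq_one]
            by_contra hg
            obtain ⟨r, hr, hrg⟩ := Nat.exists_prime_and_dvd hg
            have h3 : r ∣ w := hrg.trans (Nat.gcd_dvd_left _ _)
            have h4 : r ∣ δ := hrg.trans (Nat.gcd_dvd_right _ _)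
            have h5 : r ∣ v := by
              rw [hδ]
              exact (Nat.dvd_add_right (h3.trans h2)).2 h4
            exact hr.one_lt.ne' (Nat.eq_one_of_dvd_coprimes h1 h3 h5)
        · simp only [h.1, hδ, Prod.mk.injEq, and_true]
          omega
  have hqX : q < Nat.log 2 X + 2 := exp_lt hy2 (by rw [hyv]; exact hvX)
  have hp2 := hp.two_le
  have hq2 := hq.two_le
  rcases Nat.lt_or_ge 1 x with hx2 | hx1
  · have hpX : p < Nat.log 2 X + 2 := exp_lt hx2 (by rw [hxu]; omega)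
    by_cases hp3 : p = 2
    · exact key p q x y hp (by omega) (by omega) hqX (Or.inl ⟨hxu, hyv⟩)
    by_cases hq3 : q = 2
    · exact key q p y x hq (by omega) (by omega) hpX (Or.inr ⟨hyv, hxu⟩)
    rcases hpT with hpT | hqT
    · exact key p q x y hp hpT (by omega) hqX (Or.inl ⟨hxu, hyv⟩)
    · exact key q p y x hq hqT (by omega) hpX (Or.inr ⟨hyv, hxu⟩)
  · -- `u = 1`
    have hx1' : x = 1 := by omega
    rw [mem_union]
    left
    unfold G2
    rw [mem_union]
    left
    rw [mem_image]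
    refine ⟨(u, δ), ?_, by rw [hδ]⟩
    rw [mem_product, mem_image, mem_range]
    refine ⟨⟨(1, 2), ?_, ?_⟩, by omega⟩
    · rw [mem_product, mem_range, mem_range]
      refine ⟨?_, by omega⟩
      have hH : 1 ≤ H := by omega
      have h1 : 1 ≤ T * H := Nat.mul_pos (by omega) hH
      have h2 : 1 ≤ 32 * H * (T * H) ^ 2 := Nat.mul_pos (by omega) (Nat.pow_pos h1)
      have h3 : 1 ≤ (32 * H * (T * H) ^ 2) ^ 3 := Nat.one_le_pow _ _ h2
      unfold xb
      simp only
      omega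
    · simp only
      rw [← hxu, hx1', one_pow, one_pow]

theorem pair_mem {X H T : ℕ} (hT : 2 ≤ T) {t : ℕ × ℕ} (ht : t ∈ PS X H) :
    t ∈ (G1 X H ∪ (G2 H T ∪ G3 X H T)) ∪ G4 X H T := by
  classical
  obtain ⟨u, v⟩ := t
  obtain ⟨huv, hvX, hvH, hco, hu, hv⟩ := ht
  simp only at huv hvX hvH hco hu hv
  obtain ⟨x, p, hp, hx, hxu⟩ := hu.prime
  obtain ⟨y, q, hq, hy, hyv⟩ := hv.prime
  obtain ⟨δ, hδ⟩ : ∃ δ, v = u + δ := ⟨v - u, by omega⟩
  have hδ1 : 1 ≤ δ := by omega
  have hδH : δ ≤ H := by omega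
  have hu1 : 1 ≤ u := by
    rw [← hxu]
    exact Nat.one_le_pow _ _ hx
  have hy2 : 2 ≤ y := by
    by_contra h0
    have h1 : y = 1 := by omega
    rw [h1, one_pow] at hyv
    omega
  rw [mem_union]
  by_cases hpq : p = q
  · -- equal exponents
    left
    rw [mem_union]
    left
    subst hpq
    have hlt : x < y := by
      refine lt_of_pow_lt_pow_left₀ p (Nat.zero_le _) ?_
      rw [hxu, hyv]
      exact huv
    have hp2 := hp.two_le
    obtain ⟨k, rfl⟩ : ∃ k, p = k + 2 := ⟨p - 2, by omega⟩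
    have h1 := pow_sub_ge hlt (k + 1)
    rw [show k + 1 + 1 = k + 2 by ring, hxu, hyv, hδ] at h1
    have h2 : x ≤ x ^ (k + 1) := Nat.le_self_pow (by omega) x
    have h3 : 1 * x ^ (k + 1) ≤ (k + 2) * x ^ (k + 1) := Nat.mul_le_mul_right _ (by omega)
    have hxH : x ≤ H := by omega
    unfold G1
    rw [mem_image]
    refine ⟨(u, δ), ?_, by rw [hδ]⟩
    rw [mem_product, mem_image, mem_range]
    refine ⟨?_, by omega⟩
    have hkX : k + 2 < Nat.log 2 X + 2 := exp_lt hy2 (by rw [hyv]; exact hvX)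
    refine ⟨(x, k + 2), ?_, hxu⟩
    rw [mem_product, mem_range, mem_range]
    exact ⟨by omega, hkX⟩
  by_cases hpT : p ≤ T ∨ q ≤ T
  · left
    rw [mem_union]
    right
    exact pair_small hT huv hvX hvH hco hp hq hpq hx hy hxu hyv hpT
  push Not at hpT
  rcases Nat.lt_or_ge 1 x with hx2 | hx1
  · right
    unfold G4
    rw [mem_biUnion]
    refine ⟨((p, q), δ), ?_, ?_⟩
    · rw [mem_product, mem_filter, mem_product, mem_range, mem_range, mem_Icc]
      exact ⟨⟨⟨exp_lt hx2 (by rw [hxu]; omega), exp_lt hy2 (by rw [hyv]; exact hvX)⟩, hp, hq, hpq,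
        hpT.1, hpT.2⟩, hδ1, hδH⟩
    · rw [mem_image]
      refine ⟨u, ?_, by rw [hδ]⟩
      rw [mem_filter, mem_range]
      refine ⟨by omega, hu1, ⟨x, hxu⟩, ⟨y, ?_⟩⟩
      simp only
      rw [hyv, hδ]
  · -- `u = 1`, which is also a square
    left
    rw [mem_union]
    right
    have hx1' : x = 1 := by omega
    have hq2 : 2 ≠ q := by
      have := hpT.2
      omega
    exact pair_small (x := 1) (p := 2) hT huv hvX hvH hco Nat.prime_two hq hq2 le_rfl hy
      (by rw [one_pow, ← hxu, hx1', one_pow]) hyv (Or.inl hT)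

section
variable {X H T : ℕ}

theorem xb_le (hT : 2 ≤ T) (hH : 2 ≤ H) : xb H T ≤ (T * H) ^ 20 := by
  obtain ⟨P, hP⟩ : ∃ P, P = T * H := ⟨_, rfl⟩
  have hP4 : 4 ≤ P := by
    rw [hP]
    exact Nat.mul_le_mul hT hH
  have hHP : H ≤ P := by
    rw [hP]
    exact Nat.le_mul_of_pos_left _ (by omega)
  unfold xb
  rw [← hP]
  have e1 : 32 * H * P ^ 2 ≤ P ^ 6 := by
    calc 32 * H * P ^ 2 ≤ P ^ 3 * P * P ^ 2 := by
          refine Nat.mul_le_mul_right _ (Nat.mul_le_mul ?_ hHP)
          calc 32 ≤ 4 ^ 3 := by norm_num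
            _ ≤ P ^ 3 := Nat.pow_le_pow_left hP4 3
      _ = P ^ 6 := by ring
  calc 8 * (32 * H * P ^ 2) ^ 3 ≤ P ^ 2 * (P ^ 6) ^ 3 := by
        refine Nat.mul_le_mul ?_ (Nat.pow_le_pow_left e1 3)
        calc 8 ≤ 4 ^ 2 := by norm_num
          _ ≤ P ^ 2 := Nat.pow_le_pow_left hP4 2
    _ = P ^ 20 := by ring

theorem card_G1 (hT : 2 ≤ T) (hH : 2 ≤ H) :
    (G1 X H).card ≤ (T * H) ^ 2 * (Nat.log 2 X + 2) := by
  classical
  have hHP : H + 1 ≤ T * H := by nlinarith
  unfold G1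
  refine card_image_le.trans ?_
  rw [card_product, card_range]
  calc ((range (H + 1) ×ˢ range (Nat.log 2 X + 2)).image fun t => t.1 ^ t.2).card * (H + 1)
      ≤ ((T * H) * (Nat.log 2 X + 2)) * (T * H) := by
        refine Nat.mul_le_mul (card_image_le.trans ?_) hHP
        rw [card_product, card_range, card_range]
        exact Nat.mul_le_mul_right _ hHP
    _ = (T * H) ^ 2 * (Nat.log 2 X + 2) := by ring

theorem card_G2 (hT : 2 ≤ T) (hH : 2 ≤ H) : (G2 H T).card ≤ 2 * (T * H) ^ 22 := by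
  classical
  have hHP : H + 1 ≤ T * H := by nlinarith
  have hTP : T + 1 ≤ T * H := by nlinarith
  have h1 : ((range (xb H T) ×ˢ range (T + 1)).image fun t => t.1 ^ t.2).card * (H + 1) ≤
      (T * H) ^ 22 := by
    calc ((range (xb H T) ×ˢ range (T + 1)).image fun t => t.1 ^ t.2).card * (H + 1)
        ≤ ((T * H) ^ 20 * (T * H)) * (T * H) := by
          refine Nat.mul_le_mul (card_image_le.trans ?_) hHP
          rw [card_product, card_range, card_range]
          exact Nat.mul_le_mul (xb_le hT hH) hTP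
      _ = (T * H) ^ 22 := by ring
  unfold G2
  refine (card_union_le _ _).trans ?_
  rw [two_mul]
  refine add_le_add (card_image_le.trans ?_) (card_image_le.trans ?_)
  · rw [card_product, card_range]
    exact h1
  · rw [card_product, card_range]
    exact h1

theorem card_SG {a l : ℕ} {d : ℤ} (ha : a.Prime) (haT : a ≤ T) (hl : 3 ≤ l)
    (hlX : l < Nat.log 2 X + 2) (hd : d ≠ 0) (hdH : d.natAbs ≤ H) (hT : 1 ≤ T * H) :
    (SG X a l d).card ≤ (T * H) ^ (3 * T) * (Nat.log 2 X + 2) ^ (3 * T + 1) := by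
  classical
  have h1 := count_large ha hd hl X (SG X a l d) (by
    intro x hx
    unfold SG at hx
    rw [mem_filter, mem_range] at hx
    exact ⟨by omega, hx.2⟩)
  refine h1.trans (Nat.mul_le_mul ?_ ?_)
  · exact (Nat.pow_le_pow_left (Nat.mul_le_mul haT hdH) _).trans
      (Nat.pow_le_pow_right hT (Nat.mul_le_mul_left _ haT))
  · rw [pow_succ]
    refine Nat.mul_le_mul ?_ (by omega)
    exact (Nat.pow_le_pow_left hlX.le _).trans
      (Nat.pow_le_pow_right (by omega) (Nat.mul_le_mul_left _ haT))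

theorem card_G3 (hT : 2 ≤ T) (hH : 2 ≤ H) :
    (G3 X H T).card ≤ (T * H) ^ (3 * T + 3) * (Nat.log 2 X + 2) ^ (3 * T + 2) := by
  classical
  obtain ⟨P, hP⟩ : ∃ P, P = T * H := ⟨_, rfl⟩
  obtain ⟨Λ, hΛ⟩ : ∃ Λ, Λ = Nat.log 2 X + 2 := ⟨_, rfl⟩
  have hP4 : 4 ≤ P := by
    rw [hP]
    exact Nat.mul_le_mul hT hH
  have hTP : T + 1 ≤ P := by
    rw [hP]
    nlinarith
  have hHP : H ≤ P := by
    rw [hP]
    exact Nat.le_mul_of_pos_left _ (by omega)
  unfold G3
  rw [← hP, ← hΛ]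
  refine (card_biUnion_le_card_mul _ _ (2 * (P ^ (3 * T) * Λ ^ (3 * T + 1))) ?_).trans ?_
  · rintro ⟨⟨a, l⟩, δ⟩ ht
    simp only [mem_product, mem_filter, mem_range, mem_Icc] at ht
    obtain ⟨⟨⟨haT, ha⟩, hlX, hl⟩, hδ1, hδH⟩ := ht
    have haT' : a ≤ T := by omega
    rw [hΛ] at hlX
    have h1 : 1 ≤ T * H := by omega
    refine (card_union_le _ _).trans ?_
    rw [two_mul]
    refine add_le_add (card_image_le.trans ?_) (card_image_le.trans ?_)
    · have := card_SG (X := X) (H := H) (T := T) (d := -(δ : ℤ)) ha haT' hl hlX (by omega)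
        (by rw [Int.natAbs_neg, Int.natAbs_natCast]; exact hδH) h1
      rwa [← hP, ← hΛ] at this
    · have := card_SG (X := X) (H := H) (T := T) (d := (δ : ℤ)) ha haT' hl hlX (by omega)
        (by rw [Int.natAbs_natCast]; exact hδH) h1
      rwa [← hP, ← hΛ] at this
  · rw [card_product, card_product, Nat.card_Icc, Nat.add_sub_cancel]
    have c1 : ((range (T + 1)).filter Nat.Prime).card ≤ P := by
      refine (card_filter_le _ _).trans ?_
      rw [card_range]
      exact hTP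
    have c2 : ((range Λ).filter fun l => 3 ≤ l).card ≤ Λ := by
      refine (card_filter_le _ _).trans ?_
      rw [card_range]
    calc ((range (T + 1)).filter Nat.Prime).card * ((range Λ).filter fun l => 3 ≤ l).card * H *
          (2 * (P ^ (3 * T) * Λ ^ (3 * T + 1)))
        ≤ P * Λ * P * (P * (P ^ (3 * T) * Λ ^ (3 * T + 1))) := by
          refine Nat.mul_le_mul (Nat.mul_le_mul (Nat.mul_le_mul c1 c2) hHP)
            (Nat.mul_le_mul_right _ (by omega))
      _ = P ^ (3 * T + 3) * Λ ^ (3 * T + 2) := by ring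

theorem card_G4 {E q : ℕ} (hX : 1 ≤ X) (hHX : H ≤ X) (hE : 2 ≤ E) (hET : 4 * (E - 1) ≤ T)
    (hq : 1 ≤ q) (hqY : (3 * ((E : ℝ) ^ 2) ^ 4) * (3 * X) < (q : ℝ) ^ (E ^ 2)) :
    (G4 X H T).card ≤ 4 * q * H * (Nat.log 2 X + 2) ^ 5 := by
  classical
  obtain ⟨Λ, hΛ⟩ : ∃ Λ, Λ = Nat.log 2 X + 2 := ⟨_, rfl⟩
  unfold G4
  rw [← hΛ]
  refine (card_biUnion_le_card_mul _ _ ((Λ * (2 * q)) * (2 * Λ ^ 2)) ?_).trans ?_
  · rintro ⟨⟨p, p'⟩, δ⟩ ht
    simp only [mem_product, mem_filter, mem_range, mem_Icc] at ht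
    obtain ⟨⟨⟨hpΛ, hp'Λ⟩, hp, hp', hpp, hpT, hp'T⟩, hδ1, hδH⟩ := ht
    refine card_image_le.trans ?_
    have hb : ∀ i, 2 ≤ ![p, p'] i := by
      intro i
      fin_cases i
      · exact hp.two_le
      · exact hp'.two_le
    have hEb : ∀ i, E ≤ ![p, p'] i := by
      intro i
      fin_cases i
      · show E ≤ p
        omega
      · show E ≤ p'
        omega
    have hco : Pairwise fun i j => Nat.Coprime (![p, p'] i) (![p, p'] j) := by
      have h1 := (Nat.coprime_primes hp hp').2 hpp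
      intro i j hij
      fin_cases i <;> fin_cases j
      · exact absurd rfl hij
      · exact h1
      · exact h1.symm
      · exact absurd rfl hij
    have hw : ∑ i, ((E - 1 : ℕ) : ℝ) / (![p, p'] i : ℕ) ≤ 1 / 2 := by
      have h4 : ∀ r : ℕ, T < r → ((E - 1 : ℕ) : ℝ) / r ≤ 1 / 4 := by
        intro r hr
        have h5 : ((4 * (E - 1) : ℕ) : ℝ) ≤ r := by
          exact_mod_cast hET.trans hr.le
        have h6 : (0 : ℝ) < r := by
          have : 0 < r := by omega
          exact_mod_cast this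
        rw [div_le_iff₀ h6]
        push_cast at h5
        linarith
      rw [Fin.sum_univ_two]
      have h7 := h4 p hpT
      have h8 := h4 p' hp'T
      show ((E - 1 : ℕ) : ℝ) / (p : ℕ) + ((E - 1 : ℕ) : ℝ) / (p' : ℕ) ≤ 1 / 2
      linarith
    have h3 := count_pts2 (X := X) (q := q) (Y := 3 * X) (b := ![p, p']) (d := ![0, δ]) (E := E)
      (by norm_num) hE hEb hb hco hw hX hq
      (by
        have : (1 : ℝ) ≤ X := by exact_mod_cast hX
        linarith) (by
        intro i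
        have h5 : ![0, δ] i ≤ X := by
          fin_cases i
          · exact Nat.zero_le _
          · exact hδH.trans hHX
        have h6 : ((![0, δ] i : ℕ) : ℝ) ≤ X := by exact_mod_cast h5
        push_cast
        linarith) hqY ((range (X + 1)).filter fun u => 1 ≤ u ∧ (∃ x : ℕ, x ^ p = u) ∧
          ∃ x : ℕ, x ^ p' = u + δ)
      (by
        intro t ht
        rw [mem_filter, mem_range] at ht
        obtain ⟨h1, h2, ⟨x, hx⟩, ⟨y, hy⟩⟩ := ht
        refine ⟨h2, by omega, ?_⟩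
        intro i
        fin_cases i
        · exact ⟨x, hx⟩
        · exact ⟨y, hy⟩)
    refine h3.trans ?_
    rw [← hΛ, Fin.prod_univ_two]
    refine Nat.mul_le_mul_left _ (Nat.mul_le_mul_left _ ?_)
    show p * p' ≤ Λ ^ 2
    rw [pow_two]
    exact Nat.mul_le_mul hpΛ.le hp'Λ.le
  · rw [card_product, Nat.card_Icc, Nat.add_sub_cancel]
    have c1 : (((range Λ) ×ˢ (range Λ)).filter fun t : ℕ × ℕ =>
        t.1.Prime ∧ t.2.Prime ∧ t.1 ≠ t.2 ∧ T < t.1 ∧ T < t.2).card ≤ Λ * Λ := by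
      refine (card_filter_le _ _).trans ?_
      rw [card_product, card_range]
    calc _ ≤ Λ * Λ * H * (Λ * (2 * q) * (2 * Λ ^ 2)) :=
          Nat.mul_le_mul_right _ (Nat.mul_le_mul_right _ c1)
      _ = 4 * q * H * Λ ^ 5 := by ring

/-- **The number of the pairs of close coprime perfect powers.** -/
theorem card_pairs {E q : ℕ} (hX : 1 ≤ X) (hH : 2 ≤ H) (hHX : H ≤ X) (hT : 2 ≤ T)
    (hE : 2 ≤ E) (hET : 4 * (E - 1) ≤ T)
    (hq : 1 ≤ q) (hqY : (3 * ((E : ℝ) ^ 2) ^ 4) * (3 * X) < (q : ℝ) ^ (E ^ 2)) :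
    (PS X H).Finite ∧ (PS X H).ncard ≤
      (T * H) ^ (15 * T) * (Nat.log 2 X + 2) ^ (4 * T) + 4 * q * H * (Nat.log 2 X + 2) ^ 5 := by
  classical
  obtain ⟨F, hF⟩ : ∃ F, F = (G1 X H ∪ (G2 H T ∪ G3 X H T)) ∪ G4 X H T := ⟨_, rfl⟩
  have hsub : PS X H ⊆ (F : Set (ℕ × ℕ)) := by
    intro t ht
    rw [hF, Finset.mem_coe]
    exact pair_mem hT ht
  refine ⟨F.finite_toSet.subset hsub, ?_⟩
  have h1 : (PS X H).ncard ≤ F.card := by
    have := Set.ncard_le_ncard hsub F.finite_toSet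
    rwa [Set.ncard_coe_finset] at this
  refine h1.trans ?_
  rw [hF]
  refine (card_union_le _ _).trans (add_le_add ?_ (card_G4 hX hHX hE hET hq hqY))
  obtain ⟨P, hP⟩ : ∃ P, P = T * H := ⟨_, rfl⟩
  obtain ⟨Λ, hΛ⟩ : ∃ Λ, Λ = Nat.log 2 X + 2 := ⟨_, rfl⟩
  have g1 := card_G1 (X := X) hT hH
  have g2 := card_G2 hT hH
  have g3 := card_G3 (X := X) hT hH
  rw [← hP, ← hΛ] at g1 g3
  rw [← hP] at g2
  rw [← hP, ← hΛ]
  have hP4 : 4 ≤ P := by
    rw [hP]
    exact Nat.mul_le_mul hT hH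
  have hP1 : 1 ≤ P := by omega
  have hΛ2 : 2 ≤ Λ := by omega
  have hΛ1 : 1 ≤ Λ := by omega
  obtain ⟨Q, hQ⟩ : ∃ Q, Q = P ^ (3 * T + 22) * Λ ^ (3 * T + 2) := ⟨_, rfl⟩
  have hmono : ∀ i j : ℕ, i ≤ 3 * T + 22 → j ≤ 3 * T + 2 → P ^ i * Λ ^ j ≤ Q := by
    intro i j hi hj
    rw [hQ]
    exact Nat.mul_le_mul (Nat.pow_le_pow_right hP1 hi) (Nat.pow_le_pow_right hΛ1 hj)
  have t1 : P ^ 2 * Λ ≤ Q := by
    have := hmono 2 1 (by omega) (by omega)
    rwa [pow_one] at this
  have t2 : P ^ 22 ≤ Q := by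
    have := hmono 22 0 (by omega) (by omega)
    rwa [pow_zero, mul_one] at this
  have t3 := hmono (3 * T + 3) (3 * T + 2) (by omega) le_rfl
  have h2 : (G1 X H ∪ (G2 H T ∪ G3 X H T)).card ≤ P * Q := by
    refine (card_union_le _ _).trans ?_
    have h3 := card_union_le (G2 H T) (G3 X H T)
    have h4 : 4 * Q ≤ P * Q := Nat.mul_le_mul_right _ hP4
    omega
  refine h2.trans ?_
  have e2 : P * Q = P ^ (3 * T + 23) * Λ ^ (3 * T + 2) := by
    rw [hQ]
    ring
  rw [e2]
  exact Nat.mul_le_mul (Nat.pow_le_pow_right hP1 (by omega)) (Nat.pow_le_pow_right hΛ1 (by omega))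

end

end Pool.Agent.Run7.h880
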