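import Mathlib
import Pool.Agent.Run7.h880.Pairs

/-!
The number of the pairs of close coprime perfect powers: the final bound.
-/

set_option autoImplicit false

namespace Pool.Agent.Run7.h880

open Finset

theorem pow8_le {E : ℕ} (hE : 2 ≤ E) : E ^ 8 * 9 ≤ 9 ^ (E ^ 2) := by
  obtain ⟨k, rfl⟩ : ∃ k, E = k + 2 := ⟨E - 2, by omega⟩
  have h1 : k + 2 ≤ 2 ^ (k + 1) := by
    have := Nat.lt_two_pow_self (n := k + 1)
    omega
  have e1 : (k + 2) ^ 2 = (k + 1) * (k + 3) + 1 := by ring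
  calc (k + 2) ^ 8 * 9 ≤ (2 ^ (k + 1)) ^ 8 * 9 := Nat.mul_le_mul_right _ (Nat.pow_le_pow_left h1 8)
    _ = (2 ^ 8) ^ (k + 1) * 9 := by rw [← pow_mul, ← pow_mul, mul_comm (k + 1) 8]
    _ ≤ (9 ^ 3) ^ (k + 1) * 9 := Nat.mul_le_mul_right _ (Nat.pow_le_pow_left (by norm_num) _)
    _ = 9 ^ (3 * (k + 1)) * 9 := by rw [← pow_mul]
    _ ≤ 9 ^ ((k + 1) * (k + 3)) * 9 := by
        refine Nat.mul_le_mul_right _ (Nat.pow_le_pow_right (by norm_num) ?_)
        nlinarith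
    _ = 9 ^ ((k + 2) ^ 2) := by rw [e1, pow_succ]

/-- **The number of the pairs of close coprime perfect powers.** -/
theorem pairs_final {X H : ℕ} (hX : 3 ≤ X) (hH : 2 ≤ H) (hHX : H ≤ X) :
    (PS X H).Finite ∧ ((PS X H).ncard : ℝ) ≤
      Real.exp (2355 * (Real.log X) ^ ((1 : ℝ) / 3) * (Real.log (H * Real.log X)) ^ ((2 : ℝ) / 3)) := by
  obtain ⟨L, hL⟩ : ∃ L : ℝ, L = Real.log X := ⟨_, rfl⟩
  obtain ⟨Λ, hΛ⟩ : ∃ Λ : ℕ, Λ = Nat.log 2 X + 2 := ⟨_, rfl⟩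
  obtain ⟨h, hh⟩ : ∃ h : ℝ, h = Real.log (H * Λ) := ⟨_, rfl⟩
  obtain ⟨g, hg⟩ : ∃ g : ℝ, g = Real.log (H * L) := ⟨_, rfl⟩
  rw [← hL, ← hg]
  have hXR : (3 : ℝ) ≤ X := by exact_mod_cast hX
  have hX0 : (0 : ℝ) < X := by linarith
  have hHR : (2 : ℝ) ≤ H := by exact_mod_cast hH
  have hL1 : 1.09 ≤ L := by
    have h1 : Real.log 3 ≤ L := by
      rw [hL]
      exact Real.log_le_log (by norm_num) hXR
    have h2 : (1.09 : ℝ) ≤ Real.log 3 := by
      rw [Real.le_log_iff_exp_le (by norm_num)]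
      have h3 : Real.exp 1.09 = (Real.exp 1) * Real.exp 0.09 := by
        rw [← Real.exp_add]
        norm_num
      have h4 := Real.exp_one_lt_d9
      have h5 : Real.exp 0.09 ≤ 1.1 := by
        have h6 := Real.exp_bound' (x := 0.09) (by norm_num) (by norm_num) (n := 3) (by norm_num)
        refine h6.trans ?_
        norm_num [Finset.sum_range_succ]
      rw [h3]
      have h7 : 0 < Real.exp 0.09 := Real.exp_pos _
      nlinarith [Real.exp_pos 1]
    linarith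
  have hΛ3 : 3 ≤ Λ := by
    rw [hΛ]
    have : 1 ≤ Nat.log 2 X := Nat.le_log_of_pow_le (by norm_num) (by omega)
    omega
  have hΛR : (3 : ℝ) ≤ Λ := by exact_mod_cast hΛ3
  have hl2 : 0.69 < Real.log 2 := by
    have := Real.log_two_gt_d9
    linarith
  -- bounds for `Λ`
  have hΛX : Λ ≤ X ^ 2 := by
    have h1 : Nat.log 2 X < X := Nat.log_lt_self 2 (by omega)
    nlinarith
  have hLΛ : L ≤ Λ := by
    have h1 : X < 2 ^ (Nat.log 2 X + 1) := Nat.lt_pow_succ_log_self (by norm_num) X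
    have h2 : (X : ℝ) < (2 : ℝ) ^ (Nat.log 2 X + 1) := by exact_mod_cast h1
    have h3 : L ≤ (Nat.log 2 X + 1 : ℕ) * Real.log 2 := by
      rw [hL, ← Real.log_pow]
      exact Real.log_le_log hX0 h2.le
    have h4 : Real.log 2 ≤ 1 := by
      have := Real.log_two_lt_d9
      linarith
    have h5 : ((Nat.log 2 X + 1 : ℕ) : ℝ) * Real.log 2 ≤ (Nat.log 2 X + 1 : ℕ) :=
      mul_le_of_le_one_right (Nat.cast_nonneg _) h4
    have h6 : ((Nat.log 2 X + 1 : ℕ) : ℝ) ≤ Λ := by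
      rw [hΛ]
      exact_mod_cast Nat.le_succ _
    linarith
  have hΛL : (Λ : ℝ) ≤ 4 * L := by
    have h1 : 2 ^ Nat.log 2 X ≤ X := Nat.pow_log_le_self 2 (by omega)
    have h2 : (2 : ℝ) ^ Nat.log 2 X ≤ X := by exact_mod_cast h1
    have h3 : (Nat.log 2 X : ℝ) * Real.log 2 ≤ L := by
      rw [hL, ← Real.log_pow]
      exact Real.log_le_log (by positivity) h2
    have h4 : (Nat.log 2 X : ℝ) * 0.69 ≤ L := by
      have : (0 : ℝ) ≤ Nat.log 2 X := Nat.cast_nonneg _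
      nlinarith
    rw [hΛ]
    push_cast
    linarith
  -- bounds for `h`
  have hHΛ : (6 : ℝ) ≤ H * Λ := by nlinarith
  have hHΛ0 : (0 : ℝ) < H * Λ := by linarith
  have hexph : Real.exp h = H * Λ := by
    rw [hh, Real.exp_log hHΛ0]
  have hh1 : 1.5 ≤ h := by
    rw [hh, Real.le_log_iff_exp_le hHΛ0]
    have h1 : Real.exp 1.5 ≤ 6 := by
      have h2 : Real.exp 1.5 ^ 2 = Real.exp 1 ^ 3 := by
        rw [← Real.exp_nat_mul, ← Real.exp_nat_mul]
        norm_num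
      have h3 := Real.exp_one_lt_d9
      have h4 : Real.exp 1 ^ 3 ≤ 36 := by
        calc Real.exp 1 ^ 3 ≤ 3 ^ 3 := pow_le_pow_left₀ (Real.exp_pos _).le (by linarith) 3
          _ ≤ 36 := by norm_num
      rw [← h2] at h4
      have h5 : 0 < Real.exp 1.5 := Real.exp_pos _
      nlinarith
    linarith
  have hh0 : 0 < h := by linarith
  have hh3 : h ≤ 3 * L := by
    rw [hh, hL]
    have h1 : (H : ℝ) * Λ ≤ (X : ℝ) ^ 3 := by
      have h2 : H * Λ ≤ X * X ^ 2 := Nat.mul_le_mul hHX hΛX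
      have h3 : H * Λ ≤ X ^ 3 := h2.trans (le_of_eq (by ring))
      exact_mod_cast h3
    calc Real.log (H * Λ) ≤ Real.log ((X : ℝ) ^ 3) := Real.log_le_log hHΛ0 h1
      _ = 3 * Real.log X := by rw [Real.log_pow]; norm_num
  have hHL : (2.18 : ℝ) ≤ H * L := by nlinarith
  have hg0 : 0 ≤ g := by
    rw [hg]
    exact Real.log_nonneg (by linarith)
  have hhg : h ≤ 3 * g := by
    rw [hh, hg]
    have h1 : (H : ℝ) * Λ ≤ (H * L) ^ 3 := by
      have h2 : (H : ℝ) * Λ ≤ 4 * (H * L) := by nlinarith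
      have h3 : 4 * (H * L) ≤ (H * L) ^ 3 := by
        have h4 : (4 : ℝ) ≤ (H * L) ^ 2 := by nlinarith
        have h5 : (H * L) ^ 3 = (H * L) ^ 2 * (H * L) := by ring
        rw [h5]
        exact mul_le_mul_of_nonneg_right h4 (by linarith)
      linarith
    calc Real.log (H * Λ) ≤ Real.log ((H * L) ^ 3) := Real.log_le_log hHΛ0 h1
      _ = 3 * Real.log (H * L) := by rw [Real.log_pow]; norm_num
  -- the parameter `r`
  obtain ⟨r, hr⟩ : ∃ r : ℝ, r = (L / h) ^ ((1 : ℝ) / 3) := ⟨_, rfl⟩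
  have hLh : 0 < L / h := by
    have : 0 < L := by linarith
    positivity
  have hr0 : 0 < r := by
    rw [hr]
    exact Real.rpow_pos_of_pos hLh _
  have hr3 : r ^ 3 = L / h := by
    rw [hr, ← Real.rpow_natCast, ← Real.rpow_mul hLh.le]
    norm_num
  have hr3h : r ^ 3 * h = L := by
    rw [hr3]
    field_simp
  have hr23 : 2 / 3 ≤ r := by
    have h1 : (2 / 3 : ℝ) ^ 3 ≤ r ^ 3 := by
      rw [hr3, le_div_iff₀ hh0]
      linarith
    exact (pow_le_pow_iff_left₀ (by norm_num) hr0.le (by norm_num)).1 h1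
  have hrL : r ≤ L := by
    by_contra hcon
    push Not at hcon
    have h1 : L ^ 3 < r ^ 3 := pow_lt_pow_left₀ hcon (by linarith) (by norm_num)
    have h2 : r ^ 3 ≤ L := by nlinarith [pow_pos hr0 3]
    have h3 : L ≤ L ^ 3 := le_self_pow₀ (by linarith) (by norm_num)
    linarith
  obtain ⟨E, hE⟩ : ∃ E : ℕ, E = ⌈r⌉₊ + 1 := ⟨_, rfl⟩
  have hE2 : 2 ≤ E := by
    have : 1 ≤ ⌈r⌉₊ := Nat.one_le_ceil_iff.2 hr0
    omega
  have hrE : r ≤ E := by
    have h1 := Nat.le_ceil r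
    rw [hE]
    push_cast
    linarith
  have hEr : (E : ℝ) ≤ r + 2 := by
    have h1 := (Nat.ceil_lt_add_one hr0.le).le
    rw [hE]
    push_cast
    linarith
  obtain ⟨T, hT⟩ : ∃ T : ℕ, T = 4 * E := ⟨_, rfl⟩
  have hTR : (T : ℝ) = 4 * E := by
    rw [hT]
    push_cast
    ring
  have hT16 : (T : ℝ) ≤ 16 * r := by linarith
  have hT2 : 2 ≤ T := by omega
  -- the parameter `q`
  have hE0 : (0 : ℝ) < (E : ℝ) ^ 2 := by positivity
  obtain ⟨y, hy⟩ : ∃ y : ℝ, y = (X : ℝ) ^ ((1 : ℝ) / (E : ℝ) ^ 2) := ⟨_, rfl⟩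
  have hy1 : 1 ≤ y := by
    rw [hy]
    exact Real.one_le_rpow (by linarith) (by positivity)
  have hyE : y ^ (E ^ 2) = X := by
    rw [hy, ← Real.rpow_natCast, ← Real.rpow_mul hX0.le]
    push_cast
    rw [one_div_mul_cancel hE0.ne', Real.rpow_one]
  obtain ⟨q, hq⟩ : ∃ q : ℕ, q = ⌈9 * y⌉₊ + 1 := ⟨_, rfl⟩
  have hq9 : 9 * y < q := by
    have h1 := Nat.le_ceil (9 * y)
    rw [hq]
    push_cast
    linarith
  have hq11 : (q : ℝ) ≤ 11 * y := by
    have h1 := (Nat.ceil_lt_add_one (show 0 ≤ 9 * y by linarith)).le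
    rw [hq]
    push_cast
    linarith
  have hqY : (3 * ((E : ℝ) ^ 2) ^ 4) * (3 * X) < (q : ℝ) ^ (E ^ 2) := by
    have h1 : (9 * y) ^ (E ^ 2) < (q : ℝ) ^ (E ^ 2) :=
      pow_lt_pow_left₀ hq9 (by linarith) (by positivity)
    rw [mul_pow, hyE] at h1
    have h2 : ((E : ℝ) ^ 8 * 9) ≤ (9 : ℝ) ^ (E ^ 2) := by exact_mod_cast pow8_le hE2
    calc (3 * ((E : ℝ) ^ 2) ^ 4) * (3 * X) = ((E : ℝ) ^ 8 * 9) * X := by ring
      _ ≤ (9 : ℝ) ^ (E ^ 2) * X := mul_le_mul_of_nonneg_right h2 hX0.le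
      _ < _ := h1
  obtain ⟨hfin, hcard⟩ := card_pairs (X := X) (H := H) (T := T) (E := E) (q := q) (by omega) hH hHX hT2
    hE2 (by omega) (by omega) hqY
  refine ⟨hfin, ?_⟩
  rw [← hΛ] at hcard
  have hcardR : ((PS X H).ncard : ℝ) ≤
      ((T : ℝ) * H) ^ (15 * T) * (Λ : ℝ) ^ (4 * T) + 4 * q * H * (Λ : ℝ) ^ 5 := by
    exact_mod_cast hcard
  have hrh0 : 0 < r * h := mul_pos hr0 hh0
  -- the first term
  have hTH : (T : ℝ) * H ≤ Real.exp (3 * h) := by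
    have h1 : Real.exp (3 * h) = (H * Λ) ^ 3 := by
      rw [← hexph, ← Real.exp_nat_mul]
      norm_num
    rw [h1]
    have h2 : (T : ℝ) ≤ 12 * Λ := by linarith
    have h3 : (T : ℝ) * H ≤ 12 * (H * Λ) := by nlinarith
    have h4 : 12 * ((H : ℝ) * Λ) ≤ (H * Λ) ^ 3 := by
      have h5 : (12 : ℝ) ≤ (H * Λ) ^ 2 := by nlinarith
      calc 12 * ((H : ℝ) * Λ) ≤ (H * Λ) ^ 2 * (H * Λ) := mul_le_mul_of_nonneg_right h5 hHΛ0.le
        _ = _ := by ring
    linarith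
  have hΛh : (Λ : ℝ) ≤ Real.exp h := by
    rw [hexph]
    nlinarith
  have hfirst : ((T : ℝ) * H) ^ (15 * T) * (Λ : ℝ) ^ (4 * T) ≤ Real.exp (784 * (r * h)) := by
    calc ((T : ℝ) * H) ^ (15 * T) * (Λ : ℝ) ^ (4 * T)
        ≤ Real.exp (3 * h) ^ (15 * T) * Real.exp h ^ (4 * T) := by
          refine mul_le_mul (pow_le_pow_left₀ (by positivity) hTH _)
            (pow_le_pow_left₀ (by positivity) hΛh _) (by positivity) (by positivity)
      _ = Real.exp (49 * T * h) := by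
          rw [← Real.exp_nat_mul, ← Real.exp_nat_mul, ← Real.exp_add]
          congr 1
          push_cast
          ring
      _ ≤ Real.exp (784 * (r * h)) := by
          refine Real.exp_le_exp.2 ?_
          nlinarith
  -- the second term
  have hyexp : y ≤ Real.exp (r * h) := by
    rw [hy, Real.rpow_def_of_pos hX0, ← hL]
    refine Real.exp_le_exp.2 ?_
    rw [mul_one_div, div_le_iff₀ hE0]
    have h1 : r ^ 2 ≤ (E : ℝ) ^ 2 := pow_le_pow_left₀ hr0.le hrE 2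
    calc L = r * h * r ^ 2 := by rw [← hr3h]; ring
      _ ≤ r * h * (E : ℝ) ^ 2 := mul_le_mul_of_nonneg_left h1 hrh0.le
  have hsecond : 4 * (q : ℝ) * H * (Λ : ℝ) ^ 5 ≤ Real.exp (13 * (r * h)) := by
    have h1 : 4 * (q : ℝ) * H * (Λ : ℝ) ^ 5 ≤ 4 * (11 * y) * H * (Λ : ℝ) ^ 5 := by
      refine mul_le_mul_of_nonneg_right (mul_le_mul_of_nonneg_right ?_ (by positivity)) (by positivity)
      linarith
    have h2 : (44 : ℝ) * (H * (Λ : ℝ) ^ 5) ≤ (H * Λ) ^ 8 := by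
      have h3 : (44 : ℝ) ≤ (H * Λ) ^ 3 := by
        calc (44 : ℝ) ≤ 6 ^ 3 := by norm_num
          _ ≤ (H * Λ) ^ 3 := pow_le_pow_left₀ (by norm_num) hHΛ 3
      have h4 : (H : ℝ) * (Λ : ℝ) ^ 5 ≤ (H * Λ) ^ 5 := by
        rw [mul_pow]
        exact mul_le_mul_of_nonneg_right (le_self_pow₀ (by linarith) (by norm_num)) (by positivity)
      calc (44 : ℝ) * (H * (Λ : ℝ) ^ 5) ≤ (H * Λ) ^ 3 * (H * Λ) ^ 5 :=
            mul_le_mul h3 h4 (by positivity) (by positivity)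
        _ = (H * Λ) ^ 8 := by ring
    have h5 : ((H : ℝ) * Λ) ^ 8 = Real.exp (8 * h) := by
      rw [← hexph, ← Real.exp_nat_mul]
      norm_num
    calc 4 * (q : ℝ) * H * (Λ : ℝ) ^ 5 ≤ 4 * (11 * y) * H * (Λ : ℝ) ^ 5 := h1
      _ = y * (44 * (H * (Λ : ℝ) ^ 5)) := by ring
      _ ≤ Real.exp (r * h) * Real.exp (8 * h) := by
          rw [← h5]
          exact mul_le_mul hyexp h2 (by positivity) (Real.exp_pos _).le
      _ = Real.exp (r * h + 8 * h) := (Real.exp_add _ _).symm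
      _ ≤ Real.exp (13 * (r * h)) := by
          refine Real.exp_le_exp.2 ?_
          nlinarith
  have hsum : ((PS X H).ncard : ℝ) ≤ Real.exp (785 * (r * h)) := by
    have h1 : Real.exp (13 * (r * h)) ≤ Real.exp (784 * (r * h)) := Real.exp_le_exp.2 (by linarith)
    have h2 : (2 : ℝ) ≤ Real.exp (r * h) := by
      have h3 : 1 ≤ r * h := by nlinarith
      have h4 := Real.add_one_le_exp (r * h)
      linarith
    calc ((PS X H).ncard : ℝ) ≤ Real.exp (784 * (r * h)) + Real.exp (784 * (r * h)) := by linarith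
      _ = 2 * Real.exp (784 * (r * h)) := by ring
      _ ≤ Real.exp (r * h) * Real.exp (784 * (r * h)) :=
          mul_le_mul_of_nonneg_right h2 (Real.exp_pos _).le
      _ = Real.exp (785 * (r * h)) := by
          rw [← Real.exp_add]
          congr 1
          ring
  refine hsum.trans (Real.exp_le_exp.2 ?_)
  -- `r h ≤ 3 L^(1/3) g^(2/3)`
  have hL0 : 0 ≤ L := by linarith
  obtain ⟨a, ha⟩ : ∃ a : ℝ, a = L ^ ((1 : ℝ) / 3) := ⟨_, rfl⟩
  obtain ⟨b, hb⟩ : ∃ b : ℝ, b = g ^ ((2 : ℝ) / 3) := ⟨_, rfl⟩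
  rw [← ha, ← hb]
  have ha0 : 0 ≤ a := by
    rw [ha]
    positivity
  have hb0 : 0 ≤ b := by
    rw [hb]
    positivity
  have ha3 : a ^ 3 = L := by
    rw [ha, ← Real.rpow_natCast, ← Real.rpow_mul hL0]
    norm_num
  have hb3 : b ^ 3 = g ^ 2 := by
    rw [hb, ← Real.rpow_natCast, ← Real.rpow_mul hg0, ← Real.rpow_natCast]
    norm_num
  have hkey : r * h ≤ 3 * (a * b) := by
    have h1 : (r * h) ^ 3 ≤ (3 * (a * b)) ^ 3 := by
      calc (r * h) ^ 3 = (r ^ 3 * h) * h ^ 2 := by ring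
        _ = L * h ^ 2 := by rw [hr3h]
        _ ≤ L * (3 * g) ^ 2 := mul_le_mul_of_nonneg_left (pow_le_pow_left₀ hh0.le hhg 2) hL0
        _ = 9 * (L * g ^ 2) := by ring
        _ ≤ 27 * (L * g ^ 2) := by
            have : 0 ≤ L * g ^ 2 := by positivity
            linarith
        _ = (3 * (a * b)) ^ 3 := by rw [mul_pow, mul_pow, ha3, hb3]; norm_num
    exact (pow_le_pow_iff_left₀ hrh0.le (by positivity) (by norm_num)).1 h1
  nlinarith

end Pool.Agent.Run7.h880
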