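import Mathlib
import Pool.Prelude.Def_F_53a7d5e4

/-!
The least common multiple `lcm (1, ..., n)`: passing from `m` to `n` multiplies it by at most the
product of the primes below the prime powers in `(m, n]`.
-/

set_option autoImplicit false

namespace Pool.Agent.Run7.h880

open Finset Nd8d74632

theorem lcm_upto_succ (n : ℕ) : lcm_upto (n + 1) = Nat.lcm (n + 1) (lcm_upto n) := by
  unfold lcm_upto
  have h : Finset.Icc 1 (n + 1) = insert (n + 1) (Finset.Icc 1 n) := by
    ext x
    simp only [Finset.mem_Icc, Finset.mem_insert]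
    omega
  rw [h, Finset.lcm_insert]
  rfl

theorem dvd_lcm_upto {m n : ℕ} (h1 : 1 ≤ m) (h2 : m ≤ n) : m ∣ lcm_upto n :=
  Finset.dvd_lcm (f := id) (Finset.mem_Icc.2 ⟨h1, h2⟩)

theorem lcm_upto_pos (n : ℕ) : 0 < lcm_upto n := by
  rw [Nat.pos_iff_ne_zero]
  unfold lcm_upto
  rw [Ne, Finset.lcm_eq_zero_iff]
  rintro ⟨x, hx, h0⟩
  rw [Finset.mem_Icc] at hx
  change x = 0 at h0
  omega

/-- the prime below a prime power, `1` for all other numbers -/
def pf (j : ℕ) : ℕ := if IsPrimePow j then j.minFac else 1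

theorem pf_pos (j : ℕ) : 0 < pf j := by
  unfold pf
  split_ifs
  · exact Nat.minFac_pos j
  · exact Nat.one_pos

theorem self_dvd (n : ℕ) : n + 1 ∣ lcm_upto n * pf (n + 1) := by
  obtain ⟨m, hm⟩ : ∃ m, m = n + 1 := ⟨_, rfl⟩
  rw [← hm]
  rcases Nat.lt_or_ge m 2 with h2 | h2
  · have : m = 1 := by omega
    rw [this]
    exact one_dvd _
  have hp : m.minFac.Prime := Nat.minFac_prime (by omega)
  have hm0 : m ≠ 0 := by omega
  obtain ⟨k, m', hm'1, hm'2⟩ := Nat.exists_eq_pow_mul_and_not_dvd hm0 m.minFac hp.ne_one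
  have hk : k ≠ 0 := by
    rintro rfl
    rw [pow_zero, one_mul] at hm'2
    exact hm'1 (hm'2 ▸ Nat.minFac_dvd m)
  unfold pf
  split_ifs with h
  · -- prime power
    have h3 : m' = 1 := by
      by_contra h1
      obtain ⟨p, r, hpp, hr, hpr⟩ := h
      have hpp' : p.Prime := hpp.nat_prime
      obtain ⟨q, hq, hqm⟩ := Nat.exists_prime_and_dvd h1
      have e1 : q ∣ p ^ r := by rw [hpr, hm'2]; exact Dvd.dvd.mul_left hqm _
      have e2 : m.minFac ∣ p ^ r := by rw [hpr]; exact Nat.minFac_dvd m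
      have e3 := (Nat.prime_dvd_prime_iff_eq hq hpp').1 (hq.dvd_of_dvd_pow e1)
      have e4 := (Nat.prime_dvd_prime_iff_eq hp hpp').1 (hp.dvd_of_dvd_pow e2)
      exact hm'1 (by rw [e4, ← e3]; exact hqm)
    rw [h3, mul_one] at hm'2
    obtain ⟨r, rfl⟩ := Nat.exists_eq_succ_of_ne_zero hk
    have h4 : m = m.minFac ^ r * m.minFac := by
      conv_lhs => rw [hm'2]
      rw [Nat.succ_eq_add_one, pow_succ]
    have h5 : m.minFac ^ r ∣ lcm_upto n := by
      refine dvd_lcm_upto (Nat.pow_pos hp.pos) ?_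
      have h6 : m.minFac ^ r < m := by
        conv_rhs => rw [h4]
        have := hp.two_le
        have h7 : 0 < m.minFac ^ r := Nat.pow_pos hp.pos
        nlinarith
      omega
    conv_lhs => rw [h4]
    exact Nat.mul_dvd_mul h5 (dvd_refl _)
  · rw [mul_one]
    have hm'0 : m' ≠ 0 := by
      rintro rfl
      exact hm0 (by rw [hm'2, mul_zero])
    have h3 : m' ≠ 1 := by
      rintro rfl
      apply h
      rw [hm'2, mul_one]
      exact hp.prime.isPrimePow.pow hk
    have hpk : 1 < m.minFac ^ k := Nat.one_lt_pow hk hp.one_lt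
    have hco : Nat.Coprime (m.minFac ^ k) m' :=
      Nat.Coprime.pow_left _ ((Nat.Prime.coprime_iff_not_dvd hp).2 hm'1)
    have hlt1 : m.minFac ^ k < m := by
      have e : m.minFac ^ k * 1 < m.minFac ^ k * m' := by
        apply Nat.mul_lt_mul_of_pos_left _ (by omega)
        omega
      rw [← hm'2] at e
      omega
    have hlt2 : m' < m := by
      have e : 1 * m' < m.minFac ^ k * m' := by
        apply Nat.mul_lt_mul_of_pos_right hpk
        omega
      rw [← hm'2] at e
      omega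
    have d1 : m.minFac ^ k ∣ lcm_upto n := dvd_lcm_upto (by omega) (by omega)
    have d2 : m' ∣ lcm_upto n := dvd_lcm_upto (by omega) (by omega)
    conv_lhs => rw [hm'2]
    exact hco.mul_dvd_of_dvd_of_dvd d1 d2

theorem lcm_upto_succ_dvd (n : ℕ) : lcm_upto (n + 1) ∣ lcm_upto n * pf (n + 1) := by
  rw [lcm_upto_succ]
  exact Nat.lcm_dvd (self_dvd n) (Dvd.intro _ rfl)

theorem lcm_upto_dvd {m n : ℕ} (h : m ≤ n) :
    lcm_upto n ∣ lcm_upto m * ∏ j ∈ Finset.Ioc m n, pf j := by
  induction n, h using Nat.le_induction with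
  | base => simp
  | succ n hmn ih =>
    have e : Finset.Ioc m (n + 1) = insert (n + 1) (Finset.Ioc m n) := by
      ext x
      simp only [Finset.mem_Ioc, Finset.mem_insert]
      omega
    rw [e, Finset.prod_insert (by simp), mul_comm (pf (n + 1)), ← mul_assoc]
    exact (lcm_upto_succ_dvd n).trans (Nat.mul_dvd_mul_right ih _)

theorem lcm_upto_le {m n : ℕ} (h : m ≤ n) :
    lcm_upto n ≤ lcm_upto m * ∏ j ∈ Finset.Ioc m n, pf j := by
  refine Nat.le_of_dvd ?_ (lcm_upto_dvd h)
  exact Nat.mul_pos (lcm_upto_pos m) (Finset.prod_pos fun j _ => pf_pos j)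

/-- the product over the gap only involves its prime powers -/
theorem lcm_gap_le (p q : ℕ) (h : p < q) :
    lcm_upto (q - 1) ≤ lcm_upto p *
      ∏ j ∈ (Finset.Ioo p q).filter IsPrimePow, j.minFac := by
  have h1 := lcm_upto_le (m := p) (n := q - 1) (by omega)
  have e : Finset.Ioc p (q - 1) = Finset.Ioo p q := by
    ext x
    simp only [Finset.mem_Ioc, Finset.mem_Ioo]
    omega
  rw [e] at h1
  rw [Finset.prod_filter]
  exact h1

end Pool.Agent.Run7.h880
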