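import Mathlib
import Pool.Agent.N302.MB.UE
import Pool.Agent.K4H56.IF.Sel
import Pool.Agent.H39R3.Tor.SUnit

/-!
The unit equation over number fields in terms of valuations.
-/

set_option autoImplicit false

open IsDedekindDomain NumberField

namespace Pool.Agent.Run7.h880

open Pool.Agent.Y673.Loc Pool.Agent.Y673.Loc.ZV

section
variable {L : Type} [Field L] [NumberField L]

/-- the finite set of the places at which `x` is not a unit -/
theorem supp_finite {x : L} (hx : x ≠ 0) : {v : HeightOneSpectrum (𝓞 L) | (adv L v).v x ≠ 0}.Finite := by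
  apply Set.Finite.subset ((HeightOneSpectrum.Support.finite (𝓞 L) x).union
    (HeightOneSpectrum.Support.finite (𝓞 L) x⁻¹))
  intro v hv
  have h0 : v.valuation L x ≠ 1 := by
    intro h1
    apply hv
    show -WithZero.log (v.valuation L x) = 0
    rw [h1, WithZero.log_one, neg_zero]
  rcases lt_or_gt_of_ne h0 with h | h
  · right
    change 1 < v.valuation L x⁻¹
    rw [map_inv₀]
    exact (one_lt_inv₀ (by
      rw [zero_lt_iff]
      exact (Valuation.ne_zero_iff _).mpr hx)).mpr h
  · left
    exact h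

/-- the finite set of the poles of `x` -/
theorem pole_finite (x : L) : {v : HeightOneSpectrum (𝓞 L) | ¬ (adv L v).G 0 x}.Finite := by
  by_cases hx : x = 0
  · rw [hx]
    convert Set.finite_empty
    ext v
    simp only [Set.mem_ofPred_eq, Set.mem_empty_iff_false, iff_false, not_not]
    exact G_zero
  · refine (supp_finite hx).subset ?_
    intro v hv h0
    exact hv (Or.inr h0.ge)

theorem val_one {v : HeightOneSpectrum (𝓞 L)} {x : L} (hx : x ≠ 0) (h : (adv L v).v x = 0) :
    v.valuation L x = 1 := by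
  have h1 : WithZero.log (v.valuation L x) = 0 := by
    have h2 : -WithZero.log (v.valuation L x) = 0 := h
    omega
  have h2 : v.valuation L x ≠ 0 := (Valuation.ne_zero_iff _).mpr hx
  rw [← WithZero.exp_log h2, h1, WithZero.exp_zero]

/-- **The unit equation over number fields.** -/
theorem su (S : Set (HeightOneSpectrum (𝓞 L))) (hSf : S.Finite) :
    {x : L | x ≠ 0 ∧ 1 - x ≠ 0 ∧ ∀ v ∉ S, (adv L v).v x = 0 ∧ (adv L v).v (1 - x) = 0}.Finite := by
  classical
  have hfg := Pool.Agent.H39R3.Tor.sunit_fg L S hSf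
  let ι : L →+* AlgebraicClosure ℚ :=
    (IsAlgClosed.lift (R := ℚ) (S := L) (M := AlgebraicClosure ℚ)).toRingHom
  let f : Lˣ →* (AlgebraicClosure ℚ)ˣ := Units.map ι.toMonoidHom
  have hG : ((S.unit L).map f).FG := by
    obtain ⟨T, hT⟩ := hfg
    refine ⟨T.image f, ?_⟩
    rw [Finset.coe_image, ← hT, MonoidHom.map_closure]
  obtain ⟨R, hR1, hR2⟩ := Pool.Agent.N302.MB.ratios_fg ((S.unit L).map f) hG 2
  have hmem : ∀ z : L, (hz : z ≠ 0) → (∀ v ∉ S, (adv L v).v z = 0) →
      f (Units.mk0 z hz) ∈ (S.unit L).map f := by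
    intro z hz hv
    refine Subgroup.mem_map_of_mem f ?_
    intro v hvS
    exact val_one hz (hv v hvS)
  refine ((hR1.preimage (f := fun x : L => ι (x / (-1))) ?_)).subset ?_
  · intro x _ y _ hxy
    have := ι.injective hxy
    simpa using this
  · rintro x ⟨h0, h1, h2⟩
    have hm1 : (-1 : L) ≠ 0 := neg_ne_zero.2 one_ne_zero
    have hm : ∀ v ∉ S, (adv L v).v (-1 : L) = 0 := by
      intro v _
      have h3 := ((E_of_ne (w := adv L v) hm1).pow 2).2
      rw [show (-1 : L) ^ 2 = 1 by norm_num, v_one] at h3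
      push_cast at h3
      omega
    have h4 := hR2 ![f (Units.mk0 x h0), f (Units.mk0 (1 - x) h1), f (Units.mk0 (-1) hm1)] (by
      intro i
      fin_cases i
      · exact hmem x h0 fun v hv => (h2 v hv).1
      · exact hmem _ h1 fun v hv => (h2 v hv).2
      · exact hmem _ hm1 hm) (by
      rw [Fin.sum_univ_three]
      show ι x + ι (1 - x) + ι (-1) = 0
      rw [← map_add, ← map_add, show x + (1 - x) + -1 = 0 by ring, map_zero]) (by
      intro J hJ hs
      have e0 : ((![f (Units.mk0 x h0), f (Units.mk0 (1 - x) h1), f (Units.mk0 (-1) hm1)] 0 :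
        (AlgebraicClosure ℚ)ˣ) : AlgebraicClosure ℚ) = ι x := rfl
      have e1 : ((![f (Units.mk0 x h0), f (Units.mk0 (1 - x) h1), f (Units.mk0 (-1) hm1)] 1 :
        (AlgebraicClosure ℚ)ˣ) : AlgebraicClosure ℚ) = ι (1 - x) := rfl
      have e2 : ((![f (Units.mk0 x h0), f (Units.mk0 (1 - x) h1), f (Units.mk0 (-1) hm1)] 2 :
        (AlgebraicClosure ℚ)ˣ) : AlgebraicClosure ℚ) = ι (-1) := rfl
      have hx' : ι x ≠ 0 := (map_ne_zero ι).2 h0
      have hx1' : ι (1 - x) ≠ 0 := (map_ne_zero ι).2 h1
      have hxm : ι (-1) ≠ 0 := (map_ne_zero ι).2 hm1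
      have s01 : ι x + ι (1 - x) ≠ 0 := by
        rw [← map_add, show x + (1 - x) = 1 by ring, map_one]
        exact one_ne_zero
      have s02 : ι x + ι (-1) ≠ 0 := by
        rw [← map_add, show x + -1 = -(1 - x) by ring]
        exact (map_ne_zero ι).2 (neg_ne_zero.2 h1)
      have s12 : ι (1 - x) + ι (-1) ≠ 0 := by
        rw [← map_add, show 1 - x + -1 = -x by ring]
        exact (map_ne_zero ι).2 (neg_ne_zero.2 h0)
      have hJ8 : ∀ J : Finset (Fin 3), J = ∅ ∨ J = {0} ∨ J = {1} ∨ J = {2} ∨ J = {0, 1} ∨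
          J = {0, 2} ∨ J = {1, 2} ∨ J = Finset.univ := by decide
      rcases hJ8 J with h | h | h | h | h | h | h | h
      · rw [h] at hJ
        simp at hJ
      · rw [h, Finset.sum_singleton, e0] at hs
        exact absurd hs hx'
      · rw [h, Finset.sum_singleton, e1] at hs
        exact absurd hs hx1'
      · rw [h, Finset.sum_singleton, e2] at hs
        exact absurd hs hxm
      · rw [h, Finset.sum_pair (by decide), e0, e1] at hs
        exact absurd hs s01
      · rw [h, Finset.sum_pair (by decide), e0, e2] at hs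
        exact absurd hs s02
      · rw [h, Finset.sum_pair (by decide), e1, e2] at hs
        exact absurd hs s12
      · exact h) 0 2
    show ι (x / (-1)) ∈ R
    rw [map_div₀]
    exact h4

omit [NumberField L] in
/-- factors of units which are integral are units -/
theorem unit_of_mul {w : ZV L} {a b c : L} (ha : w.G 0 a) (hb : w.G 0 b) (hc : c ≠ 0)
    (hc0 : w.v c = 0) (h : a * b = c) : w.E 0 a ∧ w.E 0 b := by
  have ha0 : a ≠ 0 := by
    rintro rfl
    exact hc (by rw [← h, zero_mul])
  have hb0 : b ≠ 0 := by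
    rintro rfl
    exact hc (by rw [← h, mul_zero])
  have h1 := w.mul' a b ha0 hb0
  rw [h, hc0] at h1
  have h2 := ha.resolve_left ha0
  have h3 := hb.resolve_left hb0
  exact ⟨⟨ha0, by omega⟩, ⟨hb0, by omega⟩⟩

omit [NumberField L] in
theorem G_root {w : ZV L} {y : L} {n : ℕ} (hn : 1 ≤ n) (h : w.G 0 (y ^ n)) : w.G 0 y := by
  by_cases hy : y = 0
  · exact Or.inl hy
  right
  have h1 := h.resolve_left (pow_ne_zero _ hy)
  rw [((E_of_ne (w := w) hy).pow n).2] at h1
  have h2 : (1 : ℤ) ≤ n := by exact_mod_cast hn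
  nlinarith

omit [NumberField L] in
theorem G_pow {w : ZV L} {y : L} (n : ℕ) (h : w.G 0 y) : w.G 0 (y ^ n) := by
  induction n with
  | zero =>
    rw [pow_zero]
    right
    rw [v_one]
  | succ n ih =>
    rw [pow_succ]
    simpa using ih.mul h

omit [NumberField L] in
theorem G_sum {w : ZV L} {ι : Type} {n : ℤ} (s : Finset ι) (f : ι → L) (h : ∀ i ∈ s, w.G n (f i)) :
    w.G n (∑ i ∈ s, f i) := by
  classical
  induction s using Finset.induction_on with
  | empty =>
    rw [Finset.sum_empty]
    exact G_zero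
  | insert a s ha ih =>
    rw [Finset.sum_insert ha]
    exact (h a (Finset.mem_insert_self _ _)).add
      (ih fun i hi => h i (Finset.mem_insert_of_mem hi))

end

end Pool.Agent.Run7.h880
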