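import Mathlib
import Pool.Agent.Run7.h880.UE

/-!
Finiteness of the almost integral elements `x` of a number field such that the orders of `x - b₁` and
`x - b₂` are divisible by `ℓ ≥ 3`.
-/

set_option autoImplicit false

open IsDedekindDomain NumberField Polynomial

namespace Pool.Agent.Run7.h880

open Pool.Agent.Y673.Loc Pool.Agent.Y673.Loc.ZV

section
variable {L : Type} [Field L] [NumberField L]

/-- **Two `ℓ`-th powers.** -/
theorem two_pow (S : Set (HeightOneSpectrum (𝓞 L))) (hSf : S.Finite) {b₁ b₂ ζ : L} {l : ℕ}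
    (hl : 3 ≤ l) (h12 : b₁ ≠ b₂) (hζ : IsPrimitiveRoot ζ l) :
    {x : L | (∀ v ∉ S, (adv L v).G 0 x) ∧
      ∃ y₁ y₂ : L, x - b₁ = y₁ ^ l ∧ x - b₂ = y₂ ^ l}.Finite := by
  classical
  have hζ0 : ζ ≠ 0 := hζ.ne_zero (by omega)
  have hζ1 : ζ - 1 ≠ 0 := by
    intro h
    exact hζ.ne_one (by omega) (sub_eq_zero.1 h)
  have hζ2 : ζ ^ 2 ≠ 1 := hζ.pow_ne_one_of_pos_of_lt (by norm_num) (by omega)
  have hζp : 1 + ζ ≠ 0 := by
    intro h
    apply hζ2
    have h1 : ζ = -1 := by linear_combination h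
    rw [h1]
    norm_num
  have k21 : b₂ - b₁ ≠ 0 := sub_ne_zero.2 h12.symm
  set S' : Set (HeightOneSpectrum (𝓞 L)) := S ∪ {v | (adv L v).v (b₂ - b₁) ≠ 0} ∪
    {v | ¬ (adv L v).G 0 b₁} ∪ {v | ¬ (adv L v).G 0 b₂} ∪ {v | (adv L v).v (1 + ζ) ≠ 0} with hS'
  have hS'f : S'.Finite :=
    ((((hSf.union (supp_finite k21)).union (pole_finite b₁)).union (pole_finite b₂)).union
      (supp_finite hζp))
  have hU := su (L := L) S' hS'f
  set U := {x : L | x ≠ 0 ∧ 1 - x ≠ 0 ∧ ∀ v ∉ S', (adv L v).v x = 0 ∧ (adv L v).v (1 - x) = 0}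
    with hUd
  refine ((hU.image fun u : L => b₂ + (b₂ - b₁) / (((ζ + u * ζ ^ 2) / (ζ + u)) ^ l - 1)).union
    (Set.finite_singleton b₂)).subset ?_
  rintro x ⟨hx, y₁, y₂, e₁, e₂⟩
  have hS1 : ∀ v ∉ S', v ∉ S ∧ (adv L v).v (b₂ - b₁) = 0 ∧ (adv L v).G 0 b₁ ∧
      (adv L v).G 0 b₂ ∧ (adv L v).v (1 + ζ) = 0 := by
    intro v hv
    simp only [hS', Set.mem_union, Set.mem_ofPred_eq, not_or, not_not] at hv
    obtain ⟨⟨⟨⟨a1, a2⟩, a3⟩, a4⟩, a5⟩ := hv
    exact ⟨a1, a2, a3, a4, a5⟩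
  by_cases hy2 : y₂ = 0
  · right
    rw [hy2, zero_pow (by omega)] at e₂
    exact sub_eq_zero.1 e₂
  left
  have hdiff : y₁ ^ l - y₂ ^ l = b₂ - b₁ := by linear_combination e₂ - e₁
  have hf : ∀ i : ℕ, (y₁ - ζ ^ i * y₂) *
      (∑ j ∈ Finset.range l, y₁ ^ j * (ζ ^ i * y₂) ^ (l - 1 - j)) = b₂ - b₁ := by
    intro i
    rw [mul_comm, geom_sum₂_mul, mul_pow, ← pow_mul, mul_comm i l, pow_mul, hζ.pow_eq_one,
      one_pow, one_mul]
    exact hdiff
  have nz : ∀ i : ℕ, y₁ - ζ ^ i * y₂ ≠ 0 := fun i h => k21 (by rw [← hf i, h, zero_mul])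
  have hun : ∀ v ∉ S', (∀ i : ℕ, (adv L v).E 0 (y₁ - ζ ^ i * y₂)) ∧ (adv L v).E 0 ζ ∧
      (adv L v).E 0 (1 + ζ) := by
    intro v hv
    obtain ⟨a1, a2, a3, a4, a5⟩ := hS1 v hv
    have g0 := hx v a1
    have g1 : (adv L v).G 0 y₁ := G_root (n := l) (by omega) (by rw [← e₁]; exact g0.sub a3)
    have g2 : (adv L v).G 0 y₂ := G_root (n := l) (by omega) (by rw [← e₂]; exact g0.sub a4)
    have gζ : (adv L v).E 0 ζ := by
      refine ⟨hζ0, ?_⟩
      have h1 := ((E_of_ne (w := adv L v) hζ0).pow l).2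
      rw [hζ.pow_eq_one, v_one] at h1
      have h2 : (l : ℤ) ≠ 0 := by exact_mod_cast (by omega : l ≠ 0)
      rcases mul_eq_zero.1 h1.symm with h3 | h3
      · exact absurd h3 h2
      · exact h3
    refine ⟨fun i => ?_, gζ, hζp, a5⟩
    have gi : (adv L v).G 0 (ζ ^ i * y₂) := by simpa using (G_pow i gζ.G).mul g2
    refine (unit_of_mul (g1.sub gi) ?_ k21 a2 (hf i)).1
    refine G_sum _ _ fun j _ => ?_
    simpa using (G_pow j g1).mul (G_pow (l - 1 - j) gi)
  have z0 : y₁ - y₂ ≠ 0 := by simpa using nz 0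
  have z1 : y₁ - ζ * y₂ ≠ 0 := by simpa using nz 1
  have z2 : y₁ - ζ ^ 2 * y₂ ≠ 0 := nz 2
  have e1u : 1 - (-ζ * (y₁ - y₂) / (y₁ - ζ ^ 2 * y₂)) =
      (1 + ζ) * (y₁ - ζ * y₂) / (y₁ - ζ ^ 2 * y₂) := by
    field_simp
    ring
  refine ⟨-ζ * (y₁ - y₂) / (y₁ - ζ ^ 2 * y₂), ⟨?_, ?_, ?_⟩, ?_⟩
  · exact div_ne_zero (mul_ne_zero (neg_ne_zero.2 hζ0) z0) z2
  · rw [e1u]
    exact div_ne_zero (mul_ne_zero hζp z1) z2
  · intro v hv
    obtain ⟨u, uζ, up⟩ := hun v hv
    have u0 : (adv L v).E 0 (y₁ - y₂) := by simpa using u 0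
    have u1 : (adv L v).E 0 (y₁ - ζ * y₂) := by simpa using u 1
    refine ⟨?_, ?_⟩
    · have := ((uζ.neg.mul u0).div (u 2)).2
      simpa using this
    · rw [e1u]
      have := ((up.mul u1).div (u 2)).2
      simpa using this
  · obtain ⟨u, hu⟩ : ∃ u, u = -ζ * (y₁ - y₂) / (y₁ - ζ ^ 2 * y₂) := ⟨_, rfl⟩
    rw [← hu]
    have h1 : u * (y₁ - ζ ^ 2 * y₂) = -ζ * (y₁ - y₂) := by
      rw [hu]
      field_simp
    have h2 : (ζ + u) * y₁ = (ζ + u * ζ ^ 2) * y₂ := by linear_combination h1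
    have h3 : ζ + u ≠ 0 := by
      intro h
      rw [h, zero_mul] at h2
      have h4 : ζ + u * ζ ^ 2 = 0 := by
        rcases mul_eq_zero.1 h2.symm with h5 | h5
        · exact h5
        · exact absurd h5 hy2
      have h5 : ζ * (1 - ζ ^ 2) = 0 := by linear_combination h4 - h * ζ ^ 2
      rcases mul_eq_zero.1 h5 with h6 | h6
      · exact hζ0 h6
      · exact hζ2 (sub_eq_zero.1 h6).symm
    have h4 : (ζ + u * ζ ^ 2) / (ζ + u) = y₁ / y₂ := by
      rw [div_eq_div_iff h3 hy2]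
      linear_combination -h2
    show b₂ + (b₂ - b₁) / (((ζ + u * ζ ^ 2) / (ζ + u)) ^ l - 1) = x
    have hy2l : y₂ ^ l ≠ 0 := pow_ne_zero _ hy2
    have h5 : ((ζ + u * ζ ^ 2) / (ζ + u)) ^ l - 1 = (b₂ - b₁) / y₂ ^ l := by
      rw [h4, div_pow, ← hdiff]
      field_simp
    rw [h5, div_div_cancel₀ k21]
    linear_combination -e₂

end

/-- integral up to a power of `N` -/
def IntN {L : Type} [Field L] (N : ℕ) (x : L) : Prop := ∃ k : ℕ, IsIntegral ℤ ((N : L) ^ k * x)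

section
variable {L : Type} [Field L] {N : ℕ} {x y : L}

theorem IntN.map {L' : Type} [Field L'] (f : L →+* L') (h : IntN N x) : IntN N (f x) := by
  obtain ⟨k, hk⟩ := h
  refine ⟨k, ?_⟩
  have e : (N : L') ^ k * f x = f ((N : L) ^ k * x) := by
    rw [map_mul, map_pow, map_natCast]
  rw [e]
  exact map_isIntegral_int f hk

theorem IntN.G0 [NumberField L] (hN : N ≠ 0) {v : HeightOneSpectrum (𝓞 L)}
    (hv : (adv L v).v (N : L) = 0) (h : IntN N x) : (adv L v).G 0 x := by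
  obtain ⟨k, hk⟩ := h
  by_cases hx : x = 0
  · exact Or.inl hx
  right
  have hN0 : (N : L) ≠ 0 := Nat.cast_ne_zero.2 hN
  have h1 := ((E_of_ne (w := adv L v) hN0).pow k).mul (E_of_ne hx)
  rw [hv, mul_zero, zero_add] at h1
  have hne : (⟨(N : L) ^ k * x, hk⟩ : 𝓞 L) ≠ 0 := by
    intro h2
    exact h1.1 (congrArg (fun z : 𝓞 L => (z : L)) h2)
  have h2 := adv_nonneg L v (⟨(N : L) ^ k * x, hk⟩ : 𝓞 L) hne
  have h3 : algebraMap (𝓞 L) L ⟨(N : L) ^ k * x, hk⟩ = (N : L) ^ k * x := rfl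
  rw [h3, h1.2] at h2
  exact h2

end

/-- a number field containing roots of given polynomials -/
theorem exists_ext {M : Type} [Field M] [NumberField M] (s : Finset M[X])
    (hs : ∀ P ∈ s, P.natDegree ≠ 0) :
    ∃ (L : Type) (_ : Field L) (_ : NumberField L) (_ : Algebra M L),
      ∀ P ∈ s, ∃ x : L, aeval x P = 0 := by
  classical
  set f : M[X] := ∏ P ∈ s, P with hf
  have hf0 : f ≠ 0 := Finset.prod_ne_zero_iff.2 fun P hP h0 => hs P hP (by rw [h0, natDegree_zero])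
  have : NumberField (SplittingField f) := NumberField.of_module_finite M (SplittingField f)
  refine ⟨SplittingField f, inferInstance, inferInstance, inferInstance, fun P hP => ?_⟩
  have h1 : (f.map (algebraMap M (SplittingField f))).Splits := SplittingField.splits f
  have h2 : P.map (algebraMap M (SplittingField f)) ∣ f.map (algebraMap M (SplittingField f)) :=
    Polynomial.map_dvd _ (Finset.dvd_prod_of_mem _ hP)
  have h3 := h1.of_dvd (Polynomial.map_ne_zero hf0) h2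
  obtain ⟨x, hx⟩ := h3.exists_eval_eq_zero (by
    intro h4
    rw [degree_map] at h4
    exact hs P hP (natDegree_eq_of_degree_eq_some h4))
  exact ⟨x, by rwa [eval_map_algebraMap] at hx⟩

theorem root_prim {M L : Type} [Field M] [NumberField M] [Field L] [NumberField L] [Algebra M L]
    {n : ℕ} (hn : 0 < n) {ζ : L} (h : aeval ζ (cyclotomic n M) = 0) : IsPrimitiveRoot ζ n := by
  have : NeZero n := ⟨by omega⟩
  have : NeZero (n : L) := NeZero.charZero
  rw [← Polynomial.isRoot_cyclotomic_iff]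
  rw [IsRoot.def, ← map_cyclotomic n (algebraMap M L), eval_map_algebraMap]
  exact h

theorem cyc_deg {M : Type} [Field M] {n : ℕ} (hn : 0 < n) : (cyclotomic n M).natDegree ≠ 0 := by
  rw [natDegree_cyclotomic]
  exact (Nat.totient_pos.2 hn).ne'

section
variable {M : Type} [Field M] [NumberField M]

/-- **Two orders divisible by `ℓ`.** -/
theorem fin_ll (S : Set (HeightOneSpectrum (𝓞 M))) (hS : S.Finite) {N : ℕ} (hN : N ≠ 0)
    {l : ℕ} (hl : 3 ≤ l) {b₁ b₂ : M} (h12 : b₁ ≠ b₂) :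
    {x : M | IntN N x ∧ ∀ v ∉ S, (l : ℤ) ∣ (adv M v).v (x - b₁) ∧
      (l : ℤ) ∣ (adv M v).v (x - b₂)}.Finite := by
  classical
  obtain ⟨T, hT0, hT⟩ := Pool.Agent.K4H56.IF.sel (K := M) (n := l) (by omega) S hS
  have hZ : ∀ δ ∈ T ×ˢ T, {x : M | IntN N x ∧ ∃ y₁ y₂ : M, x - b₁ = δ.1 * y₁ ^ l ∧
      x - b₂ = δ.2 * y₂ ^ l}.Finite := by
    rintro ⟨δ₁, δ₂⟩ -
    obtain ⟨L, _, _, _, hL⟩ := exists_ext (M := M)
      {X ^ l - C δ₁, X ^ l - C δ₂, cyclotomic l M} (by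
        intro P hP
        simp only [Finset.mem_insert, Finset.mem_singleton] at hP
        rcases hP with rfl | rfl | rfl
        · rw [natDegree_X_pow_sub_C]; omega
        · rw [natDegree_X_pow_sub_C]; omega
        · exact cyc_deg (by omega))
    obtain ⟨ζ, hζ⟩ := hL (cyclotomic l M) (by simp)
    have hζ' : IsPrimitiveRoot ζ l := root_prim (by omega) hζ
    have hr : ∀ δ, X ^ l - C δ ∈ ({X ^ l - C δ₁, X ^ l - C δ₂, cyclotomic l M} : Finset M[X]) →
        ∃ s : L, s ^ l = algebraMap M L δ := by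
      intro δ hδ
      obtain ⟨s, hs⟩ := hL _ hδ
      refine ⟨s, ?_⟩
      rw [map_sub, map_pow, aeval_X, aeval_C] at hs
      exact sub_eq_zero.1 hs
    obtain ⟨s₁, hs₁⟩ := hr δ₁ (by simp)
    obtain ⟨s₂, hs₂⟩ := hr δ₂ (by simp)
    have hinj := (algebraMap M L).injective
    have hN0 : (N : L) ≠ 0 := Nat.cast_ne_zero.2 hN
    have hfin := two_pow (L := L) _ (supp_finite hN0) hl (hinj.ne h12) hζ'
    refine (hfin.preimage (f := algebraMap M L) hinj.injOn).subset ?_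
    rintro x ⟨hx, y₁, y₂, e₁, e₂⟩
    refine ⟨fun v hv => ?_, s₁ * algebraMap M L y₁, s₂ * algebraMap M L y₂, ?_, ?_⟩
    · simp only [Set.mem_ofPred_eq, not_not] at hv
      exact (hx.map (algebraMap M L)).G0 hN hv
    · rw [mul_pow, hs₁, ← map_sub, e₁]
      simp
    · rw [mul_pow, hs₂, ← map_sub, e₂]
      simp
  refine (((Set.toFinite {b₁, b₂}).union
    (Set.Finite.biUnion (T ×ˢ T).finite_toSet fun δ hδ => hZ δ hδ))).subset ?_
  rintro x ⟨hx, hv⟩
  by_cases hx1 : x = b₁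
  · left; rw [hx1]; simp
  by_cases hx2 : x = b₂
  · left; rw [hx2]; simp
  right
  obtain ⟨δ₁, h1, y₁, -, e₁⟩ := hT (x - b₁) (sub_ne_zero.2 hx1) fun v h => (hv v h).1
  obtain ⟨δ₂, h2, y₂, -, e₂⟩ := hT (x - b₂) (sub_ne_zero.2 hx2) fun v h => (hv v h).2
  exact Set.mem_biUnion (x := (δ₁, δ₂)) (by simp [h1, h2]) ⟨hx, y₁, y₂, e₁, e₂⟩

/-- the order of `x - β` when `x ^ m - β ^ m` is an `ℓ`-th power -/
theorem dvd_order {m l : ℕ} (hm : 1 ≤ m) {v : HeightOneSpectrum (𝓞 M)} {x y β : M}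
    (hvm : (adv M v).v (m : M) = 0) (hβ0 : β ≠ 0) (hvβ : (adv M v).v β = 0)
    (hx : (adv M v).G 0 x) (hxy : x ^ m - β ^ m = y ^ l) (hxb : x - β ≠ 0) :
    (l : ℤ) ∣ (adv M v).v (x - β) := by
  set w := adv M v with hw
  have uβ : w.E 0 β := ⟨hβ0, hvβ⟩
  have hm0 : (m : M) ≠ 0 := Nat.cast_ne_zero.2 (by omega)
  have um : w.E 0 (m : M) := ⟨hm0, hvm⟩
  have hge : w.G 0 (x - β) := hx.sub uβ.G
  rcases Nat.eq_zero_or_pos ((w.v (x - β)).toNat) with h0 | h0
  · have h1 := hge.resolve_left hxb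
    have : w.v (x - β) = 0 := by omega
    rw [this]
    exact dvd_zero _
  have h1 : w.G 1 (x - β) := Or.inr (by omega)
  obtain ⟨h, hh⟩ : ∃ h, h = ∑ j ∈ Finset.range m, x ^ j * β ^ (m - 1 - j) := ⟨_, rfl⟩
  have e1 : h * (x - β) = y ^ l := by rw [hh, geom_sum₂_mul, hxy]
  have e2 : h = (m : M) * β ^ (m - 1) +
      ∑ j ∈ Finset.range m, (x ^ j - β ^ j) * β ^ (m - 1 - j) := by
    have e3 : (m : M) * β ^ (m - 1) = ∑ j ∈ Finset.range m, β ^ j * β ^ (m - 1 - j) := by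
      rw [Finset.sum_congr rfl (g := fun _ => β ^ (m - 1))]
      · rw [Finset.sum_const, Finset.card_range, nsmul_eq_mul]
      · intro j hj
        rw [Finset.mem_range] at hj
        rw [← pow_add]
        congr 1
        omega
    rw [e3, hh, ← Finset.sum_add_distrib]
    refine Finset.sum_congr rfl fun j _ => ?_
    ring
  have g1 : w.G 1 (∑ j ∈ Finset.range m, (x ^ j - β ^ j) * β ^ (m - 1 - j)) := by
    refine G_sum _ _ fun j _ => ?_
    have e4 : (x ^ j - β ^ j) * β ^ (m - 1 - j) =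
        (x - β) * ((∑ i ∈ Finset.range j, x ^ i * β ^ (j - 1 - i)) * β ^ (m - 1 - j)) := by
      rw [← geom_sum₂_mul]
      ring
    rw [e4]
    have g2 : w.G 0 ((∑ i ∈ Finset.range j, x ^ i * β ^ (j - 1 - i)) * β ^ (m - 1 - j)) := by
      have g3 : w.G 0 (∑ i ∈ Finset.range j, x ^ i * β ^ (j - 1 - i)) := by
        refine G_sum _ _ fun i _ => ?_
        simpa using (G_pow i hx).mul (G_pow (j - 1 - i) uβ.G)
      simpa using g3.mul (G_pow (m - 1 - j) uβ.G)
    simpa using h1.mul g2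
  have u1 : w.E 0 ((m : M) * β ^ (m - 1)) := by simpa using um.mul (uβ.pow (m - 1))
  have uh : w.E 0 h := by
    rw [e2]
    exact u1.addG g1 (by norm_num)
  have hy0 : y ≠ 0 ∨ l = 0 := by
    by_contra hcon
    push Not at hcon
    obtain ⟨hy, hl⟩ := hcon
    rw [hy, zero_pow hl] at e1
    rcases mul_eq_zero.1 e1 with h5 | h5
    · exact uh.1 h5
    · exact hxb h5
  have h6 := (uh.mul (E_of_ne (w := w) hxb)).2
  rw [e1, zero_add] at h6
  rcases hy0 with hy | hl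
  · rw [((E_of_ne (w := w) hy).pow l).2] at h6
    rw [← h6]
    exact Dvd.intro _ rfl
  · rw [hl, pow_zero, v_one] at h6
    rw [← h6]
    exact dvd_zero _

end

/-- **Superelliptic equations** `x ^ m - d = y ^ ℓ`, `m ≥ 2`, `ℓ ≥ 3`, `d ≠ 0`, have finitely many
integral solutions. -/
theorem super {m l : ℕ} (hm : 2 ≤ m) (hl : 3 ≤ l) {d : ℤ} (hd : d ≠ 0) :
    {x : ℤ | ∃ y : ℤ, x ^ m - d = y ^ l}.Finite := by
  classical
  obtain ⟨L, _, _, _, hL⟩ := exists_ext (M := ℚ) {X ^ m - C (d : ℚ), cyclotomic m ℚ} (by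
    intro P hP
    simp only [Finset.mem_insert, Finset.mem_singleton] at hP
    rcases hP with rfl | rfl
    · rw [natDegree_X_pow_sub_C]; omega
    · exact cyc_deg (by omega))
  obtain ⟨ζ, hζ⟩ := hL (cyclotomic m ℚ) (by simp)
  have hζ' : IsPrimitiveRoot ζ m := root_prim (by omega) hζ
  obtain ⟨β, hβ⟩ := hL (X ^ m - C (d : ℚ)) (by simp)
  have hβm : β ^ m = (d : L) := by
    rw [map_sub, map_pow, aeval_X, aeval_C] at hβ
    have := sub_eq_zero.1 hβ
    simpa using this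
  have hdL : (d : L) ≠ 0 := by exact_mod_cast hd
  have hmL : (m : L) ≠ 0 := Nat.cast_ne_zero.2 (by omega)
  have hβ0 : β ≠ 0 := by
    rintro rfl
    rw [zero_pow (by omega)] at hβm
    exact hdL hβm.symm
  have hζ0 : ζ ≠ 0 := hζ'.ne_zero (by omega)
  have hζ1 : ζ ≠ 1 := hζ'.ne_one (by omega)
  have hb : β ≠ ζ * β := by
    intro h
    have h1 : (1 - ζ) * β = 0 := by linear_combination h
    rcases mul_eq_zero.1 h1 with h2 | h2
    · exact hζ1 (sub_eq_zero.1 h2).symm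
    · exact hβ0 h2
  have hS : ({v : HeightOneSpectrum (𝓞 L) | (adv L v).v (d : L) ≠ 0} ∪
      {v | (adv L v).v (m : L) ≠ 0}).Finite := (supp_finite hdL).union (supp_finite hmL)
  have hfin := fin_ll (M := L) _ hS (N := 1) one_ne_zero hl hb
  refine ((hfin.union (Set.toFinite {β, ζ * β})).preimage (f := fun x : ℤ => (x : L)) ?_).subset ?_
  · exact Int.cast_injective.injOn
  · rintro x ⟨y, hxy⟩
    by_cases h1 : (x : L) = β
    · right; simp [h1]
    by_cases h2 : (x : L) = ζ * β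
    · right; simp [h2]
    left
    have hxy' : (x : L) ^ m - (d : L) = (y : L) ^ l := by exact_mod_cast congrArg (fun z : ℤ => (z : L)) hxy
    refine ⟨⟨0, ?_⟩, fun v hv => ?_⟩
    · rw [pow_zero, one_mul]
      exact isIntegral_algebraMap (R := ℤ) (A := L) (x := x)
    · simp only [Set.mem_union, Set.mem_ofPred_eq, not_or, not_not] at hv
      obtain ⟨a1, a2⟩ := hv
      have gx : (adv L v).G 0 (x : L) := by
        by_cases hx0 : x = 0
        · left
          rw [hx0, Int.cast_zero]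
        right
        have h3 := adv_nonneg L v (x : 𝓞 L) (by exact_mod_cast hx0)
        simpa using h3
      have root : ∀ γ : L, γ ^ m = (d : L) → (adv L v).v γ = 0 := by
        intro γ hγ
        have hγ0 : γ ≠ 0 := by
          rintro rfl
          rw [zero_pow (by omega)] at hγ
          exact hdL hγ.symm
        have h4 := ((E_of_ne (w := adv L v) hγ0).pow m).2
        rw [hγ, a1] at h4
        have h5 : (m : ℤ) ≠ 0 := by exact_mod_cast (by omega : m ≠ 0)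
        rcases mul_eq_zero.1 h4.symm with h6 | h6
        · exact absurd h6 h5
        · exact h6
      have hζβ : (ζ * β) ^ m = (d : L) := by
        rw [mul_pow, hζ'.pow_eq_one, one_mul, hβm]
      refine ⟨?_, ?_⟩
      · exact dvd_order (by omega) a2 hβ0 (root β hβm) gx (by rw [hβm]; exact hxy')
          (sub_ne_zero.2 h1)
      · exact dvd_order (by omega) a2 (mul_ne_zero hζ0 hβ0) (root _ hζβ) gx
          (by rw [hζβ]; exact hxy') (sub_ne_zero.2 h2)

end Pool.Agent.Run7.h880
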