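import Mathlib
import Pool.Agent.Run7.h880.Pow
import Pool.Agent.Run7.h880.Lcm

/-!
Bounded prime gaps.
-/

set_option autoImplicit false

namespace Pool.Agent.Run7.h880

open Finset Nd8d74632 Filter

theorem near_finite {a b d : ℕ} (ha : 2 ≤ a) (hb : 2 ≤ b) (hd : 1 ≤ d) :
    {n : ℕ | ∃ x y : ℕ, n = x ^ a ∧ n + d = y ^ b}.Finite := by
  rcases Nat.lt_or_ge b 3 with hb3 | hb3
  · rcases Nat.lt_or_ge a 3 with ha3 | ha3
    · have ea : a = 2 := by omega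
      have eb : b = 2 := by omega
      subst ea eb
      refine (Set.finite_Iic (d ^ 2)).subset ?_
      rintro n ⟨x, y, rfl, h⟩
      rw [Set.mem_Iic]
      have h1 : x < y := by
        by_contra hcon
        have : y ^ 2 ≤ x ^ 2 := Nat.pow_le_pow_left (by omega) 2
        omega
      have h2 : (x + 1) ^ 2 ≤ y ^ 2 := Nat.pow_le_pow_left h1 2
      have h3 : x ≤ d := by nlinarith
      exact Nat.pow_le_pow_left h3 2
    · have hd0 : (d : ℤ) ≠ 0 := by exact_mod_cast (by omega : d ≠ 0)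
      refine ((super (m := b) (l := a) hb ha3 hd0).image fun y : ℤ => (y ^ b).toNat - d).subset ?_
      rintro n ⟨x, y, h1, h2⟩
      refine ⟨(y : ℤ), ⟨(x : ℤ), ?_⟩, ?_⟩
      · have : ((x ^ a + d : ℕ) : ℤ) = ((y ^ b : ℕ) : ℤ) := by rw [← h1, h2]
        push_cast at this
        linarith
      · show ((y : ℤ) ^ b).toNat - d = n
        have : ((y : ℤ) ^ b).toNat = y ^ b := by
          rw [← Nat.cast_pow, Int.toNat_natCast]
        rw [this, ← h2]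
        omega
  · have hd0 : (-(d : ℤ)) ≠ 0 := by
      rw [neg_ne_zero]
      exact_mod_cast (by omega : d ≠ 0)
    refine ((super (m := a) (l := b) ha hb3 hd0).image fun x : ℤ => (x ^ a).toNat).subset ?_
    rintro n ⟨x, y, h1, h2⟩
    refine ⟨(x : ℤ), ⟨(y : ℤ), ?_⟩, ?_⟩
    · have : ((x ^ a + d : ℕ) : ℤ) = ((y ^ b : ℕ) : ℤ) := by rw [← h1, h2]
      push_cast at this
      linarith
    · show ((x : ℤ) ^ a).toNat = n
      rw [← Nat.cast_pow, Int.toNat_natCast, h1]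

/-- two large perfect powers with bounded exponents are not close to each other -/
theorem near (H B : ℕ) : ∃ N₀ : ℕ, ∀ n₁ n₂ : ℕ, N₀ ≤ n₁ → n₁ < n₂ → n₂ ≤ n₁ + H →
    (∃ x a : ℕ, 2 ≤ a ∧ a ≤ B ∧ n₁ = x ^ a) → (∃ y b : ℕ, 2 ≤ b ∧ b ≤ B ∧ n₂ = y ^ b) →
    False := by
  have hfin : (⋃ t ∈ ((Icc 2 B ×ˢ Icc 2 B) ×ˢ Icc 1 H : Finset ((ℕ × ℕ) × ℕ)),
      {n : ℕ | ∃ x y : ℕ, n = x ^ t.1.1 ∧ n + t.2 = y ^ t.1.2}).Finite := by
    refine Set.Finite.biUnion (Finset.finite_toSet _) ?_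
    rintro ⟨⟨a, b⟩, d⟩ ht
    simp only [Finset.coe_product, Set.mem_prod, Finset.coe_Icc, Set.mem_Icc] at ht
    exact near_finite ht.1.1.1 ht.1.2.1 ht.2.1
  obtain ⟨M, hM⟩ := hfin.bddAbove
  refine ⟨M + 1, ?_⟩
  rintro n₁ n₂ h0 h1 h2 ⟨x, a, ha1, ha2, hx⟩ ⟨y, b, hb1, hb2, hy⟩
  have : n₁ ≤ M := by
    apply hM
    simp only [Set.mem_iUnion]
    refine ⟨⟨⟨a, b⟩, n₂ - n₁⟩, ?_, x, y, hx, ?_⟩
    · simp only [Finset.mem_product, Finset.mem_Icc]
      exact ⟨⟨⟨ha1, ha2⟩, ⟨hb1, hb2⟩⟩, by omega, by omega⟩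
    · show n₁ + (n₂ - n₁) = y ^ b
      rw [← hy]
      omega
  omega

theorem prod_le_aux (s : Finset ℕ) (f : ℕ → ℝ) (A C : ℝ) (hC : 1 ≤ C)
    (h0 : ∀ j ∈ s, 0 ≤ f j) (hA : ∀ j ∈ s, f j ≤ A) (hA1 : 1 ≤ A)
    (hp : ∀ i ∈ s, ∀ j ∈ s, i ≠ j → f i ≤ C ∨ f j ≤ C) : ∏ j ∈ s, f j ≤ A * C ^ s.card := by
  have hC0 : 0 ≤ C := by linarith
  by_cases h : ∃ j₀ ∈ s, C < f j₀
  · obtain ⟨j₀, hj₀, hj⟩ := h
    rw [← Finset.mul_prod_erase s f hj₀]
    have h1 : ∏ j ∈ s.erase j₀, f j ≤ C ^ (s.erase j₀).card := by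
      rw [← Finset.prod_const]
      refine Finset.prod_le_prod (fun i hi => h0 i (Finset.mem_of_mem_erase hi)) fun i hi => ?_
      rcases hp i (Finset.mem_of_mem_erase hi) j₀ hj₀ (Finset.ne_of_mem_erase hi) with h2 | h2
      · exact h2
      · linarith
    have h2 : C ^ (s.erase j₀).card ≤ C ^ s.card :=
      pow_le_pow_right₀ hC (Finset.card_le_card (Finset.erase_subset _ _))
    exact mul_le_mul (hA j₀ hj₀) (h1.trans h2)
      (Finset.prod_nonneg fun i hi => h0 i (Finset.mem_of_mem_erase hi)) (by linarith)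
  · push Not at h
    have h1 : ∏ j ∈ s, f j ≤ C ^ s.card := by
      rw [← Finset.prod_const]
      exact Finset.prod_le_prod h0 h
    have h2 : 0 ≤ C ^ s.card := pow_nonneg hC0 _
    nlinarith

/-- a prime power strictly between consecutive primes is a proper power of its prime -/
theorem exp_ge {k j : ℕ} (h1 : Nat.nth Nat.Prime k < j) (h2 : j < Nat.nth Nat.Prime (k + 1))
    (hj : IsPrimePow j) : ∃ e : ℕ, 2 ≤ e ∧ j = j.minFac ^ e := by
  have h3 := hj.minFac_pow_factorization_eq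
  refine ⟨j.factorization j.minFac, ?_, h3.symm⟩
  by_contra hcon
  have hp : ¬ j.Prime := by
    intro hp
    have h4 := Nat.count_strict_mono (p := Nat.Prime) (Nat.prime_nth_prime k) h1
    rw [Nat.count_nth_of_infinite Nat.infinite_setOfPred_prime] at h4
    have h5 := Nat.count_strict_mono (p := Nat.Prime) hp h2
    rw [Nat.count_nth_of_infinite Nat.infinite_setOfPred_prime] at h5
    omega
  have h5 : j.factorization j.minFac = 0 ∨ j.factorization j.minFac = 1 := by omega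
  rcases h5 with h5 | h5
  · rw [h5, pow_zero] at h3
    have := hj.one_lt
    omega
  · rw [h5, pow_one] at h3
    apply hp
    rw [← h3]
    exact Nat.minFac_prime hj.one_lt.ne'

theorem next_le (k : ℕ) : Nat.nth Nat.Prime (k + 1) ≤ 2 * Nat.nth Nat.Prime k := by
  have hp := Nat.prime_nth_prime k
  obtain ⟨r, hr, h1, h2⟩ := Nat.exists_prime_lt_and_le_two_mul (Nat.nth Nat.Prime k) hp.ne_zero
  refine le_trans ?_ h2
  by_contra hcon
  have h4 := Nat.count_strict_mono (p := Nat.Prime) hp h1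
  rw [Nat.count_nth_of_infinite Nat.infinite_setOfPred_prime] at h4
  have h5 := Nat.count_strict_mono (p := Nat.Prime) hr (not_le.1 hcon)
  rw [Nat.count_nth_of_infinite Nat.infinite_setOfPred_prime] at h5
  omega

/-- the product over a gap in which at most one prime power has an exponent `≤ B` -/
theorem gap_bound (k H B : ℕ) (hB : 1 ≤ B)
    (hH : ∀ m n : ℕ, Nat.nth Nat.Prime k < m → m ≤ n → n < Nat.nth Nat.Prime (k + 1) →
      IsPrimePow m → IsPrimePow n → n ≤ m + H)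
    (huniq : ∀ n₁ n₂ : ℕ, Nat.nth Nat.Prime k < n₁ → n₁ < n₂ → n₂ < Nat.nth Nat.Prime (k + 1) →
      IsPrimePow n₁ → IsPrimePow n₂ →
      (∃ x a : ℕ, 2 ≤ a ∧ a ≤ B ∧ n₁ = x ^ a) → (∃ y b : ℕ, 2 ≤ b ∧ b ≤ B ∧ n₂ = y ^ b) → False) :
    (lcm_upto (Nat.nth Nat.Prime (k + 1) - 1) : ℝ) ≤
      (2 * (Nat.nth Nat.Prime k : ℝ)) ^ ((1 : ℝ) / 2 + ((H : ℝ) + 1) / B) *
        lcm_upto (Nat.nth Nat.Prime k) := by
  have hq2 := next_le k
  obtain ⟨p, hp⟩ : ∃ p, p = Nat.nth Nat.Prime k := ⟨_, rfl⟩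
  obtain ⟨q, hq⟩ : ∃ q, q = Nat.nth Nat.Prime (k + 1) := ⟨_, rfl⟩
  have hpq : p < q := by
    rw [hp, hq]
    exact Nat.nth_strictMono Nat.infinite_setOfPred_prime (Nat.lt_succ_self k)
  have hex : ∀ j, p < j → j < q → IsPrimePow j → ∃ e : ℕ, 2 ≤ e ∧ j = j.minFac ^ e := by
    rw [hp, hq]
    exact fun j => exp_ge
  rw [← hp, ← hq] at hH huniq hq2
  rw [← hp, ← hq]
  have h1 := lcm_gap_le p q hpq
  obtain ⟨Y, hY⟩ : ∃ Y : ℝ, Y = 2 * (p : ℝ) := ⟨_, rfl⟩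
  have hp1 : 1 ≤ p := by
    rw [hp]
    exact (Nat.prime_nth_prime k).one_lt.le
  have hp1R : (1 : ℝ) ≤ p := by exact_mod_cast hp1
  have hY1 : 1 ≤ Y := by
    rw [hY]
    linarith
  have hY0 : 0 ≤ Y := by linarith
  have hBR : (0 : ℝ) < B := by exact_mod_cast hB
  have hroot : ∀ (j e : ℕ), 1 ≤ e → j ≤ 2 * p → ∀ r : ℕ, r ^ e ≤ j → (r : ℝ) ≤ Y ^ ((1 : ℝ) / e) := by
    intro j e he hj r hr
    have he0 : (0 : ℝ) < e := by exact_mod_cast he
    have h2 : ((r : ℝ) ^ e) ≤ Y := by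
      rw [hY]
      exact_mod_cast hr.trans hj
    have h3 : (r : ℝ) = ((r : ℝ) ^ e) ^ ((1 : ℝ) / e) := by
      rw [← Real.rpow_natCast, ← Real.rpow_mul (Nat.cast_nonneg r), mul_one_div_cancel he0.ne',
        Real.rpow_one]
    rw [h3]
    exact Real.rpow_le_rpow (by positivity) h2 (by positivity)
  have hmem : ∀ j ∈ (Ioo p q).filter IsPrimePow, p < j ∧ j < q ∧ IsPrimePow j := by
    intro j hj
    rw [mem_filter, mem_Ioo] at hj
    exact ⟨hj.1.1, hj.1.2, hj.2⟩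
  have hprod : ((∏ j ∈ (Ioo p q).filter IsPrimePow, j.minFac : ℕ) : ℝ) ≤
      Y ^ ((1 : ℝ) / 2) * (Y ^ ((1 : ℝ) / B)) ^ ((Ioo p q).filter IsPrimePow).card := by
    rw [Nat.cast_prod]
    refine prod_le_aux _ _ _ _ (Real.one_le_rpow hY1 (by positivity)) (fun j _ => Nat.cast_nonneg _)
      ?_ (Real.one_le_rpow hY1 (by norm_num)) ?_
    · intro j hj
      obtain ⟨a1, a2, a3⟩ := hmem j hj
      obtain ⟨e, he, hje⟩ := hex j a1 a2 a3
      have h4 := hroot j 2 (by norm_num) (by omega) j.minFac (by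
        conv_rhs => rw [hje]
        exact Nat.pow_le_pow_right (Nat.minFac_pos j) he)
      exact_mod_cast h4
    · intro i hi j hj hij
      by_contra hcon
      push Not at hcon
      have key : ∀ j ∈ (Ioo p q).filter IsPrimePow, Y ^ ((1 : ℝ) / B) < (j.minFac : ℝ) →
          ∃ x a : ℕ, 2 ≤ a ∧ a ≤ B ∧ j = x ^ a := by
        intro j hj hlt
        obtain ⟨a1, a2, a3⟩ := hmem j hj
        obtain ⟨e, he, hje⟩ := hex j a1 a2 a3
        refine ⟨j.minFac, e, he, ?_, hje⟩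
        by_contra hBe
        have h4 := hroot j B hB (by omega) j.minFac (by
          conv_rhs => rw [hje]
          exact Nat.pow_le_pow_right (Nat.minFac_pos j) (by omega))
        linarith
      obtain ⟨a1, a2, a3⟩ := hmem i hi
      obtain ⟨b1, b2, b3⟩ := hmem j hj
      rcases lt_or_gt_of_ne hij with h | h
      · exact huniq i j a1 h b2 a3 b3 (key i hi hcon.1) (key j hj hcon.2)
      · exact huniq j i b1 h a2 b3 a3 (key j hj hcon.2) (key i hi hcon.1)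
  have hcard : ((Ioo p q).filter IsPrimePow).card ≤ H + 1 := by
    rcases Finset.eq_empty_or_nonempty ((Ioo p q).filter IsPrimePow) with h0 | hne
    · rw [h0, Finset.card_empty]
      omega
    · obtain ⟨m, hm, hmin⟩ := Finset.exists_min_image _ (fun j : ℕ => j) hne
      obtain ⟨a1, a2, a3⟩ := hmem m hm
      have hsub : (Ioo p q).filter IsPrimePow ⊆ Icc m (m + H) := by
        intro j hj
        obtain ⟨b1, b2, b3⟩ := hmem j hj
        rw [mem_Icc]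
        exact ⟨hmin j hj, hH m j a1 (hmin j hj) b2 a3 b3⟩
      refine (Finset.card_le_card hsub).trans ?_
      rw [Nat.card_Icc]
      omega
  have hprod2 : ((∏ j ∈ (Ioo p q).filter IsPrimePow, j.minFac : ℕ) : ℝ) ≤
      Y ^ ((1 : ℝ) / 2 + ((H : ℝ) + 1) / B) := by
    refine hprod.trans ?_
    rw [← Real.rpow_natCast, ← Real.rpow_mul hY0, ← Real.rpow_add (by linarith)]
    refine Real.rpow_le_rpow_of_exponent_le hY1 ?_
    have : (((Ioo p q).filter IsPrimePow).card : ℝ) ≤ (H : ℝ) + 1 := by exact_mod_cast hcard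
    have h5 : (1 : ℝ) / B * (((Ioo p q).filter IsPrimePow).card : ℝ) ≤ ((H : ℝ) + 1) / B := by
      rw [one_div, div_eq_inv_mul]
      exact mul_le_mul_of_nonneg_left this (by positivity)
    linarith
  have h6 : (lcm_upto (q - 1) : ℝ) ≤ (lcm_upto p : ℝ) *
      ((∏ j ∈ (Ioo p q).filter IsPrimePow, j.minFac : ℕ) : ℝ) := by exact_mod_cast h1
  rw [hY] at hprod2
  calc (lcm_upto (q - 1) : ℝ) ≤ (lcm_upto p : ℝ) *
      ((∏ j ∈ (Ioo p q).filter IsPrimePow, j.minFac : ℕ) : ℝ) := h6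
    _ ≤ (lcm_upto p : ℝ) * (2 * (p : ℝ)) ^ ((1 : ℝ) / 2 + ((H : ℝ) + 1) / B) :=
        mul_le_mul_of_nonneg_left hprod2 (Nat.cast_nonneg _)
    _ = _ := mul_comm _ _

/-- If the prime powers between `p_k` and `p_{k+1}` lie in a window of bounded length, then
`lcm (1, ..., p_{k+1} - 1) ≤ p_k ^ (1 / 2 + ε) lcm (1, ..., p_k)`, `k` large. -/
theorem bounded_window (H : ℕ) (ε : ℝ) (hε : 0 < ε) : ∀ᶠ k : ℕ in atTop,
    (∀ m n : ℕ, Nat.nth Nat.Prime k < m → m ≤ n → n < Nat.nth Nat.Prime (k + 1) →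
      IsPrimePow m → IsPrimePow n → n ≤ m + H) →
    (lcm_upto (Nat.nth Nat.Prime (k + 1) - 1) : ℝ) ≤
      (Nat.nth Nat.Prime k : ℝ) ^ (1 / 2 + ε) * lcm_upto (Nat.nth Nat.Prime k) := by
  obtain ⟨B, hB⟩ := exists_nat_gt (2 * ((H : ℝ) + 1) / ε)
  have hB0 : (0 : ℝ) < B := lt_of_le_of_lt (by positivity) hB
  have hB1 : 1 ≤ B := by exact_mod_cast hB0
  have hHB : ((H : ℝ) + 1) / B ≤ ε / 2 := by
    rw [div_lt_iff₀ hε] at hB
    rw [div_le_iff₀ hB0]
    nlinarith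
  obtain ⟨N₀, hN₀⟩ := near H B
  have ht : Tendsto (fun k : ℕ => (Nat.nth Nat.Prime k : ℝ)) atTop atTop :=
    tendsto_natCast_atTop_atTop.comp
      (Nat.nth_strictMono Nat.infinite_setOfPred_prime).tendsto_atTop
  have ht2 : Tendsto (fun k : ℕ => (Nat.nth Nat.Prime k : ℝ) ^ (ε / 2)) atTop atTop :=
    (tendsto_rpow_atTop (by positivity)).comp ht
  filter_upwards [ht.eventually_ge_atTop (N₀ : ℝ), ht.eventually_ge_atTop 1,
    ht2.eventually_ge_atTop ((2 : ℝ) ^ ((1 : ℝ) / 2 + ε / 2))] with k h1 h3 h4 hgap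
  have hb := gap_bound k H B hB1 hgap (by
    intro n₁ n₂ a1 a2 a3 b1 b2 a4 a5
    have a6 : N₀ ≤ Nat.nth Nat.Prime k := by exact_mod_cast h1
    exact hN₀ n₁ n₂ (by omega) a2 (hgap n₁ n₂ a1 a2.le a3 b1 b2) a4 a5)
  refine hb.trans (mul_le_mul_of_nonneg_right ?_ (Nat.cast_nonneg _))
  obtain ⟨P, hP⟩ : ∃ P : ℝ, P = (Nat.nth Nat.Prime k : ℝ) := ⟨_, rfl⟩
  rw [← hP] at h3 h4
  rw [← hP]
  have hP0 : 0 < P := by linarith
  calc (2 * P) ^ ((1 : ℝ) / 2 + ((H : ℝ) + 1) / B) ≤ (2 * P) ^ ((1 : ℝ) / 2 + ε / 2) :=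
        Real.rpow_le_rpow_of_exponent_le (by linarith) (by linarith)
    _ = (2 : ℝ) ^ ((1 : ℝ) / 2 + ε / 2) * P ^ ((1 : ℝ) / 2 + ε / 2) :=
        Real.mul_rpow (by norm_num) hP0.le
    _ ≤ P ^ (ε / 2) * P ^ ((1 : ℝ) / 2 + ε / 2) :=
        mul_le_mul_of_nonneg_right h4 (by positivity)
    _ = P ^ (1 / 2 + ε) := by
        rw [← Real.rpow_add hP0]
        congr 1
        ring

end Pool.Agent.Run7.h880
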