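import Mathlib
import Pool.Agent.Run7.h880.Field
import Pool.Agent.Run7.h880.IdealCnt2

/-!
The number of the solutions of `x ^ a - d = y ^ l`, with the better bound for the number of ideals.
-/

set_option autoImplicit false

namespace Pool.Agent.Run7.h880

open NumberField Module Ideal

/-- all solutions -/
theorem classC' {K : Type} [Field K] [NumberField K] {a : ℕ} {α : 𝓞 K} {D : ℕ}
    (hK : finrank ℚ K = a) (ha : 2 ≤ a) (hD : 1 ≤ D)
    (hαD : ∀ σ : K →ₐ[ℚ] ℂ, ‖σ (α : K)‖ ≤ D)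
    (hsep : ∀ σ τ : K →ₐ[ℚ] ℂ, σ (α : K) = τ (α : K) → σ = τ) {l : ℕ} (hl : 3 ≤ l) (X : ℕ)
    (S : Finset ℕ) (hS : ∀ x ∈ S, x ≤ X ∧ 8 * (32 * D * (a * D) ^ 2) ^ 3 ≤ x)
    (hdat : ∀ x ∈ S, ∃ J β, Dat K α a l ((a * D) ^ a) x J β) :
    S.card ≤ (a * D) ^ (3 * a) * (l ^ (2 * a) * (Nat.log 2 X + 1)) := by
  classical
  choose! J β hβ using hdat
  refine (Finset.card_le_mul_card_image (f := J) S
    (l ^ a * (l ^ a * (Nat.log 2 X + 1))) ?_).trans ?_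
  · intro I _
    refine classB hK ha hD hαD hsep hl X _ (fun x hx => hS x (Finset.mem_filter.1 hx).1) I β ?_
    intro x hx
    obtain ⟨hxS, hfx⟩ := Finset.mem_filter.1 hx
    have := hβ x hxS
    rwa [hfx] at this
  · rw [mul_comm]
    have h1 := card_ideals_le' K ((a * D) ^ a) (S.image J) (by
      intro I hI
      obtain ⟨x, hx, rfl⟩ := Finset.mem_image.1 hI
      exact ⟨(hβ x hx).2.1, (hβ x hx).2.2.1⟩)
    rw [hK] at h1
    have h2 : 2 ^ a * ((a * D) ^ a) ^ 2 ≤ (a * D) ^ (3 * a) := by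
      calc 2 ^ a * ((a * D) ^ a) ^ 2 ≤ (a * D) ^ a * ((a * D) ^ a) ^ 2 := by
            refine Nat.mul_le_mul_right _ (Nat.pow_le_pow_left ?_ _)
            calc 2 = 2 * 1 := rfl
              _ ≤ a * D := Nat.mul_le_mul ha hD
        _ = (a * D) ^ (3 * a) := by
            rw [← pow_mul, ← pow_add]
            congr 1
            ring
    have h3 : l ^ a * (l ^ a * (Nat.log 2 X + 1)) = l ^ (2 * a) * (Nat.log 2 X + 1) := by
      rw [two_mul, pow_add]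
      ring
    rw [h3]
    exact Nat.mul_le_mul_right _ (h1.trans h2)

/-- The number of the large solutions of `x ^ a - d = y ^ l`. -/
theorem count_adl' {a : ℕ} (ha : a.Prime) {d : ℤ} (hd : d ≠ 0) (hdp : ∀ c : ℤ, c ^ a ≠ d) {l : ℕ}
    (hl : 3 ≤ l) (X : ℕ) (S : Finset ℕ)
    (hS : ∀ x ∈ S, x ≤ X ∧ 8 * (32 * d.natAbs * (a * d.natAbs) ^ 2) ^ 3 ≤ x ∧
      ∃ y : ℤ, (x : ℤ) ^ a - d = y ^ l ∧ IsCoprime y (a * d)) :
    S.card ≤ (a * d.natAbs) ^ (3 * a) * (l ^ (2 * a) * (Nat.log 2 X + 1)) := by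
  classical
  obtain ⟨K, _, _, α, hK, hα, hsep, hli⟩ := exists_field ha hdp
  obtain ⟨D, hD⟩ : ∃ D, D = d.natAbs := ⟨_, rfl⟩
  rw [← hD] at hS ⊢
  have hD1 : 1 ≤ D := by
    rw [hD]
    exact Int.natAbs_pos.2 hd
  have hD1R : (1 : ℝ) ≤ D := by exact_mod_cast hD1
  have hpow : ∀ σ : K →ₐ[ℚ] ℂ, ‖σ (α : K)‖ ^ a = D := by
    intro σ
    have h1 : ((α : K)) ^ a = (d : K) := by
      have := congrArg (algebraMap (𝓞 K) K) hα
      rw [map_pow, map_intCast] at this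
      exact this
    have h2 := congrArg σ h1
    rw [map_pow, map_intCast] at h2
    rw [← norm_pow, h2, Complex.norm_intCast, ← Int.cast_abs, Int.abs_eq_natAbs, ← hD,
      Int.cast_natCast]
  have hge1 : ∀ σ : K →ₐ[ℚ] ℂ, 1 ≤ ‖σ (α : K)‖ := by
    intro σ
    by_contra hcon
    push Not at hcon
    have := pow_lt_one₀ (norm_nonneg _) hcon ha.ne_zero
    rw [hpow σ] at this
    linarith
  have hαD : ∀ σ : K →ₐ[ℚ] ℂ, ∀ i ≤ a, ‖σ (α : K)‖ ^ i ≤ D := by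
    intro σ i hi
    rw [← hpow σ]
    exact pow_le_pow_right₀ (hge1 σ) hi
  have hαD1 : ∀ σ : K →ₐ[ℚ] ℂ, ‖σ (α : K)‖ ≤ D := by
    intro σ
    have := hαD σ 1 ha.one_lt.le
    rwa [pow_one] at this
  have haD : 1 ≤ a * D := Nat.mul_pos ha.pos hD1
  refine classC' hK ha.two_le hD1 hαD1 hsep hl X S (fun x hx => ⟨(hS x hx).1, (hS x hx).2.1⟩) ?_
  intro x hx
  obtain ⟨h1, h2, y, h3, h4⟩ := hS x hx
  have hDx : D < x := by
    have e1 : D ≤ 32 * D * (a * D) ^ 2 := by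
      calc D = D * 1 := (mul_one D).symm
        _ ≤ (32 * D) * (a * D) ^ 2 := Nat.mul_le_mul (by omega) (Nat.one_le_pow _ _ haD)
    have e2 : 32 * D * (a * D) ^ 2 ≤ (32 * D * (a * D) ^ 2) ^ 3 := Nat.le_self_pow (by norm_num) _
    omega
  refine exists_dat hK hα hαD hli (by omega) h3 h4 hDx.le ?_
  intro h0
  obtain ⟨σ⟩ : Nonempty (K →ₐ[ℚ] ℂ) := by
    rw [← Fintype.card_pos_iff, AlgHom.card ℚ K ℂ]
    exact finrank_pos
  refine sub_ne hαD1 hDx σ ?_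
  have e0 := congrArg (algebraMap (𝓞 K) K) h0
  rw [map_sub, map_natCast, map_zero] at e0
  have e1 := congrArg σ e0
  rw [map_sub, map_natCast, map_zero] at e1
  exact e1

end Pool.Agent.Run7.h880
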