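import Mathlib
import Pool.Agent.Run7.h880.Field
import Pool.Agent.Run7.h880.Bdd

/-!
The number of short gaps with two prime powers.
-/

set_option autoImplicit false

namespace Pool.Agent.Run7.h880

open Finset

/-- the case in which `d` is a perfect `a`-th power -/
theorem perfect {a l x y : ℕ} {c d : ℤ} (ha : 2 ≤ a) (hc : c ^ a = d)
    (hxy : (x : ℤ) ^ a - d = (y : ℤ) ^ l) (hy : y.Prime) (hyad : ¬ (y : ℤ) ∣ a * d) :
    x ≤ c.natAbs + 1 := by
  by_contra hcon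
  push Not at hcon
  obtain ⟨h, hh⟩ : ∃ h : ℤ, h = ∑ j ∈ Finset.range a, (x : ℤ) ^ j * c ^ (a - 1 - j) := ⟨_, rfl⟩
  have hyp : Prime (y : ℤ) := Nat.prime_iff_prime_int.1 hy
  have e1 : ((x : ℤ) - c) * h = (y : ℤ) ^ l := by
    rw [mul_comm, hh, geom_sum₂_mul, hc, hxy]
  have hcx : 2 ≤ (x : ℤ) - |c| := by
    have h1 : ((c.natAbs : ℕ) : ℤ) = |c| := Int.natCast_natAbs c
    have h2 : (c.natAbs : ℤ) + 1 < x := by exact_mod_cast hcon
    rw [h1] at h2
    omega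
  have hxc2 : 2 ≤ (x : ℤ) - c := by
    have := le_abs_self c
    omega
  -- `x - c` is a power of `y`
  have hdvd : ((x : ℤ) - c) ∣ (y : ℤ) ^ l := Dvd.intro _ e1
  obtain ⟨i, hi, hass⟩ := (dvd_prime_pow hyp l).1 hdvd
  have hi0 : i ≠ 0 := by
    rintro rfl
    rw [pow_zero] at hass
    have := Int.isUnit_iff.1 (associated_one_iff_isUnit.1 hass)
    omega
  have hydvd : (y : ℤ) ∣ (x : ℤ) - c := (dvd_pow_self _ hi0).trans hass.symm.dvd
  -- the cofactor
  have e2 : ((x : ℤ) - c) ∣ h - (a : ℤ) * c ^ (a - 1) := by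
    have e3 : (a : ℤ) * c ^ (a - 1) = ∑ j ∈ Finset.range a, c ^ j * c ^ (a - 1 - j) := by
      rw [Finset.sum_congr rfl (g := fun _ => c ^ (a - 1))]
      · rw [Finset.sum_const, Finset.card_range, nsmul_eq_mul]
      · intro j hj
        rw [Finset.mem_range] at hj
        rw [← pow_add]
        congr 1
        omega
    rw [hh, e3, ← Finset.sum_sub_distrib]
    refine Finset.dvd_sum fun j _ => ?_
    rw [← sub_mul]
    exact Dvd.dvd.mul_right (sub_dvd_pow_sub_pow _ _ _) _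
  have hyh : ¬ (y : ℤ) ∣ h := by
    intro hyh
    have h1 : (y : ℤ) ∣ (a : ℤ) * c ^ (a - 1) := by
      have h2 := dvd_sub hyh (hydvd.trans e2)
      rwa [sub_sub_cancel] at h2
    apply hyad
    rw [← hc]
    obtain ⟨a', rfl⟩ : ∃ a', a = a' + 1 := ⟨a - 1, by omega⟩
    rw [Nat.add_sub_cancel] at h1
    rw [pow_succ, ← mul_assoc]
    exact Dvd.dvd.mul_right h1 _
  have hhd : h ∣ (y : ℤ) ^ l := Dvd.intro_left _ e1
  obtain ⟨j, hj, hass2⟩ := (dvd_prime_pow hyp l).1 hhd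
  have hj0 : j = 0 := by
    by_contra hj0
    exact hyh ((dvd_pow_self _ hj0).trans hass2.symm.dvd)
  rw [hj0, pow_zero] at hass2
  have hunit := Int.isUnit_iff.1 (associated_one_iff_isUnit.1 hass2)
  have habs : |h| = 1 := by
    rcases hunit with h1 | h1 <;> rw [h1] <;> norm_num
  have e4 : |(x : ℤ) ^ a - c ^ a| = |(x : ℤ) - c| := by
    rw [hc, hxy, ← e1, abs_mul, habs, mul_one]
  -- size
  have hc0 : 0 ≤ |c| := abs_nonneg c
  have hx0 : (0 : ℤ) ≤ x := Int.natCast_nonneg x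
  have e5 : (x : ℤ) ^ a - |c| ^ a ≤ |(x : ℤ) ^ a - c ^ a| := by
    have h1 : c ^ a ≤ |c| ^ a := by
      rw [← abs_pow]
      exact le_abs_self _
    exact (sub_le_sub_left h1 _).trans (le_abs_self _)
  have e6 : (x : ℤ) ^ 2 - |c| ^ 2 ≤ (x : ℤ) ^ a - |c| ^ a := by
    obtain ⟨b, rfl⟩ : ∃ b, a = b + 2 := ⟨a - 2, by omega⟩
    have h1 : |c| ^ b ≤ (x : ℤ) ^ b := pow_le_pow_left₀ hc0 (by omega) _
    have h2 : (1 : ℤ) ≤ (x : ℤ) ^ b := one_le_pow₀ (by omega)
    have h3 : |c| ^ 2 ≤ (x : ℤ) ^ 2 := pow_le_pow_left₀ hc0 (by omega) _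
    have h4 : (0 : ℤ) ≤ |c| ^ 2 := by positivity
    rw [pow_add, pow_add]
    nlinarith
  have e7 : |(x : ℤ) - c| ≤ x + |c| := by
    refine (abs_sub _ _).trans ?_
    rw [abs_of_nonneg hx0]
  have e8 : (x : ℤ) ^ 2 - |c| ^ 2 = (x - |c|) * (x + |c|) := by ring
  rw [e8] at e6
  nlinarith

/-- the threshold for `x` -/
def x0 (H T : ℕ) : ℕ := 8 * (32 * H * (T * H) ^ 2) ^ 3 + H + 2

open Classical in
/-- the large solutions -/
noncomputable def SS (X a l : ℕ) (d : ℤ) : Finset ℕ :=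
  (range (2 * X + 1)).filter fun x => (∀ c : ℤ, c ^ a ≠ d) ∧ d ≠ 0 ∧ 3 ≤ l ∧
    8 * (32 * d.natAbs * (a * d.natAbs) ^ 2) ^ 3 ≤ x ∧
      ∃ y : ℤ, (x : ℤ) ^ a - d = y ^ l ∧ IsCoprime y (a * d)

open Classical in
/-- the numbers which mark the exceptional gaps -/
noncomputable def NN (X H T : ℕ) : Finset ℕ :=
  range (H ^ 2 + 1) ∪
  (range (T * H + 1) ×ˢ range (Nat.log 2 X + 2)).image (fun t => t.1 ^ t.2) ∪
  (range (x0 H T) ×ˢ range (T + 1)).image (fun t => t.1 ^ t.2) ∪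
  (((range (T + 1)).filter Nat.Prime ×ˢ Icc (-(H : ℤ)) H) ×ˢ range (Nat.log 2 X + 2)).biUnion
    (fun t => (SS X t.1.1 t.2 t.1.2).image fun x => x ^ t.1.1)

theorem key_case {X H T p P' a l x y : ℕ} (hP' : P' ≤ 2 * X) (hg1 : x ^ a ≤ y ^ l + H)
    (hg2 : y ^ l ≤ x ^ a + H) (ha : a.Prime) (haT : a ≤ T) (hl : 3 ≤ l) (hy : y.Prime) (hne : x ^ a ≠ y ^ l)
    (h1 : p < x ^ a) (h2 : x ^ a < P') (h3 : p < y ^ l) (h4 : y ^ l < P') :
    ∃ N ∈ NN X H T, p < N ∧ N < P' := by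
  classical
  obtain ⟨d, hd⟩ : ∃ d : ℤ, d = (x : ℤ) ^ a - (y : ℤ) ^ l := ⟨_, rfl⟩
  have hd0 : d ≠ 0 := by
    intro h0
    rw [h0] at hd
    apply hne
    have : (x : ℤ) ^ a = (y : ℤ) ^ l := by linarith
    exact_mod_cast this
  have hdH : |d| ≤ H := by
    have e1 : ((x ^ a : ℕ) : ℤ) = (x : ℤ) ^ a := by push_cast; ring
    have e2 : ((y ^ l : ℕ) : ℤ) = (y : ℤ) ^ l := by push_cast; ring
    rw [hd, ← e1, ← e2, abs_le]
    constructor <;> omega
  have hdn : d.natAbs ≤ H := by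
    rw [Int.abs_eq_natAbs] at hdH
    exact_mod_cast hdH
  have hdn1 : 1 ≤ d.natAbs := Int.natAbs_pos.2 hd0
  have hX0 : X ≠ 0 := by omega
  have hlL : l ≤ Nat.log 2 X + 1 := by
    have e1 : 2 ^ l ≤ 2 * X := by
      calc 2 ^ l ≤ y ^ l := Nat.pow_le_pow_left hy.two_le _
        _ ≤ 2 * X := by omega
    have e2 := Nat.le_log_of_pow_le (by norm_num) e1
    rw [mul_comm, Nat.log_mul_base (by norm_num) hX0] at e2
    exact e2
  have hyp : Prime (y : ℤ) := Nat.prime_iff_prime_int.1 hy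
  by_cases hyad : (y : ℤ) ∣ a * d
  · refine ⟨y ^ l, ?_, h3, h4⟩
    have e1 : y ∣ a * d.natAbs := by
      have := Int.natAbs_dvd_natAbs.2 hyad
      rwa [Int.natAbs_mul, Int.natAbs_natCast, Int.natAbs_natCast] at this
    have e2 : y ≤ T * H :=
      (Nat.le_of_dvd (Nat.mul_pos ha.pos hdn1) e1).trans (Nat.mul_le_mul haT hdn)
    simp only [NN, mem_union]
    left; left; right
    rw [mem_image]
    refine ⟨(y, l), ?_, rfl⟩
    rw [mem_product, mem_range, mem_range]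
    exact ⟨by omega, by omega⟩
  by_cases hx : x < x0 H T
  · refine ⟨x ^ a, ?_, h1, h2⟩
    simp only [NN, mem_union]
    left; right
    rw [mem_image]
    refine ⟨(x, a), ?_, rfl⟩
    rw [mem_product, mem_range, mem_range]
    exact ⟨hx, by omega⟩
  push Not at hx
  refine ⟨x ^ a, ?_, h1, h2⟩
  simp only [NN, mem_union]
  right
  rw [mem_biUnion]
  refine ⟨((a, d), l), ?_, ?_⟩
  · rw [mem_product, mem_product, mem_filter, mem_range, mem_range, mem_Icc]
    rw [abs_le] at hdH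
    exact ⟨⟨⟨Nat.lt_succ_of_le haT, ha⟩, hdH⟩, Nat.lt_succ_of_le hlL⟩
  · rw [mem_image]
    refine ⟨x, ?_, rfl⟩
    simp only [SS, mem_filter, mem_range]
    have hxy : (x : ℤ) ^ a - d = (y : ℤ) ^ l := by rw [hd]; ring
    unfold x0 at hx
    refine ⟨?_, ?_, hd0, hl, ?_, (y : ℤ), hxy, ?_⟩
    · have : x ≤ x ^ a := Nat.le_self_pow ha.ne_zero x
      omega
    · intro c hc
      have h5 := perfect ha.two_le hc hxy hy hyad
      have h6 : c.natAbs ≤ d.natAbs := by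
        rw [← hc, Int.natAbs_pow]
        exact Nat.le_self_pow ha.ne_zero _
      omega
    · refine le_trans ?_ (le_trans (Nat.le_add_right _ (H + 2)) (by rw [← add_assoc]; exact hx))
      gcongr
    · exact (hyp.coprime_iff_not_dvd).2 hyad

/-- the exceptional gaps -/
def Bad (X H T : ℕ) : Set ℕ :=
  {k | Nat.nth Nat.Prime k ≤ X ∧
    ∃ q r e f : ℕ, q.Prime ∧ r.Prime ∧ e ≤ T ∧ q ^ e ≠ r ^ f ∧
      q ^ e ≤ r ^ f + H ∧ r ^ f ≤ q ^ e + H ∧
      Nat.nth Nat.Prime k < q ^ e ∧ q ^ e < Nat.nth Nat.Prime (k + 1) ∧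
      Nat.nth Nat.Prime k < r ^ f ∧ r ^ f < Nat.nth Nat.Prime (k + 1)}

theorem two_le_exp {k q e : ℕ} (hq : q.Prime) (h1 : Nat.nth Nat.Prime k < q ^ e)
    (h2 : q ^ e < Nat.nth Nat.Prime (k + 1)) : 2 ≤ e := by
  have h3 : e ≠ 0 := by
    rintro rfl
    rw [pow_zero] at h1
    have := (Nat.prime_nth_prime k).one_lt
    omega
  have h4 : e ≠ 1 := by
    rintro rfl
    rw [pow_one] at h1 h2
    have h4 := Nat.count_strict_mono (p := Nat.Prime) (Nat.prime_nth_prime k) h1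
    rw [Nat.count_nth_of_infinite Nat.infinite_setOfPred_prime] at h4
    have h5 := Nat.count_strict_mono (p := Nat.Prime) hq h2
    rw [Nat.count_nth_of_infinite Nat.infinite_setOfPred_prime] at h5
    omega
  omega

theorem bad_mark {X H T k : ℕ} (hT : 2 ≤ T) (hk : k ∈ Bad X H T) :
    ∃ N ∈ NN X H T, Nat.nth Nat.Prime k < N ∧ N < Nat.nth Nat.Prime (k + 1) := by
  classical
  obtain ⟨hX, q, r, e, f, hq, hr, he, hne, hd1, hd2, h1, h2, h3, h4⟩ := hk
  have hP' : Nat.nth Nat.Prime (k + 1) ≤ 2 * X := (next_le k).trans (by omega)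
  have he2 := two_le_exp hq h1 h2
  have hf2 := two_le_exp hr h3 h4
  rcases Nat.lt_or_ge f 3 with hf3 | hf3
  · have hf : f = 2 := by omega
    rcases Nat.lt_or_ge e 3 with he3 | he3
    · -- two squares
      have he' : e = 2 := by omega
      subst hf he'
      refine ⟨q ^ 2, ?_, h1, h2⟩
      simp only [NN, mem_union]
      left; left; left
      rw [mem_range]
      have hqr : q ≠ r := fun h => hne (by rw [h])
      have hqH : q ≤ H := by
        rcases lt_or_gt_of_ne hqr with h | h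
        · have : (q + 1) ^ 2 ≤ r ^ 2 := Nat.pow_le_pow_left h 2
          nlinarith
        · have : (r + 1) ^ 2 ≤ q ^ 2 := Nat.pow_le_pow_left h 2
          by_contra hcon
          push Not at hcon
          have h6 : r ^ 2 ≤ (q - 1) ^ 2 := Nat.pow_le_pow_left (by omega) 2
          obtain ⟨q', rfl⟩ : ∃ q', q = q' + 1 := ⟨q - 1, by omega⟩
          rw [Nat.add_sub_cancel] at h6
          nlinarith
      have : q ^ 2 ≤ H ^ 2 := Nat.pow_le_pow_left hqH 2
      omega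
    · -- a square and a higher power
      subst hf
      exact key_case (a := 2) (l := e) (x := r) (y := q) hP' hd2 hd1 Nat.prime_two hT he3 hq
        (fun h => hne h.symm) h3 h4 h1 h2
  · -- `f ≥ 3`
    have hmin : e.minFac.Prime := Nat.minFac_prime (by omega)
    have hdvd : e.minFac ∣ e := Nat.minFac_dvd e
    have e1 : (q ^ (e / e.minFac)) ^ e.minFac = q ^ e := by
      rw [← pow_mul, Nat.div_mul_cancel hdvd]
    refine key_case (a := e.minFac) (l := f) (x := q ^ (e / e.minFac)) (y := r) hP'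
      (by rw [e1]; exact hd1) (by rw [e1]; exact hd2) hmin
      ((Nat.minFac_le (by omega)).trans he) hf3 hr ?_ ?_ ?_ h3 h4
    · rw [e1]; exact hne
    · rw [e1]; exact h1
    · rw [e1]; exact h2

theorem card_NN {X H T : ℕ} (hX : 2 ≤ X) (hH : 2 ≤ H) (hT : 2 ≤ T) :
    (NN X H T).card ≤ (T * H) ^ (8 * T ^ 2) * (Nat.log 2 X + 2) ^ (3 * T) := by
  classical
  obtain ⟨P, hP⟩ : ∃ P, P = T * H := ⟨_, rfl⟩
  obtain ⟨Λ, hΛ⟩ : ∃ Λ, Λ = Nat.log 2 X + 2 := ⟨_, rfl⟩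
  rw [← hP, ← hΛ]
  have hP4 : 4 ≤ P := by
    rw [hP]
    exact Nat.mul_le_mul hT hH
  have hTP : T + 1 ≤ P := by
    rw [hP]
    nlinarith
  have hHP : H + 1 ≤ P := by
    rw [hP]
    nlinarith
  have hΛ2 : 2 ≤ Λ := by omega
  have hP1 : 1 ≤ P := by omega
  have hΛ1 : 1 ≤ Λ := by omega
  have c1 : (range (H ^ 2 + 1)).card ≤ P ^ 2 := by
    rw [card_range]
    have : (H + 1) ^ 2 ≤ P ^ 2 := Nat.pow_le_pow_left hHP 2
    nlinarith
  have c2 : ((range (T * H + 1) ×ˢ range (Nat.log 2 X + 2)).image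
      (fun t : ℕ × ℕ => t.1 ^ t.2)).card ≤ P ^ 2 * Λ := by
    refine card_image_le.trans ?_
    rw [card_product, card_range, card_range, ← hP, ← hΛ]
    refine Nat.mul_le_mul_right _ ?_
    nlinarith
  have hx0 : x0 H T ≤ P ^ 21 := by
    unfold x0
    rw [← hP]
    have e1 : 32 * H * P ^ 2 ≤ P ^ 6 := by
      calc 32 * H * P ^ 2 ≤ P ^ 3 * P * P ^ 2 := by
            refine Nat.mul_le_mul_right _ (Nat.mul_le_mul ?_ (by omega))
            calc 32 ≤ 4 ^ 3 := by norm_num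
              _ ≤ P ^ 3 := Nat.pow_le_pow_left hP4 3
        _ = P ^ 6 := by ring
    have e2 : 8 * (32 * H * P ^ 2) ^ 3 ≤ P ^ 2 * (P ^ 6) ^ 3 := by
      refine Nat.mul_le_mul ?_ (Nat.pow_le_pow_left e1 3)
      calc 8 ≤ 4 ^ 2 := by norm_num
        _ ≤ P ^ 2 := Nat.pow_le_pow_left hP4 2
    have e3 : H + 2 ≤ P ^ 20 := by
      have : P ^ 1 * 2 ≤ P ^ 20 := by
        calc P ^ 1 * 2 ≤ P ^ 1 * P := Nat.mul_le_mul_left _ (by omega)
          _ = P ^ 2 := by ring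
          _ ≤ P ^ 20 := Nat.pow_le_pow_right hP1 (by norm_num)
      rw [pow_one] at this
      omega
    have e4 : P ^ 2 * (P ^ 6) ^ 3 = P ^ 20 := by ring
    have e5 : P ^ 20 + P ^ 20 ≤ P ^ 21 := by
      have : P ^ 20 * 2 ≤ P ^ 20 * P := Nat.mul_le_mul_left _ (by omega)
      have e6 : P ^ 20 * P = P ^ 21 := by ring
      omega
    omega
  have c3 : ((range (x0 H T) ×ˢ range (T + 1)).image (fun t : ℕ × ℕ => t.1 ^ t.2)).card ≤
      P ^ 22 := by
    refine card_image_le.trans ?_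
    rw [card_product, card_range, card_range]
    calc x0 H T * (T + 1) ≤ P ^ 21 * P := Nat.mul_le_mul hx0 hTP
      _ = P ^ 22 := by ring
  have c4 : ((((range (T + 1)).filter Nat.Prime ×ˢ Icc (-(H : ℤ)) H) ×ˢ
      range (Nat.log 2 X + 2)).biUnion
      (fun t => (SS X t.1.1 t.2 t.1.2).image fun x => x ^ t.1.1)).card ≤
      (P * P ^ 2 * Λ) * ((P ^ T) ^ (T + 1) * (Λ ^ T * (Λ ^ T * Λ))) := by
    refine (card_biUnion_le_card_mul _ _ ((P ^ T) ^ (T + 1) * (Λ ^ T * (Λ ^ T * Λ))) ?_).trans ?_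
    · rintro ⟨⟨a, d⟩, l⟩ ht
      rw [mem_product, mem_product, mem_filter, mem_range, mem_range, mem_Icc] at ht
      obtain ⟨⟨⟨haT, ha⟩, hdH⟩, hlL⟩ := ht
      simp only at haT ha hdH hlL ⊢
      refine card_image_le.trans ?_
      rcases (SS X a l d).eq_empty_or_nonempty with h0 | ⟨z, hz⟩
      · rw [h0, card_empty]
        exact Nat.zero_le _
      simp only [SS, mem_filter] at hz
      obtain ⟨-, hdp, hd0, hl3, -⟩ := hz
      have hdn : d.natAbs ≤ H := by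
        have : |d| ≤ H := abs_le.2 hdH
        rw [Int.abs_eq_natAbs] at this
        exact_mod_cast this
      have h5 := count_adl ha hd0 hdp hl3 (2 * X) (SS X a l d) (by
        intro x hx
        simp only [SS, mem_filter, mem_range] at hx
        exact ⟨by omega, hx.2.2.2.2.1, hx.2.2.2.2.2⟩)
      refine h5.trans ?_
      have hlog : Nat.log 2 (2 * X) + 1 = Λ := by
        rw [mul_comm, Nat.log_mul_base (by norm_num) (by omega), hΛ]
      rw [hlog]
      have haT' : a ≤ T := by omega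
      have hadP : a * d.natAbs ≤ P := by
        rw [hP]
        exact Nat.mul_le_mul haT' hdn
      have k1 : ((a * d.natAbs) ^ a) ^ (a + 1) ≤ (P ^ T) ^ (T + 1) := by
        rw [← pow_mul, ← pow_mul]
        exact (Nat.pow_le_pow_left hadP _).trans
          (Nat.pow_le_pow_right hP1 (Nat.mul_le_mul haT' (by omega)))
      have k2 : l ^ a ≤ Λ ^ T := by
        exact (Nat.pow_le_pow_left (by omega) _).trans (Nat.pow_le_pow_right hΛ1 haT')
      exact Nat.mul_le_mul k1 (Nat.mul_le_mul k2 (Nat.mul_le_mul_right _ k2))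
    · refine Nat.mul_le_mul_right _ ?_
      rw [card_product, card_product, card_range, Int.card_Icc, ← hΛ]
      refine Nat.mul_le_mul_right _ (Nat.mul_le_mul ?_ ?_)
      · refine (card_filter_le _ _).trans ?_
        rw [card_range]
        exact hTP
      · have e1 : ((H : ℤ) + 1 - -(H : ℤ)).toNat = 2 * H + 1 := by omega
        rw [e1]
        nlinarith
  have htot : (NN X H T).card ≤ P ^ 2 + P ^ 2 * Λ + P ^ 22 +
      (P * P ^ 2 * Λ) * ((P ^ T) ^ (T + 1) * (Λ ^ T * (Λ ^ T * Λ))) := by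
    unfold NN
    refine (card_union_le _ _).trans (add_le_add ?_ c4)
    refine (card_union_le _ _).trans (add_le_add ?_ c3)
    exact (card_union_le _ _).trans (add_le_add c1 c2)
  refine htot.trans ?_
  obtain ⟨Q, hQ⟩ : ∃ Q, Q = P ^ (T ^ 2 + T + 22) * Λ ^ (2 * T + 2) := ⟨_, rfl⟩
  have hmono : ∀ i j : ℕ, i ≤ T ^ 2 + T + 22 → j ≤ 2 * T + 2 → P ^ i * Λ ^ j ≤ Q := by
    intro i j hi hj
    rw [hQ]
    exact Nat.mul_le_mul (Nat.pow_le_pow_right hP1 hi) (Nat.pow_le_pow_right hΛ1 hj)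
  have t1 : P ^ 2 ≤ Q := by
    have := hmono 2 0 (by omega) (by omega)
    rwa [pow_zero, mul_one] at this
  have t2 : P ^ 2 * Λ ≤ Q := by
    have := hmono 2 1 (by omega) (by omega)
    rwa [pow_one] at this
  have t3 : P ^ 22 ≤ Q := by
    have := hmono 22 0 (by omega) (by omega)
    rwa [pow_zero, mul_one] at this
  have t4 : (P * P ^ 2 * Λ) * ((P ^ T) ^ (T + 1) * (Λ ^ T * (Λ ^ T * Λ))) ≤ Q := by
    have e1 : (P * P ^ 2 * Λ) * ((P ^ T) ^ (T + 1) * (Λ ^ T * (Λ ^ T * Λ))) =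
        P ^ (T ^ 2 + T + 3) * Λ ^ (2 * T + 2) := by
      ring
    rw [e1]
    exact hmono _ _ (by omega) le_rfl
  have h4Q : P ^ 2 + P ^ 2 * Λ + P ^ 22 +
      (P * P ^ 2 * Λ) * ((P ^ T) ^ (T + 1) * (Λ ^ T * (Λ ^ T * Λ))) ≤ P * Q := by
    have : 4 * Q ≤ P * Q := Nat.mul_le_mul_right _ hP4
    omega
  refine h4Q.trans ?_
  have e2 : P * Q = P ^ (T ^ 2 + T + 23) * Λ ^ (2 * T + 2) := by
    rw [hQ]
    ring
  rw [e2]
  refine Nat.mul_le_mul (Nat.pow_le_pow_right hP1 ?_) (Nat.pow_le_pow_right hΛ1 (by omega))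
  nlinarith

theorem gap_disjoint {k k' N : ℕ} (h1 : Nat.nth Nat.Prime k < N) (h2 : N < Nat.nth Nat.Prime (k + 1))
    (h3 : Nat.nth Nat.Prime k' < N) (h4 : N < Nat.nth Nat.Prime (k' + 1)) : k = k' := by
  have hm := Nat.nth_strictMono Nat.infinite_setOfPred_prime
  by_contra hne
  rcases lt_or_gt_of_ne hne with h | h
  · have h5 : Nat.nth Nat.Prime (k + 1) ≤ Nat.nth Nat.Prime k' := hm.monotone h
    omega
  · have h5 : Nat.nth Nat.Prime (k' + 1) ≤ Nat.nth Nat.Prime k := hm.monotone h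
    omega

theorem ncard_of_mark {B : Set ℕ} {F : Finset ℕ}
    (h : ∀ k ∈ B, ∃ N ∈ F, Nat.nth Nat.Prime k < N ∧ N < Nat.nth Nat.Prime (k + 1)) :
    B.Finite ∧ B.ncard ≤ F.card := by
  classical
  choose! N hN1 hN2 using h
  have hinj : Set.InjOn N B := by
    intro k hk k' hk' heq
    have a1 := hN2 k hk
    have a2 := hN2 k' hk'
    rw [← heq] at a2
    exact gap_disjoint a1.1 a1.2 a2.1 a2.2
  have hmaps : ∀ k ∈ B, N k ∈ (F : Set ℕ) := hN1
  refine ⟨Set.Finite.of_injOn hmaps hinj F.finite_toSet, ?_⟩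
  have := Set.ncard_le_ncard_of_injOn N hmaps hinj F.finite_toSet
  rwa [Set.ncard_coe_finset] at this

/-- **The number of exceptional gaps.** -/
theorem bad_count {X H T : ℕ} (hX : 2 ≤ X) (hH : 2 ≤ H) (hT : 2 ≤ T) :
    (Bad X H T).Finite ∧ (Bad X H T).ncard ≤
      (T * H) ^ (8 * T ^ 2) * (Nat.log 2 X + 2) ^ (3 * T) := by
  obtain ⟨h1, h2⟩ := ncard_of_mark (B := Bad X H T) (F := NN X H T) fun k hk => bad_mark hT hk
  exact ⟨h1, h2.trans (card_NN hX hH hT)⟩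

end Pool.Agent.Run7.h880
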