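import Mathlib
import Pool.Agent.H374R2.W.QL
import Pool.Agent.H374R2.W.QM

/-!
Two powers of different primes close to each other.
-/

set_option autoImplicit false

namespace Pool.Agent.Run7.h880

open Real

/-- different `g`-th powers `> N` are at a distance at least `N ^ (1 - 1 / g)` -/
theorem pow_dist {N u v g : ℕ} (hN : 1 ≤ N) (hg : 1 ≤ g) (hu : N ≤ u ^ g) (hv : N ≤ v ^ g)
    (huv : u ≠ v) : (N : ℝ) ^ (1 - 1 / (g : ℝ)) ≤ |(u : ℝ) ^ g - (v : ℝ) ^ g| := by
  have key : ∀ u v : ℕ, N ≤ u ^ g → u < v → (N : ℝ) ^ (1 - 1 / (g : ℝ)) ≤ (v : ℝ) ^ g - (u : ℝ) ^ g := by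
    intro u v hu h
    have hg0 : (0 : ℝ) < g := by exact_mod_cast hg
    have hN0 : (0 : ℝ) < N := by exact_mod_cast hN
    have hu0 : (0 : ℝ) ≤ u := Nat.cast_nonneg u
    have h1 : (u : ℝ) ^ (g - 1) ≤ (v : ℝ) ^ g - (u : ℝ) ^ g := by
      obtain ⟨g', rfl⟩ : ∃ g', g = g' + 1 := ⟨g - 1, by omega⟩
      have h2 : (u : ℝ) + 1 ≤ v := by exact_mod_cast h
      have h3 : (u : ℝ) ^ g' ≤ (v : ℝ) ^ g' := pow_le_pow_left₀ hu0 (by linarith) _
      have h4 : (0 : ℝ) ≤ (u : ℝ) ^ g' := by positivity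
      rw [Nat.add_sub_cancel, pow_succ, pow_succ]
      nlinarith
    refine le_trans ?_ h1
    have h5 : (N : ℝ) ≤ (u : ℝ) ^ g := by exact_mod_cast hu
    have h6 : (0 : ℝ) ≤ 1 - 1 / (g : ℝ) := by
      have : 1 / (g : ℝ) ≤ 1 := by
        rw [div_le_one hg0]
        exact_mod_cast hg
      linarith
    calc (N : ℝ) ^ (1 - 1 / (g : ℝ)) ≤ ((u : ℝ) ^ g) ^ (1 - 1 / (g : ℝ)) :=
          Real.rpow_le_rpow hN0.le h5 h6
      _ = (u : ℝ) ^ (g - 1) := by
          rw [← Real.rpow_natCast, ← Real.rpow_mul hu0, ← Real.rpow_natCast]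
          congr 1
          rw [Nat.cast_sub hg]
          field_simp
          simp
  rcases lt_or_gt_of_ne huv with h | h
  · refine (key u v hu h).trans ?_
    rw [abs_sub_comm]
    exact le_abs_self _
  · exact (key v u hv h).trans (le_abs_self _)

theorem two_powers {δ : ℝ} (hδ : 0 < δ) (hδ1 : δ < 1) {N q r a b : ℕ} (hq : q.Prime) (hr : r.Prime)
    (hqr : q ≠ r) (hm : N < q ^ a) (hn : N < r ^ b)
    (hclose : |(q : ℝ) ^ a - (r : ℝ) ^ b| ≤ 2 * (N : ℝ) ^ (1 - δ))
    (hn3 : r ^ b ≤ 3 * N)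
    (ht : 1 ≤ log (log N)) (hN : log 2 < δ / 2 * log N) :
    δ / 10 ^ 9 * log N ≤ log q * log r * log (log N) ^ 2 := by
  by_contra hcon
  push Not at hcon
  obtain ⟨t, htd⟩ : ∃ t, t = log (log N) := ⟨_, rfl⟩
  rw [← htd] at ht hcon
  obtain ⟨x, hx⟩ : ∃ x, x = log (N : ℝ) := ⟨_, rfl⟩
  have hl2 := Real.log_two_gt_d9
  have hx1 : 1 < x := by
    rw [hx]
    nlinarith
  have hN2 : 2 ≤ N := by
    by_contra h
    have h1 : (N : ℝ) ≤ 1 := by exact_mod_cast (by omega : N ≤ 1)
    have h2 : log (N : ℝ) ≤ 0 := Real.log_nonpos (Nat.cast_nonneg _) h1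
    rw [hx] at hx1
    linarith
  have hN3 : 3 ≤ N := by
    by_contra h
    have h1 : N = 2 := by omega
    rw [h1] at hx
    have := Real.log_two_lt_d9
    push_cast at hx
    linarith
  have hN0 : (0 : ℝ) < N := by exact_mod_cast (by omega : 0 < N)
  have hN3R : (3 : ℝ) ≤ N := by exact_mod_cast hN3
  have hq2 : (2 : ℝ) ≤ q := by exact_mod_cast hq.two_le
  have hr2 : (2 : ℝ) ≤ r := by exact_mod_cast hr.two_le
  have hlq : 1 / 2 < log q := by
    have := Real.log_le_log (by norm_num) hq2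
    linarith
  have hlr : 1 / 2 < log r := by
    have := Real.log_le_log (by norm_num) hr2
    linarith
  have ha1 : 1 ≤ a := by
    by_contra h
    have : a = 0 := by omega
    rw [this, pow_zero] at hm
    omega
  have hb1 : 1 ≤ b := by
    by_contra h
    have : b = 0 := by omega
    rw [this, pow_zero] at hn
    omega
  have haq : x < a * log q := by
    rw [hx, ← Real.log_pow]
    exact Real.log_lt_log hN0 (by exact_mod_cast hm)
  have hbr : x < b * log r := by
    rw [hx, ← Real.log_pow]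
    exact Real.log_lt_log hN0 (by exact_mod_cast hn)
  -- the greatest common divisor
  obtain ⟨g, hg⟩ : ∃ g, g = Nat.gcd a b := ⟨_, rfl⟩
  have hg1 : 1 ≤ g := by
    rw [hg]
    exact Nat.gcd_pos_of_pos_left _ ha1
  have hgR : (0 : ℝ) < g := by exact_mod_cast hg1
  obtain ⟨a', ha'⟩ : g ∣ a := by rw [hg]; exact Nat.gcd_dvd_left _ _
  obtain ⟨b', hb'⟩ : g ∣ b := by rw [hg]; exact Nat.gcd_dvd_right _ _
  have hcop : Nat.Coprime a' b' := by
    have h1 := Nat.coprime_div_gcd_div_gcd (m := a) (n := b) (by rw [← hg]; omega)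
    rw [← hg, ha', hb', Nat.mul_div_cancel_left _ (by omega), Nat.mul_div_cancel_left _ (by omega)] at h1
    exact h1
  have hgδ : (g : ℝ) ≤ 2 / δ := by
    by_contra hgc
    push Not at hgc
    have hne : q ^ a' ≠ r ^ b' := by
      intro h
      have hb'0 : b' ≠ 0 := by
        rintro rfl
        rw [mul_zero] at hb'
        omega
      have h1 : r ∣ q ^ a' := by
        rw [h]
        exact dvd_pow_self _ hb'0
      exact hqr ((Nat.prime_dvd_prime_iff_eq hr hq).1 (hr.dvd_of_dvd_pow h1)).symm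
    have h1 := pow_dist (N := N) (u := q ^ a') (v := r ^ b') (g := g) (by omega) hg1
      (by rw [← pow_mul, mul_comm, ← ha']; exact hm.le)
      (by rw [← pow_mul, mul_comm, ← hb']; exact hn.le) hne
    have e1 : ((q ^ a' : ℕ) : ℝ) ^ g = (q : ℝ) ^ a := by
      rw [ha', Nat.cast_pow, ← pow_mul, mul_comm]
    have e2 : ((r ^ b' : ℕ) : ℝ) ^ g = (r : ℝ) ^ b := by
      rw [hb', Nat.cast_pow, ← pow_mul, mul_comm]
    rw [e1, e2] at h1
    have h2 := h1.trans hclose
    have h3 : (N : ℝ) ^ (1 - 1 / (g : ℝ)) ≥ (N : ℝ) ^ (1 - δ / 2) := by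
      refine Real.rpow_le_rpow_of_exponent_le (by linarith) ?_
      have : 1 / (g : ℝ) ≤ δ / 2 := by
        rw [div_le_iff₀ hgR]
        rw [div_lt_iff₀ hδ] at hgc
        linarith
      linarith
    have h4 : (N : ℝ) ^ (1 - δ / 2) = (N : ℝ) ^ (1 - δ) * (N : ℝ) ^ (δ / 2) := by
      rw [← Real.rpow_add hN0]
      congr 1
      ring
    have h5 : 0 < (N : ℝ) ^ (1 - δ) := Real.rpow_pos_of_pos hN0 _
    have h6 : (N : ℝ) ^ (δ / 2) ≤ 2 := by
      rw [h4] at h3
      have : (N : ℝ) ^ (1 - δ) * (N : ℝ) ^ (δ / 2) ≤ (N : ℝ) ^ (1 - δ) * 2 := by linarith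
      exact le_of_mul_le_mul_left this h5
    have h7 : (2 : ℝ) < (N : ℝ) ^ (δ / 2) := by
      rw [← Real.log_lt_log_iff (by norm_num) (Real.rpow_pos_of_pos hN0 _), Real.log_rpow hN0]
      exact hN
    linarith
  have haR : (a : ℝ) = g * a' := by rw [ha']; push_cast; ring
  have hbR : (b : ℝ) = g * b' := by rw [hb']; push_cast; ring
  have ha'1 : 1 ≤ a' := by
    by_contra h
    have : a' = 0 := by omega
    rw [this, mul_zero] at ha'
    omega
  have hb'1 : 1 ≤ b' := by
    by_contra h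
    have : b' = 0 := by omega
    rw [this, mul_zero] at hb'
    omega
  have hqrpos : 0 < log q * log r := by positivity
  have ht2 : 1 ≤ t ^ 2 := by nlinarith
  have hcon' : log q * log r * t ^ 2 < δ / 10 ^ 9 * x := by rw [hx]; exact hcon
  -- `b' ≥ 2`
  have hb'2 : 2 ≤ b' := by
    by_contra h
    have h1 : b' = 1 := by omega
    rw [h1, Nat.cast_one, mul_one] at hbR
    have h2 : x < 2 / δ * log r := by
      rw [hbR] at hbr
      nlinarith
    have h3 : x * δ < 2 * log r := by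
      have h4 : 2 / δ * log r = 2 * log r / δ := by ring
      rw [h4, lt_div_iff₀ hδ] at h2
      exact h2
    have h4 : log q * log r ≤ log q * log r * t ^ 2 := le_mul_of_one_le_right hqrpos.le ht2
    have h5 : 1 / 2 * log r ≤ log q * log r := by nlinarith
    have h6 : x * δ / 4 < δ / 10 ^ 9 * x := by linarith
    have h7 : 0 < x * δ := by positivity
    norm_num at h6
    linarith
  -- the parameters
  obtain ⟨hY1, hY2, hY3, -⟩ := Pool.Agent.H374R2.W.QM.ceil_facts hq.two_le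
  obtain ⟨hZ1, hZ2, hZ3, -⟩ := Pool.Agent.H374R2.W.QM.ceil_facts hr.two_le
  obtain ⟨Y, hY⟩ : ∃ Y, Y = ⌈log (q : ℝ)⌉₊ := ⟨_, rfl⟩
  obtain ⟨Z, hZ⟩ : ∃ Z, Z = ⌈log (r : ℝ)⌉₊ := ⟨_, rfl⟩
  rw [← hY] at hY1 hY2 hY3
  rw [← hZ] at hZ1 hZ2 hZ3
  obtain ⟨L, hL⟩ : ∃ L, L = ⌈8 * (3 + log b')⌉₊ := ⟨_, rfl⟩
  have hb'R : (2 : ℝ) ≤ b' := by exact_mod_cast hb'2
  have hlb0 : 0 ≤ log (b' : ℝ) := Real.log_nonneg (by linarith)
  have hLge : 8 * (3 + log b') ≤ L := by
    rw [hL]
    exact Nat.le_ceil _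
  have hL1 : 1 ≤ L := by
    have : (1 : ℝ) ≤ L := by linarith
    exact_mod_cast this
  -- bound of `log b'`
  have hb3 : (b : ℝ) * log r ≤ 2 * x := by
    have h1 : log ((r : ℝ) ^ b) ≤ log (3 * (N : ℝ)) :=
      Real.log_le_log (by positivity) (by exact_mod_cast hn3)
    rw [Real.log_pow] at h1
    have h2 : log (3 * (N : ℝ)) ≤ log ((N : ℝ) ^ 2) := by
      refine Real.log_le_log (by positivity) ?_
      nlinarith
    rw [Real.log_pow] at h2
    push_cast at h2
    rw [hx]
    linarith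
  have hb'x : (b' : ℝ) ≤ 4 * x := by
    have h1 : (b' : ℝ) ≤ b := by
      have : b' ≤ b := by
        rw [hb']
        exact Nat.le_mul_of_pos_left _ (by omega)
      exact_mod_cast this
    have h2 : (0 : ℝ) ≤ b := Nat.cast_nonneg b
    nlinarith
  have hlogb : log (b' : ℝ) ≤ 2 + t := by
    have h1 : log (b' : ℝ) ≤ log (4 * x) := Real.log_le_log (by linarith) hb'x
    rw [Real.log_mul (by norm_num) (by linarith)] at h1
    have h2 : log (4 : ℝ) ≤ 2 := by
      have h3 : log (4 : ℝ) = 2 * log 2 := by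
        rw [show (4 : ℝ) = 2 ^ 2 by norm_num, Real.log_pow]
        norm_num
      have := Real.log_two_lt_d9
      rw [h3]
      linarith
    rw [htd, ← hx]
    linarith
  have hL49 : (L : ℝ) ≤ 49 * t := by
    have h1 : (L : ℝ) < 8 * (3 + log b') + 1 := by
      rw [hL]
      exact Nat.ceil_lt_add_one (by positivity)
    linarith
  have hL0 : (0 : ℝ) ≤ L := Nat.cast_nonneg L
  have hMa : 145 * Z * L ≤ a' := by
    have h1 : (x : ℝ) ≤ 2 / δ * (a' * log q) := by
      have h2 : x < g * (a' * log q) := by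
        rw [haR, mul_assoc] at haq
        exact haq
      have h3 : (0 : ℝ) ≤ a' * log q := by positivity
      nlinarith
    have h2 : δ * x ≤ 2 * (a' * log q) := by
      have h4 : 2 / δ * (a' * log q) = 2 * (a' * log q) / δ := by ring
      rw [h4, le_div_iff₀ hδ] at h1
      linarith
    have h3 : (145 : ℝ) * Z * L * log q ≤ a' * log q := by
      have h5 : (145 : ℝ) * Z * L ≤ 145 * (3 * log r) * (49 * t) := by gcongr
      have h6 : (145 : ℝ) * Z * L * log q ≤ 145 * (3 * log r) * (49 * t) * log q :=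
        mul_le_mul_of_nonneg_right h5 (by linarith)
      have h7 : 145 * (3 * log r) * (49 * t) * log q = 21315 * (log q * log r * t) := by ring
      have h8 : log q * log r * t ≤ log q * log r * t ^ 2 := by
        have : t ≤ t ^ 2 := by nlinarith
        exact mul_le_mul_of_nonneg_left this hqrpos.le
      have h9 : 21315 * (δ / 10 ^ 9 * x) ≤ δ * x / 2 := by
        have : 0 < δ * x := by positivity
        norm_num
        linarith
      nlinarith
    have h4 : (145 : ℝ) * Z * L ≤ a' := le_of_mul_le_mul_right h3 (by linarith)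
    exact_mod_cast h4
  have hl := Pool.Agent.H374R2.W.QL.lfl (A := q) (U := r) (a := a') (b := b') (Y := Y) (Z := Z)
    (L := L) hq.two_le hr.two_le ha'1 hb'2 hcop hY1 hZ1 hL1 hY2 hZ2 hY3 hZ3 hMa hLge
  -- upper bound of the linear form
  have hup : |b' * log (r : ℝ) - a' * log (q : ℝ)| ≤ 2 * (N : ℝ) ^ (-δ) := by
    have h1 : |b * log (r : ℝ) - a * log (q : ℝ)| = g * |b' * log (r : ℝ) - a' * log (q : ℝ)| := by
      rw [haR, hbR, ← abs_of_pos hgR, ← abs_mul, abs_of_pos hgR]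
      congr 1
      ring
    have h2 : |b' * log (r : ℝ) - a' * log (q : ℝ)| ≤ |b * log (r : ℝ) - a * log (q : ℝ)| := by
      rw [h1]
      have : (1 : ℝ) ≤ g := by exact_mod_cast hg1
      nlinarith [abs_nonneg (b' * log (r : ℝ) - a' * log (q : ℝ))]
    refine h2.trans ?_
    have hm' : (N : ℝ) < (q : ℝ) ^ a := by exact_mod_cast hm
    have hn' : (N : ℝ) < (r : ℝ) ^ b := by exact_mod_cast hn
    have hlog : ∀ s t : ℝ, (N : ℝ) < s → (N : ℝ) < t → s ≤ t → log t - log s ≤ (t - s) / N := by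
      intro s t hs ht hst
      have hs0 : 0 < s := hN0.trans hs
      have ht0 : 0 < t := hN0.trans ht
      rw [← Real.log_div ht0.ne' hs0.ne']
      refine (Real.log_le_sub_one_of_pos (by positivity)).trans ?_
      have e : t / s - 1 = (t - s) / s := by field_simp
      rw [e]
      exact div_le_div_of_nonneg_left (by linarith) hN0 hs.le
    have h3 : |b * log (r : ℝ) - a * log (q : ℝ)| ≤ |(q : ℝ) ^ a - (r : ℝ) ^ b| / N := by
      rw [← Real.log_pow, ← Real.log_pow]
      rcases le_total ((q : ℝ) ^ a) ((r : ℝ) ^ b) with h | h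
      · rw [abs_of_nonneg (sub_nonneg.2 (Real.log_le_log (hN0.trans hm') h)), abs_sub_comm,
          abs_of_nonneg (sub_nonneg.2 h)]
        exact hlog _ _ hm' hn' h
      · rw [abs_sub_comm, abs_of_nonneg (sub_nonneg.2 (Real.log_le_log (hN0.trans hn') h)),
          abs_of_nonneg (sub_nonneg.2 h)]
        exact hlog _ _ hn' hm' h
    refine h3.trans ?_
    rw [div_le_iff₀ hN0]
    refine hclose.trans (le_of_eq ?_)
    rw [mul_assoc, ← Real.rpow_add_one hN0.ne']
    congr 2
    ring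
  have hlt := hl.trans_le hup
  have h1 : -(20880 * (Y : ℝ) * Z * (L : ℝ) ^ 2) < log 2 - δ * x := by
    have h2 := Real.log_lt_log (Real.exp_pos _) hlt
    rw [Real.log_exp, Real.log_mul (by norm_num) (Real.rpow_pos_of_pos hN0 _).ne',
      Real.log_rpow hN0, ← hx] at h2
    linarith
  have h2 : 20880 * (Y : ℝ) * Z * (L : ℝ) ^ 2 ≤ 20880 * (3 * log q) * (3 * log r) * (49 * t) ^ 2 := by
    gcongr
  have h3 : 20880 * (3 * log q) * (3 * log r) * (49 * t) ^ 2 = 451195920 * (log q * log r * t ^ 2) := by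
    ring
  rw [← hx] at hN
  have h4 : 451195920 * (log q * log r * t ^ 2) < 451195920 * (δ / 10 ^ 9 * x) := by linarith
  have h5 : 451195920 * (δ / 10 ^ 9 * x) ≤ δ / 2 * x := by
    have : 0 < δ * x := by positivity
    norm_num
    linarith
  linarith

end Pool.Agent.Run7.h880
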