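import Mathlib
import Pool.Agent.Run7.h880.TwoLogs
import Pool.Agent.Run7.h880.Lcm
import Pool.Agent.H295R3.Hoheisel

/-!
The small prime factors of `lcm (1, ..., p_{k+1} - 1) / lcm (1, ..., p_k)`.
-/

set_option autoImplicit false

namespace Pool.Agent.Run7.h880

open Finset Nd8d74632 Filter

theorem next_le_of_prime {k r : ℕ} (hr : r.Prime) (h1 : Nat.nth Nat.Prime k < r) :
    Nat.nth Nat.Prime (k + 1) ≤ r := by
  by_contra hcon
  have h4 := Nat.count_strict_mono (p := Nat.Prime) (Nat.prime_nth_prime k) h1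
  rw [Nat.count_nth_of_infinite Nat.infinite_setOfPred_prime] at h4
  have h5 := Nat.count_strict_mono (p := Nat.Prime) hr (not_le.1 hcon)
  rw [Nat.count_nth_of_infinite Nat.infinite_setOfPred_prime] at h5
  omega

/-- a prime factor of the quotient of the least common multiples comes from a prime power -/
theorem exists_pow_of_dvd {m n q : ℕ} (hmn : m ≤ n) (hq : q.Prime)
    (h : q ∣ lcm_upto n / lcm_upto m) : ∃ a : ℕ, m < q ^ a ∧ q ^ a ≤ n := by
  have h1 := lcm_upto_dvd hmn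
  have h2 : lcm_upto m ∣ lcm_upto n := by
    unfold lcm_upto
    refine Finset.lcm_dvd fun b hb => ?_
    rw [mem_Icc] at hb
    exact Finset.dvd_lcm (f := id) (mem_Icc.2 ⟨hb.1, hb.2.trans hmn⟩)
  obtain ⟨c, hc⟩ := h2
  have hpos := lcm_upto_pos m
  rw [hc, Nat.mul_div_cancel_left _ hpos] at h
  rw [hc] at h1
  have h3 : c ∣ ∏ j ∈ Finset.Ioc m n, pf j := Nat.dvd_of_mul_dvd_mul_left hpos h1
  obtain ⟨j, hj, hqj⟩ := (Prime.dvd_finsetProd_iff hq.prime _).1 (h.trans h3)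
  rw [mem_Ioc] at hj
  unfold pf at hqj
  split_ifs at hqj with hpp
  · have h4 : q = j.minFac :=
      (Nat.prime_dvd_prime_iff_eq hq (Nat.minFac_prime hpp.one_lt.ne')).1 hqj
    refine ⟨j.factorization j.minFac, ?_, ?_⟩
    · rw [h4, hpp.minFac_pow_factorization_eq]
      exact hj.1
    · rw [h4, hpp.minFac_pow_factorization_eq]
      exact hj.2
  · exact absurd (Nat.dvd_one.1 hqj) hq.ne_one

theorem small_primes : ∃ c : ℝ, 0 < c ∧ ∀ᶠ k : ℕ in atTop, ∀ q r : ℕ, q.Prime → r.Prime → q ≠ r →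
    q ∣ lcm_upto (Nat.nth Nat.Prime (k + 1) - 1) / lcm_upto (Nat.nth Nat.Prime k) →
    r ∣ lcm_upto (Nat.nth Nat.Prime (k + 1) - 1) / lcm_upto (Nat.nth Nat.Prime k) →
    c * Real.log (Nat.nth Nat.Prime k) ≤
      Real.log q * Real.log r * Real.log (Real.log (Nat.nth Nat.Prime k)) ^ 2 := by
  obtain ⟨δ, η, hδ, hδ1, hη, X₀, hX₀, hH⟩ := Pool.Agent.H295R3.D.hoheisel
  refine ⟨δ / 10 ^ 9, by positivity, ?_⟩
  have ht : Tendsto (fun k : ℕ => (Nat.nth Nat.Prime k : ℝ)) atTop atTop :=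
    tendsto_natCast_atTop_atTop.comp
      (Nat.nth_strictMono Nat.infinite_setOfPred_prime).tendsto_atTop
  have hl := Real.tendsto_log_atTop.comp ht
  have hll := Real.tendsto_log_atTop.comp hl
  filter_upwards [ht.eventually_ge_atTop (X₀ : ℝ), ht.eventually_ge_atTop 4,
    hl.eventually_gt_atTop (Real.log 2 / (δ / 2)), hll.eventually_ge_atTop 1] with k h1 h2 h3 h4
  intro q r hq hr hqr hqd hrd
  simp only [Function.comp_apply] at h3 h4
  obtain ⟨N, hN⟩ : ∃ N, N = Nat.nth Nat.Prime k := ⟨_, rfl⟩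
  obtain ⟨N', hN'⟩ : ∃ N', N' = Nat.nth Nat.Prime (k + 1) := ⟨_, rfl⟩
  have hNN' : N < N' := by
    rw [hN, hN']
    exact Nat.nth_strictMono Nat.infinite_setOfPred_prime (Nat.lt_succ_self k)
  have hnext : ∀ r : ℕ, r.Prime → N < r → N' ≤ r := by
    intro r hr h
    rw [hN']
    exact next_le_of_prime hr (hN ▸ h)
  rw [← hN, ← hN'] at hqd hrd
  rw [← hN] at h1 h2 h3 h4
  rw [← hN]
  have hN0 : (0 : ℝ) < N := by linarith
  have hN4 : 4 ≤ N := by exact_mod_cast h2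
  -- the next prime
  obtain ⟨Y, hY⟩ : ∃ Y, Y = ⌈(N : ℝ) ^ (1 - δ)⌉₊ := ⟨_, rfl⟩
  have hYle : (Y : ℝ) ≤ 2 * (N : ℝ) ^ (1 - δ) := by
    have h5 : (Y : ℝ) < (N : ℝ) ^ (1 - δ) + 1 := by
      rw [hY]
      exact Nat.ceil_lt_add_one (by positivity)
    have h6 : (1 : ℝ) ≤ (N : ℝ) ^ (1 - δ) := Real.one_le_rpow (by linarith) (by linarith)
    linarith
  have hYN : Y ≤ N := by
    rw [hY, Nat.ceil_le]
    calc (N : ℝ) ^ (1 - δ) ≤ (N : ℝ) ^ (1 : ℝ) :=
          Real.rpow_le_rpow_of_exponent_le (by linarith) (by linarith)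
      _ = N := Real.rpow_one _
  have hcard := hH N Y (by exact_mod_cast h1) (by rw [hY]; exact Nat.le_ceil _) hYN
  have hpos : (0 : ℝ) < (((Ioc N (N + Y)).filter Nat.Prime).card : ℝ) := by
    refine lt_of_lt_of_le ?_ hcard
    have h5 : 0 < Real.log (N : ℝ) := Real.log_pos (by linarith)
    have h6 : (0 : ℝ) < Y := by
      have : (0 : ℝ) < (N : ℝ) ^ (1 - δ) := by positivity
      have h7 : (N : ℝ) ^ (1 - δ) ≤ Y := by rw [hY]; exact Nat.le_ceil _
      linarith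
    positivity
  obtain ⟨s, hs⟩ := Finset.card_pos.1 (by exact_mod_cast hpos)
  rw [mem_filter, mem_Ioc] at hs
  have hN'Y : N' ≤ N + Y := (hnext s hs.2 hs.1.1).trans hs.1.2
  obtain ⟨a, ha1, ha2⟩ := exists_pow_of_dvd (by omega) hq hqd
  obtain ⟨b, hb1, hb2⟩ := exists_pow_of_dvd (by omega) hr hrd
  have hclose : |(q : ℝ) ^ a - (r : ℝ) ^ b| ≤ 2 * (N : ℝ) ^ (1 - δ) := by
    have e1 : (q : ℝ) ^ a ≤ N + Y := by exact_mod_cast (by omega : q ^ a ≤ N + Y)
    have e2 : (N : ℝ) ≤ (q : ℝ) ^ a := by exact_mod_cast ha1.le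
    have e3 : (r : ℝ) ^ b ≤ N + Y := by exact_mod_cast (by omega : r ^ b ≤ N + Y)
    have e4 : (N : ℝ) ≤ (r : ℝ) ^ b := by exact_mod_cast hb1.le
    refine le_trans ?_ hYle
    rw [abs_le]
    constructor <;> linarith
  refine two_powers hδ hδ1 hq hr hqr ha1 hb1 hclose (by omega) h4 ?_
  rw [div_lt_iff₀ (by positivity)] at h3
  linarith

end Pool.Agent.Run7.h880
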