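import Mathlib
import Pool.Agent.Run7.h880.Gaps
import Pool.Agent.Run7.h880.Small

/-!
The count of the exceptional gaps in terms of the least common multiples.
-/

set_option autoImplicit false

namespace Pool.Agent.Run7.h880

open Finset Nd8d74632

/-- if the quotient of the least common multiples is not a prime, then two prime powers lie in the gap -/
theorem two_powers_of_ne {k q : ℕ} (hq : q.Prime)
    (hd : q ∣ lcm_upto (Nat.nth Nat.Prime (k + 1) - 1) / lcm_upto (Nat.nth Nat.Prime k))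
    (hne : lcm_upto (Nat.nth Nat.Prime (k + 1) - 1) / lcm_upto (Nat.nth Nat.Prime k) ≠ q) :
    ∃ e r f : ℕ, r.Prime ∧ q ^ e ≠ r ^ f ∧
      Nat.nth Nat.Prime k < q ^ e ∧ q ^ e < Nat.nth Nat.Prime (k + 1) ∧
      Nat.nth Nat.Prime k < r ^ f ∧ r ^ f < Nat.nth Nat.Prime (k + 1) := by
  classical
  have hlt : Nat.nth Nat.Prime k < Nat.nth Nat.Prime (k + 1) :=
    Nat.nth_strictMono Nat.infinite_setOfPred_prime (Nat.lt_succ_self k)
  have hn2 := next_le k
  obtain ⟨p, hp⟩ : ∃ p, p = Nat.nth Nat.Prime k := ⟨_, rfl⟩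
  obtain ⟨P, hP⟩ : ∃ P, P = Nat.nth Nat.Prime (k + 1) := ⟨_, rfl⟩
  rw [← hp, ← hP] at hd hne hlt hn2 ⊢
  have hp1 : 1 ≤ p := by
    rw [hp]
    exact (Nat.prime_nth_prime k).one_lt.le
  obtain ⟨e, he1, he2⟩ := exists_pow_of_dvd (by omega) hq hd
  by_contra hcon
  push Not at hcon
  -- every prime power in the gap is `q ^ e`
  have hall : ∀ j ∈ Finset.Ioc p (P - 1), j ≠ q ^ e → pf j = 1 := by
    intro j hj hjq
    rw [mem_Ioc] at hj
    unfold pf
    split_ifs with hpp
    · exfalso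
      have h1 := hpp.minFac_pow_factorization_eq
      have h2 : j.minFac.Prime := Nat.minFac_prime hpp.one_lt.ne'
      have h3 := hcon e j.minFac (j.factorization j.minFac) h2
      rw [h1] at h3
      have := h3 (fun h => hjq h.symm) he1 (by omega) hj.1
      omega
    · rfl
  have hprod : ∏ j ∈ Finset.Ioc p (P - 1), pf j = pf (q ^ e) := by
    refine Finset.prod_eq_single (q ^ e) hall ?_
    intro h
    exfalso
    apply h
    rw [mem_Ioc]
    exact ⟨he1, he2⟩
  have he0 : e ≠ 0 := by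
    rintro rfl
    rw [pow_zero] at he1
    omega
  have hpf : pf (q ^ e) = q := by
    unfold pf
    rw [if_pos (hq.prime.isPrimePow.pow he0), hq.pow_minFac he0]
  have h1 := lcm_upto_dvd (m := p) (n := P - 1) (by omega)
  rw [hprod, hpf] at h1
  have h2 : lcm_upto p ∣ lcm_upto (P - 1) := by
    unfold lcm_upto
    refine Finset.lcm_dvd fun b hb => ?_
    rw [mem_Icc] at hb
    exact Finset.dvd_lcm (f := id) (mem_Icc.2 ⟨hb.1, hb.2.trans (by omega)⟩)
  obtain ⟨c, hc⟩ := h2
  have hpos := lcm_upto_pos p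
  rw [hc, Nat.mul_div_cancel_left _ hpos] at hd hne
  rw [hc] at h1
  exact hne (Nat.dvd_antisymm (Nat.dvd_of_mul_dvd_mul_left hpos h1) hd)

/-- the exceptional gaps, in terms of the least common multiples -/
theorem lcm_count {X H T : ℕ} (hX : 2 ≤ X) (hH : 2 ≤ H) (hT : 2 ≤ T) :
    {k : ℕ | Nat.nth Nat.Prime k ≤ X ∧
      (∀ m n : ℕ, Nat.nth Nat.Prime k < m → m ≤ n → n < Nat.nth Nat.Prime (k + 1) →
        IsPrimePow m → IsPrimePow n → n ≤ m + H) ∧
      ∃ q : ℕ, q.Prime ∧ Nat.nth Nat.Prime k < q ^ T ∧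
        q ∣ lcm_upto (Nat.nth Nat.Prime (k + 1) - 1) / lcm_upto (Nat.nth Nat.Prime k) ∧
        lcm_upto (Nat.nth Nat.Prime (k + 1) - 1) / lcm_upto (Nat.nth Nat.Prime k) ≠ q}.Finite ∧
    {k : ℕ | Nat.nth Nat.Prime k ≤ X ∧
      (∀ m n : ℕ, Nat.nth Nat.Prime k < m → m ≤ n → n < Nat.nth Nat.Prime (k + 1) →
        IsPrimePow m → IsPrimePow n → n ≤ m + H) ∧
      ∃ q : ℕ, q.Prime ∧ Nat.nth Nat.Prime k < q ^ T ∧
        q ∣ lcm_upto (Nat.nth Nat.Prime (k + 1) - 1) / lcm_upto (Nat.nth Nat.Prime k) ∧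
        lcm_upto (Nat.nth Nat.Prime (k + 1) - 1) / lcm_upto (Nat.nth Nat.Prime k) ≠ q}.ncard ≤
      (T * H) ^ (8 * T ^ 2) * (Nat.log 2 X + 2) ^ (3 * T) := by
  classical
  obtain ⟨h1, h2⟩ := bad_count hX hH hT
  have hsub : {k : ℕ | Nat.nth Nat.Prime k ≤ X ∧
      (∀ m n : ℕ, Nat.nth Nat.Prime k < m → m ≤ n → n < Nat.nth Nat.Prime (k + 1) →
        IsPrimePow m → IsPrimePow n → n ≤ m + H) ∧
      ∃ q : ℕ, q.Prime ∧ Nat.nth Nat.Prime k < q ^ T ∧
        q ∣ lcm_upto (Nat.nth Nat.Prime (k + 1) - 1) / lcm_upto (Nat.nth Nat.Prime k) ∧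
        lcm_upto (Nat.nth Nat.Prime (k + 1) - 1) / lcm_upto (Nat.nth Nat.Prime k) ≠ q} ⊆
      Bad X H T := by
    rintro k ⟨hkX, hw, q, hq, hqT, hd, hne⟩
    obtain ⟨e, r, f, hr, hneq, a1, a2, a3, a4⟩ := two_powers_of_ne hq hd hne
    refine ⟨hkX, q, r, e, f, hq, hr, ?_, hneq, ?_, ?_, a1, a2, a3, a4⟩
    · by_contra hcon
      have h3 : q ^ (T + 1) ≤ q ^ e := Nat.pow_le_pow_right hq.pos (by omega)
      have h4 : 2 * q ^ T ≤ q ^ (T + 1) := by
        rw [pow_succ, mul_comm]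
        exact Nat.mul_le_mul_left _ hq.two_le
      have h5 := next_le k
      omega
    · rcases le_total (q ^ e) (r ^ f) with h | h
      · omega
      · have hf0 : f ≠ 0 := by
          rintro rfl
          rw [pow_zero] at a3
          have := (Nat.prime_nth_prime k).one_lt
          omega
        have he0 : e ≠ 0 := by
          rintro rfl
          rw [pow_zero] at a1
          have := (Nat.prime_nth_prime k).one_lt
          omega
        exact hw _ _ a3 h a2 (hr.prime.isPrimePow.pow hf0) (hq.prime.isPrimePow.pow he0)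
    · rcases le_total (r ^ f) (q ^ e) with h | h
      · omega
      · have hf0 : f ≠ 0 := by
          rintro rfl
          rw [pow_zero] at a3
          have := (Nat.prime_nth_prime k).one_lt
          omega
        have he0 : e ≠ 0 := by
          rintro rfl
          rw [pow_zero] at a1
          have := (Nat.prime_nth_prime k).one_lt
          omega
        exact hw _ _ a1 h a4 (hq.prime.isPrimePow.pow he0) (hr.prime.isPrimePow.pow hf0)
  exact ⟨h1.subset hsub, (Set.ncard_le_ncard hsub h1).trans h2⟩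

end Pool.Agent.Run7.h880
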