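import Mathlib
import Pool.Agent.Run7.h880.Field2
import Pool.Agent.Run7.h880.GapsL

/-!
The number of short gaps with two prime powers: a bound whose exponents are linear in `T`.
-/

set_option autoImplicit false

namespace Pool.Agent.Run7.h880

open Finset

theorem card_NN' {X H T : ℕ} (hX : 2 ≤ X) (hH : 2 ≤ H) (hT : 2 ≤ T) :
    (NN X H T).card ≤ (T * H) ^ (15 * T) * (Nat.log 2 X + 2) ^ (3 * T) := by
  classical
  obtain ⟨P, hP⟩ : ∃ P, P = T * H := ⟨_, rfl⟩
  obtain ⟨Λ, hΛ⟩ : ∃ Λ, Λ = Nat.log 2 X + 2 := ⟨_, rfl⟩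
  rw [← hP, ← hΛ]
  have hP4 : 4 ≤ P := by
    rw [hP]
    exact Nat.mul_le_mul hT hH
  have hTP : T + 1 ≤ P := by
    rw [hP]
    nlinarith
  have hHP : H + 1 ≤ P := by
    rw [hP]
    nlinarith
  have hΛ2 : 2 ≤ Λ := by omega
  have hP1 : 1 ≤ P := by omega
  have hΛ1 : 1 ≤ Λ := by omega
  have c1 : (range (H ^ 2 + 1)).card ≤ P ^ 2 := by
    rw [card_range]
    have : (H + 1) ^ 2 ≤ P ^ 2 := Nat.pow_le_pow_left hHP 2
    nlinarith
  have c2 : ((range (T * H + 1) ×ˢ range (Nat.log 2 X + 2)).image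
      (fun t : ℕ × ℕ => t.1 ^ t.2)).card ≤ P ^ 2 * Λ := by
    refine card_image_le.trans ?_
    rw [card_product, card_range, card_range, ← hP, ← hΛ]
    refine Nat.mul_le_mul_right _ ?_
    nlinarith
  have hx0 : x0 H T ≤ P ^ 21 := by
    unfold x0
    rw [← hP]
    have e1 : 32 * H * P ^ 2 ≤ P ^ 6 := by
      calc 32 * H * P ^ 2 ≤ P ^ 3 * P * P ^ 2 := by
            refine Nat.mul_le_mul_right _ (Nat.mul_le_mul ?_ (by omega))
            calc 32 ≤ 4 ^ 3 := by norm_num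
              _ ≤ P ^ 3 := Nat.pow_le_pow_left hP4 3
        _ = P ^ 6 := by ring
    have e2 : 8 * (32 * H * P ^ 2) ^ 3 ≤ P ^ 2 * (P ^ 6) ^ 3 := by
      refine Nat.mul_le_mul ?_ (Nat.pow_le_pow_left e1 3)
      calc 8 ≤ 4 ^ 2 := by norm_num
        _ ≤ P ^ 2 := Nat.pow_le_pow_left hP4 2
    have e3 : H + 2 ≤ P ^ 20 := by
      have : P ^ 1 * 2 ≤ P ^ 20 := by
        calc P ^ 1 * 2 ≤ P ^ 1 * P := Nat.mul_le_mul_left _ (by omega)
          _ = P ^ 2 := by ring
          _ ≤ P ^ 20 := Nat.pow_le_pow_right hP1 (by norm_num)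
      rw [pow_one] at this
      omega
    have e4 : P ^ 2 * (P ^ 6) ^ 3 = P ^ 20 := by ring
    have e5 : P ^ 20 + P ^ 20 ≤ P ^ 21 := by
      have : P ^ 20 * 2 ≤ P ^ 20 * P := Nat.mul_le_mul_left _ (by omega)
      have e6 : P ^ 20 * P = P ^ 21 := by ring
      omega
    omega
  have c3 : ((range (x0 H T) ×ˢ range (T + 1)).image (fun t : ℕ × ℕ => t.1 ^ t.2)).card ≤
      P ^ 22 := by
    refine card_image_le.trans ?_
    rw [card_product, card_range, card_range]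
    calc x0 H T * (T + 1) ≤ P ^ 21 * P := Nat.mul_le_mul hx0 hTP
      _ = P ^ 22 := by ring
  have c4 : ((((range (T + 1)).filter Nat.Prime ×ˢ Icc (-(H : ℤ)) H) ×ˢ
      range (Nat.log 2 X + 2)).biUnion
      (fun t => (SS X t.1.1 t.2 t.1.2).image fun x => x ^ t.1.1)).card ≤
      (P * P ^ 2 * Λ) * (P ^ (3 * T) * (Λ ^ (2 * T) * Λ)) := by
    refine (card_biUnion_le_card_mul _ _ (P ^ (3 * T) * (Λ ^ (2 * T) * Λ)) ?_).trans ?_
    · rintro ⟨⟨a, d⟩, l⟩ ht
      rw [mem_product, mem_product, mem_filter, mem_range, mem_range, mem_Icc] at ht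
      obtain ⟨⟨⟨haT, ha⟩, hdH⟩, hlL⟩ := ht
      simp only at haT ha hdH hlL ⊢
      refine card_image_le.trans ?_
      rcases (SS X a l d).eq_empty_or_nonempty with h0 | ⟨z, hz⟩
      · rw [h0, card_empty]
        exact Nat.zero_le _
      simp only [SS, mem_filter] at hz
      obtain ⟨-, hdp, hd0, hl3, -⟩ := hz
      have hdn : d.natAbs ≤ H := by
        have : |d| ≤ H := abs_le.2 hdH
        rw [Int.abs_eq_natAbs] at this
        exact_mod_cast this
      have h5 := count_adl' ha hd0 hdp hl3 (2 * X) (SS X a l d) (by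
        intro x hx
        simp only [SS, mem_filter, mem_range] at hx
        exact ⟨by omega, hx.2.2.2.2.1, hx.2.2.2.2.2⟩)
      refine h5.trans ?_
      have hlog : Nat.log 2 (2 * X) + 1 = Λ := by
        rw [mul_comm, Nat.log_mul_base (by norm_num) (by omega), hΛ]
      rw [hlog]
      have haT' : a ≤ T := by omega
      have hadP : a * d.natAbs ≤ P := by
        rw [hP]
        exact Nat.mul_le_mul haT' hdn
      have k1 : (a * d.natAbs) ^ (3 * a) ≤ P ^ (3 * T) :=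
        (Nat.pow_le_pow_left hadP _).trans (Nat.pow_le_pow_right hP1 (Nat.mul_le_mul_left _ haT'))
      have k2 : l ^ (2 * a) ≤ Λ ^ (2 * T) :=
        (Nat.pow_le_pow_left (by omega) _).trans
          (Nat.pow_le_pow_right hΛ1 (Nat.mul_le_mul_left _ haT'))
      exact Nat.mul_le_mul k1 (Nat.mul_le_mul_right _ k2)
    · refine Nat.mul_le_mul_right _ ?_
      rw [card_product, card_product, card_range, Int.card_Icc, ← hΛ]
      refine Nat.mul_le_mul_right _ (Nat.mul_le_mul ?_ ?_)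
      · refine (card_filter_le _ _).trans ?_
        rw [card_range]
        exact hTP
      · have e1 : ((H : ℤ) + 1 - -(H : ℤ)).toNat = 2 * H + 1 := by omega
        rw [e1]
        nlinarith
  have htot : (NN X H T).card ≤ P ^ 2 + P ^ 2 * Λ + P ^ 22 +
      (P * P ^ 2 * Λ) * (P ^ (3 * T) * (Λ ^ (2 * T) * Λ)) := by
    unfold NN
    refine (card_union_le _ _).trans (add_le_add ?_ c4)
    refine (card_union_le _ _).trans (add_le_add ?_ c3)
    exact (card_union_le _ _).trans (add_le_add c1 c2)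
  refine htot.trans ?_
  obtain ⟨Q, hQ⟩ : ∃ Q, Q = P ^ (3 * T + 22) * Λ ^ (2 * T + 2) := ⟨_, rfl⟩
  have hmono : ∀ i j : ℕ, i ≤ 3 * T + 22 → j ≤ 2 * T + 2 → P ^ i * Λ ^ j ≤ Q := by
    intro i j hi hj
    rw [hQ]
    exact Nat.mul_le_mul (Nat.pow_le_pow_right hP1 hi) (Nat.pow_le_pow_right hΛ1 hj)
  have t1 : P ^ 2 ≤ Q := by
    have := hmono 2 0 (by omega) (by omega)
    rwa [pow_zero, mul_one] at this
  have t2 : P ^ 2 * Λ ≤ Q := by
    have := hmono 2 1 (by omega) (by omega)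
    rwa [pow_one] at this
  have t3 : P ^ 22 ≤ Q := by
    have := hmono 22 0 (by omega) (by omega)
    rwa [pow_zero, mul_one] at this
  have t4 : (P * P ^ 2 * Λ) * (P ^ (3 * T) * (Λ ^ (2 * T) * Λ)) ≤ Q := by
    have e1 : (P * P ^ 2 * Λ) * (P ^ (3 * T) * (Λ ^ (2 * T) * Λ)) =
        P ^ (3 * T + 3) * Λ ^ (2 * T + 2) := by
      ring
    rw [e1]
    exact hmono _ _ (by omega) le_rfl
  have h4Q : P ^ 2 + P ^ 2 * Λ + P ^ 22 +
      (P * P ^ 2 * Λ) * (P ^ (3 * T) * (Λ ^ (2 * T) * Λ)) ≤ P * Q := by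
    have : 4 * Q ≤ P * Q := Nat.mul_le_mul_right _ hP4
    omega
  refine h4Q.trans ?_
  have e2 : P * Q = P ^ (3 * T + 23) * Λ ^ (2 * T + 2) := by
    rw [hQ]
    ring
  rw [e2]
  exact Nat.mul_le_mul (Nat.pow_le_pow_right hP1 (by omega)) (Nat.pow_le_pow_right hΛ1 (by omega))

/-- **The number of exceptional gaps.** -/
theorem bad_count' {X H T : ℕ} (hX : 2 ≤ X) (hH : 2 ≤ H) (hT : 2 ≤ T) :
    (Bad X H T).Finite ∧ (Bad X H T).ncard ≤
      (T * H) ^ (15 * T) * (Nat.log 2 X + 2) ^ (3 * T) := by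
  obtain ⟨h1, h2⟩ := ncard_of_mark (B := Bad X H T) (F := NN X H T) fun k hk => bad_mark hT hk
  exact ⟨h1, h2.trans (card_NN' hX hH hT)⟩

end Pool.Agent.Run7.h880
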