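import Mathlib
import Pool.Agent.Run7.h880.Interp
import Pool.Agent.Run7.h880.Gaps2

/-!
Counting the integers `t` for which all `t + d i` are perfect powers with large coprime exponents.
-/

set_option autoImplicit false

namespace Pool.Agent.Run7.h880

open Finset

theorem count_pts {m : ℕ} {b d : Fin m → ℕ} (hm : 1 ≤ m) (hb : ∀ i, 2 ≤ b i)
    (hco : Pairwise fun i j => Nat.Coprime (b i) (b j)) (hw : ∑ i, (1 : ℝ) / b i ≤ 1 / 2)
    {X q : ℕ} {Y : ℝ} (hX : 1 ≤ X) (hq : 1 ≤ q) (hY1 : 1 ≤ Y)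
    (hY : ∀ i, ((2 * X : ℕ) : ℝ) + d i ≤ Y)
    (hqY : (3 * ((2 : ℝ) ^ m) ^ 4) * Y < (q : ℝ) ^ (2 ^ m)) (T : Finset ℕ)
    (hT : ∀ t ∈ T, 1 ≤ t ∧ t ≤ 2 * X ∧ ∀ i, ∃ x : ℕ, x ^ b i = t + d i) :
    T.card ≤ ((Nat.log 2 X + 2) * (2 * q)) * (m * ∏ i, b i) := by
  classical
  obtain ⟨f, hf⟩ : ∃ f : ℕ → ℕ × ℕ, f = fun t =>
    (Nat.log 2 t, ((t - 2 ^ Nat.log 2 t) * (2 * q)) / 2 ^ Nat.log 2 t) := ⟨_, rfl⟩
  have hlt : ∀ t ∈ T, 2 ^ Nat.log 2 t ≤ t ∧ t < 2 ^ (Nat.log 2 t + 1) := by
    intro t ht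
    have h1 := (hT t ht).1
    exact ⟨Nat.pow_log_le_self 2 (by omega), Nat.lt_pow_succ_log_self (by norm_num) t⟩
  refine (Finset.card_le_mul_card_image (f := f) T (m * ∏ i, b i) ?_).trans ?_
  · rintro ⟨j, i⟩ hji
    have hqR : (1 : ℝ) ≤ q := by exact_mod_cast hq
    have hj0 : (0 : ℝ) < 2 ^ j := by positivity
    have hcls : ∀ t ∈ T.filter (fun t => f t = (j, i)),
        (2 : ℝ) ^ j + 2 ^ j * i / (2 * q) ≤ t ∧
          (t : ℝ) ≤ (2 : ℝ) ^ j + 2 ^ j * i / (2 * q) + 2 ^ j / (2 * q) := by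
      intro t ht
      rw [mem_filter] at ht
      obtain ⟨htT, htf⟩ := ht
      rw [hf] at htf
      simp only [Prod.mk.injEq] at htf
      obtain ⟨e1, e2⟩ := htf
      rw [e1] at e2
      obtain ⟨g1, g2⟩ := hlt t htT
      rw [e1] at g1 g2
      have hp : 0 < 2 ^ j := by positivity
      have h1 : i * 2 ^ j ≤ (t - 2 ^ j) * (2 * q) := by
        rw [← e2]
        exact Nat.div_mul_le_self _ _
      have h2 : (t - 2 ^ j) * (2 * q) < (i + 1) * 2 ^ j := by
        have := Nat.lt_div_mul_add hp (a := (t - 2 ^ j) * (2 * q))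
        rw [e2] at this
        calc (t - 2 ^ j) * (2 * q) < i * 2 ^ j + 2 ^ j := this
          _ = (i + 1) * 2 ^ j := by ring
      have h1' : (i : ℝ) * 2 ^ j ≤ ((t : ℝ) - 2 ^ j) * (2 * q) := by
        have := (Nat.cast_le (α := ℝ)).2 h1
        push_cast [Nat.cast_sub g1] at this
        exact this
      have h2' : ((t : ℝ) - 2 ^ j) * (2 * q) ≤ ((i : ℝ) + 1) * 2 ^ j := by
        have := (Nat.cast_le (α := ℝ)).2 h2.le
        push_cast [Nat.cast_sub g1] at this
        exact this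
      constructor
      · have h3 : (2 : ℝ) ^ j * i / (2 * q) ≤ (t : ℝ) - 2 ^ j := by
          rw [div_le_iff₀ (by positivity)]
          linarith
        linarith
      · have h3 : (t : ℝ) - 2 ^ j ≤ (2 : ℝ) ^ j * (i + 1) / (2 * q) := by
          rw [le_div_iff₀ (by positivity)]
          linarith
        have h4 : (2 : ℝ) ^ j * (i + 1) / (2 * q) = 2 ^ j * i / (2 * q) + 2 ^ j / (2 * q) := by ring
        linarith
    obtain ⟨t₀, ht₀⟩ : ∃ t₀ : ℝ, t₀ = (2 : ℝ) ^ j + 2 ^ j * i / (2 * q) := ⟨_, rfl⟩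
    have ht₀j : (2 : ℝ) ^ j ≤ t₀ := by
      rw [ht₀]
      have : (0 : ℝ) ≤ 2 ^ j * i / (2 * q) := by positivity
      linarith
    rcases (T.filter (fun t => f t = (j, i))).eq_empty_or_nonempty with h0 | ⟨t1, ht1⟩
    · rw [h0, card_empty]
      exact Nat.zero_le _
    refine few_points (d := d) (t₀ := t₀) (Y := Y) (q := q) hm hb hco hw hq (by linarith) hY1 ?_ hqY _ ?_
    · intro i'
      have h1 := (hcls t1 ht1).1
      rw [← ht₀] at h1
      have h2 : (t1 : ℝ) ≤ ((2 * X : ℕ) : ℝ) := by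
        exact_mod_cast (hT t1 (mem_filter.1 ht1).1).2.1
      have := hY i'
      linarith
    · intro t ht
      obtain ⟨h1, h2⟩ := hcls t ht
      rw [← ht₀] at h1 h2
      refine ⟨?_, (hT t (mem_filter.1 ht).1).2.2⟩
      rw [abs_of_nonneg (by linarith)]
      have h3 : (2 : ℝ) ^ j / (2 * q) ≤ t₀ / (2 * q) :=
        div_le_div_of_nonneg_right ht₀j (by positivity)
      linarith
  · rw [mul_comm]
    refine Nat.mul_le_mul_right _ ?_
    have hsub : T.image f ⊆ range (Nat.log 2 X + 2) ×ˢ range (2 * q) := by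
      intro p hp
      rw [mem_image] at hp
      obtain ⟨t, ht, rfl⟩ := hp
      rw [hf]
      simp only [mem_product, mem_range]
      obtain ⟨g1, g2⟩ := hlt t ht
      constructor
      · have h1 : Nat.log 2 t ≤ Nat.log 2 (2 * X) := Nat.log_mono_right (hT t ht).2.1
        rw [mul_comm, Nat.log_mul_base (by norm_num) (by omega)] at h1
        omega
      · rw [Nat.div_lt_iff_lt_mul (by positivity)]
        rw [mul_comm (2 * q)]
        refine Nat.mul_lt_mul_of_pos_right ?_ (by omega)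
        rw [pow_succ] at g2
        omega
    refine (Finset.card_le_card hsub).trans ?_
    rw [card_product, card_range, card_range]

open Classical in
/-- the marks of the gaps with `m` prime powers with large coprime exponents -/
noncomputable def NP (X H m T : ℕ) : Finset ℕ :=
  ((Fintype.piFinset fun _ : Fin m => range (Nat.log 2 X + 2)) ×ˢ
    (Fintype.piFinset fun _ : Fin m => range (H + 1))).biUnion fun p =>
      if (∀ i, T < p.1 i) ∧ (Pairwise fun i j => Nat.Coprime (p.1 i) (p.1 j)) then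
        (range (2 * X + 1)).filter fun t => 1 ≤ t ∧ ∀ i, ∃ x : ℕ, x ^ p.1 i = t + p.2 i
      else ∅

theorem card_NP {X H m T q : ℕ} (hX : 1 ≤ X) (hHX : H ≤ X) (hm : 1 ≤ m) (hT : 2 * m ≤ T)
    (hq : 1 ≤ q)
    (hqY : (3 * ((2 : ℝ) ^ m) ^ 4) * (3 * X) < (q : ℝ) ^ (2 ^ m)) :
    (NP X H m T).card ≤ ((Nat.log 2 X + 2) ^ m * (H + 1) ^ m) *
      (((Nat.log 2 X + 2) * (2 * q)) * (m * (Nat.log 2 X + 2) ^ m)) := by
  classical
  obtain ⟨Λ, hΛ⟩ : ∃ Λ, Λ = Nat.log 2 X + 2 := ⟨_, rfl⟩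
  unfold NP
  rw [← hΛ]
  refine (card_biUnion_le_card_mul _ _ ((Λ * (2 * q)) * (m * Λ ^ m)) ?_).trans ?_
  · rintro ⟨b, d⟩ hbd
    rw [mem_product, Fintype.mem_piFinset, Fintype.mem_piFinset] at hbd
    obtain ⟨hbΛ, hdH⟩ := hbd
    simp only at hbΛ hdH ⊢
    split_ifs with h
    · obtain ⟨hbT, hco⟩ := h
      have hb2 : ∀ i, 2 ≤ b i := fun i => by
        have := hbT i
        omega
      have hw : ∑ i, (1 : ℝ) / b i ≤ 1 / 2 := by
        have h1 : ∀ i ∈ (univ : Finset (Fin m)), (1 : ℝ) / b i ≤ 1 / (2 * m) := by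
          intro i _
          have h2 : ((2 * m : ℕ) : ℝ) ≤ b i := by
            exact_mod_cast hT.trans (hbT i).le
          push_cast at h2
          have hm' : (1 : ℝ) ≤ m := by exact_mod_cast hm
          exact one_div_le_one_div_of_le (by linarith) h2
        refine (Finset.sum_le_sum h1).trans (le_of_eq ?_)
        rw [Finset.sum_const, Finset.card_univ, Fintype.card_fin, nsmul_eq_mul]
        have hm' : (m : ℝ) ≠ 0 := by
          have : (1 : ℝ) ≤ m := by exact_mod_cast hm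
          linarith
        field_simp
      have h3 := count_pts (X := X) (q := q) (Y := 3 * X) (b := b) (d := d) hm hb2 hco hw hX hq
        (by
          have : (1 : ℝ) ≤ X := by exact_mod_cast hX
          linarith) (by
          intro i
          have h4 := mem_range.1 (hdH i)
          have h5 : d i ≤ X := by omega
          have h6 : (d i : ℝ) ≤ X := by exact_mod_cast h5
          push_cast
          linarith) hqY ((range (2 * X + 1)).filter fun t => 1 ≤ t ∧ ∀ i, ∃ x : ℕ, x ^ b i = t + d i)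
        (by
          intro t ht
          rw [mem_filter, mem_range] at ht
          exact ⟨ht.2.1, by omega, ht.2.2⟩)
      refine h3.trans ?_
      rw [← hΛ]
      refine Nat.mul_le_mul_left _ (Nat.mul_le_mul_left _ ?_)
      calc ∏ i, b i ≤ ∏ _i : Fin m, Λ := Finset.prod_le_prod' fun i _ => (mem_range.1 (hbΛ i)).le
        _ = Λ ^ m := by rw [Finset.prod_const, Finset.card_univ, Fintype.card_fin]
    · rw [card_empty]
      exact Nat.zero_le _
  · refine Nat.mul_le_mul_right _ ?_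
    rw [card_product, Fintype.card_piFinset, Fintype.card_piFinset]
    simp

end Pool.Agent.Run7.h880
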