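import Mathlib
import Pool.Agent.Run7.h880.Marks

/-!
The gaps in which the quotient of the least common multiples is large.
-/

set_option autoImplicit false

namespace Pool.Agent.Run7.h880

open Finset Nd8d74632

/-- two `g`-th powers, `g ≥ 2`, greater than `H ^ 2` differ by more than `H` -/
theorem pow_far {A B g H : ℕ} (hg : 2 ≤ g) (hAB : A ^ g < B ^ g) (hA : H ^ 2 < A ^ g) :
    A ^ g + H < B ^ g := by
  have hlt : A < B := lt_of_pow_lt_pow_left₀ g (Nat.zero_le _) hAB
  obtain ⟨g', rfl⟩ : ∃ g', g = g' + 1 := ⟨g - 1, by omega⟩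
  have hA1 : 1 ≤ A := by
    by_contra h0
    have : A = 0 := by omega
    subst this
    rw [zero_pow (by omega)] at hA
    omega
  have h1 : A ^ (g' + 1) + A ^ g' ≤ B ^ (g' + 1) := by
    calc A ^ (g' + 1) + A ^ g' = A ^ g' * (A + 1) := by ring
      _ ≤ B ^ g' * B := Nat.mul_le_mul (Nat.pow_le_pow_left hlt.le _) hlt
      _ = B ^ (g' + 1) := by ring
  have h2 : H < A ^ g' := by
    by_contra hcon
    push Not at hcon
    have h3 : A ^ (g' + 1) ≤ (A ^ g') ^ 2 := by
      rw [← pow_mul]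
      exact Nat.pow_le_pow_right hA1 (by omega)
    have h4 : (A ^ g') ^ 2 ≤ H ^ 2 := Nat.pow_le_pow_left hcon 2
    omega
  omega

theorem mark_of_large {X H m r k : ℕ} (hm : 1 ≤ m) (hr : 1 ≤ r)
    (hkX : Nat.nth Nat.Prime k ≤ X)
    (hw : ∀ m n : ℕ, Nat.nth Nat.Prime k < m → m ≤ n → n < Nat.nth Nat.Prime (k + 1) →
      IsPrimePow m → IsPrimePow n → n ≤ m + H)
    (hR : Nat.nth Nat.Prime k ≤
      (lcm_upto (Nat.nth Nat.Prime (k + 1) - 1) / lcm_upto (Nat.nth Nat.Prime k)) ^ r)
    (hRp : ¬ (lcm_upto (Nat.nth Nat.Prime (k + 1) - 1) / lcm_upto (Nat.nth Nat.Prime k)).Prime) :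
    ∃ N ∈ NN X H (2 * r * m) ∪ NP X H m (2 * r * m),
      Nat.nth Nat.Prime k < N ∧ N < Nat.nth Nat.Prime (k + 1) := by
  classical
  obtain ⟨T, hT⟩ : ∃ T, T = 2 * r * m := ⟨_, rfl⟩
  rw [← hT]
  have hT2 : 2 ≤ T := by
    rw [hT]
    calc 2 = 2 * 1 * 1 := rfl
      _ ≤ 2 * r * m := Nat.mul_le_mul (Nat.mul_le_mul_left _ hr) hm
  have hpp := Nat.prime_nth_prime k
  have hlt : Nat.nth Nat.Prime k < Nat.nth Nat.Prime (k + 1) :=
    Nat.nth_strictMono Nat.infinite_setOfPred_prime (Nat.lt_succ_self k)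
  have hn2 := next_le k
  obtain ⟨R, hRdef⟩ : ∃ R, R =
    lcm_upto (Nat.nth Nat.Prime (k + 1) - 1) / lcm_upto (Nat.nth Nat.Prime k) := ⟨_, rfl⟩
  have hR1 : R ≠ 1 := by
    intro h1
    rw [← hRdef, h1, one_pow] at hR
    have := hpp.one_lt
    omega
  have hq0 : R.minFac.Prime := Nat.minFac_prime hR1
  have htwo := two_powers_of_ne (k := k) hq0 (by rw [← hRdef]; exact Nat.minFac_dvd R) (by
    rw [← hRdef]
    intro h
    rw [← hRdef] at hRp
    apply hRp
    rw [h]
    exact hq0)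
  have hle : R ≤ ∏ j ∈ (Ioo (Nat.nth Nat.Prime k) (Nat.nth Nat.Prime (k + 1))).filter IsPrimePow,
      j.minFac := by
    rw [hRdef]
    exact Nat.div_le_of_le_mul (lcm_gap_le _ _ hlt)
  rw [← hRdef] at hR
  obtain ⟨p, hp⟩ : ∃ p, p = Nat.nth Nat.Prime k := ⟨_, rfl⟩
  obtain ⟨P, hP⟩ : ∃ P, P = Nat.nth Nat.Prime (k + 1) := ⟨_, rfl⟩
  obtain ⟨W, hW⟩ : ∃ W, W = (Ioo p P).filter IsPrimePow := ⟨_, rfl⟩
  rw [← hp, ← hP, ← hW] at hle
  have hmemW : ∀ j, j ∈ W ↔ (p < j ∧ j < P) ∧ IsPrimePow j := by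
    intro j
    rw [hW, mem_filter, mem_Ioo]
  have hp2 : 2 ≤ p := by
    rw [hp]
    exact hpp.two_le
  -- the exponents
  obtain ⟨ex, hex⟩ : ∃ ex : ℕ → ℕ, ex = fun j => j.factorization j.minFac := ⟨_, rfl⟩
  have hpow : ∀ j ∈ W, j.minFac.Prime ∧ j.minFac ^ ex j = j := by
    intro j hj
    have h1 := ((hmemW j).1 hj).2
    refine ⟨Nat.minFac_prime h1.one_lt.ne', ?_⟩
    rw [hex]
    exact h1.minFac_pow_factorization_eq
  have hdist : ∀ j ∈ W, ∀ j' ∈ W, j ≤ j' → j' ≤ j + H := by
    intro j hj j' hj' hjj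
    have h1 := (hmemW j).1 hj
    have h2 := (hmemW j').1 hj'
    rw [hp] at h1
    rw [hP] at h2
    exact hw j j' h1.1.1 hjj h2.1.2 h1.2 h2.2
  by_cases hA : ∃ j ∈ W, ex j ≤ T
  · -- a small exponent
    obtain ⟨j, hj, hjT⟩ := hA
    obtain ⟨j', hj', hne⟩ : ∃ j' ∈ W, j ≠ j' := by
      obtain ⟨e, r', f, hr', hneq, a1, a2, a3, a4⟩ := htwo
      have hf0 : f ≠ 0 := by
        rintro rfl
        rw [pow_zero] at a3
        have := hpp.one_lt
        omega
      have he0 : e ≠ 0 := by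
        rintro rfl
        rw [pow_zero] at a1
        have := hpp.one_lt
        omega
      have b1 : R.minFac ^ e ∈ W := by
        rw [hmemW, hp, hP]
        exact ⟨⟨a1, a2⟩, hq0.prime.isPrimePow.pow he0⟩
      have b2 : r' ^ f ∈ W := by
        rw [hmemW, hp, hP]
        exact ⟨⟨a3, a4⟩, hr'.prime.isPrimePow.pow hf0⟩
      by_cases h : j = R.minFac ^ e
      · exact ⟨r' ^ f, b2, by rw [h]; exact hneq⟩
      · exact ⟨_, b1, h⟩
    obtain ⟨c1, c2⟩ := hpow j hj
    obtain ⟨c3, c4⟩ := hpow j' hj'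
    have h1 := (hmemW j).1 hj
    have h2 := (hmemW j').1 hj'
    have hbad : k ∈ Bad X H T := by
      refine ⟨hkX, j.minFac, j'.minFac, ex j, ex j', c1, c3, hjT, ?_⟩
      rw [c2, c4, ← hp, ← hP]
      refine ⟨hne, ?_, ?_, h1.1.1, h1.1.2, h2.1.1, h2.1.2⟩
      · rcases le_total j j' with h | h
        · omega
        · exact hdist j' hj' j hj h
      · rcases le_total j' j with h | h
        · omega
        · exact hdist j hj j' hj' h
    obtain ⟨N, hN, h3⟩ := bad_mark hT2 hbad
    exact ⟨N, mem_union_left _ hN, h3⟩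
  · push Not at hA
    -- many prime powers
    have hcard : m ≤ W.card := by
      have h1 : R ^ T ≤ (2 * p) ^ W.card := by
        calc R ^ T ≤ (∏ j ∈ W, j.minFac) ^ T := Nat.pow_le_pow_left hle _
          _ = ∏ j ∈ W, j.minFac ^ T := by rw [Finset.prod_pow]
          _ ≤ ∏ _j ∈ W, 2 * p := by
              refine Finset.prod_le_prod' fun j hj => ?_
              obtain ⟨c1, c2⟩ := hpow j hj
              have h2 := ((hmemW j).1 hj).1.2
              calc j.minFac ^ T ≤ j.minFac ^ ex j := Nat.pow_le_pow_right c1.pos (hA j hj).le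
                _ = j := c2
                _ ≤ 2 * p := by
                  rw [hp]
                  rw [hP] at h2
                  omega
          _ = (2 * p) ^ W.card := by rw [Finset.prod_const]
      have h2 : p ^ (2 * m) ≤ (p ^ 2) ^ W.card := by
        calc p ^ (2 * m) ≤ (R ^ r) ^ (2 * m) := by
              refine Nat.pow_le_pow_left ?_ _
              rw [hp]
              exact hR
          _ = R ^ T := by
              rw [← pow_mul, hT]
              congr 1
              ring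
          _ ≤ (2 * p) ^ W.card := h1
          _ ≤ (p ^ 2) ^ W.card := by
              refine Nat.pow_le_pow_left ?_ _
              rw [sq]
              exact Nat.mul_le_mul_right _ hp2
      rw [← pow_mul] at h2
      have h3 := (Nat.pow_le_pow_iff_right (by omega)).1 h2
      omega
    have hW0 : W.Nonempty := by
      rw [← Finset.card_pos]
      omega
    obtain ⟨t, ht⟩ : ∃ t, t = W.min' hW0 := ⟨_, rfl⟩
    have htW : t ∈ W := by
      rw [ht]
      exact Finset.min'_mem W hW0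
    have htmin : ∀ j ∈ W, t ≤ j := by
      intro j hj
      rw [ht]
      exact Finset.min'_le W j hj
    have htgap := ((hmemW t).1 htW).1
    by_cases htH : t ≤ H ^ 2
    · refine ⟨t, mem_union_left _ ?_, by rw [← hp]; exact htgap.1, by rw [← hP]; exact htgap.2⟩
      simp only [NN, mem_union]
      left; left; left
      rw [mem_range]
      omega
    push Not at htH
    refine ⟨t, mem_union_right _ ?_, by rw [← hp]; exact htgap.1, by rw [← hP]; exact htgap.2⟩
    obtain ⟨s, hsW, hsm⟩ := Finset.exists_subset_card_eq hcard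
    obtain ⟨e⟩ : Nonempty (Fin m ≃ s) := ⟨Fintype.equivOfCardEq (by
      rw [Fintype.card_fin, Fintype.card_coe, hsm])⟩
    have hg : ∀ i, (e i : ℕ) ∈ W := fun i => hsW (e i).2
    unfold NP
    rw [mem_biUnion]
    refine ⟨(fun i => ex (e i), fun i => (e i : ℕ) - t), ?_, ?_⟩
    · rw [mem_product, Fintype.mem_piFinset, Fintype.mem_piFinset]
      constructor
      · intro i
        rw [mem_range]
        obtain ⟨c1, c2⟩ := hpow _ (hg i)
        have h1 : 2 ^ ex (e i) ≤ 2 * X := by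
          calc 2 ^ ex (e i) ≤ (e i : ℕ).minFac ^ ex (e i) := Nat.pow_le_pow_left c1.two_le _
            _ = e i := c2
            _ ≤ 2 * X := by
              have h2 := ((hmemW _).1 (hg i)).1.2
              omega
        have h2 := Nat.le_log_of_pow_le (by norm_num) h1
        rw [mul_comm, Nat.log_mul_base (by norm_num) (by omega)] at h2
        show ex (e i) < _
        omega
      · intro i
        rw [mem_range]
        have h1 := hdist t htW _ (hg i) (htmin _ (hg i))
        show (e i : ℕ) - t < _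
        omega
    · rw [if_pos]
      · rw [mem_filter, mem_range]
        refine ⟨by omega, by omega, fun i => ⟨(e i : ℕ).minFac, ?_⟩⟩
        show (e i : ℕ).minFac ^ ex (e i) = t + ((e i : ℕ) - t)
        rw [(hpow _ (hg i)).2]
        have := htmin _ (hg i)
        omega
      · refine ⟨fun i => hA _ (hg i), ?_⟩
        intro i i' hii
        show Nat.Coprime (ex (e i)) (ex (e i'))
        have hne : (e i : ℕ) ≠ e i' := fun h => hii (e.injective (Subtype.ext h))
        -- symmetric statement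
        have key : ∀ a b : ℕ, a ∈ W → b ∈ W → a < b → Nat.Coprime (ex a) (ex b) := by
          intro a b ha hb hab
          by_contra hco
          obtain ⟨g, hg⟩ : ∃ g, g = Nat.gcd (ex a) (ex b) := ⟨_, rfl⟩
          have hg1 : g ≠ 1 := by
            rw [hg]
            exact hco
          have hg0 : g ≠ 0 := by
            rw [hg]
            have := hA a ha
            exact (Nat.gcd_pos_of_pos_left _ (by omega)).ne'
          obtain ⟨u, hu⟩ : g ∣ ex a := by
            rw [hg]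
            exact Nat.gcd_dvd_left _ _
          obtain ⟨v, hv⟩ : g ∣ ex b := by
            rw [hg]
            exact Nat.gcd_dvd_right _ _
          have ea : (a.minFac ^ u) ^ g = a := by
            rw [← pow_mul, mul_comm, ← hu]
            exact (hpow a ha).2
          have eb : (b.minFac ^ v) ^ g = b := by
            rw [← pow_mul, mul_comm, ← hv]
            exact (hpow b hb).2
          have h1 := pow_far (A := a.minFac ^ u) (B := b.minFac ^ v) (g := g) (H := H) (by omega)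
            (by rw [ea, eb]; exact hab) (by
              rw [ea]
              exact lt_of_lt_of_le htH (htmin a ha))
          rw [ea, eb] at h1
          have h2 := hdist a ha b hb hab.le
          omega
        rcases lt_or_gt_of_ne hne with h | h
        · exact key _ _ (hg i) (hg i') h
        · exact (key _ _ (hg i') (hg i) h).symm

theorem twelve_pow (M : ℕ) (hM : 2 ≤ M) : 9 * M ^ 4 ≤ 12 ^ M := by
  induction M, hM using Nat.le_induction with
  | base => norm_num
  | succ M hM ih =>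
    have h1 : (M + 1) ^ 4 ≤ 12 * M ^ 4 := by
      have h2 : 2 * (M + 1) ≤ 3 * M := by omega
      have h3 : (2 * (M + 1)) ^ 4 ≤ (3 * M) ^ 4 := Nat.pow_le_pow_left h2 4
      rw [mul_pow, mul_pow] at h3
      norm_num at h3
      have h4 : 0 ≤ M ^ 4 := Nat.zero_le _
      omega
    calc 9 * (M + 1) ^ 4 ≤ 9 * (12 * M ^ 4) := Nat.mul_le_mul_left _ h1
      _ = 12 * (9 * M ^ 4) := by ring
      _ ≤ 12 * 12 ^ M := Nat.mul_le_mul_left _ ih
      _ = 12 ^ (M + 1) := by ring

/-- **The number of the gaps with a large quotient.** -/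
theorem fail_count {X H m r : ℕ} (hX : 2 ≤ X) (hH : 2 ≤ H) (hm : 1 ≤ m) (hr : 1 ≤ r) :
    {k : ℕ | Nat.nth Nat.Prime k ≤ X ∧
      (∀ m n : ℕ, Nat.nth Nat.Prime k < m → m ≤ n → n < Nat.nth Nat.Prime (k + 1) →
        IsPrimePow m → IsPrimePow n → n ≤ m + H) ∧
      Nat.nth Nat.Prime k ≤
        (lcm_upto (Nat.nth Nat.Prime (k + 1) - 1) / lcm_upto (Nat.nth Nat.Prime k)) ^ r ∧
      ¬ (lcm_upto (Nat.nth Nat.Prime (k + 1) - 1) /
        lcm_upto (Nat.nth Nat.Prime k)).Prime}.Finite ∧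
    ({k : ℕ | Nat.nth Nat.Prime k ≤ X ∧
      (∀ m n : ℕ, Nat.nth Nat.Prime k < m → m ≤ n → n < Nat.nth Nat.Prime (k + 1) →
        IsPrimePow m → IsPrimePow n → n ≤ m + H) ∧
      Nat.nth Nat.Prime k ≤
        (lcm_upto (Nat.nth Nat.Prime (k + 1) - 1) / lcm_upto (Nat.nth Nat.Prime k)) ^ r ∧
      ¬ (lcm_upto (Nat.nth Nat.Prime (k + 1) - 1) /
        lcm_upto (Nat.nth Nat.Prime k)).Prime}.ncard : ℝ) ≤
      (X : ℝ) ^ ((1 : ℝ) / 2 ^ m) * ((r * m * H * (Nat.log 2 X + 2) : ℕ) : ℝ) ^ (40 * r * m) := by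
  classical
  obtain ⟨E, hE⟩ : ∃ E : Set ℕ, E = {k : ℕ | Nat.nth Nat.Prime k ≤ X ∧
      (∀ m n : ℕ, Nat.nth Nat.Prime k < m → m ≤ n → n < Nat.nth Nat.Prime (k + 1) →
        IsPrimePow m → IsPrimePow n → n ≤ m + H) ∧
      Nat.nth Nat.Prime k ≤
        (lcm_upto (Nat.nth Nat.Prime (k + 1) - 1) / lcm_upto (Nat.nth Nat.Prime k)) ^ r ∧
      ¬ (lcm_upto (Nat.nth Nat.Prime (k + 1) - 1) /
        lcm_upto (Nat.nth Nat.Prime k)).Prime} := ⟨_, rfl⟩
  rw [← hE]
  obtain ⟨Λ, hΛ⟩ : ∃ Λ, Λ = Nat.log 2 X + 2 := ⟨_, rfl⟩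
  rw [← hΛ]
  obtain ⟨P, hP⟩ : ∃ P, P = r * m * H * Λ := ⟨_, rfl⟩
  rw [← hP]
  have hlog1 : 1 ≤ Nat.log 2 X := Nat.le_log_of_pow_le (by norm_num) (by omega)
  have hΛ3 : 3 ≤ Λ := by omega
  have hrm : 1 ≤ r * m := Nat.mul_pos hr hm
  have hP6 : 6 ≤ P := by
    rw [hP]
    calc 6 = 1 * 2 * 3 := rfl
      _ ≤ r * m * H * Λ := Nat.mul_le_mul (Nat.mul_le_mul hrm hH) hΛ3
  have hHP : H + 1 ≤ P := by
    rw [hP]
    calc H + 1 ≤ 1 * H * 3 := by omega
      _ ≤ r * m * H * Λ := Nat.mul_le_mul (Nat.mul_le_mul_right _ hrm) hΛ3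
  have hΛP : Λ ≤ P := by
    rw [hP]
    calc Λ = 1 * 1 * Λ := by ring
      _ ≤ r * m * H * Λ := Nat.mul_le_mul_right _ (Nat.mul_le_mul hrm (by omega))
  have hmP : m ≤ P := by
    rw [hP]
    calc m = 1 * m * 1 * 1 := by ring
      _ ≤ r * m * H * Λ :=
        Nat.mul_le_mul (Nat.mul_le_mul (Nat.mul_le_mul_right _ hr) (by omega)) (by omega)
  have hP1 : 1 ≤ P := by omega
  have hPR : (1 : ℝ) ≤ P := by exact_mod_cast hP1
  have hXR : (1 : ℝ) ≤ X := by
    have : 1 ≤ X := by omega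
    exact_mod_cast this
  have hZ1 : (1 : ℝ) ≤ (X : ℝ) ^ ((1 : ℝ) / 2 ^ m) := Real.one_le_rpow hXR (by positivity)
  rcases Nat.lt_or_ge X H with hXH | hXH
  · -- trivial case
    have hsub : E ⊆ ((range X : Finset ℕ) : Set ℕ) := by
      intro k hk
      rw [hE] at hk
      rw [Finset.mem_coe, mem_range]
      have h1 := hk.1
      have h2 : k < Nat.nth Nat.Prime k := by
        have h3 : k ≤ Nat.nth Nat.Prime k := Nat.le_nth (fun h => absurd h Nat.infinite_setOfPred_prime)
        have h4 : Nat.nth Nat.Prime k ≠ k := by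
          intro h4
          have h5 := Nat.nth_strictMono Nat.infinite_setOfPred_prime
          have h6 : ∀ j, j + Nat.nth Nat.Prime 0 ≤ Nat.nth Nat.Prime j := by
            intro j
            induction j with
            | zero => omega
            | succ j ih =>
              have h8 : Nat.nth Nat.Prime j < Nat.nth Nat.Prime (j + 1) := h5 (Nat.lt_succ_self j)
              omega
          have h7 := h6 k
          have h8 := (Nat.prime_nth_prime 0).two_le
          omega
        omega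
      omega
    refine ⟨(Finset.finite_toSet _).subset hsub, ?_⟩
    have h1 : E.ncard ≤ X := by
      have := Set.ncard_le_ncard hsub (Finset.finite_toSet _)
      rwa [Set.ncard_coe_finset, card_range] at this
    have h2 : (E.ncard : ℝ) ≤ P := by
      have : E.ncard ≤ P := by omega
      exact_mod_cast this
    calc (E.ncard : ℝ) ≤ P := h2
      _ ≤ (P : ℝ) ^ (40 * r * m) := le_self_pow₀ hPR (by
          have : 40 * r * m = 40 * (r * m) := by ring
          omega)
      _ = 1 * (P : ℝ) ^ (40 * r * m) := (one_mul _).symm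
      _ ≤ _ := mul_le_mul_of_nonneg_right hZ1 (by positivity)
  · obtain ⟨T, hT⟩ : ∃ T, T = 2 * r * m := ⟨_, rfl⟩
    obtain ⟨h1, h2⟩ := ncard_of_mark (B := E) (F := NN X H T ∪ NP X H m T) (by
      intro k hk
      rw [hE] at hk
      obtain ⟨a1, a2, a3, a4⟩ := hk
      rw [hT]
      exact mark_of_large hm hr a1 a2 a3 a4)
    refine ⟨h1, ?_⟩
    have hT2 : 2 ≤ T := by
      rw [hT]
      calc 2 = 2 * 1 * 1 := rfl
        _ ≤ 2 * r * m := Nat.mul_le_mul (Nat.mul_le_mul_left _ hr) hm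
    -- the first part
    have h3 : (NN X H T).card ≤ P ^ (36 * (r * m)) := by
      refine (card_NN' hX hH hT2).trans ?_
      rw [← hΛ]
      have e1 : T * H ≤ P := by
        rw [hT, hP]
        calc 2 * r * m * H = r * m * H * 2 := by ring
          _ ≤ r * m * H * Λ := Nat.mul_le_mul_left _ (by omega)
      calc (T * H) ^ (15 * T) * Λ ^ (3 * T) ≤ P ^ (15 * T) * P ^ (3 * T) :=
            Nat.mul_le_mul (Nat.pow_le_pow_left e1 _) (Nat.pow_le_pow_left hΛP _)
        _ = P ^ (36 * (r * m)) := by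
            rw [← pow_add]
            congr 1
            rw [hT]
            ring
    -- the second part
    obtain ⟨Z, hZ⟩ : ∃ Z : ℝ, Z = (X : ℝ) ^ ((1 : ℝ) / 2 ^ m) := ⟨_, rfl⟩
    rw [← hZ] at hZ1 ⊢
    obtain ⟨M, hM⟩ : ∃ M : ℕ, M = 2 ^ m := ⟨_, rfl⟩
    have hM2 : 2 ≤ M := by
      rw [hM]
      calc 2 = 2 ^ 1 := rfl
        _ ≤ 2 ^ m := Nat.pow_le_pow_right (by norm_num) hm
    have hZM : Z ^ M = X := by
      rw [hZ, ← Real.rpow_natCast, ← Real.rpow_mul (by linarith)]
      have : (1 : ℝ) / 2 ^ m * (M : ℝ) = 1 := by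
        rw [hM]
        push_cast
        field_simp
      rw [this, Real.rpow_one]
    obtain ⟨q, hq⟩ : ∃ q : ℕ, q = ⌊12 * Z⌋₊ + 1 := ⟨_, rfl⟩
    have hq1 : 12 * Z < q := by
      rw [hq]
      push_cast
      exact Nat.lt_floor_add_one _
    have hq2 : (q : ℝ) ≤ 13 * Z := by
      rw [hq]
      push_cast
      have := Nat.floor_le (show 0 ≤ 12 * Z by linarith)
      linarith
    have hqY : (3 * ((2 : ℝ) ^ m) ^ 4) * (3 * X) < (q : ℝ) ^ (2 ^ m) := by
      rw [← hM]
      have e1 : ((2 : ℝ) ^ m) = (M : ℝ) := by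
        rw [hM]
        push_cast
        rfl
      rw [e1]
      calc 3 * (M : ℝ) ^ 4 * (3 * X) = ((9 * M ^ 4 : ℕ) : ℝ) * X := by
            push_cast
            ring
        _ ≤ ((12 ^ M : ℕ) : ℝ) * X := by
            refine mul_le_mul_of_nonneg_right ?_ (by positivity)
            exact_mod_cast twelve_pow M hM2
        _ = (12 * Z) ^ M := by
            rw [mul_pow, hZM]
            push_cast
            ring
        _ < (q : ℝ) ^ M := pow_lt_pow_left₀ hq1 (by linarith) (by omega)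
    have h4 := card_NP (X := X) (H := H) (m := m) (T := T) (q := q) (by omega) hXH hm (by
      rw [hT]
      calc 2 * m = 2 * 1 * m := by ring
        _ ≤ 2 * r * m := Nat.mul_le_mul_right _ (Nat.mul_le_mul_left _ hr)) (by omega) hqY
    rw [← hΛ] at h4
    have h5 : ((NP X H m T).card : ℝ) ≤ Z * (P : ℝ) ^ (36 * (r * m)) := by
      have e1 : ((NP X H m T).card : ℝ) ≤ (((Λ : ℝ) ^ m * ((H : ℝ) + 1) ^ m) *
          (((Λ : ℝ) * (2 * q)) * (m * (Λ : ℝ) ^ m))) := by
        exact_mod_cast h4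
      refine e1.trans ?_
      have f1 : (Λ : ℝ) ≤ P := by exact_mod_cast hΛP
      have f2 : (H : ℝ) + 1 ≤ P := by exact_mod_cast hHP
      have f3 : (m : ℝ) ≤ P := by exact_mod_cast hmP
      have f4 : (6 : ℝ) ≤ P := by exact_mod_cast hP6
      have f0 : (0 : ℝ) ≤ P := by linarith
      have f5 : (2 : ℝ) * q ≤ P ^ 2 * Z := by
        have : (36 : ℝ) ≤ (P : ℝ) ^ 2 := by nlinarith
        nlinarith
      calc ((Λ : ℝ) ^ m * ((H : ℝ) + 1) ^ m) * (((Λ : ℝ) * (2 * q)) * (m * (Λ : ℝ) ^ m))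
          ≤ ((P : ℝ) ^ m * (P : ℝ) ^ m) * (((P : ℝ) * (P ^ 2 * Z)) * (P * (P : ℝ) ^ m)) := by
            gcongr
        _ = Z * (P : ℝ) ^ (3 * m + 4) := by ring
        _ ≤ Z * (P : ℝ) ^ (36 * (r * m)) := by
            refine mul_le_mul_of_nonneg_left ?_ (by linarith)
            refine pow_le_pow_right₀ hPR ?_
            have : m ≤ r * m := Nat.le_mul_of_pos_left m hr
            omega
    have h6 : (E.ncard : ℝ) ≤ (NN X H T).card + (NP X H m T).card := by
      have := h2.trans (card_union_le _ _)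
      exact_mod_cast this
    have h3' : ((NN X H T).card : ℝ) ≤ (P : ℝ) ^ (36 * (r * m)) := by exact_mod_cast h3
    have hPp : (0 : ℝ) ≤ (P : ℝ) ^ (36 * (r * m)) := by positivity
    calc (E.ncard : ℝ) ≤ (NN X H T).card + (NP X H m T).card := h6
      _ ≤ (P : ℝ) ^ (36 * (r * m)) + Z * (P : ℝ) ^ (36 * (r * m)) := add_le_add h3' h5
      _ ≤ Z * (P : ℝ) ^ (36 * (r * m)) + Z * (P : ℝ) ^ (36 * (r * m)) := by
          have := mul_le_mul_of_nonneg_right hZ1 hPp
          linarith
      _ = Z * (2 * (P : ℝ) ^ (36 * (r * m))) := by ring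
      _ ≤ Z * ((P : ℝ) * (P : ℝ) ^ (36 * (r * m))) := by
          refine mul_le_mul_of_nonneg_left ?_ (by linarith)
          refine mul_le_mul_of_nonneg_right ?_ hPp
          have : (6 : ℝ) ≤ P := by exact_mod_cast hP6
          linarith
      _ = Z * (P : ℝ) ^ (36 * (r * m) + 1) := by rw [pow_succ]; ring
      _ ≤ Z * (P : ℝ) ^ (40 * r * m) := by
          refine mul_le_mul_of_nonneg_left ?_ (by linarith)
          refine pow_le_pow_right₀ hPR ?_
          have : 40 * r * m = 40 * (r * m) := by ring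
          omega

end Pool.Agent.Run7.h880
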