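import Mathlib

/-!
Integer points near a curve with given third derivative: local analysis.
-/

set_option autoImplicit false

namespace Pool.Agent.Run7.h880

open Finset

/-- the points with `D ∣ t (A t + B)` in a short interval -/
theorem quad_count {D : ℕ} {A B : ℤ} (hD : 0 < D) (hco : ∀ π : ℤ, Prime π → π ∣ A → π ∣ B →
    ¬ π ∣ D) {κ : ℝ} (hκ : 0 < κ) (hDκ : κ ^ 2 ≤ D) (S : Finset ℕ)
    (hS : ∀ t ∈ S, 0 < t ∧ (t : ℝ) < 6 * κ ∧ (D : ℤ) ∣ t * (A * t + B)) :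
    S.card ≤ 6 * D.divisors.card := by
  classical
  refine (Finset.card_le_mul_card_image (f := fun t => Nat.gcd t D) S 6 ?_).trans ?_
  · intro q hq
    -- points of a class are separated
    have hsep : ∀ t ∈ S.filter (fun t => Nat.gcd t D = q), ∀ t' ∈ S.filter (fun t => Nat.gcd t D = q),
        t < t' → κ ≤ (t' : ℝ) - t := by
      intro t ht t' ht' hlt
      rw [mem_filter] at ht ht'
      obtain ⟨htS, htq⟩ := ht
      obtain ⟨htS', htq'⟩ := ht'
      have hq0 : 0 < q := by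
        rw [← htq]
        exact Nat.gcd_pos_of_pos_left _ (hS t htS).1
      obtain ⟨E, hE⟩ : q ∣ D := by
        rw [← htq]
        exact Nat.gcd_dvd_right _ _
      have hE0 : 0 < E := Nat.pos_of_ne_zero (by
        rintro rfl
        rw [mul_zero] at hE
        omega)
      -- `E ∣ A t + B`
      have hdiv : ∀ t : ℕ, t ∈ S → Nat.gcd t D = q → (E : ℤ) ∣ A * t + B := by
        intro t htS htq
        obtain ⟨v, hv⟩ : q ∣ t := by
          rw [← htq]
          exact Nat.gcd_dvd_left _ _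
        have hcop : Nat.Coprime E v := by
          have h1 : Nat.gcd (q * v) (q * E) = q := by rw [← hv, ← hE]; exact htq
          rw [Nat.gcd_mul_left] at h1
          have h2 : Nat.gcd v E = 1 := by
            have : q * Nat.gcd v E = q * 1 := by rw [h1, mul_one]
            exact Nat.eq_of_mul_eq_mul_left hq0 this
          exact (Nat.gcd_comm _ _).trans h2
        have h3 := (hS t htS).2.2
        have h4 : (q : ℤ) * E ∣ (q : ℤ) * (v * (A * t + B)) := by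
          have e1 : (D : ℤ) = (q : ℤ) * E := by exact_mod_cast hE
          have e2 : (t : ℤ) * (A * t + B) = (q : ℤ) * (v * (A * t + B)) := by
            have e3 : (t : ℤ) = (q : ℤ) * v := by exact_mod_cast hv
            conv_lhs => rw [e3]
            rw [e3]
            ring
          rw [← e1, ← e2]
          exact h3
        have h5 : (E : ℤ) ∣ v * (A * t + B) :=
          Int.dvd_of_mul_dvd_mul_left (by exact_mod_cast hq0.ne') h4
        have h6 : IsCoprime (E : ℤ) (v : ℤ) := by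
          rw [Int.isCoprime_iff_gcd_eq_one, Int.gcd_natCast_natCast]
          exact hcop
        exact h6.dvd_of_dvd_mul_left h5
      have h1 := hdiv t htS htq
      have h2 := hdiv t' htS' htq'
      have h3 : (E : ℤ) ∣ A * ((t' : ℤ) - t) := by
        have := dvd_sub h2 h1
        have e : A * (t' : ℤ) + B - (A * t + B) = A * ((t' : ℤ) - t) := by ring
        rwa [e] at this
      have h4 : IsCoprime (E : ℤ) A := by
        rw [Int.isCoprime_iff_gcd_eq_one]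
        by_contra hne
        obtain ⟨π, hπ, hπd⟩ := Nat.exists_prime_and_dvd hne
        have g1 : (π : ℤ) ∣ E := (Int.natCast_dvd_natCast.2 hπd).trans (Int.gcd_dvd_left _ _)
        have g2 : (π : ℤ) ∣ A := (Int.natCast_dvd_natCast.2 hπd).trans (Int.gcd_dvd_right _ _)
        have g3 : (π : ℤ) ∣ B := by
          have := dvd_sub (g1.trans h1) (Dvd.dvd.mul_right g2 (t : ℤ))
          rwa [add_sub_cancel_left] at this
        refine hco π (Nat.prime_iff_prime_int.1 hπ) g2 g3 (g1.trans ?_)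
        rw [hE]
        exact ⟨q, by push_cast; ring⟩
      have h5 : (E : ℤ) ∣ (t' : ℤ) - t := h4.dvd_of_dvd_mul_left h3
      have h6 : (q : ℤ) ∣ (t' : ℤ) - t := by
        refine dvd_sub ?_ ?_
        · rw [Int.natCast_dvd_natCast, ← htq']
          exact Nat.gcd_dvd_left _ _
        · rw [Int.natCast_dvd_natCast, ← htq]
          exact Nat.gcd_dvd_left _ _
      have hpos : 0 < (t' : ℤ) - t := by omega
      have h7 : (E : ℤ) ≤ (t' : ℤ) - t := Int.le_of_dvd hpos h5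
      have h8 : (q : ℤ) ≤ (t' : ℤ) - t := Int.le_of_dvd hpos h6
      have h7' : (E : ℝ) ≤ (t' : ℝ) - t := by exact_mod_cast h7
      have h8' : (q : ℝ) ≤ (t' : ℝ) - t := by exact_mod_cast h8
      have h9 : (D : ℝ) = q * E := by exact_mod_cast hE
      have h10 : κ ^ 2 ≤ ((t' : ℝ) - t) ^ 2 := by
        have e1 : (0 : ℝ) ≤ E := Nat.cast_nonneg _
        have e2 : (0 : ℝ) ≤ q := Nat.cast_nonneg _
        calc κ ^ 2 ≤ D := hDκ
          _ = q * E := h9
          _ ≤ ((t' : ℝ) - t) * ((t' : ℝ) - t) := mul_le_mul h8' h7' e1 (by linarith)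
          _ = ((t' : ℝ) - t) ^ 2 := by ring
      have h11 : (0 : ℝ) ≤ (t' : ℝ) - t := by
        have : (t : ℝ) < t' := by exact_mod_cast hlt
        linarith
      exact (pow_le_pow_iff_left₀ hκ.le h11 (by norm_num)).1 h10
    -- hence at most six
    have hmap : ∀ t ∈ S.filter (fun t => Nat.gcd t D = q), ⌊(t : ℝ) / κ⌋₊ ∈ range 6 := by
      intro t ht
      rw [mem_filter] at ht
      rw [mem_range, Nat.floor_lt (by positivity), div_lt_iff₀ hκ]
      have := (hS t ht.1).2.1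
      push_cast
      linarith
    have hinj : Set.InjOn (fun t : ℕ => ⌊(t : ℝ) / κ⌋₊)
        (S.filter (fun t => Nat.gcd t D = q) : Finset ℕ) := by
      intro t ht t' ht' heq
      rw [Finset.mem_coe] at ht ht'
      by_contra hne
      have key : ∀ t ∈ S.filter (fun t => Nat.gcd t D = q),
          ∀ t' ∈ S.filter (fun t => Nat.gcd t D = q), t < t' → ⌊(t : ℝ) / κ⌋₊ < ⌊(t' : ℝ) / κ⌋₊ := by
        intro t ht t' ht' hlt
        have h1 := hsep t ht t' ht' hlt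
        have h2 : (t : ℝ) / κ + 1 ≤ (t' : ℝ) / κ := by
          rw [div_add_one hκ.ne', div_le_div_iff_of_pos_right hκ]
          linarith
        rw [Nat.lt_iff_add_one_le, ← Nat.floor_add_one (by positivity)]
        exact Nat.floor_le_floor h2
      rcases lt_or_gt_of_ne hne with h | h
      · exact (key t ht t' ht' h).ne heq
      · exact (key t' ht' t ht h).ne heq.symm
    have := Finset.card_le_card_of_injOn _ hmap hinj
    rwa [card_range] at this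
  · refine Nat.mul_le_mul_left _ (Finset.card_le_card ?_)
    intro q hq
    rw [mem_image] at hq
    obtain ⟨t, -, rfl⟩ := hq
    rw [Nat.mem_divisors]
    exact ⟨Nat.gcd_dvd_right _ _, hD.ne'⟩

/-- the points `u` of a short interval, with values `y u` near the curve -/
structure Loc (κ : ℝ) (L : ℕ) (A0 A1 : ℝ) (S : Finset ℕ) (y : ℕ → ℤ) (w : ℕ → ℝ) : Prop where
  κ24 : 24 < κ
  L3 : (L : ℝ) ^ 3 ≤ κ ^ 4
  lt : ∀ u ∈ S, u < L
  eq : ∀ u ∈ S, (y u : ℝ) = A0 + A1 * u + 5 / 9 * (κ ^ 2)⁻¹ * u ^ 2 -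
    5 / 81 * (κ ^ 8)⁻¹ * u ^ 3 + w u
  wle : ∀ u ∈ S, |w u| ≤ 3 * (κ ^ 5)⁻¹

section
variable {κ : ℝ} {L : ℕ} {A0 A1 : ℝ} {S : Finset ℕ} {y : ℕ → ℤ} {w : ℕ → ℝ}

theorem vdm_le {L : ℝ} {a b c : ℝ} (ha : 0 ≤ a) (haL : a ≤ L) (hb : 0 ≤ b) (hbL : b ≤ L)
    (hc : 0 ≤ c) (hcL : c ≤ L) : |(b - a) * (c - a) * (c - b)| ≤ L ^ 3 := by
  have hL : 0 ≤ L := ha.trans haL
  have h1 : |b - a| ≤ L := abs_le.2 ⟨by linarith, by linarith⟩
  have h2 : |c - a| ≤ L := abs_le.2 ⟨by linarith, by linarith⟩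
  have h3 : |c - b| ≤ L := abs_le.2 ⟨by linarith, by linarith⟩
  rw [abs_mul, abs_mul]
  calc |b - a| * |c - a| * |c - b| ≤ L * L * L :=
        mul_le_mul (mul_le_mul h1 h2 (abs_nonneg _) hL) h3 (abs_nonneg _) (by positivity)
    _ = L ^ 3 := by ring

theorem Loc.det0 (h : Loc κ L A0 A1 S y w) {a b c d : ℕ} (ha : a ∈ S) (hb : b ∈ S) (hc : c ∈ S)
    (hd : d ∈ S) :
    y d * (((b : ℤ) - a) * (c - a) * (c - b)) - y c * (((b : ℤ) - a) * (d - a) * (d - b)) +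
      y b * (((c : ℤ) - a) * (d - a) * (d - c)) - y a * (((c : ℤ) - b) * (d - b) * (d - c)) = 0 := by
  have hκ : 24 < κ := h.κ24
  have hκ0 : 0 < κ := by linarith
  have hbd : ∀ u ∈ S, (0 : ℝ) ≤ u ∧ (u : ℝ) ≤ L := by
    intro u hu
    exact ⟨Nat.cast_nonneg _, by exact_mod_cast (h.lt u hu).le⟩
  obtain ⟨ha0, haL⟩ := hbd a ha
  obtain ⟨hb0, hbL⟩ := hbd b hb
  obtain ⟨hc0, hcL⟩ := hbd c hc
  obtain ⟨hd0, hdL⟩ := hbd d hd
  have v1 := vdm_le ha0 haL hb0 hbL hc0 hcL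
  have v2 := vdm_le ha0 haL hb0 hbL hd0 hdL
  have v3 := vdm_le ha0 haL hc0 hcL hd0 hdL
  have v4 := vdm_le hb0 hbL hc0 hcL hd0 hdL
  have key : ((y d * (((b : ℤ) - a) * (c - a) * (c - b)) - y c * (((b : ℤ) - a) * (d - a) * (d - b)) +
      y b * (((c : ℤ) - a) * (d - a) * (d - c)) - y a * (((c : ℤ) - b) * (d - b) * (d - c)) : ℤ) : ℝ) =
      -(5 / 81 * (κ ^ 8)⁻¹) * ((((b : ℝ) - a) * (c - a) * (c - b)) * ((d - a) * (d - b) * (d - c))) +
      (w d * (((b : ℝ) - a) * (c - a) * (c - b)) - w c * (((b : ℝ) - a) * (d - a) * (d - b)) +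
        w b * (((c : ℝ) - a) * (d - a) * (d - c)) - w a * (((c : ℝ) - b) * (d - b) * (d - c))) := by
    push_cast
    rw [h.eq a ha, h.eq b hb, h.eq c hc, h.eq d hd]
    ring
  have hL6 : (L : ℝ) ^ 6 ≤ κ ^ 8 := by
    calc (L : ℝ) ^ 6 = ((L : ℝ) ^ 3) ^ 2 := by ring
      _ ≤ (κ ^ 4) ^ 2 := pow_le_pow_left₀ (by positivity) h.L3 2
      _ = κ ^ 8 := by ring
  have b1 : |-(5 / 81 * (κ ^ 8)⁻¹) * ((((b : ℝ) - a) * (c - a) * (c - b)) *
      ((d - a) * (d - b) * (d - c)))| ≤ 5 / 81 := by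
    have e1 : |((d : ℝ) - a) * (d - b) * (d - c)| ≤ (L : ℝ) ^ 3 := by
      have h1 : |(d : ℝ) - a| ≤ L := abs_le.2 ⟨by linarith, by linarith⟩
      have h2 : |(d : ℝ) - b| ≤ L := abs_le.2 ⟨by linarith, by linarith⟩
      have h3 : |(d : ℝ) - c| ≤ L := abs_le.2 ⟨by linarith, by linarith⟩
      have hL : (0 : ℝ) ≤ L := Nat.cast_nonneg _
      rw [abs_mul, abs_mul]
      calc |(d : ℝ) - a| * |(d : ℝ) - b| * |(d : ℝ) - c| ≤ L * L * L :=
            mul_le_mul (mul_le_mul h1 h2 (abs_nonneg _) hL) h3 (abs_nonneg _) (by positivity)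
        _ = (L : ℝ) ^ 3 := by ring
    rw [abs_mul, abs_neg, abs_of_pos (by positivity : (0 : ℝ) < 5 / 81 * (κ ^ 8)⁻¹), abs_mul]
    calc 5 / 81 * (κ ^ 8)⁻¹ * (|((b : ℝ) - a) * (c - a) * (c - b)| *
          |((d : ℝ) - a) * (d - b) * (d - c)|) ≤ 5 / 81 * (κ ^ 8)⁻¹ * ((L : ℝ) ^ 3 * (L : ℝ) ^ 3) := by
          gcongr
      _ = 5 / 81 * ((κ ^ 8)⁻¹ * (L : ℝ) ^ 6) := by ring
      _ ≤ 5 / 81 * 1 := by
          refine mul_le_mul_of_nonneg_left ?_ (by norm_num)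
          rw [inv_mul_le_iff₀ (by positivity), mul_one]
          exact hL6
      _ = 5 / 81 := by norm_num
  have hterm : ∀ (u : ℕ) (v : ℝ), u ∈ S → |v| ≤ (L : ℝ) ^ 3 → |w u * v| ≤ 3 * κ⁻¹ := by
    intro u v hu hv
    rw [abs_mul]
    calc |w u| * |v| ≤ (3 * (κ ^ 5)⁻¹) * κ ^ 4 :=
          mul_le_mul (h.wle u hu) (hv.trans h.L3) (abs_nonneg _) (by positivity)
      _ = 3 * κ⁻¹ := by
          field_simp
  have b2 := hterm d _ hd v1
  have b3 := hterm c _ hc v2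
  have b4 := hterm b _ hb v3
  have b5 := hterm a _ ha v4
  have hκi : 3 * κ⁻¹ < 1 / 8 := by
    rw [← div_eq_mul_inv, div_lt_div_iff₀ hκ0 (by norm_num)]
    linarith
  have hlt : |((y d * (((b : ℤ) - a) * (c - a) * (c - b)) - y c * (((b : ℤ) - a) * (d - a) * (d - b)) +
      y b * (((c : ℤ) - a) * (d - a) * (d - c)) - y a * (((c : ℤ) - b) * (d - b) * (d - c)) : ℤ) : ℝ)| <
      1 := by
    rw [key]
    rw [abs_le] at b1 b2 b3 b4 b5
    rw [abs_lt]
    constructor <;> linarith [b1.1, b1.2, b2.1, b2.2, b3.1, b3.2, b4.1, b4.2, b5.1, b5.2]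
  exact Int.abs_lt_one_iff.1 (by exact_mod_cast hlt)

/-- four points are not well separated -/
theorem Loc.sep (h : Loc κ L A0 A1 S y w) {a b c d : ℕ} (ha : a ∈ S) (hb : b ∈ S) (hc : c ∈ S)
    (hd : d ∈ S) (hab : (a : ℝ) + 6 * κ ≤ b) (hbc : (b : ℝ) + 6 * κ ≤ c)
    (hcd : (c : ℝ) + 6 * κ ≤ d) : False := by
  have hκ : 24 < κ := h.κ24
  have hκ0 : 0 < κ := by linarith
  have h0 := h.det0 ha hb hc hd
  have key : (0 : ℝ) =
      -(5 / 81 * (κ ^ 8)⁻¹) * ((((b : ℝ) - a) * (c - a) * (c - b)) * ((d - a) * (d - b) * (d - c))) +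
      (w d * (((b : ℝ) - a) * (c - a) * (c - b)) - w c * (((b : ℝ) - a) * (d - a) * (d - b)) +
        w b * (((c : ℝ) - a) * (d - a) * (d - c)) - w a * (((c : ℝ) - b) * (d - b) * (d - c))) := by
    have h1 := congrArg (fun z : ℤ => (z : ℝ)) h0
    simp only [Int.cast_zero] at h1
    rw [← h1]
    push_cast
    rw [h.eq a ha, h.eq b hb, h.eq c hc, h.eq d hd]
    ring
  obtain ⟨s, hs⟩ : ∃ s : ℝ, s = 6 * κ := ⟨_, rfl⟩
  rw [← hs] at hab hbc hcd
  have hs0 : 0 < s := by rw [hs]; linarith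
  obtain ⟨p, hp⟩ : ∃ p : ℝ, p = (b : ℝ) - a := ⟨_, rfl⟩
  obtain ⟨q, hq⟩ : ∃ q : ℝ, q = (c : ℝ) - b := ⟨_, rfl⟩
  obtain ⟨r, hr⟩ : ∃ r : ℝ, r = (d : ℝ) - c := ⟨_, rfl⟩
  have hps : s ≤ p := by rw [hp]; linarith
  have hqs : s ≤ q := by rw [hq]; linarith
  have hrs : s ≤ r := by rw [hr]; linarith
  have e1 : (c : ℝ) - a = p + q := by rw [hp, hq]; ring
  have e2 : (d : ℝ) - a = p + q + r := by rw [hp, hq, hr]; ring
  have e3 : (d : ℝ) - b = q + r := by rw [hq, hr]; ring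
  rw [e1, e2, e3, ← hp, ← hq, ← hr] at key
  have hp0 : 0 < p := by linarith
  have hq0 : 0 < q := by linarith
  have hr0 : 0 < r := by linarith
  obtain ⟨V, hV⟩ : ∃ V : ℝ, V = (p * (p + q) * q) * ((p + q + r) * (q + r) * r) := ⟨_, rfl⟩
  have hV0 : 0 < V := by rw [hV]; positivity
  -- each of the four terms is at most `3 κ⁻⁵ V / s ^ 3`
  obtain ⟨W, hW⟩ : ∃ W : ℝ, W = 3 * (κ ^ 5)⁻¹ := ⟨_, rfl⟩
  have hW0 : 0 < W := by rw [hW]; positivity
  have hterm : ∀ (u : ℕ) (v v' : ℝ), u ∈ S → 0 ≤ v → s ^ 3 ≤ v' → v * v' = V →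
      |w u * v| ≤ W * (V / s ^ 3) := by
    intro u v v' hu hv hv' hvv
    rw [abs_mul, abs_of_nonneg hv]
    have h1 : |w u| ≤ W := by rw [hW]; exact h.wle u hu
    refine mul_le_mul h1 ?_ hv hW0.le
    rw [le_div_iff₀ (by positivity), ← hvv]
    exact mul_le_mul_of_nonneg_left hv' hv
  have c3 : ∀ x1 x2 x3 : ℝ, s ≤ x1 → s ≤ x2 → s ≤ x3 → s ^ 3 ≤ x1 * x2 * x3 := by
    intro x1 x2 x3 g1 g2 g3
    calc s ^ 3 = s * s * s := by ring
      _ ≤ x1 * x2 * x3 := mul_le_mul (mul_le_mul g1 g2 hs0.le (by linarith)) g3 hs0.le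
          (mul_nonneg (by linarith) (by linarith))
  have t1 := hterm d (p * (p + q) * q) ((p + q + r) * (q + r) * r) hd (by positivity)
    (c3 _ _ _ (by linarith) (by linarith) hrs) (by rw [hV])
  have t2 := hterm c (p * (p + q + r) * (q + r)) ((p + q) * q * r) hc (by positivity)
    (c3 _ _ _ (by linarith) hqs hrs) (by rw [hV]; ring)
  have t3 := hterm b ((p + q) * (p + q + r) * r) (p * q * (q + r)) hb (by positivity)
    (c3 _ _ _ hps hqs (by linarith)) (by rw [hV]; ring)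
  have t4 := hterm a (q * (q + r) * r) (p * (p + q) * (p + q + r)) ha (by positivity)
    (c3 _ _ _ hps (by linarith) (by linarith)) (by rw [hV]; ring)
  have hmain : 5 / 81 * (κ ^ 8)⁻¹ * V ≤ 4 * (W * (V / s ^ 3)) := by
    rw [abs_le] at t1 t2 t3 t4
    have e4 : p * (p + q) * q * ((p + q + r) * (q + r) * r) = V := hV.symm
    rw [e4] at key
    linarith [t1.1, t1.2, t2.1, t2.2, t3.1, t3.2, t4.1, t4.2]
  have h5 : 5 / 81 * (κ ^ 8)⁻¹ ≤ 4 * (W / s ^ 3) := by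
    have e5 : 4 * (W * (V / s ^ 3)) = 4 * (W / s ^ 3) * V := by ring
    rw [e5] at hmain
    exact le_of_mul_le_mul_right hmain hV0
  rw [hW, hs] at h5
  have e6 : 4 * (3 * (κ ^ 5)⁻¹ / (6 * κ) ^ 3) = 12 / 216 * (κ ^ 8)⁻¹ := by
    field_simp
    ring
  rw [e6] at h5
  have h6 : (0 : ℝ) < (κ ^ 8)⁻¹ := by positivity
  have h7 : (5 : ℝ) / 81 ≤ 12 / 216 := le_of_mul_le_mul_right h5 h6
  norm_num at h7

end

end Pool.Agent.Run7.h880
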