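import Mathlib
import Pool.Agent.Run7.h880.NC1

/-!
Integer points near a curve with given third derivative: short intervals.
-/

set_option autoImplicit false

namespace Pool.Agent.Run7.h880

open Finset

section
variable {κ : ℝ} {L : ℕ} {A0 A1 : ℝ} {S : Finset ℕ} {y : ℕ → ℤ} {w : ℕ → ℝ}

/-- the second divided difference is small and positive -/
theorem Loc.second (h : Loc κ L A0 A1 S y w) {u1 u2 u3 : ℕ} (h1 : u1 ∈ S) (h2 : u2 ∈ S)
    (h3 : u3 ∈ S) (h12 : u1 < u2) (h23 : u2 < u3) :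
    0 < ((u2 : ℤ) - u1) * (y u3 - y u1) - ((u3 : ℤ) - u1) * (y u2 - y u1) ∧
    κ ^ 2 * ((((u2 : ℤ) - u1) * (y u3 - y u1) - ((u3 : ℤ) - u1) * (y u2 - y u1) : ℤ) : ℝ) ≤
      (((u2 : ℝ) - u1) * (u3 - u1) * (u3 - u2)) := by
  have hκ : 24 < κ := h.κ24
  have hκ0 : 0 < κ := by linarith
  obtain ⟨a, ha⟩ : ∃ a : ℝ, a = (u2 : ℝ) - u1 := ⟨_, rfl⟩
  obtain ⟨e, he⟩ : ∃ e : ℝ, e = (u3 : ℝ) - u2 := ⟨_, rfl⟩
  have ha1 : 1 ≤ a := by
    have : (u1 : ℝ) + 1 ≤ u2 := by exact_mod_cast h12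
    linarith
  have he1 : 1 ≤ e := by
    have : (u2 : ℝ) + 1 ≤ u3 := by exact_mod_cast h23
    linarith
  have e1 : (u3 : ℝ) - u1 = a + e := by rw [ha, he]; ring
  obtain ⟨V, hV⟩ : ∃ V : ℝ, V = a * (a + e) * e := ⟨_, rfl⟩
  have hVb : a + e ≤ V := by
    rw [hV]
    have : (a + e) * 1 ≤ (a + e) * (a * e) := mul_le_mul_of_nonneg_left (by nlinarith) (by linarith)
    nlinarith
  have hV0 : 0 < V := by linarith
  have key : ((((u2 : ℤ) - u1) * (y u3 - y u1) - ((u3 : ℤ) - u1) * (y u2 - y u1) : ℤ) : ℝ) =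
      5 / 9 * (κ ^ 2)⁻¹ * V - 5 / 81 * (κ ^ 8)⁻¹ * V * (u1 + u2 + u3) +
      (a * (w u3 - w u1) - (a + e) * (w u2 - w u1)) := by
    push_cast
    rw [h.eq u1 h1, h.eq u2 h2, h.eq u3 h3, hV, ha, he]
    ring
  have hu : ∀ u ∈ S, (u : ℝ) ≤ κ ^ 4 := by
    intro u hu
    have g1 : (u : ℝ) ≤ L := by exact_mod_cast (h.lt u hu).le
    have g2 : (L : ℝ) ≤ (L : ℝ) ^ 3 := by
      have : (1 : ℝ) ≤ L := by
        have := h.lt u hu
        exact_mod_cast (by omega : 1 ≤ L)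
      exact le_self_pow₀ this (by norm_num)
    exact g1.trans (g2.trans h.L3)
  have hs : (u1 : ℝ) + u2 + u3 ≤ 3 * κ ^ 4 := by
    have := hu u1 h1
    have := hu u2 h2
    have := hu u3 h3
    linarith
  have hs0 : (0 : ℝ) ≤ (u1 : ℝ) + u2 + u3 := by positivity
  have b1 : |a * (w u3 - w u1) - (a + e) * (w u2 - w u1)| ≤ 12 * (κ ^ 5)⁻¹ * V := by
    have g1 := h.wle u1 h1
    have g2 := h.wle u2 h2
    have g3 := h.wle u3 h3
    have q1 : |w u3 - w u1| ≤ 6 * (κ ^ 5)⁻¹ := by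
      rw [abs_le] at g1 g3 ⊢
      constructor <;> linarith [g1.1, g1.2, g3.1, g3.2]
    have q2 : |w u2 - w u1| ≤ 6 * (κ ^ 5)⁻¹ := by
      rw [abs_le] at g1 g2 ⊢
      constructor <;> linarith [g1.1, g1.2, g2.1, g2.2]
    have hκ5 : (0 : ℝ) < (κ ^ 5)⁻¹ := by positivity
    calc |a * (w u3 - w u1) - (a + e) * (w u2 - w u1)|
        ≤ |a * (w u3 - w u1)| + |(a + e) * (w u2 - w u1)| := abs_sub _ _
      _ = a * |w u3 - w u1| + (a + e) * |w u2 - w u1| := by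
          rw [abs_mul, abs_mul, abs_of_nonneg (by linarith : 0 ≤ a),
            abs_of_nonneg (by linarith : 0 ≤ a + e)]
      _ ≤ (a + e) * (6 * (κ ^ 5)⁻¹) + (a + e) * (6 * (κ ^ 5)⁻¹) := by
          refine add_le_add (mul_le_mul (by linarith) q1 (abs_nonneg _) (by linarith))
            (mul_le_mul_of_nonneg_left q2 (by linarith))
      _ = 12 * (κ ^ 5)⁻¹ * (a + e) := by ring
      _ ≤ 12 * (κ ^ 5)⁻¹ * V := mul_le_mul_of_nonneg_left hVb (by positivity)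
  have hi2 : (0 : ℝ) < (κ ^ 2)⁻¹ := by positivity
  have k1 : (κ ^ 5)⁻¹ ≤ (κ ^ 2)⁻¹ * (1 / 13824) := by
    have : (κ ^ 5)⁻¹ = (κ ^ 2)⁻¹ * (κ ^ 3)⁻¹ := by
      rw [← mul_inv, ← pow_add]
    rw [this]
    refine mul_le_mul_of_nonneg_left ?_ hi2.le
    rw [one_div]
    refine inv_anti₀ (by norm_num) ?_
    calc (13824 : ℝ) = 24 ^ 3 := by norm_num
      _ ≤ κ ^ 3 := pow_le_pow_left₀ (by norm_num) hκ.le 3
  have k2 : (κ ^ 8)⁻¹ * (u1 + u2 + u3) ≤ (κ ^ 2)⁻¹ * (3 / 576) := by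
    calc (κ ^ 8)⁻¹ * ((u1 : ℝ) + u2 + u3) ≤ (κ ^ 8)⁻¹ * (3 * κ ^ 4) :=
          mul_le_mul_of_nonneg_left hs (by positivity)
      _ = (κ ^ 2)⁻¹ * (3 * (κ ^ 2)⁻¹) := by field_simp
      _ ≤ (κ ^ 2)⁻¹ * (3 / 576) := by
          refine mul_le_mul_of_nonneg_left ?_ hi2.le
          have : (κ ^ 2)⁻¹ ≤ 1 / 576 := by
            rw [one_div]
            refine inv_anti₀ (by norm_num) ?_
            calc (576 : ℝ) = 24 ^ 2 := by norm_num
              _ ≤ κ ^ 2 := pow_le_pow_left₀ (by norm_num) hκ.le 2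
          linarith
  have k2' : (0 : ℝ) ≤ (κ ^ 8)⁻¹ * (u1 + u2 + u3) := by positivity
  rw [abs_le] at b1
  have hcast : (0 : ℝ) < ((((u2 : ℤ) - u1) * (y u3 - y u1) - ((u3 : ℤ) - u1) * (y u2 - y u1) : ℤ) : ℝ) := by
    rw [key]
    have r1 : 5 / 81 * (κ ^ 8)⁻¹ * V * (u1 + u2 + u3) ≤ 5 / 81 * ((κ ^ 2)⁻¹ * (3 / 576)) * V := by
      have := mul_le_mul_of_nonneg_right k2 hV0.le
      nlinarith
    have r2 : 12 * (κ ^ 5)⁻¹ * V ≤ 12 * ((κ ^ 2)⁻¹ * (1 / 13824)) * V := by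
      have := mul_le_mul_of_nonneg_right k1 hV0.le
      nlinarith
    have r3 : 0 < (κ ^ 2)⁻¹ * V := by positivity
    nlinarith [b1.1]
  refine ⟨by exact_mod_cast hcast, ?_⟩
  rw [key, e1, ← ha, ← he, ← hV]
  have r2 : 12 * (κ ^ 5)⁻¹ * V ≤ 12 * ((κ ^ 2)⁻¹ * (1 / 13824)) * V := by
    have := mul_le_mul_of_nonneg_right k1 hV0.le
    nlinarith
  have r4 : 0 ≤ 5 / 81 * (κ ^ 8)⁻¹ * V * (u1 + u2 + u3) := by positivity
  have r5 : κ ^ 2 * ((κ ^ 2)⁻¹ * V) = V := by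
    field_simp
  have r6 : 5 / 9 * (κ ^ 2)⁻¹ * V - 5 / 81 * (κ ^ 8)⁻¹ * V * (u1 + u2 + u3) +
      (a * (w u3 - w u1) - (a + e) * (w u2 - w u1)) ≤ (κ ^ 2)⁻¹ * V := by
    have r7 : 0 < (κ ^ 2)⁻¹ * V := by positivity
    nlinarith [b1.2]
  calc κ ^ 2 * (5 / 9 * (κ ^ 2)⁻¹ * V - 5 / 81 * (κ ^ 8)⁻¹ * V * (u1 + u2 + u3) +
      (a * (w u3 - w u1) - (a + e) * (w u2 - w u1))) ≤ κ ^ 2 * ((κ ^ 2)⁻¹ * V) :=
        mul_le_mul_of_nonneg_left r6 (by positivity)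
    _ = V := r5

/-- the number of the points in a window of length `6 κ` -/
theorem Loc.window (h : Loc κ L A0 A1 S y w) {τ : ℕ}
    (hτ : ∀ D : ℕ, 0 < D → (D : ℝ) ≤ κ ^ 4 → D.divisors.card ≤ τ) {T : Finset ℕ} (hT : T ⊆ S)
    {v : ℕ} (hv : ∀ u ∈ T, v ≤ u ∧ (u : ℝ) < v + 6 * κ) : T.card ≤ 6 * τ + 1 := by
  classical
  have hκ : 24 < κ := h.κ24
  have hκ0 : 0 < κ := by linarith
  have hτ1 : 1 ≤ τ := by
    have := hτ 1 (by norm_num) (by
      push_cast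
      exact one_le_pow₀ (by linarith))
    rwa [Nat.divisors_one, card_singleton] at this
  rcases Nat.lt_or_ge T.card 3 with hc | hc
  · omega
  have hT0 : T.Nonempty := by
    rw [← card_pos]
    omega
  obtain ⟨u1, hu1⟩ : ∃ u1, u1 = T.min' hT0 := ⟨_, rfl⟩
  have hu1T : u1 ∈ T := by rw [hu1]; exact min'_mem _ _
  have hu1m : ∀ u ∈ T, u1 ≤ u := by
    intro u hu
    rw [hu1]
    exact min'_le _ _ hu
  obtain ⟨T1, hT1⟩ : ∃ T1, T1 = T.erase u1 := ⟨_, rfl⟩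
  have hT1c : 2 ≤ T1.card := by
    rw [hT1, card_erase_of_mem hu1T]
    omega
  have hT10 : T1.Nonempty := by
    rw [← card_pos]
    omega
  obtain ⟨u2, hu2⟩ : ∃ u2, u2 = T1.min' hT10 := ⟨_, rfl⟩
  have hu2T : u2 ∈ T1 := by rw [hu2]; exact min'_mem _ _
  obtain ⟨u3, hu3T, hu32⟩ : ∃ u3 ∈ T1, u3 ≠ u2 := by
    obtain ⟨x, hx, z, hz, hxz⟩ := (one_lt_card.1 hT1c)
    by_cases hxu : x = u2
    · exact ⟨z, hz, fun h => hxz (hxu.trans h.symm)⟩
    · exact ⟨x, hx, hxu⟩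
  have h12 : u1 < u2 := by
    rw [hT1, mem_erase] at hu2T
    exact lt_of_le_of_ne (hu1m u2 hu2T.2) fun h => hu2T.1 h.symm
  have h23 : u2 < u3 := by
    refine lt_of_le_of_ne ?_ fun h => hu32 h.symm
    rw [hu2]
    exact min'_le _ _ hu3T
  have hu2S : u2 ∈ S := hT (mem_of_mem_erase (by rw [← hT1]; exact hu2T))
  have hu3S : u3 ∈ S := hT (mem_of_mem_erase (by rw [← hT1]; exact hu3T))
  have hu1S : u1 ∈ S := hT hu1T
  obtain ⟨hA0, hAκ⟩ := h.second hu1S hu2S hu3S h12 h23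
  obtain ⟨A', hA'⟩ : ∃ A' : ℤ, A' = ((u2 : ℤ) - u1) * (y u3 - y u1) - ((u3 : ℤ) - u1) * (y u2 - y u1) :=
    ⟨_, rfl⟩
  obtain ⟨B', hB'⟩ : ∃ B' : ℤ, B' = ((u3 : ℤ) - u1) ^ 2 * (y u2 - y u1) -
    ((u2 : ℤ) - u1) ^ 2 * (y u3 - y u1) := ⟨_, rfl⟩
  obtain ⟨V, hV⟩ : ∃ V : ℤ, V = ((u2 : ℤ) - u1) * (u3 - u1) * (u3 - u2) := ⟨_, rfl⟩
  rw [← hA'] at hA0 hAκ
  have hVR : (V : ℝ) = ((u2 : ℝ) - u1) * (u3 - u1) * (u3 - u2) := by
    rw [hV]
    push_cast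
    ring
  rw [← hVR] at hAκ
  have hV0 : 0 < V := by
    rw [hV]
    have a1 : (0 : ℤ) < (u2 : ℤ) - u1 := by omega
    have a2 : (0 : ℤ) < (u3 : ℤ) - u1 := by omega
    have a3 : (0 : ℤ) < (u3 : ℤ) - u2 := by omega
    positivity
  -- the gcd
  obtain ⟨g, hg⟩ : ∃ g : ℕ, g = Nat.gcd (Nat.gcd A'.natAbs B'.natAbs) V.natAbs := ⟨_, rfl⟩
  have hgV : g ∣ V.natAbs := by
    rw [hg]
    exact Nat.gcd_dvd_right _ _
  have hgA : g ∣ A'.natAbs := by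
    rw [hg]
    exact (Nat.gcd_dvd_left _ _).trans (Nat.gcd_dvd_left _ _)
  have hgB : g ∣ B'.natAbs := by
    rw [hg]
    exact (Nat.gcd_dvd_left _ _).trans (Nat.gcd_dvd_right _ _)
  have hg0 : 0 < g := Nat.pos_of_dvd_of_pos hgV (Int.natAbs_pos.2 hV0.ne')
  obtain ⟨D, hD⟩ := hgV
  obtain ⟨A, hA⟩ : (g : ℤ) ∣ A' := Int.natCast_dvd.2 hgA
  obtain ⟨B, hB⟩ : (g : ℤ) ∣ B' := Int.natCast_dvd.2 hgB
  have hVD : V = g * D := by
    have h1 : (V.natAbs : ℤ) = V := Int.natAbs_of_nonneg hV0.le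
    rw [← h1, hD]
    push_cast
    ring
  have hD0 : 0 < D := by
    rcases Nat.eq_zero_or_pos D with h0 | h0
    · rw [h0] at hVD
      simp at hVD
      omega
    · exact h0
  have hgZ : (0 : ℤ) < g := by exact_mod_cast hg0
  have hgR : (0 : ℝ) < g := by exact_mod_cast hg0
  have hA1 : 1 ≤ A := by
    rw [hA] at hA0
    by_contra hneg
    push Not at hneg
    have : (g : ℤ) * A ≤ 0 := mul_nonpos_of_nonneg_of_nonpos hgZ.le (by omega)
    omega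
  have hDκ : κ ^ 2 ≤ D := by
    have h1 : κ ^ 2 * ((g : ℝ) * A) ≤ g * D := by
      rw [hA, hVD] at hAκ
      push_cast at hAκ
      exact hAκ
    have h2 : (1 : ℝ) ≤ A := by exact_mod_cast hA1
    have h3 : κ ^ 2 * A ≤ D := by
      have h4 : (g : ℝ) * (κ ^ 2 * A) ≤ g * D := by linarith
      exact le_of_mul_le_mul_left h4 hgR
    have h5 : κ ^ 2 * 1 ≤ κ ^ 2 * A := mul_le_mul_of_nonneg_left h2 (by positivity)
    linarith
  have hco : ∀ π : ℤ, Prime π → π ∣ A → π ∣ B → ¬ π ∣ D := by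
    intro π hπ h1 h2 h3
    have k1 : g * π.natAbs ∣ A'.natAbs := by
      rw [hA, Int.natAbs_mul, Int.natAbs_natCast]
      exact Nat.mul_dvd_mul_left _ (Int.natAbs_dvd_natAbs.2 h1)
    have k2 : g * π.natAbs ∣ B'.natAbs := by
      rw [hB, Int.natAbs_mul, Int.natAbs_natCast]
      exact Nat.mul_dvd_mul_left _ (Int.natAbs_dvd_natAbs.2 h2)
    have k3 : g * π.natAbs ∣ V.natAbs := by
      rw [hD]
      exact Nat.mul_dvd_mul_left _ (by
        have := Int.natAbs_dvd_natAbs.2 h3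
        rwa [Int.natAbs_natCast] at this)
    have k4 : g * π.natAbs ∣ g := by
      conv_rhs => rw [hg]
      exact Nat.dvd_gcd (Nat.dvd_gcd k1 k2) k3
    have k5 : g * π.natAbs ≤ g * 1 := by
      rw [mul_one]
      exact Nat.le_of_dvd hg0 k4
    have k6 : π.natAbs ≤ 1 := Nat.le_of_mul_le_mul_left k5 hg0
    have k7 := (Int.prime_iff_natAbs_prime.1 hπ).two_le
    omega
  have hDle : (D : ℝ) ≤ κ ^ 4 := by
    have h1 : D ≤ V.natAbs := by
      rw [hD]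
      exact Nat.le_mul_of_pos_left _ hg0
    have h2 : ((V.natAbs : ℕ) : ℝ) = (V : ℝ) := by
      rw [← Int.cast_natCast, Int.natAbs_of_nonneg hV0.le]
    have h3 : (V : ℝ) ≤ (L : ℝ) ^ 3 := by
      rw [hVR]
      have hb : ∀ u ∈ S, (0 : ℝ) ≤ u ∧ (u : ℝ) ≤ L := by
        intro u hu
        exact ⟨Nat.cast_nonneg _, by exact_mod_cast (h.lt u hu).le⟩
      exact (le_abs_self _).trans (vdm_le (hb u1 hu1S).1 (hb u1 hu1S).2 (hb u2 hu2S).1
        (hb u2 hu2S).2 (hb u3 hu3S).1 (hb u3 hu3S).2)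
    calc (D : ℝ) ≤ ((V.natAbs : ℕ) : ℝ) := by exact_mod_cast h1
      _ = V := h2
      _ ≤ (L : ℝ) ^ 3 := h3
      _ ≤ κ ^ 4 := h.L3
  -- the points
  have hcount := quad_count (D := D) (A := A) (B := B) hD0 hco hκ0 hDκ
    ((T.erase u1).image fun u => u - u1) (by
      intro t ht
      rw [mem_image] at ht
      obtain ⟨u, hu, rfl⟩ := ht
      rw [mem_erase] at hu
      have hle := hu1m u hu.2
      refine ⟨by omega, ?_, ?_⟩
      · rw [Nat.cast_sub hle]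
        have g1 := (hv u hu.2).2
        have g2 : (v : ℝ) ≤ u1 := by exact_mod_cast (hv u1 hu1T).1
        linarith
      · have h0 := h.det0 hu1S hu2S hu3S (hT hu.2)
        have e1 : V * (y u - y u1) = ((u : ℤ) - u1) * (A' * ((u : ℤ) - u1) + B') := by
          rw [hV, hA', hB']
          linear_combination h0
        have e2 : (g : ℤ) * (D * (y u - y u1)) =
            g * (((u : ℤ) - u1) * (A * ((u : ℤ) - u1) + B)) := by
          rw [hVD, hA, hB] at e1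
          linear_combination e1
        have e3 := mul_left_cancel₀ hgZ.ne' e2
        rw [Nat.cast_sub hle, ← e3]
        exact dvd_mul_right _ _)
  have hinj : Set.InjOn (fun u => u - u1) (T.erase u1 : Finset ℕ) := by
    intro u hu u' hu' heq
    rw [Finset.mem_coe, mem_erase] at hu hu'
    have := hu1m u hu.2
    have := hu1m u' hu'.2
    simp only at heq
    omega
  rw [card_image_of_injOn hinj, card_erase_of_mem hu1T] at hcount
  have := hτ D hD0 hDle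
  omega

/-- the number of the points in the interval -/
theorem Loc.count (h : Loc κ L A0 A1 S y w) {τ : ℕ}
    (hτ : ∀ D : ℕ, 0 < D → (D : ℝ) ≤ κ ^ 4 → D.divisors.card ≤ τ) : S.card ≤ 3 * (6 * τ + 1) := by
  classical
  -- successive windows
  have step : ∀ T : Finset ℕ, T ⊆ S → T.Nonempty → ∃ v ∈ T, (∀ u ∈ T, v ≤ u) ∧
      T.card ≤ (T.filter fun u : ℕ => (v : ℝ) + 6 * κ ≤ u).card + (6 * τ + 1) := by
    intro T hT hT0
    refine ⟨T.min' hT0, min'_mem _ _, fun u hu => min'_le _ _ hu, ?_⟩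
    have h1 := Finset.card_filter_add_card_filter_not (s := T)
      (fun u : ℕ => ((T.min' hT0 : ℕ) : ℝ) + 6 * κ ≤ u)
    have h2 := h.window hτ (T := T.filter fun u : ℕ => ¬ ((T.min' hT0 : ℕ) : ℝ) + 6 * κ ≤ u)
      ((filter_subset _ _).trans hT) (v := T.min' hT0) (by
        intro u hu
        rw [mem_filter] at hu
        exact ⟨min'_le _ _ hu.1, not_le.1 hu.2⟩)
    omega
  rcases S.eq_empty_or_nonempty with h0 | h0
  · rw [h0, card_empty]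
    exact Nat.zero_le _
  obtain ⟨a, haS, -, hca⟩ := step S (Subset.refl _) h0
  rcases (S.filter fun u : ℕ => (a : ℝ) + 6 * κ ≤ u).eq_empty_or_nonempty with h1 | h1
  · rw [h1, card_empty] at hca
    omega
  obtain ⟨b, hb, -, hcb⟩ := step _ (filter_subset _ _) h1
  rcases ((S.filter fun u : ℕ => (a : ℝ) + 6 * κ ≤ u).filter
    fun u : ℕ => (b : ℝ) + 6 * κ ≤ u).eq_empty_or_nonempty with h2 | h2
  · rw [h2, card_empty] at hcb
    omega
  obtain ⟨c, hc, -, hcc⟩ := step _ ((filter_subset _ _).trans (filter_subset _ _)) h2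
  rcases (((S.filter fun u : ℕ => (a : ℝ) + 6 * κ ≤ u).filter
    fun u : ℕ => (b : ℝ) + 6 * κ ≤ u).filter
    fun u : ℕ => (c : ℝ) + 6 * κ ≤ u).eq_empty_or_nonempty with h3 | ⟨d, hd⟩
  · rw [h3, card_empty] at hcc
    omega
  exfalso
  rw [mem_filter] at hb hc hd
  have hd1 := hd.1
  rw [mem_filter] at hd1
  have hc1 := hc.1
  rw [mem_filter] at hc1
  have hd2 := hd1.1
  rw [mem_filter] at hd2
  exact h.sep haS hb.1 hc1.1 hd2.1 hb.2 hc.2 hd.2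

end

end Pool.Agent.Run7.h880
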