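import Mathlib
import Pool.Agent.Run7.h880.NC2
import Pool.Agent.Run7.h880.Ser
import Pool.Agent.Helper919.DivBound

/-!
Close cubes and fifth powers.
-/

set_option autoImplicit false

namespace Pool.Agent.Run7.h880

open Finset

theorem choose_five_thirds (n : ℕ) : |Ring.choose (5 / 3 : ℝ) (n + 3)| ≤ 5 / 81 := by
  have c0 : Ring.choose (5 / 3 : ℝ) 0 = 1 := Ring.choose_zero_right _
  have c1 : Ring.choose (5 / 3 : ℝ) 1 = 5 / 3 := Ring.choose_one_right _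
  have c2 : Ring.choose (5 / 3 : ℝ) 2 = 5 / 9 := by
    have := choose_step (5 / 3 : ℝ) 1
    rw [c1] at this
    norm_num at this
    linarith
  have c3 : Ring.choose (5 / 3 : ℝ) 3 = -(5 / 81) := by
    have := choose_step (5 / 3 : ℝ) 2
    rw [c2] at this
    norm_num at this
    linarith
  induction n with
  | zero =>
    rw [zero_add, c3, abs_neg, abs_of_pos (by norm_num)]
  | succ n ih =>
    have h2 := choose_step (5 / 3 : ℝ) (n + 3)
    have h3 : |Ring.choose (5 / 3 : ℝ) (n + 3 + 1)| * ((n : ℝ) + 4) =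
        |Ring.choose (5 / 3 : ℝ) (n + 3)| * |5 / 3 - ((n : ℝ) + 3)| := by
      have h4 := congrArg abs h2
      rw [abs_mul, abs_mul] at h4
      push_cast at h4
      rw [abs_of_nonneg (by positivity : (0 : ℝ) ≤ (n : ℝ) + 3 + 1)] at h4
      linarith
    have h5 : |5 / 3 - ((n : ℝ) + 3)| ≤ (n : ℝ) + 4 := by
      rw [abs_le]
      have : (0 : ℝ) ≤ n := Nat.cast_nonneg n
      constructor <;> linarith
    have h6 : (0 : ℝ) < (n : ℝ) + 4 := by positivity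
    have h7 : |Ring.choose (5 / 3 : ℝ) (n + 3 + 1)| * ((n : ℝ) + 4) ≤ 5 / 81 * ((n : ℝ) + 4) := by
      rw [h3]
      exact mul_le_mul ih h5 (abs_nonneg _) (by norm_num)
    exact le_of_mul_le_mul_right h7 h6

theorem five_thirds {x : ℝ} (h0 : 0 ≤ x) (h1 : x ≤ 1 / 2) :
    |(1 + x) ^ (5 / 3 : ℝ) - (1 + 5 / 3 * x + 5 / 9 * x ^ 2 - 5 / 81 * x ^ 3)| ≤ x ^ 4 := by
  have c0 : Ring.choose (5 / 3 : ℝ) 0 = 1 := Ring.choose_zero_right _
  have c1 : Ring.choose (5 / 3 : ℝ) 1 = 5 / 3 := Ring.choose_one_right _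
  have c2 : Ring.choose (5 / 3 : ℝ) 2 = 5 / 9 := by
    have := choose_step (5 / 3 : ℝ) 1
    rw [c1] at this
    norm_num at this
    linarith
  have c3 : Ring.choose (5 / 3 : ℝ) 3 = -(5 / 81) := by
    have := choose_step (5 / 3 : ℝ) 2
    rw [c2] at this
    norm_num at this
    linarith
  have hs := (Real.one_add_rpow_hasFPowerSeriesOnBall_zero (a := 5 / 3)).hasSum
    (y := x) (by
      rw [Metric.mem_eball, edist_zero_right, enorm_eq_nnnorm]
      have h2 : ‖x‖₊ < 1 := by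
        rw [← NNReal.coe_lt_coe, coe_nnnorm, Real.norm_eq_abs, abs_of_nonneg h0]
        push_cast
        linarith
      exact_mod_cast h2)
  simp only [zero_add] at hs
  have e1 : (fun n : ℕ => (binomialSeries ℝ (5 / 3 : ℝ) n) fun _ => x) =
      fun n => Ring.choose (5 / 3 : ℝ) n * x ^ n := by
    funext n
    rw [binomialSeries_apply, List.ofFn_const, List.prod_replicate, smul_eq_mul]
  rw [e1] at hs
  have h4 := (hasSum_nat_add_iff' 4).2 hs
  have e2 : ∑ i ∈ range 4, Ring.choose (5 / 3 : ℝ) i * x ^ i =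
      1 + 5 / 3 * x + 5 / 9 * x ^ 2 - 5 / 81 * x ^ 3 := by
    simp only [sum_range_succ, sum_range_zero, c0, c1, c2, c3]
    ring
  rw [e2] at h4
  have hg : HasSum (fun n : ℕ => (5 / 81 * x ^ 4) * (1 / 2 : ℝ) ^ n) ((5 / 81 * x ^ 4) * 2) :=
    hasSum_geometric_two.mul_left _
  have h5 := h4.norm_le_of_bounded hg (by
    intro n
    rw [Real.norm_eq_abs, abs_mul, abs_of_nonneg (pow_nonneg h0 _)]
    calc |Ring.choose (5 / 3 : ℝ) (n + 4)| * x ^ (n + 4) ≤ 5 / 81 * x ^ (n + 4) :=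
          mul_le_mul_of_nonneg_right (choose_five_thirds (n + 1)) (pow_nonneg h0 _)
      _ = 5 / 81 * x ^ 4 * x ^ n := by ring
      _ ≤ 5 / 81 * x ^ 4 * (1 / 2) ^ n := by
          refine mul_le_mul_of_nonneg_left (pow_le_pow_left₀ h0 h1 n) (by positivity))
  rw [Real.norm_eq_abs] at h5
  have h6 : 0 ≤ x ^ 4 := by positivity
  linarith

/-- a cube lies close to `z ^ 5` -/
def CN (z : ℕ) : Prop := ∃ y : ℕ, ((y : ℤ) ^ 3 - (z : ℤ) ^ 5) ^ 2 ≤ 16 * (z : ℤ) ^ 5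

open Classical in
/-- the number of the `z` in a short interval -/
theorem cn_block {c L τ : ℕ} (hc : 24 ^ 6 < c) (hL : L ^ 9 ≤ c ^ 2)
    (hτ : ∀ D : ℕ, 0 < D → D ≤ c → D.divisors.card ≤ τ) :
    ((range L).filter fun u => CN (c + u)).card ≤ 3 * (6 * τ + 1) := by
  classical
  obtain ⟨κ, hκ⟩ : ∃ κ : ℝ, κ = (c : ℝ) ^ ((1 : ℝ) / 6) := ⟨_, rfl⟩
  have hc0 : (0 : ℝ) ≤ c := Nat.cast_nonneg _
  have hκ6 : κ ^ 6 = c := by
    rw [hκ, ← Real.rpow_natCast, ← Real.rpow_mul hc0]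
    norm_num
  have hκ0 : 0 ≤ κ := by
    rw [hκ]
    positivity
  have hκ24 : 24 < κ := by
    by_contra hcon
    push Not at hcon
    have h1 : κ ^ 6 ≤ 24 ^ 6 := pow_le_pow_left₀ hκ0 hcon 6
    rw [hκ6] at h1
    have h2 : c ≤ 24 ^ 6 := by exact_mod_cast h1
    omega
  have hκp : 0 < κ := by linarith
  have hL3 : (L : ℝ) ^ 3 ≤ κ ^ 4 := by
    have h1 : ((L : ℝ) ^ 3) ^ 3 ≤ (κ ^ 4) ^ 3 := by
      calc ((L : ℝ) ^ 3) ^ 3 = ((L ^ 9 : ℕ) : ℝ) := by push_cast; ring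
        _ ≤ ((c ^ 2 : ℕ) : ℝ) := by exact_mod_cast hL
        _ = (κ ^ 6) ^ 2 := by rw [hκ6]; push_cast; rfl
        _ = (κ ^ 4) ^ 3 := by ring
    exact (pow_le_pow_iff_left₀ (by positivity) (by positivity) (by norm_num)).1 h1
  obtain ⟨y, hy⟩ : ∃ y : ℕ → ℕ, ∀ u, CN (c + u) →
      ((y u : ℤ) ^ 3 - ((c + u : ℕ) : ℤ) ^ 5) ^ 2 ≤ 16 * ((c + u : ℕ) : ℤ) ^ 5 := by
    have : ∀ u, ∃ y : ℕ, CN (c + u) →
        ((y : ℤ) ^ 3 - ((c + u : ℕ) : ℤ) ^ 5) ^ 2 ≤ 16 * ((c + u : ℕ) : ℤ) ^ 5 := by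
      intro u
      by_cases h : CN (c + u)
      · obtain ⟨y, hy⟩ := h
        exact ⟨y, fun _ => hy⟩
      · exact ⟨0, fun h' => absurd h' h⟩
    choose y hy using this
    exact ⟨y, hy⟩
  have hloc : Loc κ L (κ ^ 10) (5 / 3 * κ ^ 4) ((range L).filter fun u => CN (c + u))
      (fun u => (y u : ℤ)) (fun u => (y u : ℝ) - (κ ^ 10 + 5 / 3 * κ ^ 4 * u +
        5 / 9 * (κ ^ 2)⁻¹ * u ^ 2 - 5 / 81 * (κ ^ 8)⁻¹ * u ^ 3)) := by
    refine ⟨hκ24, hL3, ?_, ?_, ?_⟩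
    · intro u hu
      rw [mem_filter, mem_range] at hu
      exact hu.1
    · intro u _
      push_cast
      ring
    · intro u hu
      rw [mem_filter, mem_range] at hu
      obtain ⟨huL, hu⟩ := hu
      have h1 := hy u hu
      obtain ⟨f, hf⟩ : ∃ f : ℝ, f = ((c : ℝ) + u) ^ (5 / 3 : ℝ) := ⟨_, rfl⟩
      have hcu : (0 : ℝ) ≤ (c : ℝ) + u := by positivity
      have hf3 : f ^ 3 = ((c : ℝ) + u) ^ 5 := by
        rw [hf, ← Real.rpow_natCast, ← Real.rpow_mul hcu, ← Real.rpow_natCast]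
        norm_num
      have hfκ : κ ^ 10 ≤ f := by
        have h2 : (κ ^ 10) ^ 3 ≤ f ^ 3 := by
          rw [hf3]
          calc (κ ^ 10) ^ 3 = (κ ^ 6) ^ 5 := by ring
            _ = (c : ℝ) ^ 5 := by rw [hκ6]
            _ ≤ ((c : ℝ) + u) ^ 5 := pow_le_pow_left₀ hc0 (by
                have : (0 : ℝ) ≤ u := Nat.cast_nonneg _
                linarith) 5
        exact (pow_le_pow_iff_left₀ (by positivity) (by rw [hf]; positivity) (by norm_num)).1 h2
      have hf0 : 0 < f := lt_of_lt_of_le (by positivity) hfκ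
      -- the distance of `y` from the curve
      have hdist : |(y u : ℝ) - f| ≤ 2 * (κ ^ 5)⁻¹ := by
        have h2 : ((y u : ℝ) ^ 3 - f ^ 3) ^ 2 ≤ 16 * f ^ 3 := by
          rw [hf3]
          exact_mod_cast h1
        have hy0 : (0 : ℝ) ≤ y u := Nat.cast_nonneg _
        have hf1 : 10 ≤ f := by
          have g1 : (10 : ℝ) ≤ κ ^ 10 := by
            calc (10 : ℝ) ≤ 24 := by norm_num
              _ ≤ κ := hκ24.le
              _ ≤ κ ^ 10 := le_self_pow₀ (by linarith) (by norm_num)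
          linarith
        -- `y` is not too small
        have hyf : f ^ 2 ≤ (y u : ℝ) ^ 2 + y u * f := by
          by_contra hcon
          push Not at hcon
          have g1 : (y u : ℝ) ^ 3 ≤ f ^ 3 / 4 := by
            have g2 : (y u : ℝ) ^ 3 ≤ y u * (f ^ 2 - y u * f) := by
              calc (y u : ℝ) ^ 3 = y u * (y u : ℝ) ^ 2 := by ring
                _ ≤ y u * (f ^ 2 - y u * f) := by
                    refine mul_le_mul_of_nonneg_left ?_ hy0
                    linarith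
            have g3 : (y u : ℝ) * (f ^ 2 - y u * f) ≤ f ^ 3 / 4 := by
              have g4 : 0 ≤ f * (f / 2 - y u) ^ 2 := by positivity
              nlinarith
            linarith
          have g5 : 3 / 4 * f ^ 3 ≤ f ^ 3 - (y u : ℝ) ^ 3 := by linarith
          have g6 : (3 / 4 * f ^ 3) ^ 2 ≤ ((y u : ℝ) ^ 3 - f ^ 3) ^ 2 := by
            calc (3 / 4 * f ^ 3) ^ 2 ≤ (f ^ 3 - (y u : ℝ) ^ 3) ^ 2 :=
                  pow_le_pow_left₀ (by positivity) g5 2
              _ = ((y u : ℝ) ^ 3 - f ^ 3) ^ 2 := by ring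
          have g7 : 9 / 16 * f ^ 3 * f ^ 3 ≤ 16 * f ^ 3 := by
            calc 9 / 16 * f ^ 3 * f ^ 3 = (3 / 4 * f ^ 3) ^ 2 := by ring
              _ ≤ _ := g6.trans h2
          have g8 : 9 / 16 * f ^ 3 ≤ 16 := le_of_mul_le_mul_right g7 (by positivity)
          have g9 : (10 : ℝ) ^ 3 ≤ f ^ 3 := pow_le_pow_left₀ (by norm_num) hf1 3
          linarith
        have h3 : ((y u : ℝ) - f) ^ 2 * (4 * f ^ 4) ≤ ((y u : ℝ) ^ 3 - f ^ 3) ^ 2 := by
          have e1 : ((y u : ℝ) ^ 3 - f ^ 3) ^ 2 =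
              ((y u : ℝ) - f) ^ 2 * ((y u : ℝ) ^ 2 + y u * f + f ^ 2) ^ 2 := by ring
          rw [e1]
          refine mul_le_mul_of_nonneg_left ?_ (sq_nonneg _)
          have e2 : 4 * f ^ 4 = (2 * f ^ 2) ^ 2 := by ring
          rw [e2]
          refine pow_le_pow_left₀ (by positivity) ?_ 2
          linarith
        have h4 : ((y u : ℝ) - f) ^ 2 * f ≤ 4 := by
          have h5 : (((y u : ℝ) - f) ^ 2 * f) * (4 * f ^ 3) ≤ 4 * (4 * f ^ 3) := by
            calc (((y u : ℝ) - f) ^ 2 * f) * (4 * f ^ 3) = ((y u : ℝ) - f) ^ 2 * (4 * f ^ 4) := by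
                  ring
              _ ≤ 16 * f ^ 3 := h3.trans h2
              _ = 4 * (4 * f ^ 3) := by ring
          exact le_of_mul_le_mul_right h5 (by positivity)
        have h6 : ((y u : ℝ) - f) ^ 2 ≤ (2 * (κ ^ 5)⁻¹) ^ 2 := by
          have h7 : ((y u : ℝ) - f) ^ 2 * κ ^ 10 ≤ 4 :=
            (mul_le_mul_of_nonneg_left hfκ (sq_nonneg _)).trans h4
          have e3 : (2 * (κ ^ 5)⁻¹) ^ 2 = 4 / κ ^ 10 := by
            field_simp
            ring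
          rw [e3, le_div_iff₀ (by positivity)]
          exact h7
        exact abs_le_of_sq_le_sq h6 (by positivity)
      -- the Taylor expansion
      obtain ⟨x, hx⟩ : ∃ x : ℝ, x = (u : ℝ) / c := ⟨_, rfl⟩
      have hcp : (0 : ℝ) < c := by
        rw [← hκ6]
        positivity
      have huL' : (u : ℝ) ≤ L := by exact_mod_cast huL.le
      have hL1 : (1 : ℝ) ≤ L := by
        have : 1 ≤ L := by omega
        exact_mod_cast this
      have hLκ : (L : ℝ) ≤ κ ^ 4 := (le_self_pow₀ hL1 (by norm_num)).trans hL3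
      have hx0 : 0 ≤ x := by rw [hx]; positivity
      have hx1 : x ≤ 1 / 2 := by
        rw [hx, div_le_iff₀ hcp, ← hκ6]
        have : κ ^ 6 = κ ^ 4 * κ ^ 2 := by ring
        rw [this]
        have h9 : (2 : ℝ) ≤ κ ^ 2 := by nlinarith
        have h10 : 0 < κ ^ 4 := by positivity
        nlinarith
      have h5 := five_thirds hx0 hx1
      have hfx : f = κ ^ 10 * (1 + x) ^ (5 / 3 : ℝ) := by
        have e1 : (c : ℝ) + u = c * (1 + x) := by
          rw [hx]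
          field_simp
        have e2 : (c : ℝ) ^ (5 / 3 : ℝ) = κ ^ 10 := by
          rw [hκ, ← Real.rpow_natCast, ← Real.rpow_mul hc0]
          norm_num
        rw [hf, e1, Real.mul_rpow hc0 (by linarith), e2]
      have hcubic : κ ^ 10 + 5 / 3 * κ ^ 4 * u + 5 / 9 * (κ ^ 2)⁻¹ * u ^ 2 -
          5 / 81 * (κ ^ 8)⁻¹ * u ^ 3 =
          κ ^ 10 * (1 + 5 / 3 * x + 5 / 9 * x ^ 2 - 5 / 81 * x ^ 3) := by
        rw [hx, ← hκ6]
        field_simp
      have hrem : |f - (κ ^ 10 + 5 / 3 * κ ^ 4 * u + 5 / 9 * (κ ^ 2)⁻¹ * u ^ 2 -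
          5 / 81 * (κ ^ 8)⁻¹ * u ^ 3)| ≤ (κ ^ 5)⁻¹ := by
        rw [hcubic, hfx, ← mul_sub, abs_mul, abs_of_pos (by positivity : (0 : ℝ) < κ ^ 10)]
        calc κ ^ 10 * |(1 + x) ^ (5 / 3 : ℝ) - (1 + 5 / 3 * x + 5 / 9 * x ^ 2 - 5 / 81 * x ^ 3)|
            ≤ κ ^ 10 * x ^ 4 := mul_le_mul_of_nonneg_left h5 (by positivity)
          _ = (u : ℝ) ^ 4 * (κ ^ 14)⁻¹ := by
              rw [hx, ← hκ6]
              field_simp
          _ ≤ κ ^ 8 * (κ ^ 14)⁻¹ := by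
              refine mul_le_mul_of_nonneg_right ?_ (by positivity)
              calc (u : ℝ) ^ 4 ≤ (L : ℝ) ^ 4 := pow_le_pow_left₀ (Nat.cast_nonneg _) huL' 4
                _ = (L : ℝ) ^ 3 * L := by ring
                _ ≤ κ ^ 4 * κ ^ 4 := mul_le_mul hL3 hLκ (by positivity) (by positivity)
                _ = κ ^ 8 := by ring
          _ = (κ ^ 5)⁻¹ * κ⁻¹ := by field_simp
          _ ≤ (κ ^ 5)⁻¹ * 1 := by
              refine mul_le_mul_of_nonneg_left ?_ (by positivity)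
              exact inv_le_one_of_one_le₀ (by linarith)
          _ = (κ ^ 5)⁻¹ := mul_one _
      have e9 : (y u : ℝ) - (κ ^ 10 + 5 / 3 * κ ^ 4 * u + 5 / 9 * (κ ^ 2)⁻¹ * u ^ 2 -
          5 / 81 * (κ ^ 8)⁻¹ * u ^ 3) = ((y u : ℝ) - f) + (f - (κ ^ 10 + 5 / 3 * κ ^ 4 * u +
          5 / 9 * (κ ^ 2)⁻¹ * u ^ 2 - 5 / 81 * (κ ^ 8)⁻¹ * u ^ 3)) := by ring
      rw [e9]
      refine (abs_add_le _ _).trans ?_
      linarith
  refine hloc.count fun D hD hDκ => hτ D hD ?_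
  have h1 : κ ^ 4 ≤ κ ^ 6 := pow_le_pow_right₀ (by linarith) (by norm_num)
  rw [hκ6] at h1
  exact_mod_cast hDκ.trans h1

end Pool.Agent.Run7.h880
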