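import Mathlib
import Pool.Agent.Run7.h880.NC3

/-!
The number of the fifth powers which are close to cubes.
-/

set_option autoImplicit false

namespace Pool.Agent.Run7.h880

open Finset

open Classical in
theorem cn_dyadic {Z L τ : ℕ} (hZ : 24 ^ 6 < Z) (hL1 : 1 ≤ L) (hL : L ^ 9 ≤ Z ^ 2)
    (hτ : ∀ D : ℕ, 0 < D → D ≤ 2 * Z → D.divisors.card ≤ τ) :
    ((Ico Z (2 * Z)).filter CN).card ≤ (3 * (6 * τ + 1)) * (Z / L + 1) := by
  classical
  refine (Finset.card_le_mul_card_image (f := fun z => (z - Z) / L) _ (3 * (6 * τ + 1)) ?_).trans ?_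
  · intro i hi
    rw [mem_image] at hi
    obtain ⟨z0, hz0, hi⟩ := hi
    rw [mem_filter, mem_Ico] at hz0
    have hiL : i * L ≤ z0 - Z := by
      rw [← hi]
      exact Nat.div_mul_le_self _ _
    have hblock := cn_block (c := Z + i * L) (L := L) (τ := τ) (by omega) (hL.trans
      (Nat.pow_le_pow_left (by omega) 2)) (fun D hD hDc => hτ D hD (by omega))
    refine le_trans ?_ hblock
    refine Finset.card_le_card_of_injOn (fun z => z - (Z + i * L)) ?_ ?_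
    · intro z hz
      rw [Finset.mem_coe, mem_filter, mem_filter, mem_Ico] at hz
      obtain ⟨⟨⟨h1, h2⟩, h3⟩, h4⟩ := hz
      have h5 : i * L ≤ z - Z := by
        rw [← h4]
        exact Nat.div_mul_le_self _ _
      have h6 : z - Z < i * L + L := by
        have := Nat.lt_div_mul_add (a := z - Z) (b := L) (by omega)
        rw [h4] at this
        exact this
      rw [Finset.mem_coe, mem_filter, mem_range]
      have h7 : z - (Z + i * L) < L := by omega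
      have h8 : Z + i * L + (z - (Z + i * L)) = z := by omega
      refine ⟨h7, ?_⟩
      show CN (Z + i * L + (z - (Z + i * L)))
      rw [h8]
      exact h3
    · intro z hz z' hz' heq
      rw [Finset.mem_coe, mem_filter, mem_filter, mem_Ico] at hz hz'
      have h5 : i * L ≤ z - Z := by
        rw [← hz.2]
        exact Nat.div_mul_le_self _ _
      have h5' : i * L ≤ z' - Z := by
        rw [← hz'.2]
        exact Nat.div_mul_le_self _ _
      simp only at heq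
      omega
  · refine Nat.mul_le_mul_left _ ?_
    have hsub : ((Ico Z (2 * Z)).filter CN).image (fun z => (z - Z) / L) ⊆ range (Z / L + 1) := by
      intro i hi
      rw [mem_image] at hi
      obtain ⟨z, hz, rfl⟩ := hi
      rw [mem_filter, mem_Ico] at hz
      rw [mem_range, Nat.lt_succ_iff]
      exact Nat.div_le_div_right (by omega)
    have := Finset.card_le_card hsub
    rwa [card_range] at this

open Classical in
/-- **Close cubes and fifth powers.** -/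
theorem cn_count (k : ℕ) (hk : 1 ≤ k) : ∃ C : ℝ, 0 < C ∧ ∀ Z : ℕ, 1 ≤ Z →
    (((Icc 1 Z).filter CN).card : ℝ) ≤
      C * ((Nat.log 2 Z : ℝ) + 1) * (Z : ℝ) ^ ((7 : ℝ) / 9 + 1 / k) := by
  classical
  obtain ⟨K, hK0, hK⟩ := Pool.Agent.Helper919.card_divisors_pow_le k
  have hkR : (0 : ℝ) < k := by exact_mod_cast hk
  have hKR : (1 : ℝ) ≤ K := by exact_mod_cast hK0
  obtain ⟨C2, hC2⟩ : ∃ C2 : ℝ, C2 = (2 * K : ℝ) ^ ((1 : ℝ) / k) := ⟨_, rfl⟩
  have hC21 : 1 ≤ C2 := by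
    rw [hC2]
    exact Real.one_le_rpow (by linarith) (by positivity)
  refine ⟨24 ^ 6 + 63 * C2, by positivity, ?_⟩
  intro Z0 hZ0
  have hZ0R : (1 : ℝ) ≤ Z0 := by exact_mod_cast hZ0
  obtain ⟨θ, hθ⟩ : ∃ θ : ℝ, θ = (7 : ℝ) / 9 + 1 / k := ⟨_, rfl⟩
  have hθ0 : 0 ≤ θ := by rw [hθ]; positivity
  rw [← hθ]
  have hpow1 : (1 : ℝ) ≤ (Z0 : ℝ) ^ θ := Real.one_le_rpow hZ0R hθ0
  -- one dyadic interval
  have hdy : ∀ j : ℕ, 2 ^ j ≤ Z0 → (((Ico (2 ^ j) (2 * 2 ^ j)).filter CN).card : ℝ) ≤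
      (24 ^ 6 + 63 * C2) * (Z0 : ℝ) ^ θ := by
    intro j hj
    obtain ⟨Z, hZ⟩ : ∃ Z, Z = 2 ^ j := ⟨_, rfl⟩
    rw [← hZ] at hj ⊢
    have hZ1 : 1 ≤ Z := by
      rw [hZ]
      exact Nat.one_le_two_pow
    have hZR : (1 : ℝ) ≤ Z := by exact_mod_cast hZ1
    rcases Nat.lt_or_ge (24 ^ 6) Z with hbig | hsmall
    · -- the main case
      obtain ⟨x, hx⟩ : ∃ x : ℝ, x = (Z : ℝ) ^ ((2 : ℝ) / 9) := ⟨_, rfl⟩
      have hx1 : 1 ≤ x := by
        rw [hx]
        exact Real.one_le_rpow hZR (by norm_num)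
      have hx9 : x ^ 9 = (Z : ℝ) ^ 2 := by
        rw [hx, ← Real.rpow_natCast, ← Real.rpow_mul (by linarith), ← Real.rpow_natCast]
        norm_num
      have hLx : ((⌊x⌋₊ : ℕ) : ℝ) ≤ x := Nat.floor_le (by linarith)
      have hL1 : 1 ≤ ⌊x⌋₊ := Nat.le_floor (by simpa using hx1)
      have hL9 : ⌊x⌋₊ ^ 9 ≤ Z ^ 2 := by
        have h1 : ((⌊x⌋₊ : ℕ) : ℝ) ^ 9 ≤ (Z : ℝ) ^ 2 := by
          rw [← hx9]
          exact pow_le_pow_left₀ (Nat.cast_nonneg _) hLx 9
        exact_mod_cast h1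
      have hLhalf : x / 2 ≤ (⌊x⌋₊ : ℕ) := by
        have h1 := Nat.lt_floor_add_one x
        have h2 : (1 : ℝ) ≤ (⌊x⌋₊ : ℕ) := by exact_mod_cast hL1
        linarith
      obtain ⟨t, ht⟩ : ∃ t : ℝ, t = (2 * K * Z : ℝ) ^ ((1 : ℝ) / k) := ⟨_, rfl⟩
      have ht1 : 1 ≤ t := by
        rw [ht]
        exact Real.one_le_rpow (by nlinarith) (by positivity)
      have htk : t ^ k = 2 * K * Z := by
        rw [ht, ← Real.rpow_natCast, ← Real.rpow_mul (by positivity), one_div_mul_cancel hkR.ne',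
          Real.rpow_one]
      have hτ : ∀ D : ℕ, 0 < D → D ≤ 2 * Z → D.divisors.card ≤ ⌊t⌋₊ := by
        intro D hD hDZ
        refine Nat.le_floor ?_
        have h1 := hK D hD.ne'
        have h2 : ((D.divisors.card : ℕ) : ℝ) ^ k ≤ t ^ k := by
          rw [htk]
          calc ((D.divisors.card : ℕ) : ℝ) ^ k = ((D.divisors.card ^ k : ℕ) : ℝ) := by push_cast; rfl
            _ ≤ ((K * D : ℕ) : ℝ) := by exact_mod_cast h1
            _ ≤ ((K * (2 * Z) : ℕ) : ℝ) := by exact_mod_cast Nat.mul_le_mul_left _ hDZ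
            _ = 2 * K * Z := by push_cast; ring
        exact (pow_le_pow_iff_left₀ (Nat.cast_nonneg _) (by linarith) (by omega)).1 h2
      have h1 := cn_dyadic hbig hL1 hL9 hτ
      have htf : ((⌊t⌋₊ : ℕ) : ℝ) ≤ t := Nat.floor_le (by linarith)
      have h2 : ((3 * (6 * ⌊t⌋₊ + 1) : ℕ) : ℝ) ≤ 21 * t := by
        push_cast
        linarith
      have h3 : ((Z / ⌊x⌋₊ + 1 : ℕ) : ℝ) ≤ 3 * (Z : ℝ) ^ ((7 : ℝ) / 9) := by
        have e1 : ((Z / ⌊x⌋₊ : ℕ) : ℝ) ≤ (Z : ℝ) / (⌊x⌋₊ : ℕ) := Nat.cast_div_le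
        have e2 : (Z : ℝ) / (⌊x⌋₊ : ℕ) ≤ (Z : ℝ) / (x / 2) :=
          div_le_div_of_nonneg_left (by linarith) (by linarith) hLhalf
        have e3 : (Z : ℝ) / (x / 2) = 2 * (Z : ℝ) ^ ((7 : ℝ) / 9) := by
          have e4 : (Z : ℝ) = (Z : ℝ) ^ ((7 : ℝ) / 9) * x := by
            rw [hx, ← Real.rpow_add (by linarith)]
            norm_num
          have hx0 : x ≠ 0 := by linarith
          rw [div_div_eq_mul_div, div_eq_iff hx0]
          conv_lhs => rw [e4]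
          ring
        have e5 : (1 : ℝ) ≤ (Z : ℝ) ^ ((7 : ℝ) / 9) := Real.one_le_rpow hZR (by norm_num)
        push_cast
        linarith
      have h4 : (((Ico Z (2 * Z)).filter CN).card : ℝ) ≤ (21 * t) * (3 * (Z : ℝ) ^ ((7 : ℝ) / 9)) := by
        calc (((Ico Z (2 * Z)).filter CN).card : ℝ)
            ≤ (((3 * (6 * ⌊t⌋₊ + 1)) * (Z / ⌊x⌋₊ + 1) : ℕ) : ℝ) := by exact_mod_cast h1
          _ = ((3 * (6 * ⌊t⌋₊ + 1) : ℕ) : ℝ) * ((Z / ⌊x⌋₊ + 1 : ℕ) : ℝ) := by push_cast; ring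
          _ ≤ _ := mul_le_mul h2 h3 (Nat.cast_nonneg _) (by linarith)
      have h5 : t = C2 * (Z : ℝ) ^ ((1 : ℝ) / k) := by
        rw [ht, hC2, ← Real.mul_rpow (by positivity) (by positivity)]
      have h6 : (21 * t) * (3 * (Z : ℝ) ^ ((7 : ℝ) / 9)) = 63 * C2 * (Z : ℝ) ^ θ := by
        rw [h5, hθ, Real.rpow_add (by linarith)]
        ring
      rw [h6] at h4
      have h7 : (Z : ℝ) ^ θ ≤ (Z0 : ℝ) ^ θ :=
        Real.rpow_le_rpow (by linarith) (by exact_mod_cast hj) hθ0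
      have h8 : 63 * C2 * (Z : ℝ) ^ θ ≤ 63 * C2 * (Z0 : ℝ) ^ θ :=
        mul_le_mul_of_nonneg_left h7 (by positivity)
      have h9 : (0 : ℝ) ≤ 24 ^ 6 * (Z0 : ℝ) ^ θ := by positivity
      linarith
    · -- a small interval
      have h1 : ((Ico Z (2 * Z)).filter CN).card ≤ 24 ^ 6 := by
        refine (card_filter_le _ _).trans ?_
        rw [Nat.card_Ico]
        omega
      have h2 : (((Ico Z (2 * Z)).filter CN).card : ℝ) ≤ 24 ^ 6 := by exact_mod_cast h1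
      have h3 : (24 : ℝ) ^ 6 * 1 ≤ 24 ^ 6 * (Z0 : ℝ) ^ θ :=
        mul_le_mul_of_nonneg_left hpow1 (by norm_num)
      have h4 : (0 : ℝ) ≤ 63 * C2 * (Z0 : ℝ) ^ θ := by positivity
      linarith
  -- all dyadic intervals
  have hsub : (Icc 1 Z0).filter CN ⊆
      (range (Nat.log 2 Z0 + 1)).biUnion fun j => (Ico (2 ^ j) (2 * 2 ^ j)).filter CN := by
    intro z hz
    rw [mem_filter, mem_Icc] at hz
    obtain ⟨⟨h1, h2⟩, h3⟩ := hz
    rw [mem_biUnion]
    refine ⟨Nat.log 2 z, ?_, ?_⟩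
    · rw [mem_range, Nat.lt_succ_iff]
      exact Nat.log_mono_right h2
    · rw [mem_filter, mem_Ico]
      refine ⟨⟨Nat.pow_log_le_self 2 (by omega), ?_⟩, h3⟩
      have := Nat.lt_pow_succ_log_self (b := 2) (by norm_num) z
      rw [pow_succ] at this
      omega
  calc (((Icc 1 Z0).filter CN).card : ℝ)
      ≤ (((range (Nat.log 2 Z0 + 1)).biUnion fun j =>
          (Ico (2 ^ j) (2 * 2 ^ j)).filter CN).card : ℝ) := by
        exact_mod_cast Finset.card_le_card hsub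
    _ ≤ ∑ j ∈ range (Nat.log 2 Z0 + 1), (((Ico (2 ^ j) (2 * 2 ^ j)).filter CN).card : ℝ) := by
        exact_mod_cast Finset.card_biUnion_le
    _ ≤ ∑ j ∈ range (Nat.log 2 Z0 + 1), (24 ^ 6 + 63 * C2) * (Z0 : ℝ) ^ θ := by
        refine Finset.sum_le_sum fun j hj => hdy j ?_
        rw [mem_range, Nat.lt_succ_iff] at hj
        exact (Nat.pow_le_pow_right (by norm_num) hj).trans (Nat.pow_log_le_self 2 (by omega))
    _ = (24 ^ 6 + 63 * C2) * ((Nat.log 2 Z0 : ℝ) + 1) * (Z0 : ℝ) ^ θ := by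
        rw [Finset.sum_const, card_range, nsmul_eq_mul]
        push_cast
        ring

end Pool.Agent.Run7.h880
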