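import Mathlib
import Pool.Agent.Run7.h880.NC4
import Pool.Agent.Run7.h880.GapsL

/-!
The gaps whose prime powers differ by at most `4 √p_k` and in which the quotient of the least common
multiples has at least three prime factors.
-/

set_option autoImplicit false

namespace Pool.Agent.Run7.h880

open Finset Nd8d74632

theorem add_two_pow_ge (A : ℕ) (g : ℕ) : A ^ (g + 1) + 2 * (g + 1) * A ^ g ≤ (A + 2) ^ (g + 1) := by
  induction g with
  | zero => simp
  | succ g ih =>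
    calc A ^ (g + 1 + 1) + 2 * (g + 1 + 1) * A ^ (g + 1)
        ≤ (A ^ (g + 1) + 2 * (g + 1) * A ^ g) * (A + 2) := by
          have e : (A ^ (g + 1) + 2 * (g + 1) * A ^ g) * (A + 2) =
            A ^ (g + 1 + 1) + 2 * (g + 1 + 1) * A ^ (g + 1) + 4 * (g + 1) * A ^ g := by ring
          rw [e]
          exact Nat.le_add_right _ _
      _ ≤ (A + 2) ^ (g + 1) * (A + 2) := Nat.mul_le_mul_right _ ih
      _ = (A + 2) ^ (g + 1 + 1) := by ring

/-- two odd `g`-th powers, `g ≥ 2`, greater than `p` differ by more than `4 √p` -/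
theorem pow_far' {A B g p : ℕ} (hg : 2 ≤ g) (hA2 : Odd A) (hB2 : Odd B) (hAB : A ^ g < B ^ g)
    (hA : p < A ^ g) : 16 * p < (B ^ g - A ^ g) ^ 2 := by
  have hlt : A < B := lt_of_pow_lt_pow_left₀ g (Nat.zero_le _) hAB
  have hlt2 : A + 2 ≤ B := by
    obtain ⟨a, rfl⟩ := hA2
    obtain ⟨b, rfl⟩ := hB2
    omega
  obtain ⟨g', rfl⟩ : ∃ g', g = g' + 2 := ⟨g - 2, by omega⟩
  have hA1 : 1 ≤ A := hA2.pos
  have h1 : A ^ (g' + 2) + 2 * (g' + 2) * A ^ (g' + 1) ≤ B ^ (g' + 2) :=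
    (add_two_pow_ge A (g' + 1)).trans (Nat.pow_le_pow_left hlt2 _)
  have h2 : 4 * A ^ (g' + 1) ≤ B ^ (g' + 2) - A ^ (g' + 2) := by
    have : 4 * A ^ (g' + 1) ≤ 2 * (g' + 2) * A ^ (g' + 1) := Nat.mul_le_mul_right _ (by omega)
    omega
  calc 16 * p < 16 * A ^ (g' + 2) := by omega
    _ ≤ 16 * (A ^ (g' + 1)) ^ 2 := by
        refine Nat.mul_le_mul_left _ ?_
        rw [← pow_mul]
        exact Nat.pow_le_pow_right hA1 (by omega)
    _ = (4 * A ^ (g' + 1)) ^ 2 := by ring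
    _ ≤ (B ^ (g' + 2) - A ^ (g' + 2)) ^ 2 := Nat.pow_le_pow_left h2 2


open Classical in
/-- the marks -/
noncomputable def FM (X r Z : ℕ) : Finset ℕ :=
  (range (r + 3) ×ˢ range (Nat.log 2 X + 2)).image (fun t => t.1 ^ t.2) ∪
  ((Icc 1 Z).filter CN).image (fun z => z ^ 5)

theorem mark_mid {X r Z k : ℕ} (hr : ∀ x : ℕ, x ^ 7 ≤ 2 * X → x ≤ r)
    (hZ : ∀ z : ℕ, z ^ 5 ≤ 2 * X → z ≤ Z) (hkX : Nat.nth Nat.Prime k ≤ X)
    (hw : ∀ m n : ℕ, Nat.nth Nat.Prime k < m → m ≤ n → n < Nat.nth Nat.Prime (k + 1) →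
      IsPrimePow m → IsPrimePow n → (n - m) ^ 2 ≤ 16 * Nat.nth Nat.Prime k)
    (hR : 3 ≤ (lcm_upto (Nat.nth Nat.Prime (k + 1) - 1) /
        lcm_upto (Nat.nth Nat.Prime k)).primeFactors.card ∨
      (2 * Nat.nth Nat.Prime k) ^ 5 <
        (lcm_upto (Nat.nth Nat.Prime (k + 1) - 1) / lcm_upto (Nat.nth Nat.Prime k)) ^ 6) :
    ∃ N ∈ FM X r Z, Nat.nth Nat.Prime k < N ∧ N < Nat.nth Nat.Prime (k + 1) := by
  classical
  have hpp := Nat.prime_nth_prime k
  have hlt : Nat.nth Nat.Prime k < Nat.nth Nat.Prime (k + 1) :=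
    Nat.nth_strictMono Nat.infinite_setOfPred_prime (Nat.lt_succ_self k)
  have hn2 := next_le k
  obtain ⟨R, hRdef⟩ : ∃ R, R =
    lcm_upto (Nat.nth Nat.Prime (k + 1) - 1) / lcm_upto (Nat.nth Nat.Prime k) := ⟨_, rfl⟩
  have hle : R ≤ ∏ j ∈ (Ioo (Nat.nth Nat.Prime k) (Nat.nth Nat.Prime (k + 1))).filter IsPrimePow,
      j.minFac := by
    rw [hRdef]
    exact Nat.div_le_of_le_mul (lcm_gap_le _ _ hlt)
  obtain ⟨p, hp⟩ : ∃ p, p = Nat.nth Nat.Prime k := ⟨_, rfl⟩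
  obtain ⟨P, hP⟩ : ∃ P, P = Nat.nth Nat.Prime (k + 1) := ⟨_, rfl⟩
  have hdiv : ∀ q ∈ R.primeFactors, ∃ a : ℕ, p < q ^ a ∧ q ^ a ≤ P - 1 := by
    intro q hq
    rw [hp, hP]
    refine exists_pow_of_dvd (by omega) (Nat.prime_of_mem_primeFactors hq) ?_
    rw [← hRdef]
    exact Nat.dvd_of_mem_primeFactors hq
  rw [← hRdef, ← hp] at hR
  rw [← hp, ← hP] at hle hlt hn2 hw ⊢
  rw [← hp] at hkX
  obtain ⟨W, hW⟩ : ∃ W, W = (Ioo p P).filter IsPrimePow := ⟨_, rfl⟩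
  rw [← hW] at hle
  have hmemW : ∀ j, j ∈ W ↔ (p < j ∧ j < P) ∧ IsPrimePow j := by
    intro j
    rw [hW, mem_filter, mem_Ioo]
  have hp2 : 2 ≤ p := by
    rw [hp]
    exact hpp.two_le
  -- the exponents
  obtain ⟨ex, hex⟩ : ∃ ex : ℕ → ℕ, ex = fun j => j.factorization j.minFac := ⟨_, rfl⟩
  have hpow : ∀ j ∈ W, j.minFac.Prime ∧ j.minFac ^ ex j = j := by
    intro j hj
    have h1 := ((hmemW j).1 hj).2
    refine ⟨Nat.minFac_prime h1.one_lt.ne', ?_⟩
    rw [hex]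
    exact h1.minFac_pow_factorization_eq
  have hex2 : ∀ j ∈ W, 2 ≤ ex j := by
    intro j hj
    obtain ⟨c1, c2⟩ := hpow j hj
    have h1 := ((hmemW j).1 hj).1
    exact two_le_exp (k := k) c1 (by rw [c2, ← hp]; exact h1.1) (by rw [c2, ← hP]; exact h1.2)
  have hbase : ∀ j ∈ W, ∀ e, e ≤ ex j → j.minFac ^ e ≤ 2 * p := by
    intro j hj e he
    obtain ⟨c1, c2⟩ := hpow j hj
    calc j.minFac ^ e ≤ j.minFac ^ ex j := Nat.pow_le_pow_right c1.pos he
      _ = j := c2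
      _ ≤ 2 * p := by
        have := ((hmemW j).1 hj).1.2
        omega
  -- a mark from a prime power with a small base or a large exponent
  have hmark : ∀ j ∈ W, (j.minFac = 2 ∨ 7 ≤ ex j) →
      ∃ N ∈ FM X r Z, p < N ∧ N < P := by
    intro j hj hj7
    have h1 := ((hmemW j).1 hj).1
    obtain ⟨c1, c2⟩ := hpow j hj
    refine ⟨j, ?_, h1.1, h1.2⟩
    simp only [FM, mem_union]
    left
    rw [mem_image]
    refine ⟨(j.minFac, ex j), ?_, c2⟩
    rw [mem_product, mem_range, mem_range]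
    constructor
    · rcases hj7 with hj7 | hj7
      · show j.minFac < r + 3
        omega
      · have h2 : j.minFac ^ 7 ≤ 2 * X := (hbase j hj 7 hj7).trans (by omega)
        have := hr _ h2
        show j.minFac < r + 3
        omega
    · have h2 : 2 ^ ex j ≤ 2 * X := by
        calc 2 ^ ex j ≤ j.minFac ^ ex j := Nat.pow_le_pow_left c1.two_le _
          _ = j := c2
          _ ≤ 2 * X := by omega
      have h3 := Nat.le_log_of_pow_le (by norm_num) h2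
      rw [mul_comm, Nat.log_mul_base (by norm_num) (by omega)] at h3
      show ex j < _
      omega
  by_cases h7 : ∃ j ∈ W, (j.minFac = 2 ∨ 7 ≤ ex j)
  · obtain ⟨j, hj, hj7⟩ := h7
    exact hmark j hj hj7
  push Not at h7
  have hodd : ∀ j ∈ W, Odd j.minFac := fun j hj =>
    (hpow j hj).1.odd_of_ne_two (h7 j hj).1
  -- pairwise coprime exponents
  have hcop : ∀ a b : ℕ, a ∈ W → b ∈ W → a < b → Nat.Coprime (ex a) (ex b) := by
    intro a b ha hb hab
    by_contra hco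
    obtain ⟨g, hg⟩ : ∃ g, g = Nat.gcd (ex a) (ex b) := ⟨_, rfl⟩
    have hg1 : g ≠ 1 := by
      rw [hg]
      exact hco
    have hg0 : g ≠ 0 := by
      intro h0
      rw [hg, Nat.gcd_eq_zero_iff] at h0
      have h1 := (hpow a ha).2
      rw [h0.1, pow_zero] at h1
      have h2 := ((hmemW a).1 ha).1.1
      omega
    obtain ⟨u, hu⟩ : g ∣ ex a := by
      rw [hg]
      exact Nat.gcd_dvd_left _ _
    obtain ⟨v, hv⟩ : g ∣ ex b := by
      rw [hg]
      exact Nat.gcd_dvd_right _ _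
    have ea : (a.minFac ^ u) ^ g = a := by
      rw [← pow_mul, mul_comm, ← hu]
      exact (hpow a ha).2
    have eb : (b.minFac ^ v) ^ g = b := by
      rw [← pow_mul, mul_comm, ← hv]
      exact (hpow b hb).2
    have ga := (hmemW a).1 ha
    have gb := (hmemW b).1 hb
    have h1 := pow_far' (A := a.minFac ^ u) (B := b.minFac ^ v) (g := g) (p := p) (by omega)
      ((hodd a ha).pow) ((hodd b hb).pow) (by rw [ea, eb]; exact hab) (by rw [ea]; exact ga.1.1)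
    rw [ea, eb] at h1
    have h2 := hw a b ga.1.1 hab.le gb.1.2 ga.2 gb.2
    omega
  have hcop' : ∀ a b : ℕ, a ∈ W → b ∈ W → a ≠ b → Nat.Coprime (ex a) (ex b) := by
    intro a b ha hb hab
    rcases lt_or_gt_of_ne hab with h | h
    · exact hcop a b ha hb h
    · exact (hcop b a hb ha h).symm
  -- there are at least three prime powers
  have hW3 : 3 ≤ W.card := by
    rcases hR with hR | hR
    · refine hR.trans ?_
      have hex1 : ∀ q : ℕ, q ∈ R.primeFactors → ∃ a : ℕ, q ^ a ∈ W := by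
        intro q hq
        obtain ⟨a, h1, h2⟩ := hdiv q hq
        refine ⟨a, (hmemW _).2 ⟨⟨h1, by omega⟩, ?_⟩⟩
        refine (Nat.prime_of_mem_primeFactors hq).prime.isPrimePow.pow ?_
        rintro rfl
        rw [pow_zero] at h1
        omega
      choose! a ha using hex1
      refine Finset.card_le_card_of_injOn (fun q => q ^ a q) (fun q hq => ha q hq) ?_
      intro q hq q' hq' heq
      rw [Finset.mem_coe] at hq hq'
      have h1 := Nat.prime_of_mem_primeFactors hq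
      have h2 := Nat.prime_of_mem_primeFactors hq'
      have h3 : a q ≠ 0 := by
        intro h0
        have := ((hmemW _).1 (ha q hq)).1.1
        rw [h0, pow_zero] at this
        omega
      have h4 : q ∣ q' ^ a q' := by
        have heq' : q ^ a q = q' ^ a q' := heq
        rw [← heq']
        exact dvd_pow_self _ h3
      exact (Nat.prime_dvd_prime_iff_eq h1 h2).1 (h1.dvd_of_dvd_pow h4)
    · by_contra hcon
      push Not at hcon
      have h6 : R ^ 6 ≤ (2 * p) ^ 5 := by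
        have hcase : W.card = 0 ∨ W.card = 1 ∨ W.card = 2 := by omega
        rcases hcase with h | h | h
        · rw [Finset.card_eq_zero] at h
          rw [h, Finset.prod_empty] at hle
          calc R ^ 6 ≤ 1 ^ 6 := Nat.pow_le_pow_left hle _
            _ = 1 := one_pow _
            _ ≤ (2 * p) ^ 5 := Nat.one_le_pow _ _ (by omega)
        · rw [Finset.card_eq_one] at h
          obtain ⟨a, ha⟩ := h
          have haW : a ∈ W := by rw [ha]; exact mem_singleton_self _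
          rw [ha, Finset.prod_singleton] at hle
          calc R ^ 6 ≤ a.minFac ^ 6 := Nat.pow_le_pow_left hle _
            _ = (a.minFac ^ 2) ^ 3 := by ring
            _ ≤ (2 * p) ^ 3 := Nat.pow_le_pow_left (hbase a haW 2 (hex2 a haW)) _
            _ ≤ (2 * p) ^ 5 := Nat.pow_le_pow_right (by omega) (by norm_num)
        · rw [Finset.card_eq_two] at h
          obtain ⟨a, b, hab, hWab⟩ := h
          have haW : a ∈ W := by rw [hWab]; exact mem_insert_self _ _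
          have hbW : b ∈ W := by rw [hWab]; exact mem_insert_of_mem (mem_singleton_self _)
          rw [hWab, Finset.prod_pair hab] at hle
          have key : ∀ a b : ℕ, a ∈ W → b ∈ W → 3 ≤ ex b → R ≤ a.minFac * b.minFac →
              R ^ 6 ≤ (2 * p) ^ 5 := by
            intro a b haW hbW hb3 hle
            calc R ^ 6 ≤ (a.minFac * b.minFac) ^ 6 := Nat.pow_le_pow_left hle _
              _ = (a.minFac ^ 2) ^ 3 * (b.minFac ^ 3) ^ 2 := by ring
              _ ≤ (2 * p) ^ 3 * (2 * p) ^ 2 := Nat.mul_le_mul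
                  (Nat.pow_le_pow_left (hbase a haW 2 (hex2 a haW)) _)
                  (Nat.pow_le_pow_left (hbase b hbW 3 hb3) _)
              _ = (2 * p) ^ 5 := by ring
          have h1 := hcop' a b haW hbW hab
          have h2 := hex2 a haW
          have h3 := hex2 b hbW
          by_cases hb3 : 3 ≤ ex b
          · exact key a b haW hbW hb3 hle
          · have hb2 : ex b = 2 := by omega
            refine key b a hbW haW ?_ (by rw [mul_comm]; exact hle)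
            by_contra hcon
            have ha2 : ex a = 2 := by omega
            rw [ha2, hb2] at h1
            norm_num at h1
      omega
  -- exponents `3` and `5`
  obtain ⟨a, b, ha, hb, ha3, hb5⟩ : ∃ a b : ℕ, a ∈ W ∧ b ∈ W ∧ ex a = 3 ∧ ex b = 5 := by
    obtain ⟨x, hx, y, hy, z, hz, hxy, hxz, hyz⟩ := Finset.two_lt_card.1 (show 2 < W.card by omega)
    have g1 := hcop' x y hx hy hxy
    have g2 := hcop' x z hx hz hxz
    have g3 := hcop' y z hy hz hyz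
    have x1 := hex2 x hx
    have y1 := hex2 y hy
    have z1 := hex2 z hz
    have x2 := (h7 x hx).2
    have y2 := (h7 y hy).2
    have z2 := (h7 z hz).2
    have key : ∀ u v w : ℕ, 2 ≤ u → u < 7 → 2 ≤ v → v < 7 → 2 ≤ w → w < 7 → Nat.Coprime u v →
        Nat.Coprime u w → Nat.Coprime v w →
        (u = 3 ∨ v = 3 ∨ w = 3) ∧ (u = 5 ∨ v = 5 ∨ w = 5) := by
      intro u v w u1 u2 v1 v2 w1 w2 c1 c2 c3
      interval_cases u <;> interval_cases v <;> first
        | (exfalso; revert c1; decide)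
        | (interval_cases w <;> first
            | (exfalso; revert c2; decide)
            | (exfalso; revert c3; decide)
            | decide)
    obtain ⟨k3, k5⟩ := key _ _ _ x1 x2 y1 y2 z1 z2 g1 g2 g3
    rcases k3 with k3 | k3 | k3 <;> rcases k5 with k5 | k5 | k5
    · omega
    · exact ⟨x, y, hx, hy, k3, k5⟩
    · exact ⟨x, z, hx, hz, k3, k5⟩
    · exact ⟨y, x, hy, hx, k3, k5⟩
    · omega
    · exact ⟨y, z, hy, hz, k3, k5⟩
    · exact ⟨z, x, hz, hx, k3, k5⟩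
    · exact ⟨z, y, hz, hy, k3, k5⟩
    · omega
  obtain ⟨a1, a2⟩ := hpow a ha
  obtain ⟨b1, b2⟩ := hpow b hb
  rw [ha3] at a2
  rw [hb5] at b2
  have ga := (hmemW a).1 ha
  have gb := (hmemW b).1 hb
  refine ⟨b, ?_, gb.1.1, gb.1.2⟩
  simp only [FM, mem_union]
  right
  rw [mem_image]
  refine ⟨b.minFac, ?_, b2⟩
  rw [mem_filter, mem_Icc]
  refine ⟨⟨b1.pos, hZ _ (by rw [b2]; omega)⟩, ⟨a.minFac, ?_⟩⟩
  have e1 : ((a.minFac : ℕ) : ℤ) ^ 3 = a := by exact_mod_cast a2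
  have e2 : ((b.minFac : ℕ) : ℤ) ^ 5 = b := by exact_mod_cast b2
  rw [e1, e2]
  rcases le_total a b with hab | hab
  · have h1 := hw a b ga.1.1 hab gb.1.2 ga.2 gb.2
    have h2 : ((b : ℤ) - a) ^ 2 ≤ 16 * p := by
      have := (Nat.cast_le (α := ℤ)).2 h1
      push_cast [Nat.cast_sub hab] at this
      exact this
    have h3 : (p : ℤ) ≤ b := by exact_mod_cast gb.1.1.le
    nlinarith
  · have h1 := hw b a gb.1.1 hab ga.1.2 gb.2 ga.2
    have h2 : ((a : ℤ) - b) ^ 2 ≤ 16 * p := by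
      have := (Nat.cast_le (α := ℤ)).2 h1
      push_cast [Nat.cast_sub hab] at this
      exact this
    have h3 : (p : ℤ) ≤ b := by exact_mod_cast gb.1.1.le
    nlinarith

theorem natlog_le {a : ℝ} (ha : 0 < a) : ∃ C : ℝ, 0 < C ∧ ∀ X : ℕ, 1 ≤ X →
    (Nat.log 2 X : ℝ) + 2 ≤ C * (X : ℝ) ^ a := by
  refine ⟨1 / (a * Real.log 2) + 2, by
    have := Real.log_pos (show (1 : ℝ) < 2 by norm_num)
    positivity, ?_⟩
  intro X hX
  have hXR : (1 : ℝ) ≤ X := by exact_mod_cast hX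
  have hl2 : 0 < Real.log 2 := Real.log_pos (by norm_num)
  have h1 : (Nat.log 2 X : ℝ) ≤ Real.logb 2 X := by
    have := Real.natLog_le_logb X 2
    exact_mod_cast this
  have h2 : Real.logb 2 X = Real.log X / Real.log 2 := rfl
  have h3 : Real.log X ≤ (X : ℝ) ^ a / a := Real.log_le_rpow_div (by linarith) ha
  have h4 : Real.log X / Real.log 2 ≤ ((X : ℝ) ^ a / a) / Real.log 2 :=
    div_le_div_of_nonneg_right h3 hl2.le
  have h5 : ((X : ℝ) ^ a / a) / Real.log 2 = 1 / (a * Real.log 2) * (X : ℝ) ^ a := by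
    field_simp
  have h6 : (1 : ℝ) ≤ (X : ℝ) ^ a := Real.one_le_rpow hXR ha.le
  rw [add_mul]
  rw [h2] at h1
  linarith


/-- **The number of the gaps with three close prime powers.** -/
theorem three_count {ε : ℝ} (hε : 0 < ε) : ∃ C : ℝ, 0 < C ∧ ∀ X : ℕ, 1 ≤ X →
    {k : ℕ | Nat.nth Nat.Prime k ≤ X ∧
      (∀ m n : ℕ, Nat.nth Nat.Prime k < m → m ≤ n → n < Nat.nth Nat.Prime (k + 1) →
        IsPrimePow m → IsPrimePow n → (n - m) ^ 2 ≤ 16 * Nat.nth Nat.Prime k) ∧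
      (3 ≤ (lcm_upto (Nat.nth Nat.Prime (k + 1) - 1) /
          lcm_upto (Nat.nth Nat.Prime k)).primeFactors.card ∨
        (2 * Nat.nth Nat.Prime k) ^ 5 <
          (lcm_upto (Nat.nth Nat.Prime (k + 1) - 1) / lcm_upto (Nat.nth Nat.Prime k)) ^ 6)}.Finite ∧
    ({k : ℕ | Nat.nth Nat.Prime k ≤ X ∧
      (∀ m n : ℕ, Nat.nth Nat.Prime k < m → m ≤ n → n < Nat.nth Nat.Prime (k + 1) →
        IsPrimePow m → IsPrimePow n → (n - m) ^ 2 ≤ 16 * Nat.nth Nat.Prime k) ∧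
      (3 ≤ (lcm_upto (Nat.nth Nat.Prime (k + 1) - 1) /
          lcm_upto (Nat.nth Nat.Prime k)).primeFactors.card ∨
        (2 * Nat.nth Nat.Prime k) ^ 5 <
          (lcm_upto (Nat.nth Nat.Prime (k + 1) - 1) /
            lcm_upto (Nat.nth Nat.Prime k)) ^ 6)}.ncard : ℝ) ≤
      C * (X : ℝ) ^ ((7 : ℝ) / 45 + ε) := by
  classical
  obtain ⟨k0, hk0⟩ : ∃ k0 : ℕ, k0 = ⌈1 / ε⌉₊ := ⟨_, rfl⟩
  have hk01 : 1 ≤ k0 := by
    rw [hk0]
    exact Nat.one_le_ceil_iff.2 (by positivity)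
  have hk0R : (0 : ℝ) < k0 := by exact_mod_cast hk01
  have hk0ε : 1 / (k0 : ℝ) ≤ ε := by
    have h1 : 1 / ε ≤ k0 := by
      rw [hk0]
      exact Nat.le_ceil _
    rw [div_le_iff₀ hε] at h1
    rw [div_le_iff₀ hk0R]
    linarith
  obtain ⟨C1, hC1, hcn⟩ := cn_count k0 hk01
  obtain ⟨C2, hC2, hlog2⟩ := natlog_le (a := ε / 2) (by positivity)
  obtain ⟨C3, hC3, hlog3⟩ := natlog_le (a := (7 : ℝ) / 45 - 1 / 7) (by norm_num)
  refine ⟨5 * C3 + C1 * C2 * 2, by positivity, ?_⟩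
  intro X hX
  have hXR : (1 : ℝ) ≤ X := by exact_mod_cast hX
  have hX0 : (0 : ℝ) < X := by linarith
  have h2X : (1 : ℝ) ≤ 2 * X := by linarith
  obtain ⟨r, hr⟩ : ∃ r : ℕ, r = ⌊(2 * X : ℝ) ^ ((1 : ℝ) / 7)⌋₊ := ⟨_, rfl⟩
  obtain ⟨Z, hZ⟩ : ∃ Z : ℕ, Z = ⌊(2 * X : ℝ) ^ ((1 : ℝ) / 5)⌋₊ := ⟨_, rfl⟩
  have hroot : ∀ (x q : ℕ), 1 ≤ q → x ^ q ≤ 2 * X → x ≤ ⌊(2 * X : ℝ) ^ ((1 : ℝ) / q)⌋₊ := by
    intro x q hq hx
    refine Nat.le_floor ?_
    have hqR : (q : ℝ) ≠ 0 := by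
      have : (1 : ℝ) ≤ q := by exact_mod_cast hq
      linarith
    have h1 : ((x : ℝ)) ^ q ≤ 2 * X := by exact_mod_cast hx
    have h2 : (x : ℝ) = ((x : ℝ) ^ q) ^ ((1 : ℝ) / q) := by
      rw [← Real.rpow_natCast, ← Real.rpow_mul (Nat.cast_nonneg _), mul_one_div_cancel hqR,
        Real.rpow_one]
    rw [h2]
    exact Real.rpow_le_rpow (by positivity) h1 (by positivity)
  obtain ⟨h1, h2⟩ := ncard_of_mark (B := {k : ℕ | Nat.nth Nat.Prime k ≤ X ∧
      (∀ m n : ℕ, Nat.nth Nat.Prime k < m → m ≤ n → n < Nat.nth Nat.Prime (k + 1) →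
        IsPrimePow m → IsPrimePow n → (n - m) ^ 2 ≤ 16 * Nat.nth Nat.Prime k) ∧
      (3 ≤ (lcm_upto (Nat.nth Nat.Prime (k + 1) - 1) /
          lcm_upto (Nat.nth Nat.Prime k)).primeFactors.card ∨
        (2 * Nat.nth Nat.Prime k) ^ 5 <
          (lcm_upto (Nat.nth Nat.Prime (k + 1) - 1) / lcm_upto (Nat.nth Nat.Prime k)) ^ 6)})
    (F := FM X r Z) (by
      rintro k ⟨a1, a2, a3⟩
      refine mark_mid ?_ ?_ a1 a2 a3
      · intro x hx
        rw [hr]
        exact_mod_cast hroot x 7 (by norm_num) hx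
      · intro z hz
        rw [hZ]
        exact_mod_cast hroot z 5 (by norm_num) hz)
  refine ⟨h1, ?_⟩
  have hZ1 : 1 ≤ Z := by
    rw [hZ]
    refine Nat.le_floor ?_
    rw [Nat.cast_one]
    exact Real.one_le_rpow h2X (by norm_num)
  have hZR : (Z : ℝ) ≤ (2 * X : ℝ) ^ ((1 : ℝ) / 5) := by
    rw [hZ]
    exact Nat.floor_le (by positivity)
  have hrR : (r : ℝ) ≤ 2 * (X : ℝ) ^ ((1 : ℝ) / 7) := by
    have h3 : (r : ℝ) ≤ (2 * X : ℝ) ^ ((1 : ℝ) / 7) := by
      rw [hr]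
      exact Nat.floor_le (by positivity)
    refine h3.trans ?_
    rw [Real.mul_rpow (by norm_num) hX0.le]
    refine mul_le_mul_of_nonneg_right ?_ (by positivity)
    calc (2 : ℝ) ^ ((1 : ℝ) / 7) ≤ (2 : ℝ) ^ (1 : ℝ) :=
          Real.rpow_le_rpow_of_exponent_le (by norm_num) (by norm_num)
      _ = 2 := Real.rpow_one 2
  have hcard : ((FM X r Z).card : ℝ) ≤ ((r : ℝ) + 3) * ((Nat.log 2 X : ℝ) + 2) +
      (((Icc 1 Z).filter CN).card : ℝ) := by
    have h3 : (FM X r Z).card ≤ (r + 3) * (Nat.log 2 X + 2) +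
        ((Icc 1 Z).filter CN).card := by
      unfold FM
      refine (card_union_le _ _).trans (add_le_add ?_ card_image_le)
      refine card_image_le.trans ?_
      rw [card_product, card_range, card_range]
    exact_mod_cast h3
  -- the two parts
  obtain ⟨θ, hθ⟩ : ∃ θ : ℝ, θ = (7 : ℝ) / 45 + ε := ⟨_, rfl⟩
  have hone : (1 : ℝ) ≤ (X : ℝ) ^ θ := Real.one_le_rpow hXR (by rw [hθ]; positivity)
  have p2 : ((r : ℝ) + 3) * ((Nat.log 2 X : ℝ) + 2) ≤ 5 * C3 * (X : ℝ) ^ θ := by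
    have h3 : (1 : ℝ) ≤ (X : ℝ) ^ ((1 : ℝ) / 7) := Real.one_le_rpow hXR (by norm_num)
    have h4 : (r : ℝ) + 3 ≤ 5 * (X : ℝ) ^ ((1 : ℝ) / 7) := by linarith
    have h5 := hlog3 X hX
    calc ((r : ℝ) + 3) * ((Nat.log 2 X : ℝ) + 2)
        ≤ (5 * (X : ℝ) ^ ((1 : ℝ) / 7)) * (C3 * (X : ℝ) ^ ((7 : ℝ) / 45 - 1 / 7)) :=
          mul_le_mul h4 h5 (by positivity) (by positivity)
      _ = 5 * C3 * ((X : ℝ) ^ ((1 : ℝ) / 7) * (X : ℝ) ^ ((7 : ℝ) / 45 - 1 / 7)) := by ring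
      _ = 5 * C3 * (X : ℝ) ^ ((7 : ℝ) / 45) := by
          rw [← Real.rpow_add hX0]
          norm_num
      _ ≤ 5 * C3 * (X : ℝ) ^ θ := by
          refine mul_le_mul_of_nonneg_left ?_ (by positivity)
          exact Real.rpow_le_rpow_of_exponent_le hXR (by rw [hθ]; linarith)
  have p3 : (((Icc 1 Z).filter CN).card : ℝ) ≤ C1 * C2 * 2 * (X : ℝ) ^ θ := by
    have h3 := hcn Z hZ1
    have h4 : (Nat.log 2 Z : ℝ) + 1 ≤ C2 * (X : ℝ) ^ (ε / 2) := by
      have h5 : Z ≤ 2 * X := by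
        have h6 : (Z : ℝ) ≤ ((2 * X : ℕ) : ℝ) := by
          refine hZR.trans ?_
          push_cast
          calc (2 * X : ℝ) ^ ((1 : ℝ) / 5) ≤ (2 * X : ℝ) ^ (1 : ℝ) :=
                Real.rpow_le_rpow_of_exponent_le h2X (by norm_num)
            _ = 2 * X := Real.rpow_one _
        exact_mod_cast h6
      have h6 : Nat.log 2 Z ≤ Nat.log 2 X + 1 := by
        have h7 : Nat.log 2 Z ≤ Nat.log 2 (2 * X) := Nat.log_mono_right h5
        rwa [mul_comm, Nat.log_mul_base (by norm_num) (by omega)] at h7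
      have h7 : (Nat.log 2 Z : ℝ) ≤ (Nat.log 2 X : ℝ) + 1 := by exact_mod_cast h6
      have := hlog2 X hX
      linarith
    have h5 : (Z : ℝ) ^ ((7 : ℝ) / 9 + 1 / k0) ≤ 2 * (X : ℝ) ^ ((7 : ℝ) / 45 + ε / 2) := by
      have hk1 : 1 / (k0 : ℝ) ≤ 1 := by
        rw [div_le_one hk0R]
        exact_mod_cast hk01
      calc (Z : ℝ) ^ ((7 : ℝ) / 9 + 1 / k0)
          ≤ ((2 * X : ℝ) ^ ((1 : ℝ) / 5)) ^ ((7 : ℝ) / 9 + 1 / k0) :=
            Real.rpow_le_rpow (Nat.cast_nonneg _) hZR (by positivity)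
        _ = (2 * X : ℝ) ^ ((1 : ℝ) / 5 * ((7 : ℝ) / 9 + 1 / k0)) := by
            rw [← Real.rpow_mul (by positivity)]
        _ = (2 : ℝ) ^ ((1 : ℝ) / 5 * ((7 : ℝ) / 9 + 1 / k0)) *
            (X : ℝ) ^ ((1 : ℝ) / 5 * ((7 : ℝ) / 9 + 1 / k0)) := by
            rw [Real.mul_rpow (by norm_num) hX0.le]
        _ ≤ 2 * (X : ℝ) ^ ((7 : ℝ) / 45 + ε / 2) := by
            refine mul_le_mul ?_ ?_ (by positivity) (by norm_num)
            · calc (2 : ℝ) ^ ((1 : ℝ) / 5 * ((7 : ℝ) / 9 + 1 / k0)) ≤ (2 : ℝ) ^ (1 : ℝ) :=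
                    Real.rpow_le_rpow_of_exponent_le (by norm_num) (by linarith)
                _ = 2 := Real.rpow_one 2
            · refine Real.rpow_le_rpow_of_exponent_le hXR ?_
              linarith
    calc (((Icc 1 Z).filter CN).card : ℝ)
        ≤ C1 * ((Nat.log 2 Z : ℝ) + 1) * (Z : ℝ) ^ ((7 : ℝ) / 9 + 1 / k0) := h3
      _ ≤ C1 * (C2 * (X : ℝ) ^ (ε / 2)) * (2 * (X : ℝ) ^ ((7 : ℝ) / 45 + ε / 2)) := by
          refine mul_le_mul (mul_le_mul_of_nonneg_left h4 hC1.le) h5 (by positivity) (by positivity)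
      _ = C1 * C2 * 2 * ((X : ℝ) ^ (ε / 2) * (X : ℝ) ^ ((7 : ℝ) / 45 + ε / 2)) := by ring
      _ = C1 * C2 * 2 * (X : ℝ) ^ θ := by
          rw [← Real.rpow_add hX0, hθ]
          congr 2
          ring
  have h2R := (Nat.cast_le (α := ℝ)).2 h2
  refine h2R.trans (hcard.trans ?_)
  rw [← hθ, add_mul]
  linarith

end Pool.Agent.Run7.h880
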