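import Mathlib
import Pool.Prelude.Def_F_53a7d5e4
import Pool.Agent.Run7.h880.GapsL

/-!
# MP_f9dba0_nt: at most a power of `H log X` exceptions in short gaps

Let `R k = lcm (1, ..., p_{k+1} - 1) / lcm (1, ..., p_k)`; the question is whether `R k < p_k` for all
`k`. For all `X, H, T ≥ 2` consider the `k` with `p_k ≤ X` for which any two prime powers between `p_k` and
`p_{k+1}` differ by at most `H` (for example `p_{k+1} - p_k ≤ H`) and for which `R k` has a prime factor
`q > p_k ^ (1 / T)`, i.e. the gap contains a prime power `q ^ e` with `2 ≤ e ≤ T`. For all of them, with at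
most `(T H) ^ (8 T ^ 2) * (log₂ X + 2) ^ (3 T)` exceptions, `R k = q` is this prime, so that
`R k ≤ (2 p_k) ^ (1 / 2)`. The bound is explicit and effective; for fixed `T` and `H` at most a power of
`log X` it is a power of `log X`.

Proof. An exceptional gap contains two perfect powers `x ^ a`, `y ^ l` with `d = x ^ a - y ^ l ≠ 0`,
`|d| ≤ H`, a prime `a ≤ T`, `l ≥ 3` and a prime `y` (or two squares, and then it is small), and we may
assume that `y` does not divide `a d` and that `d` is not an `a`-th power. In the field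
`K = ℚ(α)`, `α ^ a = d`, the ideal `(x - α)` is an `l`-th power `b ^ l`. The pigeonhole principle gives
`β ∈ b` such that the ideal `J = (β) / b` has norm at most `(a |d|) ^ a`. The solutions are put into
classes, according to the ideal `J`, a unit of `K` modulo `l`-th powers, and an `l`-th root of unity for
each embedding of `K` into `ℂ`. For two solutions `x < x'` of a class with `x ≥ 8 (32 a ^ 2 |d| ^ 3) ^ 3`
there are integers `B`, `B'` of `K` with `B ^ l (x' - α) = (x - α) B' ^ l`, and the discriminant of the
numbers `B ^ i B' ^ (a - 1 - i)`, `0 ≤ i < a`, is a nonzero rational integer, whence a lower bound for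
`x'` which implies `x' ≥ 2 x`. So a class contains at most `log₂ X + 2` of these solutions.
-/

set_option autoImplicit false

namespace Pool.Agent.Run7.h880.FewExceptions

open Nd8d74632

/-- the `k`-th prime, with `p 0 = 2` -/
noncomputable def p (k : ℕ) : ℕ := Nat.nth Nat.Prime k

/-- `R k = lcm (1, ..., p_{k+1} - 1) / lcm (1, ..., p_k)`, an integer -/
noncomputable def R (k : ℕ) : ℕ := lcm_upto (p (k + 1) - 1) / lcm_upto (p k)

/-- any two prime powers strictly between `p_k` and `p_{k+1}` differ by at most `H` -/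
def Window (H k : ℕ) : Prop :=
  ∀ m n : ℕ, p k < m → m ≤ n → n < p (k + 1) → IsPrimePow m → IsPrimePow n → n ≤ m + H

/-- At most `(T H) ^ (8 T ^ 2) * (log₂ X + 2) ^ (3 T)` of the `k` with `p_k ≤ X` for which the prime
powers between `p_k` and `p_{k+1}` differ by at most `H` have the property that `R k` has a prime factor
`q > p_k ^ (1 / T)` and is different from `q`. -/
theorem result (X H T : ℕ) (hX : 2 ≤ X) (hH : 2 ≤ H) (hT : 2 ≤ T) :
    {k : ℕ | p k ≤ X ∧ Window H k ∧ ∃ q : ℕ, q.Prime ∧ p k < q ^ T ∧ q ∣ R k ∧ R k ≠ q}.Finite ∧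
    {k : ℕ | p k ≤ X ∧ Window H k ∧ ∃ q : ℕ, q.Prime ∧ p k < q ^ T ∧ q ∣ R k ∧ R k ≠ q}.ncard ≤
      (T * H) ^ (8 * T ^ 2) * (Nat.log 2 X + 2) ^ (3 * T) :=
  Pool.Agent.Run7.h880.lcm_count hX hH hT

end Pool.Agent.Run7.h880.FewExceptions
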