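import Mathlib
import Pool.Agent.Run7.h880.RP.Wait

/-!
# MP_bf4c7f_nt: the waiting times for a prime on both sides of the squares

We look for a prime of `(n^2 - n, n^2)` by testing the numbers `n^2 - w 0, n^2 - w 1, ...`, and for a prime of `(n^2, n^2 + n)` by
testing `n^2 + v 0, n^2 + v 1, ...`, where the `w j`, `v j` are independent and uniform in `[1, q]`, `N / log^a N ≤ q ≤ N`, the same
for all the `n` of `(N, 2 N]`. The waiting times `S` and `T` on the two sides satisfy `S + T ≤ (2 + ε) log² N` for all the regular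
`n` in probability; on the other hand, if `s + t < 2`, then with probability at least `c > 0` some regular `n` has
`S ≥ s log² N` and `T ≥ t log² N`.
-/

set_option autoImplicit false

namespace Pool.Agent.Results.MP_bf4c7f_nt.WaitingTimes

open Finset Filter

/-- the number of the failures before the first success: the least `k` with `f k`, and `m` if there is none -/
noncomputable def wait {m : ℕ} (f : Fin m → Prop) : ℕ := sInf {k | ∀ h : k < m, f ⟨k, h⟩}

/-- the waiting time for a prime `n ^ 2 - w j` -/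
noncomputable def before {m : ℕ} (w : Fin m → ℕ) (n : ℕ) : ℕ := wait fun j => (n ^ 2 - w j).Prime

/-- the waiting time for a prime `n ^ 2 + v j` -/
noncomputable def after {m : ℕ} (v : Fin m → ℕ) (n : ℕ) : ℕ := wait fun j => (n ^ 2 + v j).Prime

/-- all the `m`-tuples of integers of `[1, q]` -/
def positions (q m : ℕ) : Finset (Fin m → ℕ) := Fintype.piFinset fun _ => Icc 1 q

/-- the numbers of the primes of `[n ^ 2 - q, n ^ 2)` and of `(n ^ 2, n ^ 2 + q]` are `q / (2 log N)` up to the factor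
`1 + O(1 / log N)` -/
def Regular (N q n : ℕ) : Prop :=
  |(((Icc 1 q).filter fun w => (n ^ 2 - w).Prime).card : ℝ) / q - 1 / (2 * Real.log N)| ≤ 3 / Real.log N ^ 2 ∧
  |(((Icc 1 q).filter fun w => (n ^ 2 + w).Prime).card : ℝ) / q - 1 / (2 * Real.log N)| ≤ 3 / Real.log N ^ 2

lemma wait_set {m : ℕ} (f : Fin m → Prop) : ({k | ∀ h : k < m, f ⟨k, h⟩} : Set ℕ).Nonempty :=
  ⟨m, fun h => absurd h (lt_irrefl m)⟩

lemma le_wait {m i : ℕ} {f : Fin m → Prop} (hi : i ≤ m) (h : ∀ l : Fin m, l.1 < i → ¬ f l) : i ≤ wait f := by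
  refine le_csInf (wait_set f) fun k hk => ?_
  by_contra hcon
  have hk' : ∀ h : k < m, f ⟨k, h⟩ := hk
  exact h ⟨k, by omega⟩ (by simp only; omega) (hk' (by omega))

lemma of_lt_wait {m : ℕ} {f : Fin m → Prop} (l : Fin m) (h : l.1 < wait f) : ¬ f l := by
  intro hf
  have h1 : wait f ≤ l.1 := Nat.sInf_le fun _ => hf
  omega

open Classical in
theorem result :
    -- almost all integers are regular
    (∀ a U : ℕ, ∃ N₀ : ℕ, ∀ N : ℕ, N₀ ≤ N → ∀ q : ℕ, (N : ℝ) ≤ q * Real.log N ^ a → q ≤ N →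
      (((Ioc N (2 * N)).filter fun n => ¬ Regular N q n).card : ℝ) ≤ N / Real.log N ^ U) ∧
    -- the sum of the two waiting times
    (∀ ε : ℝ, 0 < ε → ∀ a : ℕ, ∃ (N₀ : ℕ) (K : ℝ), ∀ N : ℕ, N₀ ≤ N → ∀ q : ℕ,
      (N : ℝ) ≤ q * Real.log N ^ a → q ≤ N → ∀ m : ℕ, (2 + ε) * Real.log N ^ 2 ≤ m →
      (((positions q m ×ˢ positions q m).filter fun r => ∃ n ∈ Ioc N (2 * N), Regular N q n ∧
        (2 + ε) * Real.log N ^ 2 ≤ (before r.1 n : ℝ) + after r.2 n).card : ℝ) ≤
        K / Real.log N * ((positions q m ×ˢ positions q m).card : ℝ)) ∧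
    -- all pairs of waiting times with a smaller sum
    (∀ s t : ℝ, 0 ≤ s → 0 ≤ t → s + t < 2 → ∀ a : ℕ, ∃ (N₀ : ℕ) (c : ℝ), 0 < c ∧ ∀ N : ℕ, N₀ ≤ N → ∀ q : ℕ,
      (N : ℝ) ≤ q * Real.log N ^ a → q ≤ N → ∀ m : ℕ, 2 * Real.log N ^ 2 ≤ m →
      c * ((positions q m ×ˢ positions q m).card : ℝ) ≤
      (((positions q m ×ˢ positions q m).filter fun r => ∃ n ∈ Ioc N (2 * N), Regular N q n ∧
        s * Real.log N ^ 2 ≤ (before r.1 n : ℝ) ∧ t * Real.log N ^ 2 ≤ (after r.2 n : ℝ)).card : ℝ)) := by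
  have hreg : ∀ N q n : ℕ, Pool.Agent.Run7.h880.RP.RegSq N q n ↔ Regular N q n := by
    intro N q n
    have e : (12 : ℝ) / (2 * Real.log N) ^ 2 = 3 / Real.log N ^ 2 := by
      rw [mul_pow, div_mul_eq_div_div]
      norm_num
    unfold Pool.Agent.Run7.h880.RP.RegSq Regular
    rw [e]
    constructor
    · intro h
      exact ⟨h false, h true⟩
    · rintro ⟨h1, h2⟩ b
      cases b
      · exact h1
      · exact h2
  have hbad : ∀ N q : ℕ, (Ioc N (2 * N)).filter (fun n => ¬ Regular N q n) =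
      Ioc N (2 * N) \ Pool.Agent.Run7.h880.RP.GoodSq N q := by
    intro N q
    ext n
    unfold Pool.Agent.Run7.h880.RP.GoodSq
    simp only [Finset.mem_sdiff, mem_filter, hreg]
    tauto
  have hmem : ∀ N q n : ℕ, n ∈ Pool.Agent.Run7.h880.RP.GoodSq N q ↔ n ∈ Ioc N (2 * N) ∧ Regular N q n := by
    intro N q n
    unfold Pool.Agent.Run7.h880.RP.GoodSq
    simp only [mem_filter, hreg]
  have hpos : ∀ (q m : ℕ) (w : Fin m → ℕ), w ∈ positions q m → ∀ l, w l ∈ Icc 1 q := by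
    intro q m w hw l
    unfold positions at hw
    rw [Fintype.mem_piFinset] at hw
    exact hw l
  -- the failures
  have hf0 : ∀ (q m : ℕ) (w : Fin m → ℕ) (n i : ℕ), i ≤ before w n →
      Pool.Agent.Run7.h880.RP.Fail (Pool.Agent.Run7.h880.RP.sqA n q false) i w := by
    intro q m w n i hi l hl hmem
    unfold Pool.Agent.Run7.h880.RP.sqA at hmem
    simp only [mem_filter, Bool.false_eq_true, if_false] at hmem
    exact of_lt_wait l (lt_of_lt_of_le hl hi) hmem.2
  have hf1 : ∀ (q m : ℕ) (w : Fin m → ℕ) (n i : ℕ), i ≤ after w n →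
      Pool.Agent.Run7.h880.RP.Fail (Pool.Agent.Run7.h880.RP.sqA n q true) i w := by
    intro q m w n i hi l hl hmem
    unfold Pool.Agent.Run7.h880.RP.sqA at hmem
    simp only [mem_filter, if_true] at hmem
    exact of_lt_wait l (lt_of_lt_of_le hl hi) hmem.2
  have hg0 : ∀ (q m : ℕ) (w : Fin m → ℕ) (n i : ℕ), w ∈ positions q m → i ≤ m →
      Pool.Agent.Run7.h880.RP.Fail (Pool.Agent.Run7.h880.RP.sqA n q false) i w → i ≤ before w n := by
    intro q m w n i hw hi h
    refine le_wait hi fun l hl hp => h l hl ?_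
    unfold Pool.Agent.Run7.h880.RP.sqA
    simp only [mem_filter, Bool.false_eq_true, if_false]
    exact ⟨hpos q m w hw l, hp⟩
  have hg1 : ∀ (q m : ℕ) (w : Fin m → ℕ) (n i : ℕ), w ∈ positions q m → i ≤ m →
      Pool.Agent.Run7.h880.RP.Fail (Pool.Agent.Run7.h880.RP.sqA n q true) i w → i ≤ after w n := by
    intro q m w n i hw hi h
    refine le_wait hi fun l hl hp => h l hl ?_
    unfold Pool.Agent.Run7.h880.RP.sqA
    simp only [mem_filter, if_true]
    exact ⟨hpos q m w hw l, hp⟩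
  have hJhi : ∀ N q : ℕ, ((Pool.Agent.Run7.h880.RP.GoodSq N q).card : ℝ) ≤ N := by
    intro N q
    have h6 : Pool.Agent.Run7.h880.RP.GoodSq N q ⊆ Ioc N (2 * N) := fun n hn => ((hmem N q n).1 hn).1
    have := card_le_card h6
    rw [Nat.card_Ioc] at this
    exact_mod_cast (by omega : (Pool.Agent.Run7.h880.RP.GoodSq N q).card ≤ N)
  have hq12 : ∀ a N q : ℕ, 1 ≤ N → 1 * Real.log N ^ a ≤ (N : ℝ) ^ (1 / 3 : ℝ) → (N : ℝ) ≤ q * Real.log N ^ a →
      (N : ℝ) ^ (1 / 2 : ℝ) ≤ q := by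
    intro a N q hN1 l4 hq1
    have hNr : (1 : ℝ) ≤ N := by exact_mod_cast hN1
    have hN0 : (0 : ℝ) < N := by linarith
    have g1 : (N : ℝ) ^ (1 / 2 : ℝ) * (N : ℝ) ^ (1 / 2 : ℝ) = N := by
      rw [← Real.rpow_add hN0]
      norm_num
    have g2 : (N : ℝ) ^ (1 / 3 : ℝ) ≤ (N : ℝ) ^ (1 / 2 : ℝ) := Real.rpow_le_rpow_of_exponent_le hNr (by norm_num)
    have g3 : Real.log N ^ a ≤ (N : ℝ) ^ (1 / 2 : ℝ) := by linarith
    have g4 : (N : ℝ) ^ (1 / 2 : ℝ) * (N : ℝ) ^ (1 / 2 : ℝ) ≤ q * (N : ℝ) ^ (1 / 2 : ℝ) := by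
      rw [g1]
      exact hq1.trans (mul_le_mul_of_nonneg_left g3 (Nat.cast_nonneg q))
    exact le_of_mul_le_mul_right g4 (by positivity)
  have hJlo : ∀ a : ℕ, ∃ N₀ : ℕ, ∀ N : ℕ, N₀ ≤ N → ∀ q : ℕ, (N : ℝ) ≤ q * Real.log N ^ a → q ≤ N →
      (N : ℝ) / 2 ≤ (Pool.Agent.Run7.h880.RP.GoodSq N q).card := by
    intro a
    obtain ⟨N₁, h1⟩ := Pool.Agent.Run7.h880.RP.goodsq_card a 1
    obtain ⟨N₃, h3⟩ := eventually_atTop.1 (Pool.Agent.N384.MQ.ev_log_ge 2)
    refine ⟨max N₁ N₃, fun N hN q hq1 hq2 => ?_⟩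
    have l3 := h3 N (le_trans (le_max_right _ _) hN)
    have hJ1 := h1 N (le_trans (le_max_left _ _) hN) q hq1 hq2
    have hsub : Pool.Agent.Run7.h880.RP.GoodSq N q ⊆ Ioc N (2 * N) := fun n hn => ((hmem N q n).1 hn).1
    have e : ((Ioc N (2 * N) \ Pool.Agent.Run7.h880.RP.GoodSq N q).card : ℝ) =
        N - (Pool.Agent.Run7.h880.RP.GoodSq N q).card := by
      have hc := card_le_card hsub
      rw [card_sdiff_of_subset hsub, Nat.cast_sub hc, Nat.card_Ioc, Nat.cast_sub (by omega)]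
      push_cast
      ring
    rw [e, pow_one] at hJ1
    have : (N : ℝ) / Real.log N ≤ N / 2 := div_le_div_of_nonneg_left (Nat.cast_nonneg _) (by norm_num) l3
    linarith
  have hlim : Tendsto (fun N : ℕ => 2 * Real.log N) atTop atTop :=
    (Real.tendsto_log_atTop.comp (tendsto_natCast_atTop_atTop (R := ℝ))).const_mul_atTop (by norm_num)
  refine ⟨?_, ?_, ?_⟩
  · intro a U
    obtain ⟨N₀, h⟩ := Pool.Agent.Run7.h880.RP.goodsq_card a U
    refine ⟨N₀, fun N hN q h1 h2 => ?_⟩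
    rw [hbad]
    exact h N hN q h1 h2
  · intro ε hε a
    have h1 := Pool.Agent.Run7.h880.RP.wait_up (1 / 2) (ε / 4) 12 (by norm_num) (by positivity) (by norm_num)
    obtain ⟨K₂, hK2, N₁, h2⟩ := Pool.Agent.Run7.h880.RP.sys_sq 0 le_rfl
    have h4 : ∀ᶠ N : ℕ in atTop, _ := hlim.eventually h1
    obtain ⟨N₂, h4⟩ := eventually_atTop.1 (h4.and ((Pool.Agent.N384.MQ.ev_log_ge 1).and (Run7.h337.MK.ev_pw a 1)))
    obtain ⟨N₃, h3⟩ := hJlo a
    refine ⟨max N₁ (max N₂ (max N₃ 1)), 1, fun N hN q hq1 hq2 m hm => ?_⟩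
    have hN1 : 1 ≤ N := le_trans (le_trans (le_trans (le_max_right _ _) (le_max_right _ _)) (le_max_right _ _)) hN
    have hNr : (0 : ℝ) < N := by exact_mod_cast hN1
    obtain ⟨h5, l1, l4⟩ := h4 N (le_trans (le_trans (le_max_left _ _) (le_max_right _ _)) hN)
    have hJ := h3 N (le_trans (le_trans (le_trans (le_max_left _ _) (le_max_right _ _)) (le_max_right _ _)) hN) q hq1 hq2
    have hL0 : 0 < Real.log N := by linarith
    have hle := hq12 a N q hN1 l4 hq1
    have hS := h2 N (le_trans (le_max_left _ _) hN) q hle hq2 _ (Finset.Subset.refl _) hJ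
    obtain ⟨S, hSe⟩ : ∃ S : ℕ, S = ⌊(2 + ε) * Real.log N ^ 2⌋₊ := ⟨_, rfl⟩
    have hS1 : (S : ℝ) ≤ (2 + ε) * Real.log N ^ 2 := by rw [hSe]; exact Nat.floor_le (by positivity)
    have hS2 : (2 + ε) * Real.log N ^ 2 ≤ S + 1 := by rw [hSe]; exact (Nat.lt_floor_add_one _).le
    have e : (1 / 2 + ε / 4) * (2 * Real.log N) ^ 2 = (2 + ε) * Real.log N ^ 2 := by ring
    have h6 := h5 m S (by exact_mod_cast hS1.trans hm) (by rw [e]; exact hS2) (by rw [e]; exact hS1) (Icc 1 q)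
      (Pool.Agent.Run7.h880.RP.GoodSq N q) (fun n => Pool.Agent.Run7.h880.RP.sqA n q false)
      (fun n => Pool.Agent.Run7.h880.RP.sqA n q true) 0 0 K₂ K₂ (hS false) (hS true) (by
        have e2 : 1 / 2 * (2 * Real.log N) + 1 = Real.log N + 1 := by ring
        rw [e2, Real.exp_add, Real.exp_log hNr]
        have := hJhi N q
        have h8 := Real.exp_one_gt_d9
        nlinarith)
      (fun r => ∃ n ∈ Ioc N (2 * N), Regular N q n ∧ (2 + ε) * Real.log N ^ 2 ≤ (before r.1 n : ℝ) + after r.2 n) (by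
        rintro r ⟨n, hn, hr, h7⟩
        have h8 : S ≤ before r.1 n + after r.2 n := by exact_mod_cast hS1.trans h7
        refine ⟨n, (hmem N q n).2 ⟨hn, hr⟩, min (before r.1 n) S, min_le_right _ _, hf0 q m r.1 n _ (min_le_left _ _),
          hf1 q m r.2 n _ ?_⟩
        rcases le_total (before r.1 n) S with h9 | h9
        · rw [min_eq_left h9]
          omega
        · rw [min_eq_right h9]
          omega)
    refine h6.trans (mul_le_mul_of_nonneg_right ?_ (Nat.cast_nonneg _))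
    exact div_le_div_of_nonneg_left zero_le_one hL0 (by linarith)
  · intro s t hs ht hst a
    obtain ⟨σ, hσ⟩ : ∃ σ, σ = (s + t) / 4 + (2 - (s + t)) / 8 := ⟨_, rfl⟩
    obtain ⟨c, hc, h1⟩ := Pool.Agent.Run7.h880.RP.wait_lo (1 / 2) σ 12 (by rw [hσ]; linarith) (by rw [hσ]; linarith)
      (by norm_num)
    obtain ⟨K₂, hK2, N₁, h2⟩ := Pool.Agent.Run7.h880.RP.sys_sq c hc
    obtain ⟨c₀, hc0, h1⟩ := h1 K₂ hK2
    have h4 : ∀ᶠ N : ℕ in atTop, _ := hlim.eventually h1
    obtain ⟨N₂, h4⟩ := eventually_atTop.1 (h4.and ((Pool.Agent.N384.MQ.ev_log_ge 1).and ((Run7.h337.MK.ev_pw a 1).and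
      (Pool.Agent.N384.MQ.ev_log_ge (4 / (2 - (s + t)))))))
    obtain ⟨N₃, h3⟩ := hJlo a
    refine ⟨max N₁ (max N₂ (max N₃ 1)), c₀, hc0, fun N hN q hq1 hq2 m hm => ?_⟩
    have hN1 : 1 ≤ N := le_trans (le_trans (le_trans (le_max_right _ _) (le_max_right _ _)) (le_max_right _ _)) hN
    have hNr : (0 : ℝ) < N := by exact_mod_cast hN1
    obtain ⟨h5, l1, l4, l5⟩ := h4 N (le_trans (le_trans (le_max_left _ _) (le_max_right _ _)) hN)
    have hJ := h3 N (le_trans (le_trans (le_trans (le_max_left _ _) (le_max_right _ _)) (le_max_right _ _)) hN) q hq1 hq2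
    have hL0 : 0 < Real.log N := by linarith
    rw [div_le_iff₀ (by linarith)] at l5
    have hle := hq12 a N q hN1 l4 hq1
    have hS := h2 N (le_trans (le_max_left _ _) hN) q hle hq2 _ (Finset.Subset.refl _) hJ
    have hLL : 0 ≤ Real.log N ^ 2 := by positivity
    obtain ⟨i, hi⟩ : ∃ i : ℕ, i = ⌈s * Real.log N ^ 2⌉₊ := ⟨_, rfl⟩
    obtain ⟨j, hj⟩ : ∃ j : ℕ, j = ⌈t * Real.log N ^ 2⌉₊ := ⟨_, rfl⟩
    have hi1 : s * Real.log N ^ 2 ≤ i := by rw [hi]; exact Nat.le_ceil _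
    have hj1 : t * Real.log N ^ 2 ≤ j := by rw [hj]; exact Nat.le_ceil _
    have hi2 : (i : ℝ) < s * Real.log N ^ 2 + 1 := by rw [hi]; exact Nat.ceil_lt_add_one (by positivity)
    have hj2 : (j : ℝ) < t * Real.log N ^ 2 + 1 := by rw [hj]; exact Nat.ceil_lt_add_one (by positivity)
    have hi3 : i ≤ m := by
      rw [hi]
      refine Nat.ceil_le.2 (le_trans ?_ hm)
      exact mul_le_mul_of_nonneg_right (by linarith) hLL
    have hj3 : j ≤ m := by
      rw [hj]
      refine Nat.ceil_le.2 (le_trans ?_ hm)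
      exact mul_le_mul_of_nonneg_right (by linarith) hLL
    have h6 := h5 m i j hi3 hj3 (by
        have e : σ * (2 * Real.log N) ^ 2 = (s + t) * Real.log N ^ 2 + (2 - (s + t)) / 2 * Real.log N ^ 2 := by
          rw [hσ]; ring
        rw [e]
        have h7 : 2 ≤ (2 - (s + t)) / 2 * Real.log N ^ 2 := by
          have h8 : 4 * Real.log N ≤ (2 - (s + t)) * Real.log N * Real.log N := by
            have := mul_le_mul_of_nonneg_right l5 hL0.le
            linarith
          nlinarith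
        linarith) (Icc 1 q)
      (Pool.Agent.Run7.h880.RP.GoodSq N q) (fun n => Pool.Agent.Run7.h880.RP.sqA n q false)
      (fun n => Pool.Agent.Run7.h880.RP.sqA n q true) (hS false) (hS true) (by
        have e2 : 1 / 2 * (2 * Real.log N) - 1 = Real.log N - 1 := by ring
        rw [e2, Real.exp_sub, Real.exp_log hNr]
        refine le_trans ?_ hJ
        refine div_le_div_of_nonneg_left hNr.le (by norm_num) ?_
        have := Real.exp_one_gt_d9
        linarith)
      (fun r => r ∈ positions q m ×ˢ positions q m → ∃ n ∈ Ioc N (2 * N), Regular N q n ∧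
        s * Real.log N ^ 2 ≤ (before r.1 n : ℝ) ∧ t * Real.log N ^ 2 ≤ (after r.2 n : ℝ)) (by
        rintro r ⟨n, hn, h7, h8⟩ hr
        rw [mem_product] at hr
        have h9 := hg0 q m r.1 n i hr.1 hi3 h7
        have h10 := hg1 q m r.2 n j hr.2 hj3 h8
        exact ⟨n, ((hmem N q n).1 hn).1, ((hmem N q n).1 hn).2, hi1.trans (by exact_mod_cast h9),
          hj1.trans (by exact_mod_cast h10)⟩)
    refine h6.trans (Nat.cast_le.2 (card_le_card fun r hr => ?_))
    simp only [Finset.mem_filter] at hr ⊢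
    exact ⟨hr.1, hr.2 hr.1⟩

end Pool.Agent.Results.MP_bf4c7f_nt.WaitingTimes
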